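import Pool.Agent.MP_489c42_pr.H12.Geo

namespace Pool.Agent.MP_489c42_pr.H12

open MeasureTheory ProbabilityTheory Filter
open scoped NNReal

variable {d : ℕ}

theorem cover_of_not_many {k r s : ℕ} {Q : V d → Prop} {x : V d} (h : ¬ Many k r s Q x) :
    ∃ F : Finset (V d), F.card < k ∧ ∀ y, nd x y ≤ r → Q y → ∃ z ∈ F, nd z y ≤ s := by
  classical
  obtain ⟨F, hF, hmax⟩ := Finset.exists_max_image
    ((box x r).powerset.filter fun F => (∀ y ∈ F, Q y) ∧ ∀ y ∈ F, ∀ z ∈ F, y ≠ z → s < nd y z)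
    Finset.card ⟨∅, by simp⟩
  simp only [Finset.mem_filter, Finset.mem_powerset] at hF hmax
  obtain ⟨hsub, hQ, hsep⟩ := hF
  refine ⟨F, ?_, fun y hy hQy => ?_⟩
  · by_contra hk
    obtain ⟨G, hG, hc⟩ := Finset.exists_subset_card_eq (not_lt.1 hk)
    exact h ⟨G, hc, fun y hy => ⟨mem_box.1 (hsub (hG hy)), hQ y (hG hy)⟩,
      fun y hy z hz => hsep y (hG hy) z (hG hz)⟩
  · by_contra hn
    have hn' : ∀ z ∈ F, s < nd z y := fun z hz => not_le.1 fun hle => hn ⟨z, hz, hle⟩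
    have hyF : y ∉ F := fun hy' => by simpa using hn' y hy'
    have := hmax (insert y F) ⟨Finset.insert_subset (mem_box.2 hy) hsub, ?_, ?_⟩
    · rw [Finset.card_insert_of_notMem hyF] at this
      omega
    · intro z hz
      rcases Finset.mem_insert.1 hz with rfl | hz
      · exact hQy
      · exact hQ z hz
    · intro a ha b hb hab
      rcases Finset.mem_insert.1 ha with ha' | ha' <;> rcases Finset.mem_insert.1 hb with hb' | hb'
      · exact absurd (ha'.trans hb'.symm) hab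
      · rw [ha', nd_comm]
        exact hn' b hb'
      · rw [hb']
        exact hn' a ha'
      · exact hsep a ha' b hb' hab

theorem Many.imp {k r s : ℕ} {Q Q' : V d → Prop} {x : V d}
    (h : ∀ y, nd x y ≤ r → Q y → Q' y) (hm : Many k r s Q x) : Many k r s Q' x := by
  obtain ⟨F, hc, hQ, hsep⟩ := hm
  exact ⟨F, hc, fun y hy => ⟨(hQ y hy).1, h y (hQ y hy).1 (hQ y hy).2⟩, hsep⟩

theorem D_imp {L0 : ℕ} (hL : 3 ≤ L0) {Q Q' : V d → Prop} (i : ℕ) {x : V d}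
    (h : ∀ y, nd x y + 8 * L0 ≤ 8 * LL L0 i → Q y → Q' y) (hD : D L0 Q i x) :
    D L0 Q' i x := by
  induction i generalizing x with
  | zero => exact h x (by simp [LL]) hD
  | succ i ih =>
    refine Many.imp (fun y hy hy' => ih (fun z hz => h z ?_) hy') hD
    have h3 : 3 ≤ LL L0 i := hL.trans (le_LL i)
    have h8 : 8 * LL L0 i ≤ LL L0 (i + 1) := by
      rw [LL, pow_succ]
      exact Nat.mul_le_mul_right _ (by nlinarith)
    have := nd_triangle x y z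
    omega

theorem count_not_many {k r r' s : ℕ} {Q : V d → Prop} (S Z : Finset (V d)) (hr : 2 * r ≤ r')
    (hZ : ∀ y ∈ Z, y ∈ S ∧ Q y ∧ ¬ Many k r' s Q y) :
    Z.card * (2 * r + 1) ^ d ≤ (nbhd S r).card * ((k - 1) * (2 * s + 1) ^ d) := by
  classical
  refine Finset.card_mul_le_card_mul (fun y p => nd y p ≤ r) (fun y hy => ?_) fun p _ => ?_
  · rw [← card_box y r]
    refine Finset.card_le_card fun p hp => ?_
    rw [Finset.mem_bipartiteAbove]
    exact ⟨mem_nbhd.2 ⟨y, (hZ y hy).1, mem_box.1 hp⟩, mem_box.1 hp⟩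
  · rcases (Z.bipartiteBelow (fun y p => nd y p ≤ r) p).eq_empty_or_nonempty with he | ⟨y0, hy0⟩
    · rw [he]
      exact Nat.zero_le _
    · rw [Finset.mem_bipartiteBelow] at hy0
      obtain ⟨F, hF, hc⟩ := cover_of_not_many (hZ y0 hy0.1).2.2
      calc (Z.bipartiteBelow (fun y p => nd y p ≤ r) p).card
          ≤ (F.biUnion fun z => box z s).card := by
            refine Finset.card_le_card fun y hy => ?_
            rw [Finset.mem_bipartiteBelow] at hy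
            have h1 := nd_triangle y0 p y
            rw [nd_comm p y] at h1
            obtain ⟨z, hz, hzy⟩ := hc y (by omega) (hZ y hy.1).2.1
            exact Finset.mem_biUnion.2 ⟨z, hz, mem_box.2 hzy⟩
        _ ≤ F.card * (2 * s + 1) ^ d :=
            Finset.card_biUnion_le_card_mul _ _ _ fun z _ => (card_box z s).le
        _ ≤ (k - 1) * (2 * s + 1) ^ d := Nat.mul_le_mul_right _ (by omega)

theorem sum_inv_le_Hier {f : ℕ → ℝ} (h0 : ∀ i, 0 < f i) (h : ∀ i, 2 * f i ≤ f (i + 1)) (J : ℕ) :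
    ∑ i ∈ Finset.range J, 1 / f i ≤ 2 / f 0 := by
  have key : ∀ J, ∑ i ∈ Finset.range J, 1 / f i + 2 / f J ≤ 2 / f 0 := by
    intro J
    induction J with
    | zero => simp
    | succ J ih =>
      rw [Finset.sum_range_succ]
      have h1 : 2 / f (J + 1) ≤ 1 / f J := by
        rw [div_le_div_iff₀ (h0 _) (h0 _)]
        linarith [h J]
      have h2 : 2 / f J = 1 / f J + 1 / f J := by ring
      linarith
  have := key J
  have h2 : 0 ≤ 2 / f J := (div_pos two_pos (h0 J)).le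
  linarith

theorem card_le_sum_Hier {α : Type*} (Z : Finset α) (J : ℕ) (p : ℕ → α → Prop) {f : ℕ → ℝ} {C : ℝ}
    (hC : 0 ≤ C) (h0 : ∀ i, 0 < f i) (h : ∀ i, 2 * f i ≤ f (i + 1))
    (hZ : ∀ y ∈ Z, ∃ i < J, p i y)
    (hp : ∀ i < J, ∀ Y : Finset α, (∀ y ∈ Y, y ∈ Z ∧ p i y) → (Y.card : ℝ) ≤ C / f i) :
    (Z.card : ℝ) ≤ 2 * C / f 0 := by
  classical
  have h1 : Z ⊆ (Finset.range J).biUnion fun i => Z.filter (p i) := fun y hy => by
    obtain ⟨i, hi, hpi⟩ := hZ y hy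
    exact Finset.mem_biUnion.2 ⟨i, Finset.mem_range.2 hi, Finset.mem_filter.2 ⟨hy, hpi⟩⟩
  have h2 : Z.card ≤ ∑ i ∈ Finset.range J, (Z.filter (p i)).card :=
    (Finset.card_le_card h1).trans Finset.card_biUnion_le
  calc (Z.card : ℝ) ≤ ∑ i ∈ Finset.range J, ((Z.filter (p i)).card : ℝ) := by exact_mod_cast h2
    _ ≤ ∑ i ∈ Finset.range J, C * (1 / f i) := Finset.sum_le_sum fun i hi => by
        rw [mul_one_div]
        exact hp i (Finset.mem_range.1 hi) _ fun y hy => Finset.mem_filter.1 hy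
    _ ≤ C * (2 / f 0) := by
        rw [← Finset.mul_sum]
        exact mul_le_mul_of_nonneg_left (sum_inv_le_Hier h0 h J) hC
    _ = 2 * C / f 0 := by ring

theorem exists_switch_Hier {p : ℕ → Prop} (h0 : p 0) {J : ℕ} (hJ : ¬ p J) :
    ∃ i < J, p i ∧ ¬ p (i + 1) := by
  induction J with
  | zero => exact absurd h0 hJ
  | succ J ih =>
    by_cases h : p J
    · exact ⟨J, J.lt_succ_self, h, hJ⟩
    · obtain ⟨i, hi, hp⟩ := ih h
      exact ⟨i, hi.trans J.lt_succ_self, hp⟩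

theorem arith_Hier (hd : 2 ≤ d) {c N L : ℕ} {Qc : ℝ} (hL : 1 ≤ L) (hN : (N : ℝ) ≤ Qc * (L ^ 3 : ℕ))
    (h : c * (2 * L ^ 3 + 1) ^ d ≤ N * ((4 - 1) * (2 * (16 * L) + 1) ^ d)) :
    (c : ℝ) ≤ 3 * 17 ^ d * Qc / L := by
  obtain ⟨e, rfl⟩ := Nat.exists_eq_add_of_le' hd
  have h1 : c * (2 ^ (e + 2) * (L ^ (e + 5) * L)) ≤ N * (3 * (2 ^ (e + 2) * 17 ^ (e + 2) * L ^ (e + 2))) := by
    calc c * (2 ^ (e + 2) * (L ^ (e + 5) * L)) ≤ c * (2 * L ^ 3 + 1) ^ (e + 2) := by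
          refine Nat.mul_le_mul_left _ (le_trans ?_ (Nat.pow_le_pow_left (Nat.le_succ _) _))
          rw [mul_pow, ← pow_mul, ← pow_succ]
          exact Nat.mul_le_mul_left _ (Nat.pow_le_pow_right hL (by omega))
      _ ≤ _ := h
      _ ≤ _ := by
          refine Nat.mul_le_mul_left _ (Nat.mul_le_mul_left _ ?_)
          rw [← mul_pow, ← mul_pow]
          exact Nat.pow_le_pow_left (by omega) _
  have hL' : (0 : ℝ) < L := by exact_mod_cast hL
  have h2 : (c : ℝ) * (2 ^ (e + 2) * (L ^ (e + 5) * L)) ≤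
      N * (3 * (2 ^ (e + 2) * 17 ^ (e + 2) * L ^ (e + 2))) := by exact_mod_cast h1
  have h3 : (N : ℝ) * (3 * (2 ^ (e + 2) * 17 ^ (e + 2) * L ^ (e + 2))) ≤
      Qc * L ^ 3 * (3 * (2 ^ (e + 2) * 17 ^ (e + 2) * L ^ (e + 2))) :=
    mul_le_mul_of_nonneg_right (by exact_mod_cast hN) (by positivity)
  rw [le_div_iff₀ hL']
  refine le_of_mul_le_mul_right (a := (2 : ℝ) ^ (e + 2) * L ^ (e + 5)) ?_ (by positivity)
  calc (c : ℝ) * L * (2 ^ (e + 2) * L ^ (e + 5)) = c * (2 ^ (e + 2) * (L ^ (e + 5) * L)) := by ring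
    _ ≤ _ := h2.trans h3
    _ = _ := by ring

theorem count_D (hd : 2 ≤ d) {L0 : ℕ} (hL : 2 ≤ L0) {Q : V d → Prop} (S Z : Finset (V d))
    (J : ℕ) {Qc : ℝ} (hQ : 0 ≤ Qc) (hJ : ∀ x ∈ S, ¬ D L0 Q J x)
    (hS : ∀ i < J, ((nbhd S (LL L0 (i + 1))).card : ℝ) ≤ Qc * LL L0 (i + 1))
    (hZ : ∀ y ∈ Z, y ∈ S ∧ Q y) : (Z.card : ℝ) ≤ 6 * 17 ^ d * Qc / L0 := by
  have h2 : ∀ i, 2 ≤ LL L0 i := fun i => hL.trans (le_LL i)
  have key := card_le_sum_Hier Z J (fun i y => D L0 Q i y ∧ ¬ D L0 Q (i + 1) y)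
    (f := fun i => (LL L0 i : ℝ)) (C := 3 * 17 ^ d * Qc) (by positivity)
    (fun i => by exact_mod_cast (by have := h2 i; omega : 0 < LL L0 i))
    (fun i => by
      have : 2 * LL L0 i ≤ LL L0 (i + 1) := by
        rw [LL, pow_succ]
        exact Nat.mul_le_mul_right _ (by nlinarith [h2 i])
      exact_mod_cast this)
    (fun y hy => exists_switch_Hier (p := fun i => D L0 Q i y) (hZ y hy).2 (hJ y (hZ y hy).1))
    (fun i hi Y hY => arith_Hier hd (by have := h2 i; omega) (hS i hi)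
      (count_not_many (r := LL L0 (i + 1)) (r' := 7 * LL L0 (i + 1)) S Y (by omega)
        fun y hy => ⟨(hZ y (hY y hy).1).1, (hY y hy).2.1, (hY y hy).2.2⟩))
  calc (Z.card : ℝ) ≤ 2 * (3 * 17 ^ d * Qc) / (LL L0 0 : ℕ) := key
    _ = 6 * 17 ^ d * Qc / L0 := by rw [LL]; ring

theorem two_le_eK_Hier (d : ℕ) : 2 ≤ 3 * eK d := by
  unfold eK
  omega

theorem lt_sW_Hier (d : ℕ) {m : ℕ} (h : 1 ≤ m) : 2 ^ m < sW d m := by
  unfold sW sN
  have h1 : 1 < 2 ^ m := Nat.one_lt_two_pow (by omega)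
  calc 2 ^ m = (2 ^ m) ^ 1 := (pow_one _).symm
    _ < _ := Nat.pow_lt_pow_right h1 (two_le_eK_Hier d)

theorem sW_succ_Hier (d m : ℕ) : 2 * sW d m ≤ sW d (m + 1) := by
  unfold sW sN
  rw [pow_succ', mul_pow]
  refine Nat.mul_le_mul_right _ ?_
  calc 2 = 2 ^ 1 := rfl
    _ ≤ _ := Nat.pow_le_pow_right two_pos (by have := two_le_eK_Hier d; omega)

theorem sW_mono_Hier (d : ℕ) {m m' : ℕ} (h : m ≤ m') : sW d m ≤ sW d m' :=
  Nat.pow_le_pow_left (Nat.pow_le_pow_right two_pos h) _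

theorem badcount (hd : 2 ≤ d) {Bad : ℕ → V d → Prop} {m0 m m1 : ℕ} (h1 : 1 ≤ m0) (hm : m0 ≤ m)
    (hT : TopOK Bad m0 m1) (S Z : Finset (V d)) (hS : ∀ x ∈ S, nd 0 x ≤ sR d m1) {Qc : ℝ}
    (hQ : 0 ≤ Qc) (hN : ∀ r : ℕ, sW d m ≤ r → r ≤ sN m1 → ((nbhd S r).card : ℝ) ≤ Qc * r)
    (hZ : ∀ y ∈ Z, y ∈ S ∧ ∃ m', m ≤ m' ∧ m' ≤ m1 ∧ Bad m' y) :
    (Z.card : ℝ) ≤ 12 * 17 ^ d * Qc / sW d m := by
  have h2 : ∀ i, 2 ≤ sW d (m + i) := fun i => by
    have h3 := lt_sW_Hier d (m := m + i) (by omega)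
    have h4 : 0 < 2 ^ (m + i) := by positivity
    omega
  have key := card_le_sum_Hier Z (m1 + 1 - m) (fun i y => Bad (m + i) y)
    (f := fun i => (sW d (m + i) : ℝ)) (C := 6 * 17 ^ d * Qc) (by positivity)
    (fun i => by exact_mod_cast (by have := h2 i; omega : 0 < sW d (m + i)))
    (fun i => by exact_mod_cast sW_succ_Hier d (m + i))
    (fun y hy => by
      obtain ⟨m', hm1, hm2, hb⟩ := (hZ y hy).2
      obtain ⟨i, rfl⟩ := Nat.exists_eq_add_of_le hm1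
      exact ⟨i, by omega, hb⟩)
    (fun i hi Y hY => count_D hd (h2 i) S Y (lev (sW d (m + i)) m1) hQ
      (fun x hx => hT (m + i) (by omega) (by omega) x (hS x hx))
      (fun j hj => hN _ ((sW_mono_Hier d (Nat.le_add_right m i)).trans (le_LL _))
        (LL_succ_le_of_lt_lev hj))
      fun y hy => ⟨(hZ y (hY y hy).1).1, (hY y hy).2⟩)
  calc (Z.card : ℝ) ≤ 2 * (6 * 17 ^ d * Qc) / (sW d (m + 0) : ℕ) := key
    _ = 12 * 17 ^ d * Qc / sW d m := by rw [Nat.add_zero]; ring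

/-- At the top scale there are no bad points at all. -/
theorem TopOK.not_bad {Bad : ℕ → V d → Prop} {m0 m1 : ℕ} (hT : TopOK Bad m0 m1) (h1 : 1 ≤ m0)
    (hm : m0 ≤ m1) {x : V d} (hx : nd 0 x ≤ sR d m1) : ¬ Bad m1 x := by
  have := hT m1 hm le_rfl x hx
  rwa [lev_eq_zero (lt_sW_Hier d (h1.trans hm))] at this

end Pool.Agent.MP_489c42_pr.H12
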