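import Pool.Agent.MP_489c42_pr.H12.Time
import Pool.Agent.MP_489c42_pr.H12.Hier

namespace Pool.Agent.MP_489c42_pr.H12

open MeasureTheory ProbabilityTheory Filter
open scoped NNReal

variable {d : ℕ}

/-- Peeling a walk along the spheres of radius `q L` around `p`. -/
theorem peel_H1L {w : V d → V d → ℝ} (hw : Wt w) {γ : ℕ → V d} {i k : ℕ} (hγ : IsWalk γ i k)
    (p : V d) (L N : ℕ) (κ : ℕ → ℝ) (hN : N * L ≤ nd p (γ k))
    (hκ : ∀ q i' k', q < N → i ≤ i' → i' ≤ k' → k' ≤ k → nd p (γ i') = q * L →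
      L ≤ nd (γ i') (γ k') → κ q ≤ cost w γ i' k') :
    ∀ n q i', q + n = N → i ≤ i' → i' ≤ k → nd p (γ i') = q * L →
      ∑ q' ∈ Finset.Ico q N, κ q' ≤ cost w γ i' k := by
  intro n
  induction n with
  | zero =>
    intro q i' hq _ _ _
    have : q = N := by omega
    subst this
    simpa using cost_nonneg hw γ i' k
  | succ n ih =>
    intro q i' hq hi hk hp
    have hqN : q < N := by omega
    have h1 : nd p (γ i') ≤ (q + 1) * L := by rw [hp]; nlinarith
    have h2 : (q + 1) * L ≤ nd p (γ k) := le_trans (Nat.mul_le_mul_right L hqN) hN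
    obtain ⟨i'', hi1, hi2, hi3, -⟩ := first_exit p (hγ.mono hi le_rfl) hk h1 h2
    have h3 : L ≤ nd (γ i') (γ i'') := by
      have := nd_triangle p (γ i') (γ i'')
      rw [hi3, hp] at this
      nlinarith
    rw [Finset.sum_eq_sum_Ico_succ_bot hqN, cost_add w γ hi1 hi2]
    exact add_le_add (hκ q i' i'' hqN hi hi1 hi2 hp h3)
      (ih (q + 1) i'' (by omega) (le_trans hi hi1) hi2 hi3)

theorem L_zero_H1L (P : Par d) {w : V d → V d → ℝ} (hw : Wt w) {γ : ℕ → V d} {i k : ℕ}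
    (hD : ¬ base1 P w (γ i)) (hγ : IsWalk γ i k) (hik : i ≤ k)
    (hL : P.L0 ≤ nd (γ i) (γ k)) : P.δ ≤ cost w γ i k := by
  obtain ⟨l, hl1, hl2, hl3, hl4⟩ := first_exit (r := P.L0) (γ i) hγ hik (by simp) hL
  have hnl : ¬ light P.δ P.L0 w (γ i) := fun h => hD (Or.inl h)
  have : ∃ t, i ≤ t ∧ t < l ∧ P.δ < w (γ t) (γ (t + 1)) := by
    by_contra hcon
    push Not at hcon
    apply hnl
    refine ⟨fun t => γ (i + t), l - i, ?_, by simp, ?_, ?_, ?_⟩
    · intro t _ ht
      exact hγ (i + t) (by omega) (by omega)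
    · have : i + (l - i) = l := by omega
      simp only [this, hl3, le_refl]
    · intro t ht
      exact hl4 (i + t) (by omega) (by omega)
    · intro t ht
      exact hcon (i + t) (by omega) (by omega)
  obtain ⟨t, ht1, ht2, ht3⟩ := this
  have h1 : cost w γ t (t + 1) ≤ cost w γ i k := cost_mono hw γ ht1 (by omega)
  rw [cost_succ] at h1
  linarith

theorem L_strong_H1L (P : Par d) {w : V d → V d → ℝ} (hw : Wt w) (j : ℕ) :
    ∀ {γ : ℕ → V d} {i k : ℕ}, ¬ D1 P w j (γ i) → IsWalk γ i k → i ≤ k →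
      LL P.L0 j ≤ nd (γ i) (γ k) →
      P.δ / P.L0 * ((LL P.L0 j : ℝ) / 2 + 1) ≤ cost w γ i k := by
  have hL0 : 1000 ≤ P.L0 := le_trans (by omega) P.hL
  have hL0' : (1000 : ℝ) ≤ P.L0 := by exact_mod_cast hL0
  have hδ := P.hδ
  induction j with
  | zero =>
    intro γ i k hD hγ hik hL
    have h := L_zero_H1L P hw (γ := γ) hD hγ hik hL
    refine le_trans ?_ h
    show P.δ / P.L0 * ((P.L0 : ℝ) / 2 + 1) ≤ P.δ
    rw [div_mul_eq_mul_div, div_le_iff₀ (by linarith)]
    nlinarith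
  | succ j ih =>
    intro γ i k hD hγ hik hL
    classical
    set L := LL P.L0 j with hLdef
    have hLL : LL P.L0 (j + 1) = L ^ 3 := rfl
    have hL1 : 1000 ≤ L := le_trans hL0 (le_LL j)
    have hL1' : (1000 : ℝ) ≤ L := by exact_mod_cast hL1
    have hD' : ¬ Many 4 (7 * LL P.L0 (j + 1)) (16 * L) (D1 P w j) (γ i) := hD
    obtain ⟨F, hF, hcov⟩ := cover_of_not_many hD'
    set B : Finset ℕ := F.biUnion fun z =>
      Finset.Icc (nd (γ i) z / L - 16) (nd (γ i) z / L + 16) with hB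
    have hBc : B.card ≤ 99 := by
      have : B.card ≤ F.card * 33 := by
        refine le_trans Finset.card_biUnion_le ?_
        rw [← smul_eq_mul]
        refine Finset.sum_le_card_nsmul _ _ _ ?_
        intro z _
        rw [Nat.card_Icc]
        omega
      omega
    set κ0 : ℝ := P.δ / P.L0 * ((L : ℝ) / 2 + 1) with hκ0
    have hκ0pos : 0 ≤ κ0 := by positivity
    have hN : L ^ 2 * L ≤ nd (γ i) (γ k) := by
      rw [hLL] at hL
      calc L ^ 2 * L = L ^ 3 := by ring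
        _ ≤ _ := hL
    have key := peel_H1L hw hγ (γ i) L (L ^ 2) (fun q => if q ∈ B then 0 else κ0) hN ?_
      (L ^ 2) 0 i (by simp) le_rfl hik (by simp)
    · refine le_trans ?_ key
      have hs : ∑ q' ∈ Finset.Ico 0 (L ^ 2), (if q' ∈ B then 0 else κ0)
          = ((Finset.Ico 0 (L ^ 2)) \ B).card * κ0 := by
        rw [Finset.sum_ite]
        simp only [Finset.sum_const_zero, zero_add, Finset.sum_const, nsmul_eq_mul]
        have : (Finset.Ico 0 (L ^ 2)).filter (fun q => ¬ q ∈ B) = (Finset.Ico 0 (L ^ 2)) \ B := by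
          ext q
          simp
        rw [this]
      rw [hs]
      have hc : L ^ 2 ≤ ((Finset.Ico 0 (L ^ 2)) \ B).card + 99 := by
        have := Finset.le_card_sdiff B (Finset.Ico 0 (L ^ 2))
        rw [Nat.card_Ico] at this
        omega
      have hc' : (L : ℝ) ^ 2 - 99 ≤ (((Finset.Ico 0 (L ^ 2)) \ B).card : ℝ) := by
        have : ((L ^ 2 : ℕ) : ℝ) ≤ ((((Finset.Ico 0 (L ^ 2)) \ B).card + 99 : ℕ) : ℝ) := by
          exact_mod_cast hc
        push_cast at this
        linarith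
      refine le_trans ?_ (mul_le_mul_of_nonneg_right hc' hκ0pos)
      rw [hLL, hκ0]
      push_cast
      have hpos : 0 ≤ P.δ / P.L0 := by positivity
      have : (L : ℝ) ^ 3 / 2 + 1 ≤ ((L : ℝ) ^ 2 - 99) * ((L : ℝ) / 2 + 1) := by nlinarith
      calc P.δ / P.L0 * ((L : ℝ) ^ 3 / 2 + 1)
          ≤ P.δ / P.L0 * (((L : ℝ) ^ 2 - 99) * ((L : ℝ) / 2 + 1)) :=
            mul_le_mul_of_nonneg_left this hpos
        _ = _ := by ring
    · intro q i' k' hq hi1 hi2 hk1 hp hLk
      by_cases hqB : q ∈ B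
      · simp only [hqB, if_true]
        exact cost_nonneg hw γ i' k'
      · simp only [hqB, if_false]
        refine ih ?_ (hγ.mono hi1 hk1) hi2 hLk
        intro hDj
        have hnear : nd (γ i) (γ i') ≤ 7 * LL P.L0 (j + 1) := by
          rw [hp, hLL]
          have : q * L ≤ L ^ 2 * L := Nat.mul_le_mul_right L hq.le
          nlinarith
        obtain ⟨z, hz, hzy⟩ := hcov _ hnear hDj
        apply hqB
        rw [hB, Finset.mem_biUnion]
        refine ⟨z, hz, ?_⟩
        have t1 := nd_triangle (γ i) z (γ i')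
        have t2 := nd_triangle (γ i) (γ i') z
        rw [nd_comm (γ i') z] at t2
        rw [hp] at t1 t2
        have hLpos : 0 < L := by omega
        rw [Finset.mem_Icc]
        constructor
        · have : nd (γ i) z / L ≤ q + 16 := by
            apply Nat.div_le_of_le_mul
            nlinarith
          omega
        · have h5 : nd (γ i) z < L * (nd (γ i) z / L + 1) := Nat.lt_mul_div_succ _ hLpos
          have : q * L < (nd (γ i) z / L + 17) * L := by nlinarith
          have := Nat.lt_of_mul_lt_mul_right this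
          omega

theorem L_lev (P : Par d) {w : V d → V d → ℝ} (hw : Wt w) (j : ℕ) {γ : ℕ → V d} {i k : ℕ}
    (hD : ¬ D1 P w j (γ i)) (hγ : IsWalk γ i k) (hik : i ≤ k)
    (hL : LL P.L0 j ≤ nd (γ i) (γ k)) : P.c * LL P.L0 j ≤ cost w γ i k := by
  refine le_trans ?_ (L_strong_H1L P hw j hD hγ hik hL)
  have hL0 : 1000 ≤ P.L0 := le_trans (by omega) P.hL
  have hL0' : (1000 : ℝ) ≤ P.L0 := by exact_mod_cast hL0
  have hδ := P.hδ
  have hpos : 0 ≤ P.δ / P.L0 := by positivity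
  have : P.c * LL P.L0 j = P.δ / P.L0 * ((LL P.L0 j : ℝ) / 2) := by
    unfold Par.c
    field_simp
  rw [this]
  exact mul_le_mul_of_nonneg_left (by linarith) hpos

theorem L_star (P : Par d) {w : V d → V d → ℝ} (hw : Wt w) {j ρ Δ : ℕ} {x : V d}
    (hC : Clean P w j x ρ) {γ : ℕ → V d} {i k : ℕ} (hγ : IsWalk γ i k) (hik : i ≤ k)
    (hx : nd x (γ i) + Δ ≤ ρ) (hΔ : Δ ≤ nd (γ i) (γ k)) :
    P.c * ((Δ : ℝ) - LL P.L0 j) ≤ cost w γ i k := by
  set L := LL P.L0 j with hLdef
  have hL0 : 1000 ≤ P.L0 := le_trans (by omega) P.hL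
  have hL1 : 1000 ≤ L := le_trans hL0 (le_LL j)
  have hLpos : 0 < L := by omega
  have hN : Δ / L * L ≤ Δ := Nat.div_mul_le_self Δ L
  have key := peel_H1L hw hγ (γ i) L (Δ / L) (fun _ => P.c * L) (le_trans hN hΔ) ?_
    (Δ / L) 0 i (by simp) le_rfl hik (by simp)
  · refine le_trans ?_ key
    simp only [Finset.sum_const, Nat.card_Ico, Nat.sub_zero, nsmul_eq_mul]
    have h5 : Δ < L * (Δ / L + 1) := Nat.lt_mul_div_succ _ hLpos
    have h6 : (Δ : ℝ) ≤ L * (((Δ / L : ℕ) : ℝ) + 1) := by exact_mod_cast h5.le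
    have hc := P.c_pos
    nlinarith
  · intro q i' k' hq hi1 hi2 hk1 hp hLk
    refine L_lev P hw j (hC _ ?_) (hγ.mono hi1 hk1) hi2 hLk
    have t := nd_triangle x (γ i) (γ i')
    have : q * L ≤ Δ / L * L := Nat.mul_le_mul_right L hq.le
    omega

theorem L_star_bwd (P : Par d) {w : V d → V d → ℝ} (hw : Wt w) {j ρ Δ : ℕ} {x : V d}
    (hC : Clean P w j x ρ) {γ : ℕ → V d} {i k : ℕ} (hγ : IsWalk γ i k) (hik : i ≤ k)
    (hx : nd x (γ k) + Δ ≤ ρ) (hΔ : Δ ≤ nd (γ i) (γ k)) :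
    P.c * ((Δ : ℝ) - LL P.L0 j) ≤ cost w γ i k := by
  have e1 : i + k - i = k := by omega
  have e2 : i + k - k = i := by omega
  have := L_star P hw hC (γ := fun t => γ (i + k - t)) hγ.rev hik (Δ := Δ)
    (by simpa only [e1] using hx) (by simp only [e1, e2]; rw [nd_comm]; exact hΔ)
  rwa [cost_rev hw γ hik] at this

theorem len_le (P : Par d) {w : V d → V d → ℝ} (hw : Wt w) (j : ℕ) {γ : ℕ → V d} {i k : ℕ}
    (hγ : IsWalk γ i k) (hik : i ≤ k) (hinj : Set.InjOn γ (Set.Icc i k))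
    (hD : ∀ l, i ≤ l → l ≤ k → ¬ D1 P w j (γ l)) :
    (k : ℝ) - i ≤ (2 * cost w γ i k / P.δ + 1) * (2 * LL P.L0 j + 1 : ℝ) ^ d := by
  set L := LL P.L0 j with hLdef
  set N := (2 * L + 1) ^ d with hNdef
  have hL0 : 1000 ≤ P.L0 := le_trans (by omega) P.hL
  have hL0' : (1000 : ℝ) ≤ P.L0 := by exact_mod_cast hL0
  have hL1 : (P.L0 : ℝ) ≤ L := by exact_mod_cast (le_LL j : P.L0 ≤ L)
  have hδ := P.hδ
  have hcL : P.δ / 2 ≤ P.c * L := by
    unfold Par.c
    rw [div_mul_eq_mul_div, div_le_div_iff₀ (by norm_num) (by linarith)]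
    nlinarith
  have hNpos : 0 < N := by positivity
  have key : ∀ n i', i ≤ i' → i' + n * N ≤ k → n * (P.δ / 2) ≤ cost w γ i' k := by
    intro n
    induction n with
    | zero => intro i' _ _; simpa using cost_nonneg hw γ i' k
    | succ n ih =>
      intro i' h1 h2
      have h3 : i' + N ≤ k := by nlinarith
      obtain ⟨k', hk1, hk2, hk3⟩ := exit_of_injOn (γ := γ) (i := i') (j := i' + N) (r := L)
        (hinj.mono (Set.Icc_subset_Icc h1 h3)) le_rfl
      have h4 := L_lev P hw j (hD i' h1 (by omega)) (hγ.mono h1 (le_trans hk2 h3)) hk1 hk3.le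
      have h5 : cost w γ i' k' ≤ cost w γ i' (i' + N) := cost_mono hw γ le_rfl hk2
      have h6 := ih (i' + N) (by omega) (by nlinarith)
      rw [cost_add w γ (Nat.le_add_right i' N) h3]
      push_cast
      linarith
  have h1 := key ((k - i) / N) i le_rfl (by
    have := Nat.div_mul_le_self (k - i) N
    omega)
  have h5 : k - i < N * ((k - i) / N + 1) := Nat.lt_mul_div_succ _ hNpos
  have h6 : ((k - i : ℕ) : ℝ) ≤ N * ((((k - i) / N : ℕ) : ℝ) + 1) := by exact_mod_cast h5.le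
  rw [Nat.cast_sub hik] at h6
  have h7 : ((((k - i) / N : ℕ) : ℝ)) ≤ 2 * cost w γ i k / P.δ := by
    rw [le_div_iff₀ hδ]
    linarith
  have h8 : (2 * L + 1 : ℝ) ^ d = N := by rw [hNdef]; push_cast; ring
  rw [h8]
  have h9 : (0 : ℝ) ≤ N := by positivity
  nlinarith

theorem lin (P : Par d) (hd : 2 ≤ d) : ∃ m0 : ℕ, ∀ m, m0 ≤ m → ∀ w : V d → V d → ℝ, Wt w →
    CleanS P w m 0 → ∀ (x : V d) (X : ℝ), That w P.A x ≤ X → X ≤ sMax P m →
      (nd 0 x : ℝ) ≤ X / P.c + sN m ∧ nd 0 x ≤ sR d m := by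
  have hc := P.c_pos
  have hc1 := P.c_le_one
  have hA := P.four_le_A (by omega)
  obtain ⟨m0, hm0⟩ := exists_le_sN ((P.A + 1) / P.c + 2 + P.L0)
  refine ⟨m0, fun m hm w hw hC x X hX hXm => ?_⟩
  have hn := hm0 m hm
  have hdiv : 0 ≤ (P.A + 1) / P.c := by positivity
  have hL0n : P.L0 ≤ 2 ^ m := by
    have : (P.L0 : ℝ) ≤ sN m := by linarith
    exact_mod_cast this
  have hLn : (LL P.L0 (lev P.L0 m) : ℝ) ≤ sN m := by exact_mod_cast LL_lev_le hL0n
  have hT : ∀ y, P.c * (((min (nd 0 y) (sR d m) : ℕ) : ℝ) - sN m) ≤ T w 0 y := by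
    intro y
    apply le_T
    intro γ n hγ h0 hy
    have := L_star P hw hC hγ (Nat.zero_le n) (Δ := min (nd 0 y) (sR d m))
      (by rw [h0]; simp) (by rw [h0, hy]; exact min_le_left _ _)
    refine le_trans ?_ this
    exact mul_le_mul_of_nonneg_left (by linarith) hc.le
  have hH : P.c * (((min (nd 0 x) (sR d m) : ℕ) : ℝ) - sN m) ≤ X := by
    refine le_trans (le_That fun y => ?_) hX
    have h1 := hT y
    have h2 : min (nd 0 x) (sR d m) ≤ min (nd 0 y) (sR d m) + nd x y := by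
      have := nd_triangle 0 y x
      rw [nd_comm y x] at this
      omega
    have h3 : ((min (nd 0 x) (sR d m) : ℕ) : ℝ) ≤ ((min (nd 0 y) (sR d m) : ℕ) : ℝ) + nd x y := by
      exact_mod_cast h2
    have h4 : (0 : ℝ) ≤ nd x y := by positivity
    nlinarith
  have hlt : nd 0 x < sR d m := by
    by_contra hcon
    push Not at hcon
    rw [min_eq_right hcon] at hH
    have hR : (sR d m : ℝ) = (sN m : ℝ) ^ (eK d + eA d) * sN m := by
      unfold sR; push_cast; ring
    have h1n := one_le_sN m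
    have hp : (sN m : ℝ) ≤ (sN m : ℝ) ^ (eK d + eA d) := by
      apply le_self_pow₀ h1n
      unfold eA; omega
    unfold sMax at hXm
    rw [hR] at hH
    have h5 : P.A + 1 + P.c ≤ P.c * (sN m - 1) := by
      have : (P.A + 1) / P.c * P.c = P.A + 1 := by field_simp
      have hL : (0 : ℝ) ≤ P.L0 := by positivity
      nlinarith
    set Y := (sN m : ℝ) ^ (eK d + eA d)
    have hY : 0 < Y := by linarith
    nlinarith
  refine ⟨?_, hlt.le⟩
  rw [min_eq_left hlt.le] at hH
  have : (nd 0 x : ℝ) - sN m ≤ X / P.c := by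
    rw [le_div_iff₀ hc]; linarith
  linarith

end Pool.Agent.MP_489c42_pr.H12
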