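import Pool.Agent.MP_489c42_pr.H12.LemM
import Pool.Agent.MP_489c42_pr.H12.H1L

namespace Pool.Agent.MP_489c42_pr.H12

open MeasureTheory ProbabilityTheory Filter
open scoped NNReal

variable {d : ℕ}

theorem hLo_nonneg_ArrowFrom (d m : ℕ) : 0 ≤ hLo d m := by
  unfold hLo; positivity

theorem sr_pos_ArrowFrom (d m : ℕ) : 0 < sr d m := by
  unfold sr sN; positivity

theorem N_short_ArrowFrom {m : ℕ} {w : V d → V d → ℝ} {ρ : V d → ℝ} {N : (Fin d → ℝ) → ℝ}
    (hw : Wt w) (hN : GaugeOK m ρ N) {x : V d} (hC : Conc m ρ w x) {γ : ℕ → V d} {i k : ℕ}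
    (hγ : IsWalk γ i k) (hik : i ≤ k) (hi : nd x (γ i) ≤ sR d m) (hk : nd x (γ k) ≤ sR d m)
    (hr : k - i ≤ sr d m) :
    N (toR (γ k - γ i)) ≤ cost (clip (sa d m) (sb m) w) γ i k + hLo d m := by
  have h1 : nd (γ i) (γ k) ≤ sr d m := (hγ.nd_le hik).trans hr
  have h2 := hN.le_rho (γ k - γ i) (by rw [nd_sub]; exact h1)
  have h3 := (hC (γ i) (γ k) hi hk).1 h1
  have hb : (0 : ℝ) ≤ sb m := zero_le_one.trans (one_le_sb m)
  have h4 := T_le_cost (hw.of_clip (a := sa d m) hb) hγ hik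
  linarith

theorem N_low {m : ℕ} {w : V d → V d → ℝ} {ρ : V d → ℝ} {N : (Fin d → ℝ) → ℝ} (hw : Wt w)
    (hN : GaugeOK m ρ N) {x : V d} (hC : Conc m ρ w x) {γ : ℕ → V d} {i k : ℕ}
    (hγ : IsWalk γ i k) (hik : i ≤ k) (hx : ∀ l, i ≤ l → l ≤ k → nd x (γ l) ≤ sR d m) :
    N (toR (γ k - γ i)) ≤ cost (clip (sa d m) (sb m) w) γ i k +
      (((k : ℝ) - i) / sr d m + 1) * hLo d m := by
  have hr := sr_pos_ArrowFrom d m
  have hrR : (0 : ℝ) < sr d m := by exact_mod_cast hr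
  have hh := hLo_nonneg_ArrowFrom d m
  obtain ⟨t, ht⟩ : ∃ t, k - i = t := ⟨_, rfl⟩
  induction t using Nat.strong_induction_on generalizing i with
  | _ t ih =>
    by_cases hs : k - i ≤ sr d m
    · have h1 := N_short_ArrowFrom hw hN hC hγ hik (hx i le_rfl hik) (hx k hik le_rfl) hs
      have h2 : (0 : ℝ) ≤ ((k : ℝ) - i) / sr d m := by
        apply div_nonneg _ hrR.le
        have : (i : ℝ) ≤ k := by exact_mod_cast hik
        linarith
      nlinarith [mul_nonneg h2 hh]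
    · have hj : i + sr d m ≤ k := by omega
      have h1 := N_short_ArrowFrom hw hN hC (hγ.mono le_rfl hj) (Nat.le_add_right _ _)
        (hx i le_rfl hik) (hx _ (Nat.le_add_right _ _) hj) (by omega)
      have h2 := ih (k - (i + sr d m)) (by omega) (hγ.mono (Nat.le_add_right _ _) le_rfl) hj
        (fun l hl hl' => hx l (by omega) hl') rfl
      have h3 : toR (γ k - γ i) = toR (γ k - γ (i + sr d m)) + toR (γ (i + sr d m) - γ i) := by
        rw [← toR_add]; congr 1; abel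
      have h4 := hN.gauge.add (toR (γ k - γ (i + sr d m))) (toR (γ (i + sr d m) - γ i))
      rw [cost_add _ γ (Nat.le_add_right i (sr d m)) hj, h3]
      have h5 : ((k : ℝ) - i) / sr d m = ((k : ℝ) - ((i + sr d m : ℕ) : ℝ)) / sr d m + 1 := by
        push_cast
        field_simp
        ring
      rw [h5]
      linarith

theorem clip_cost_ArrowFrom {w : V d → V d → ℝ} (hw : Wt w) {a : ℝ} (ha : 0 ≤ a) (b : ℝ)
    (γ : ℕ → V d) {i k : ℕ} (hik : i ≤ k) :
    cost (clip a b w) γ i k ≤ cost w γ i k + a * ((k : ℝ) - i) := by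
  have h1 : cost (clip a b w) γ i k ≤ cost (fun y z => w y z + a) γ i k :=
    cost_le_cost fun l _ _ => clip_le_add hw ha b _ _
  refine h1.trans (le_of_eq ?_)
  unfold cost
  rw [Finset.sum_add_distrib, Finset.sum_const, Nat.card_Ico, nsmul_eq_mul, Nat.cast_sub hik]
  ring

theorem exps_ArrowFrom (d : ℕ) : ∃ κ : ℕ, eK d = κ + 4 ∧ 2 * eA d + 9 ≤ κ := by
  refine ⟨eT d * (d + 1) + 3, rfl, ?_⟩
  have : eT d ≤ eT d * (d + 1) := Nat.le_mul_of_pos_right _ (Nat.succ_pos d)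
  unfold eT at *
  omega

theorem arrow_from (P : Par d) (hd : 2 ≤ d) : ∃ m0 : ℕ, ∀ m m1, m0 ≤ m → m ≤ m1 →
    ∀ (w : V d → V d → ℝ) (ρ : V d → ℝ) (N : (Fin d → ℝ) → ℝ), Wt w → GaugeOK m ρ N →
      Orig P w m1 → ∀ x : V d, (∀ m', m ≤ m' → m' ≤ m1 → CleanS P w m' x) → Conc m ρ w x →
      ∀ s' σ : ℝ, 24 * P.A * sN m1 ≤ s' → 0 ≤ σ → σ ≤ 2 * sU d m → s' + σ ≤ sMax P m1 →
        That w P.A x ≤ s' + σ →
        ∃ z : V d, That w P.A z ≤ s' ∧ N (toR (x - z)) ≤ σ + sE d m := by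
  obtain ⟨mM, hM⟩ := lemM P hd
  have hA4 := P.four_le_A (by omega)
  have hc := P.c_pos
  have hδ := P.hδ
  have hδ1 := P.hδ1
  obtain ⟨mC, hmC⟩ := exists_le_sN
    ((P.L0 : ℝ) + 8 / P.c + 7 * 3 ^ d / P.δ + (d + 6 * P.A + 6))
  refine ⟨max mM mC, ?_⟩
  intro m m1 hm hm1 w ρ N hw hN hO x hCl hC s' σ hs' hσ0 hσ hsM hT
  obtain ⟨κ, hK, hκ⟩ := exps_ArrowFrom d
  have hbig := hmC m (le_of_max_le_right hm)
  have hp1 : (0 : ℝ) ≤ P.L0 := by positivity
  have hp2 : 0 ≤ 8 / P.c := by positivity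
  have hp3 : 0 ≤ 7 * 3 ^ d / P.δ := by positivity
  have hp4 : (0 : ℝ) ≤ d := by positivity
  set n : ℝ := (sN m : ℝ) with hn
  have hn1 : 1 ≤ n := one_le_sN m
  have hn0 : 0 < n := by linarith
  have hnL : P.L0 ≤ 2 ^ m := by
    have : (P.L0 : ℝ) ≤ (sN m : ℝ) := by linarith
    exact_mod_cast this
  have hnc : 8 / P.c ≤ n := by linarith
  have hnδ : 7 * 3 ^ d / P.δ ≤ n := by linarith
  have hnA : (d : ℝ) + 6 * P.A + 6 ≤ n := by linarith
  have hn2 : 2 ≤ sN m := by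
    have : (2 : ℝ) ≤ (sN m : ℝ) := by linarith
    exact_mod_cast this
  set j := lev P.L0 m with hj
  have hL : LL P.L0 j ≤ sN m := LL_lev_le hnL
  have hLR : (LL P.L0 j : ℝ) ≤ n := by rw [hn]; exact_mod_cast hL
  have hClean : Clean P w j x (sR d m) := hCl m le_rfl hm1
  obtain ⟨g, hg, hxg⟩ := E_near P hd w j (hClean x (by simp))
  have hxg' : nd x g ≤ sN m := hxg.trans ((rr_le P j).trans hL)
  have hxgR : (nd x g : ℝ) ≤ n := by rw [hn]; exact_mod_cast hxg'
  have hA0 : 0 ≤ P.A := by linarith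
  have hs0 : 0 ≤ s' := le_trans (by positivity) hs'
  have hTg : T w 0 g ≤ s' + σ + 6 * P.A * n :=
    hM m m1 (le_of_max_le_left hm) hm1 w hw hO x x g (s' + σ) hCl (by simp) hT (hT.trans hsM)
      (by linarith) hg hxg'
  obtain ⟨γ, l, hγ, hγ0, hγl, hinj, hcost⟩ := exists_near_inj hw 0 g one_pos
  set k := Nat.findGreatest (fun k => cost w γ 0 k ≤ s') l with hk
  have hkl : k ≤ l := Nat.findGreatest_le l
  have hks : cost w γ 0 k ≤ s' :=
    Nat.findGreatest_spec (P := fun k => cost w γ 0 k ≤ s') (Nat.zero_le l) (by simpa using hs0)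
  -- powers of `n`
  have hu : (sU d m : ℝ) = n ^ (κ + 4) := by unfold sU; rw [hK]; push_cast; rfl
  have hE : (sE d m : ℝ) = n ^ (κ + 1) := by
    unfold sE; rw [hK, show κ + 4 - 3 = κ + 1 by omega]; push_cast; rfl
  have hκ3 : 3 ≤ κ := by omega
  have hpw : ∀ e, e ≤ κ → n ^ e ≤ n ^ κ := fun e he => pow_le_pow_right₀ hn1 he
  have hκ0 : 0 < n ^ κ := by positivity
  have hNxg : N (toR (x - g)) ≤ d * n ^ κ := by
    have h1 := hN.gauge.upper (toR (x - g))
    rw [norm_toR_sub] at h1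
    have h2 : sb m * d * (nd x g : ℝ) ≤ n ^ 2 * d * n := by
      unfold sb
      exact mul_le_mul_of_nonneg_left hxgR (by positivity)
    have h3 : n ^ 2 * d * n = d * n ^ 3 := by ring
    have h4 : (d : ℝ) * n ^ 3 ≤ d * n ^ κ := mul_le_mul_of_nonneg_left (hpw 3 hκ3) hp4
    linarith
  have hfin : (d : ℝ) * n ^ κ + 6 * (P.A * n ^ κ) + 6 * n ^ κ ≤ n ^ (κ + 1) := by
    have := mul_pow_le_pow hn1 hnA (Nat.lt_add_one κ)
    linarith
  have hAκ : 0 ≤ P.A * n ^ κ := mul_nonneg hA0 hκ0.le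
  have hdκ : 0 ≤ (d : ℝ) * n ^ κ := mul_nonneg hp4 hκ0.le
  refine ⟨γ k, ?_, ?_⟩
  · have h1 := T_le_cost hw (hγ.mono le_rfl hkl) (Nat.zero_le k)
    rw [hγ0] at h1
    exact (That_le_T hw hA0 _).trans (h1.trans hks)
  rw [hE]
  rcases hkl.eq_or_lt with hkl' | hkl'
  · rw [hkl', hγl]
    linarith
  have hk1 : k + 1 ≤ l := hkl'
  have hgt : s' < cost w γ 0 (k + 1) := by
    have := Nat.findGreatest_is_greatest (P := fun k => cost w γ 0 k ≤ s') (n := l) (k := k + 1)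
      (by rw [← hk]; omega) hk1
    exact not_le.mp this
  have htail : cost w γ (k + 1) l ≤ σ + 6 * P.A * n + 1 := by
    have := cost_add w γ (Nat.zero_le (k + 1)) hk1
    linarith
  have hn_le : n ≤ n ^ κ := by simpa using hpw 1 (by omega)
  have h1_le : 1 ≤ n ^ κ := hn1.trans hn_le
  have hAn : 6 * P.A * n ≤ 6 * (P.A * n ^ κ) := by
    have := mul_le_mul_of_nonneg_left hn_le hA0
    linarith
  have hκ14 : n ^ (κ + 1) ≤ n ^ (κ + 4) := pow_le_pow_right₀ hn1 (by omega)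
  have htail3 : cost w γ (k + 1) l ≤ 3 * n ^ (κ + 4) := by
    rw [hu] at hσ
    linarith
  -- the tail stays near `g`
  have hΔR : sN m + sN m ^ (κ + 6) + 1 ≤ sR d m := by
    unfold sR
    have e1 : sN m ^ 1 ≤ sN m ^ (κ + 6) := Nat.pow_le_pow_right (by omega) (by omega)
    have e2 : 1 ≤ sN m ^ (κ + 6) := Nat.one_le_pow _ _ (by omega)
    have e3 : sN m ^ (κ + 8) ≤ sN m ^ (eK d + eA d + 1) :=
      Nat.pow_le_pow_right (by omega) (by unfold eA; omega)
    have e4 : sN m ^ (κ + 8) = sN m ^ (κ + 6) * (sN m * sN m) := by ring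
    have e5 : 2 * 2 ≤ sN m * sN m := Nat.mul_le_mul hn2 hn2
    have e6 : sN m ^ (κ + 6) * (2 * 2) ≤ sN m ^ (κ + 6) * (sN m * sN m) := Nat.mul_le_mul_left _ e5
    rw [pow_one] at e1
    omega
  have hnear : ∀ q, k + 1 ≤ q → q ≤ l → nd (γ q) (γ l) < sN m ^ (κ + 6) := by
    intro q hq hql
    by_contra hcon
    have h1 := L_star_bwd P hw hClean (hγ.mono (Nat.zero_le q) le_rfl) hql
      (Δ := sN m ^ (κ + 6)) (by rw [hγl]; omega) (not_lt.mp hcon)
    have h2 := cost_mono hw γ hq (le_refl l)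
    push_cast at h1
    rw [← hn] at h1
    have h3 : 8 ≤ P.c * n := by
      rw [div_le_iff₀ hc] at hnc; linarith
    have h4 : n ≤ n ^ (κ + 4) := by
      simpa using pow_le_pow_right₀ hn1 (show 1 ≤ κ + 4 by omega)
    have h5 : n ^ (κ + 6) = n ^ (κ + 4) * n * n := by ring
    have h6 : 0 < n ^ (κ + 4) := by positivity
    have h7 : P.c * (LL P.L0 j : ℝ) ≤ n ^ (κ + 4) := by
      have h8 : (0 : ℝ) ≤ LL P.L0 j := by positivity
      have := mul_le_of_le_one_left h8 P.c_le_one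
      linarith
    have h8 : 8 * n ^ (κ + 4) ≤ P.c * n ^ (κ + 6) := by
      rw [h5]
      have h9 : 8 * n ^ (κ + 4) ≤ (P.c * n) * n ^ (κ + 4) :=
        mul_le_mul_of_nonneg_right h3 h6.le
      have h10 : (P.c * n) * n ^ (κ + 4) ≤ (P.c * n) * n ^ (κ + 4) * n :=
        le_mul_of_one_le_right (by positivity) hn1
      have h11 : P.c * (n ^ (κ + 4) * n * n) = (P.c * n) * n ^ (κ + 4) * n := by ring
      rw [h11]
      exact h9.trans h10
    rw [mul_sub] at h1
    linarith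
  have hin : ∀ q, k ≤ q → q ≤ l → nd x (γ q) ≤ sR d m := by
    intro q hq hql
    rcases hq.eq_or_lt with hq' | hq'
    · have h1 := hnear (k + 1) le_rfl hk1
      have h2 := nd_of_adj (hγ k (Nat.zero_le k) hkl')
      have h3 := nd_triangle x g (γ k)
      have h4 := nd_triangle g (γ (k + 1)) (γ k)
      rw [nd_comm (γ (k + 1)) (γ k), nd_comm g (γ (k + 1))] at h4
      rw [hγl] at h1
      rw [← hq']
      omega
    · have h1 := hnear q hq' hql
      have h3 := nd_triangle x g (γ q)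
      rw [hγl, nd_comm] at h1
      omega
  -- the length of the tail
  have hlen : (l : ℝ) - (k + 1 : ℕ) ≤ n ^ (κ + 4 + d + 1) := by
    have h1 := len_le P hw j (hγ.mono (Nat.zero_le (k + 1)) le_rfl) hk1
      (hinj.mono (Set.Icc_subset_Icc_left (Nat.zero_le _)))
      (fun q hq hql => hClean _ (hin q (by omega) hql))
    have h6 : 1 ≤ n ^ (κ + 4) := one_le_pow₀ hn1
    have h2 : 2 * cost w γ (k + 1) l / P.δ + 1 ≤ 7 / P.δ * n ^ (κ + 4) := by
      rw [div_add_one hδ.ne', div_mul_eq_mul_div]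
      apply div_le_div_of_nonneg_right _ hδ.le
      linarith
    have h3 : (2 * LL P.L0 j + 1 : ℝ) ^ d ≤ (3 * n) ^ d :=
      pow_le_pow_left₀ (by positivity) (by linarith) d
    have h4 := mul_le_mul h2 h3 (by positivity) (by positivity)
    have h5 : 7 / P.δ * n ^ (κ + 4) * (3 * n) ^ d = (7 * 3 ^ d / P.δ) * n ^ (κ + 4 + d) := by
      rw [mul_pow, pow_add n (κ + 4) d]; ring
    have h7 := mul_pow_le_pow hn1 hnδ (Nat.lt_add_one (κ + 4 + d))
    rw [h5] at h4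
    exact h1.trans (h4.trans h7)
  have hsa : sa d m * ((l : ℝ) - (k + 1 : ℕ)) ≤ n ^ κ := by
    have h1 : sa d m * n ^ (κ + 4 + d + 1) = n ^ κ := by
      unfold sa eA
      rw [← hn]
      field_simp
      ring
    rw [← h1]
    exact mul_le_mul_of_nonneg_left hlen (sa_pos d m).le
  have hclip : cost (clip (sa d m) (sb m) w) γ k l ≤ n ^ 2 + cost w γ (k + 1) l + n ^ κ := by
    rw [cost_add _ γ (Nat.le_succ k) hk1, cost_succ]
    have h1 := clip_le (sa d m) (sb m) w (γ k) (γ (k + 1))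
    have h2 := clip_cost_ArrowFrom hw (sa_pos d m).le (sb m) γ hk1
    have h3 : sb m = n ^ 2 := rfl
    linarith
  have herr : (((l : ℝ) - k) / sr d m + 1) * hLo d m ≤ 3 * n ^ κ := by
    have h1 : (sr d m : ℝ) = n ^ (3 * (d + 5) + 9) := by unfold sr eT eA; push_cast; rfl
    have h2 : hLo d m = n ^ (2 * (d + 5) + 9) := rfl
    have h3 : (l : ℝ) - k ≤ 2 * n ^ (κ + 4 + d + 1) := by
      have : 1 ≤ n ^ (κ + 4 + d + 1) := one_le_pow₀ hn1
      push_cast at hlen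
      linarith
    have h4 : ((l : ℝ) - k) / sr d m * hLo d m ≤ 2 * n ^ κ := by
      have h5 : 2 * n ^ (κ + 4 + d + 1) / sr d m * hLo d m = 2 * n ^ κ := by
        rw [h1, h2]
        field_simp
        ring
      rw [← h5]
      apply mul_le_mul_of_nonneg_right _ (hLo_nonneg_ArrowFrom d m)
      apply div_le_div_of_nonneg_right h3
      positivity
    have h6 : hLo d m ≤ n ^ κ := by
      rw [h2]; exact hpw _ (by unfold eA at hκ; omega)
    linarith
  have hlow := N_low hw hN hC (hγ.mono (Nat.zero_le k) le_rfl) hkl hin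
  rw [hγl] at hlow
  have h3 : toR (x - γ k) = toR (x - g) + toR (g - γ k) := by
    rw [← toR_add]; congr 1; abel
  have h4 := hN.gauge.add (toR (x - g)) (toR (g - γ k))
  rw [h3]
  have h5 := hpw 2 (by omega)
  linarith

end Pool.Agent.MP_489c42_pr.H12
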