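import Pool.Agent.MP_489c42_pr.H12.LemM

namespace Pool.Agent.MP_489c42_pr.H12

open MeasureTheory ProbabilityTheory Filter
open scoped NNReal

variable {d : ℕ}

theorem gauge_le_ArrowTo {m : ℕ} {ρ : V d → ℝ} {N : (Fin d → ℝ) → ℝ} (hG : GaugeOK m ρ N)
    {x y : V d} (h : nd x y ≤ sN m) : N (toR (x - y)) ≤ d * (sN m : ℝ) ^ 3 := by
  refine (hG.gauge.upper _).trans ?_
  rw [norm_toR_sub, sb]
  have h' : (nd x y : ℝ) ≤ sN m := by exact_mod_cast h
  calc (sN m : ℝ) ^ 2 * d * nd x y ≤ (sN m : ℝ) ^ 2 * d * sN m := by gcongr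
    _ = _ := by ring

theorem err_le_ArrowTo {m : ℕ} (h : 3 ^ d * (d : ℝ) ≤ sN m) :
    (2 * sr d m + 1 : ℝ) ^ d * sr d m * (sb m * d) ≤ (sN m : ℝ) ^ (eT d * (d + 1) + 3) := by
  have h1 := one_le_sN m
  have h2 : (sr d m : ℝ) = (sN m : ℝ) ^ eT d := by simp [sr]
  have h3 : (1 : ℝ) ≤ (sN m : ℝ) ^ eT d := one_le_pow₀ h1
  rw [h2, sb]
  calc (2 * (sN m : ℝ) ^ eT d + 1) ^ d * (sN m : ℝ) ^ eT d * ((sN m : ℝ) ^ 2 * d)
      ≤ (3 * (sN m : ℝ) ^ eT d) ^ d * (sN m : ℝ) ^ eT d * ((sN m : ℝ) ^ 2 * d) := by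
        gcongr; linarith
    _ = 3 ^ d * d * (sN m : ℝ) ^ (eT d * (d + 1) + 2) := by ring
    _ ≤ _ := mul_pow_le_pow h1 h (by omega)

theorem arrow_to (P : Par d) (hd : 2 ≤ d) : ∃ m0 : ℕ, ∀ m m1, m0 ≤ m → m ≤ m1 →
    ∀ (w : V d → V d → ℝ) (ρ : V d → ℝ) (N : (Fin d → ℝ) → ℝ), Wt w → GaugeOK m ρ N →
      Orig P w m1 → ∀ x : V d, (∀ m', m ≤ m' → m' ≤ m1 → CleanS P w m' x) → Conc m ρ w x →
      ∀ (s' σ : ℝ) (z : V d), 24 * P.A * sN m1 ≤ s' → s' ≤ sMax P m1 → That w P.A z ≤ s' →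
        N (toR (x - z)) ≤ σ → σ ≤ 2 * sU d m → That w P.A x ≤ s' + σ + sE d m := by
  obtain ⟨ma, hM⟩ := lemM P hd
  obtain ⟨mb, hb⟩ := exists_le_sN
    (7 * P.A + 3 ^ d * d + (6 * P.M * d + 2 * P.M) + P.L0 + 2 * d + 5)
  refine ⟨max ma mb, fun m m1 hm hm1 w ρ N hw hG hO x hC hc s' σ z h1 h2 h3 h4 h5 => ?_⟩
  have hb := hb m (le_of_max_le_right hm)
  have hA : 0 ≤ P.A := le_trans (by norm_num) (P.four_le_A (by omega))
  have hM0 : 0 ≤ P.M := zero_le_one.trans P.hM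
  have p1 : (0 : ℝ) ≤ 3 ^ d * d := by positivity
  have p2 : (0 : ℝ) ≤ 6 * P.M * d + 2 * P.M := by positivity
  have p3 : (0 : ℝ) ≤ P.L0 := by positivity
  have p4 : (0 : ℝ) ≤ d := by positivity
  have hn := one_le_sN m
  set k := eT d * (d + 1) + 3 with hk
  have hK : eK d = k + 4 := rfl
  have hk4 : 4 ≤ k := by rw [hk]; unfold eT; nlinarith
  have hU : (sU d m : ℝ) = (sN m : ℝ) ^ (k + 4) := by simp [sU, hK]
  have hE : (sE d m : ℝ) = (sN m : ℝ) ^ (k + 1) := by simp [sE, hK]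
  have hR : (sR d m : ℝ) = (sN m : ℝ) ^ (k + 4 + eA d + 1) := by simp [sR, hK]
  have hH : hUp d m = (sN m : ℝ) ^ k := by simp [hUp, hK]
  have hpa : (0 : ℝ) < (sN m : ℝ) ^ eA d := by positivity
  have hinv : ∀ {t c : ℝ}, sa d m * t ≤ c * (sN m : ℝ) ^ (k + 4) →
      t ≤ c * (sN m : ℝ) ^ (k + 4 + eA d) := fun {t c} h => by
    rwa [sa, one_div, inv_mul_le_iff₀ hpa, mul_comm, mul_assoc, ← pow_add] at h
  have hbig : 4 * (sN m : ℝ) ^ (k + 4 + eA d) ≤ sR d m :=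
    hR ▸ mul_pow_le_pow hn (by linarith) (by omega)
  have hn1 : (sN m : ℝ) ≤ (sN m : ℝ) ^ (k + 4 + eA d) := le_self_pow₀ hn (by omega)
  have hxz : (nd x z : ℝ) ≤ 2 * (sN m : ℝ) ^ (k + 4 + eA d) := by
    refine hinv ?_
    rw [← norm_toR_sub, ← hU]
    exact (hG.gauge.lower _).trans (h4.trans h5)
  have hL : LL P.L0 (lev P.L0 m) ≤ sN m := LL_lev_le (by
    have : (P.L0 : ℝ) ≤ sN m := by linarith
    exact_mod_cast this)
  have hcl : Clean P w (lev P.L0 m) x (sR d m) := hC m le_rfl hm1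
  have hxz2 : 2 * nd x z ≤ sR d m := by
    have : (2 : ℝ) * nd x z ≤ sR d m := by linarith
    exact_mod_cast this
  obtain ⟨gz, hgz, hz⟩ := E_near P hd w _ (hcl z (by omega))
  obtain ⟨gx, hgx, hx⟩ := E_near P hd w _ (hcl x (by simp))
  replace hz : nd z gz ≤ sN m := hz.trans ((rr_le P _).trans hL)
  replace hx : nd x gx ≤ sN m := hx.trans ((rr_le P _).trans hL)
  have hz' : (nd z gz : ℝ) ≤ sN m := by exact_mod_cast hz
  have hx' : (nd x gx : ℝ) ≤ sN m := by exact_mod_cast hx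
  have t1 := hM m m1 (le_of_max_le_left hm) hm1 w hw hO x z gz s' hC hxz2 h3 (h3.trans h2) h1
    hgz hz
  have hxgz : nd x gz ≤ sR d m := by
    have e : (nd x gz : ℝ) ≤ nd x z + nd z gz := by exact_mod_cast nd_triangle x z gz
    have : (nd x gz : ℝ) ≤ sR d m := by linarith
    exact_mod_cast this
  have hxgx : nd x gx ≤ sR d m := by
    have : (nd x gx : ℝ) ≤ sR d m := by linarith
    exact_mod_cast this
  have t2 : T (clip (sa d m) (sb m) w) gz gx ≤ σ + 3 * (sN m : ℝ) ^ k := by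
    have a1 := (hc gz gx hxgz hxgx).2
    have a2 := hG.rho_le (gx - gz)
    have a3 := err_le_ArrowTo (d := d) (m := m) (by linarith)
    have a4 : toR (gx - gz) = toR (gx - x) + (toR (x - z) + toR (z - gz)) := by
      rw [← toR_add, ← toR_add]; congr 1; abel
    have a5 := hG.gauge.add (toR (gx - x)) (toR (x - z) + toR (z - gz))
    have a6 := hG.gauge.add (toR (x - z)) (toR (z - gz))
    have a7 := gauge_le_ArrowTo hG (x := gx) (y := x) (by rwa [nd_comm])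
    have a8 := gauge_le_ArrowTo hG hz
    have a9 : 2 * d * (sN m : ℝ) ^ 3 ≤ (sN m : ℝ) ^ k := mul_pow_le_pow hn (by linarith) (by omega)
    rw [← a4] at a5
    rw [← hk] at a3
    linarith
  obtain ⟨γ, l, hγ, hγ0, hγl, hcost⟩ := exists_near (clip (sa d m) (sb m) w) gz gx one_pos
  have hk1 : (1 : ℝ) ≤ (sN m : ℝ) ^ k := one_le_pow₀ hn
  have hlen : (l : ℝ) ≤ 3 * (sN m : ℝ) ^ (k + 4 + eA d) := by
    refine hinv ?_
    have a1 := mul_le_cost (w := clip (sa d m) (sb m) w) (γ := γ) (a := sa d m) (Nat.zero_le l)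
      fun q _ _ => le_clip ((sa_le_one d m).trans (one_le_sb m)) w _ _
    have a2 : 4 * (sN m : ℝ) ^ k ≤ (sN m : ℝ) ^ (k + 4) :=
      mul_pow_le_pow hn (by linarith) (by omega)
    rw [Nat.cast_zero, sub_zero] at a1
    linarith
  have t3 := bypass P hd hw hcl (b := sb m) ?_ hγ (Nat.zero_le l) (fun q _ hq => ?_)
    (hγ0 ▸ hgz) (hγl ▸ hgx)
  · have t4 := cost_le_cost (w := fun y z => min (w y z) (sb m))
      (w' := clip (sa d m) (sb m) w) (γ := γ) (i := 0) (j := l)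
      fun q _ _ => min_le_clip (sa d m) (sb m) w (γ q) (γ (q + 1))
    have t5 := That_le hw hA x gx
    have t6 := T_triangle hw 0 gz gx
    have t7 : P.A * nd x gx ≤ P.A * sN m := by gcongr
    have t8 : 7 * P.A * (sN m : ℝ) ^ 1 ≤ (sN m : ℝ) ^ k :=
      mul_pow_le_pow hn (by linarith) (by omega)
    have t9 : 5 * (sN m : ℝ) ^ k ≤ (sN m : ℝ) ^ (k + 1) :=
      mul_pow_le_pow hn (by linarith) (by omega)
    rw [hγ0, hγl] at t3
    rw [pow_one] at t8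
    have t10 := t3.trans t4
    rw [hE]
    linarith
  · have a1 : (LL P.L0 (lev P.L0 m) : ℝ) ≤ sN m := by exact_mod_cast hL
    calc 2 * P.M * d * (2 * LL P.L0 (lev P.L0 m) + 1) + 2 * P.M * LL P.L0 (lev P.L0 m)
        ≤ 2 * P.M * d * (2 * sN m + sN m) + 2 * P.M * sN m := by gcongr
      _ = (6 * P.M * d + 2 * P.M) * (sN m : ℝ) ^ 1 := by ring
      _ ≤ sb m := mul_pow_le_pow hn (by linarith) (by omega)
  · have a1 := (hγ.mono (Nat.zero_le q) le_rfl).nd_le hq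
    rw [hγl, nd_comm] at a1
    have a2 : nd x (γ q) ≤ sN m + l := (nd_triangle x gx _).trans (by omega)
    have a3 : (nd x (γ q) : ℝ) ≤ sN m + l := by exact_mod_cast a2
    have : (nd x (γ q) : ℝ) ≤ sR d m := by linarith
    exact_mod_cast this

end Pool.Agent.MP_489c42_pr.H12
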