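import Pool.Agent.MP_489c42_pr.H12.ProbBase
import Pool.Agent.MP_489c42_pr.H12.Hier

namespace Pool.Agent.MP_489c42_pr.H12

open MeasureTheory ProbabilityTheory Filter
open scoped NNReal

variable {d : ℕ}

variable {ν : Measure ℝ≥0} [IsProbabilityMeasure ν] {Q Q' : (E d → ℝ≥0) → V d → Prop}

theorem union_LocL {κ : Type*} (F : Finset κ) (A : κ → Set (E d → ℝ≥0)) (S : Set (E d))
    (p : κ → ℝ) (hm : ∀ k ∈ F, MeasurableSet (A k)) (hd : ∀ k ∈ F, Dep (A k) S)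
    (hp : ∀ k ∈ F, (PP d ν).real (A k) ≤ p k) :
    MeasurableSet {ω | ∃ k ∈ F, ω ∈ A k} ∧ Dep {ω | ∃ k ∈ F, ω ∈ A k} S ∧
      (PP d ν).real {ω | ∃ k ∈ F, ω ∈ A k} ≤ ∑ k ∈ F, p k := by
  have e : {ω | ∃ k ∈ F, ω ∈ A k} = ⋃ k ∈ F, A k := by ext; simp
  refine ⟨e ▸ F.measurableSet_biUnion hm, fun η ζ h ⟨k, hk, hη⟩ => ⟨k, hk, hd k hk η ζ h hη⟩, ?_⟩
  rw [e]
  exact (measureReal_biUnion_finset_le F A).trans (Finset.sum_le_sum hp)

theorem LocEv.mono {r r' : ℕ} {p p' : ℝ} (h : LocEv ν Q r p) (hr : r ≤ r') (hp : p ≤ p') :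
    LocEv ν Q r' p' :=
  ⟨h.meas, fun x => (h.dep x).mono (edgesIn_mono (by simpa using hr)), fun x => (h.prob x).trans hp⟩

theorem LocEv.nonneg {r : ℕ} {p : ℝ} (h : LocEv ν Q r p) : 0 ≤ p := measureReal_nonneg.trans (h.prob 0)

theorem LocEv.or {r : ℕ} {p p' : ℝ} (h : LocEv ν Q r p) (h' : LocEv ν Q' r p') :
    LocEv ν (fun ω x => Q ω x ∨ Q' ω x) r (p + p') :=
  ⟨fun x => (h.meas x).union (h'.meas x),
    fun x η ζ e hη => hη.elim (fun h1 => Or.inl (h.dep x η ζ e h1)) fun h1 =>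
      Or.inr (h'.dep x η ζ e h1),
    fun x => (measureReal_union_le {ω | Q ω x} {ω | Q' ω x}).trans
      (add_le_add (h.prob x) (h'.prob x))⟩

theorem LocEv.exists_finset {κ : Type*} (F : Finset κ) {R : κ → (E d → ℝ≥0) → V d → Prop} {r : ℕ}
    {p : κ → ℝ} (h : ∀ k ∈ F, LocEv ν (R k) r (p k)) :
    LocEv ν (fun ω x => ∃ k ∈ F, R k ω x) r (∑ k ∈ F, p k) :=
  have H := fun x => union_LocL (ν := ν) F (fun k => {ω | R k ω x}) (edgesIn x r) p
    (fun k hk => (h k hk).meas x) (fun k hk => (h k hk).dep x) fun k hk => (h k hk).prob x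
  ⟨fun x => (H x).1, fun x => (H x).2.1, fun x => (H x).2.2⟩

theorem LocEv.exists_box {r : ℕ} {p : ℝ} (h : LocEv ν Q r p) (ρ : ℕ) :
    LocEv ν (fun ω x => ∃ y, nd x y ≤ ρ ∧ Q ω y) (ρ + r) ((2 * ρ + 1 : ℝ) ^ d * p) := by
  have H := fun x => union_LocL (ν := ν) (box x ρ) (fun y => {ω | Q ω y}) (edgesIn x (ρ + r))
    (fun _ => p) (fun y _ => h.meas y)
    (fun y hy => (h.dep y).mono (edgesIn_mono (Nat.add_le_add_right (mem_box.1 hy) r)))
    fun y _ => h.prob y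
  simp only [mem_box, Finset.sum_const, card_box, nsmul_eq_mul, Nat.cast_pow, Nat.cast_add,
    Nat.cast_mul, Nat.cast_ofNat, Nat.cast_one] at H
  exact ⟨fun x => (H x).1, fun x => (H x).2.1, fun x => (H x).2.2⟩

theorem LocEv.many {ρ : ℕ} {p : ℝ} (h : LocEv ν Q ρ p) (k r : ℕ) {s : ℕ} (hs : 2 * ρ ≤ s) :
    LocEv ν (fun ω => Many k r s (Q ω)) (r + ρ)
      (((2 * r + 1 : ℝ) ^ d * p) ^ k / k.factorial) := by
  classical
  have hp := h.nonneg
  have H := fun x => union_LocL (ν := ν)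
    (((box x r).powersetCard k).filter fun F => ∀ y ∈ F, ∀ z ∈ F, y ≠ z → s < nd y z)
    (fun F => ⋂ y ∈ F, {ω | Q ω y}) (edgesIn x (r + ρ)) (fun _ => p ^ k)
    (fun F _ => F.measurableSet_biInter fun y _ => h.meas y)
    (fun F hF η ζ e hη => Set.mem_iInter₂.2 fun y hy => (h.dep y).mono (edgesIn_mono
      (Nat.add_le_add_right (mem_box.1 ((Finset.mem_powersetCard.1
        (Finset.mem_filter.1 hF).1).1 hy)) ρ)) η ζ e (Set.mem_iInter₂.1 hη y hy))
    fun F hF => by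
      obtain ⟨h1, h2⟩ := Finset.mem_filter.1 hF
      rw [PP, prob_biInter _ F _ (fun y => edgesIn y ρ) (fun y _ => h.meas y)
        (fun y _ => h.dep y) fun y hy z hz e => edgesIn_disjoint (by have := h2 y hy z hz e; omega),
        ← (Finset.mem_powersetCard.1 h1).2, ← Finset.prod_const]
      exact Finset.prod_le_prod (fun _ _ => measureReal_nonneg) fun y _ => h.prob y
  have e : ∀ x, {ω | Many k r s (Q ω) x} = {ω | ∃ F ∈ ((box x r).powersetCard k).filter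
      fun F => ∀ y ∈ F, ∀ z ∈ F, y ≠ z → s < nd y z, ω ∈ ⋂ y ∈ F, {ω | Q ω y}} := fun x => by
    ext ω
    simp only [Many, Set.mem_ofPred_eq, Finset.mem_filter, Finset.mem_powersetCard,
      Set.mem_iInter]
    exact ⟨fun ⟨F, h1, h2, h3⟩ => ⟨F, ⟨⟨fun y hy => mem_box.2 (h2 y hy).1, h1⟩, h3⟩,
      fun y hy => (h2 y hy).2⟩, fun ⟨F, ⟨⟨h1, h2⟩, h3⟩, h4⟩ =>
        ⟨F, h2, fun y hy => ⟨mem_box.1 (h1 hy), h4 y hy⟩, h3⟩⟩
  refine ⟨fun x => e x ▸ (H x).1, fun x => e x ▸ (H x).2.1, fun x => ?_⟩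
  rw [e x]
  refine (H x).2.2.trans ?_
  rw [Finset.sum_const, nsmul_eq_mul, mul_pow, mul_div_right_comm]
  refine mul_le_mul_of_nonneg_right ?_ (pow_nonneg hp k)
  refine (Nat.cast_le.2 (Finset.card_filter_le _ _)).trans ?_
  rw [Finset.card_powersetCard, card_box]
  have := Nat.choose_le_pow_div (α := ℝ) k ((2 * r + 1) ^ d)
  push_cast at this
  exact this

theorem LocEv.hier {L0 β : ℕ} (hL : 15 ≤ L0) (hβ : 16 * d ≤ β)
    (h : LocEv ν Q (8 * L0) (1 / (L0 : ℝ) ^ β)) (i : ℕ) :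
    LocEv ν (fun ω => D L0 (Q ω) i) (8 * LL L0 i) (1 / (LL L0 i : ℝ) ^ β) := by
  induction i with
  | zero => exact h
  | succ i ih =>
    have h1 : 15 ≤ LL L0 i := hL.trans (le_LL i)
    have h2 := ih.many 4 (7 * LL L0 (i + 1)) (s := 16 * LL L0 i) (by omega)
    refine h2.mono ?_ ?_
    · have : 8 * LL L0 i ≤ LL L0 i ^ 3 := by
        calc 8 * LL L0 i ≤ LL L0 i * LL L0 i * LL L0 i := Nat.mul_le_mul_right _ (by nlinarith)
          _ = _ := by ring
      simp only [LL]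
      omega
    · simp only [LL]
      push_cast
      have h3 : (15 : ℝ) ≤ LL L0 i := by exact_mod_cast h1
      generalize (LL L0 i : ℝ) = L at h3
      have h0 : 0 < L := by linarith
      have h4 : 2 * (7 * L ^ 3) + 1 ≤ L ^ 4 := by
        have : 1 ≤ L ^ 3 := one_le_pow₀ (by linarith)
        nlinarith
      have h5 : ((2 * (7 * L ^ 3) + 1) ^ d) ^ 4 ≤ L ^ β := by
        calc ((2 * (7 * L ^ 3) + 1) ^ d) ^ 4 ≤ ((L ^ 4) ^ d) ^ 4 := by gcongr
          _ = L ^ (16 * d) := by ring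
          _ ≤ L ^ β := pow_le_pow_right₀ (by linarith) hβ
      calc _ ≤ ((2 * (7 * L ^ 3) + 1) ^ d * (1 / L ^ β)) ^ 4 :=
            div_le_self (by positivity) (by exact_mod_cast Nat.factorial_pos 4)
        _ ≤ L ^ β * (1 / L ^ β) ^ 4 := by rw [mul_pow]; gcongr
        _ = 1 / (L ^ 3) ^ β := by
            rw [← pow_mul, mul_comm 3 β, pow_mul]
            field_simp

/-- Many separated rare events are very unlikely. -/
theorem LocEv.many_exp {ρ : ℕ} {p : ℝ} (h : LocEv ν Q ρ p) {k r s : ℕ} (hs : 2 * ρ ≤ s)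
    (hk : Real.exp 2 * (2 * r + 1 : ℝ) ^ d * p ≤ k) :
    LocEv ν (fun ω => Many k r s (Q ω)) (r + ρ) (Real.exp (-k)) := by
  refine (h.many k r hs).mono le_rfl ?_
  have hp := h.nonneg
  have h1 : (2 * r + 1 : ℝ) ^ d * p ≤ k * Real.exp (-2) := by
    rw [Real.exp_neg, ← div_eq_mul_inv, le_div_iff₀ (Real.exp_pos 2)]
    linarith
  calc _ ≤ (k * Real.exp (-2)) ^ k / k.factorial := by gcongr
    _ = (k : ℝ) ^ k / k.factorial * Real.exp (-2) ^ k := by rw [mul_pow, mul_div_right_comm]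
    _ ≤ Real.exp k * Real.exp (-2) ^ k := by
        gcongr
        exact Real.pow_div_factorial_le_exp _ (Nat.cast_nonneg k) k
    _ = Real.exp (-k) := by
        rw [← Real.exp_nat_mul, ← Real.exp_add]
        congr 1
        ring

end Pool.Agent.MP_489c42_pr.H12
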