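import Pool.Agent.MP_489c42_pr.H12.ES
import Pool.Agent.MP_489c42_pr.H12.LocL

namespace Pool.Agent.MP_489c42_pr.H12

open MeasureTheory ProbabilityTheory Filter
open scoped NNReal

variable {d : ℕ}

theorem sb_nonneg_ConcT (m : ℕ) : 0 ≤ sb m := zero_le_one.trans (one_le_sb m)

theorem sa_le_sb_ConcT (d m : ℕ) : sa d m ≤ sb m := (sa_le_one d m).trans (one_le_sb m)

theorem wt_clip_ConcT (m : ℕ) (ω : E d → ℝ≥0) : Wt (clip (sa d m) (sb m) (wt ω)) :=
  (wt_Wt ω).of_clip (sb_nonneg_ConcT m)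

theorem meas_T_ConcT (m : ℕ) (y z : V d) :
    Measurable fun ω : E d → ℝ≥0 => T (clip (sa d m) (sb m) (wt ω)) y z := by
  refine measurable_T (F := fun ω => clip (sa d m) (sb m) (wt ω)) (fun p q => ?_)
    (fun ω => wt_clip_ConcT m ω) y z
  unfold clip
  exact ((measurable_wt p q).max measurable_const).min measurable_const

theorem abs_T_ConcT (m : ℕ) (y z : V d) (ω : E d → ℝ≥0) :
    |T (clip (sa d m) (sb m) (wt ω)) y z| ≤ sb m * n1 y z := by
  rw [abs_of_nonneg (T_nonneg (wt_clip_ConcT m ω) y z)]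
  exact T_clip_le (wt_Wt ω) (sb_nonneg_ConcT m) y z

theorem integrable_T_ConcT (ν : Measure ℝ≥0) [IsProbabilityMeasure ν] (m : ℕ) (y z : V d) :
    Integrable (fun ω : E d → ℝ≥0 => T (clip (sa d m) (sb m) (wt ω)) y z) (PP d ν) :=
  Integrable.of_bound (meas_T_ConcT m y z).aestronglyMeasurable (sb m * n1 y z)
    (Eventually.of_forall fun ω => by rw [Real.norm_eq_abs]; exact abs_T_ConcT m y z ω)

theorem integral_T_clip (ν : Measure ℝ≥0) [IsProbabilityMeasure ν] (m : ℕ) (y z : V d) :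
    ∫ ω, T (clip (sa d m) (sb m) (wt ω)) y z ∂(PP d ν) = rho ν m (z - y) := by
  have hmp := shift_mp (d := d) ν y
  unfold rho PP
  rw [← hmp.map_eq, integral_map hmp.measurable.aemeasurable
    (meas_T_ConcT m 0 (z - y)).aestronglyMeasurable, hmp.map_eq]
  refine integral_congr_ae (Eventually.of_forall fun ω => ?_)
  have h1 : clip (sa d m) (sb m) (wt fun e => ω (shiftE y e)) =
      fun p q => clip (sa d m) (sb m) (wt ω) (p + y) (q + y) := by
    funext p q
    simp only [clip, wt_shift]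
  simp only [h1, T_shift, zero_add, sub_add_cancel]

theorem rho_ok (ν : Measure ℝ≥0) [IsProbabilityMeasure ν] (m : ℕ) :
    RhoOK m (rho (d := d) ν m) := by
  refine ⟨fun x y => ?_, fun x => ?_, fun x => ?_⟩
  · have h1 := integral_T_clip ν m x (x + y)
    rw [add_sub_cancel_left] at h1
    rw [← h1]
    unfold rho
    rw [← integral_add (integrable_T_ConcT ν m 0 x) (integrable_T_ConcT ν m x (x + y))]
    refine integral_mono (integrable_T_ConcT ν m 0 (x + y))
      ((integrable_T_ConcT ν m 0 x).add (integrable_T_ConcT ν m x (x + y))) fun ω => ?_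
    exact T_triangle (wt_clip_ConcT m ω) 0 x (x + y)
  · unfold rho
    have h1 : ∫ _ω, sa d m * (nd 0 x : ℝ) ∂(PP d ν) = sa d m * (nd 0 x : ℝ) := by simp
    rw [← h1]
    refine integral_mono (integrable_const _) (integrable_T_ConcT ν m 0 x) fun ω => ?_
    exact le_T_clip _ (sa_pos d m).le (sa_le_sb_ConcT d m) 0 x
  · unfold rho
    have h1 : ∫ _ω, sb m * (n1 0 x : ℝ) ∂(PP d ν) = sb m * (n1 0 x : ℝ) := by simp
    rw [← h1]
    refine integral_mono (integrable_T_ConcT ν m 0 x) (integrable_const _) fun ω => ?_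
    exact T_clip_le (wt_Wt ω) (sb_nonneg_ConcT m) 0 x

/-- The number of times the walk uses the edge `e`. -/
noncomputable def mult_ConcT (γ : ℕ → V d) (n : ℕ) (e : E d) : ℝ :=
  ∑ k ∈ Finset.Ico 0 n, if s(γ k, γ (k + 1)) = e.1 then 1 else 0

theorem mult_nonneg_ConcT (γ : ℕ → V d) (n : ℕ) (e : E d) : 0 ≤ mult_ConcT γ n e :=
  Finset.sum_nonneg fun k _ => by split_ifs <;> norm_num

theorem mult_le_one_ConcT {γ : ℕ → V d} {n : ℕ} (h : Set.InjOn γ (Set.Icc 0 n)) (e : E d) :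
    mult_ConcT γ n e ≤ 1 := by
  unfold mult_ConcT
  rw [Finset.sum_boole]
  have : ((Finset.Ico 0 n).filter fun k => s(γ k, γ (k + 1)) = e.1).card ≤ 1 := by
    refine Finset.card_le_one.2 fun k hk l hl => ?_
    rw [Finset.mem_filter, Finset.mem_Ico] at hk hl
    have he : s(γ k, γ (k + 1)) = s(γ l, γ (l + 1)) := hk.2.trans hl.2.symm
    rcases Sym2.eq_iff.1 he with h1 | h1
    · exact h ⟨by omega, by omega⟩ ⟨by omega, by omega⟩ h1.1
    · have a1 := h (x₁ := k) (x₂ := l + 1) ⟨by omega, by omega⟩ ⟨by omega, by omega⟩ h1.1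
      have a2 := h (x₁ := k + 1) (x₂ := l) ⟨by omega, by omega⟩ ⟨by omega, by omega⟩ h1.2
      omega
  exact_mod_cast this

theorem sum_mult_ConcT (γ : ℕ → V d) (n : ℕ) (S : Finset (E d)) :
    ∑ e ∈ S, mult_ConcT γ n e ≤ n := by
  unfold mult_ConcT
  rw [Finset.sum_comm]
  calc ∑ k ∈ Finset.Ico 0 n, ∑ e ∈ S, (if s(γ k, γ (k + 1)) = e.1 then (1 : ℝ) else 0)
      ≤ ∑ _k ∈ Finset.Ico 0 n, (1 : ℝ) := by
        refine Finset.sum_le_sum fun k _ => ?_
        rw [Finset.sum_boole]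
        have : (S.filter fun e => s(γ k, γ (k + 1)) = e.1).card ≤ 1 := by
          refine Finset.card_le_one.2 fun e he f hf => ?_
          rw [Finset.mem_filter] at he hf
          exact Subtype.ext (he.2.symm.trans hf.2)
        exact_mod_cast this
    _ = n := by simp

theorem clip_upd_ConcT (m : ℕ) (ω : E d → ℝ≥0) (e : E d) [DecidableEq (E d)] {p q : V d}
    (h : (lattice d).Adj p q) :
    clip (sa d m) (sb m) (wt ω) p q ≤
        clip (sa d m) (sb m) (wt (Function.update ω e ⟨sb m, sb_nonneg_ConcT m⟩)) p q ∧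
      clip (sa d m) (sb m) (wt (Function.update ω e ⟨sb m, sb_nonneg_ConcT m⟩)) p q ≤
        clip (sa d m) (sb m) (wt ω) p q + sb m * if s(p, q) = e.1 then 1 else 0 := by
  by_cases he : s(p, q) = e.1
  · have he' : (⟨s(p, q), h⟩ : E d) = e := Subtype.ext he
    have h1 : clip (sa d m) (sb m) (wt (Function.update ω e ⟨sb m, sb_nonneg_ConcT m⟩)) p q =
        sb m := by
      unfold clip
      rw [wt_adj _ h, he', Function.update_self]
      exact min_eq_right (le_max_left _ _)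
    rw [h1, if_pos he]
    have h2 := (wt_clip_ConcT m ω).nonneg p q
    exact ⟨clip_le _ _ _ _ _, by linarith⟩
  · have he' : (⟨s(p, q), h⟩ : E d) ≠ e := fun h' => he (by rw [← h'])
    have h1 : clip (sa d m) (sb m) (wt (Function.update ω e ⟨sb m, sb_nonneg_ConcT m⟩)) p q =
        clip (sa d m) (sb m) (wt ω) p q := by
      unfold clip
      rw [wt_adj _ h, wt_adj _ h, Function.update_of_ne he']
    rw [h1, if_neg he]
    simp

theorem var_ConcT (m : ℕ) (y z : V d) [DecidableEq (E d)] (S : Finset (E d))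
    (ω : E d → ℝ≥0) :
    ∑ e ∈ S, (T (clip (sa d m) (sb m)
        (wt (Function.update ω e ⟨sb m, sb_nonneg_ConcT m⟩))) y z -
      T (clip (sa d m) (sb m) (wt ω)) y z) ^ 2 ≤
      2 * sb m ^ 2 * ((sb m * n1 y z + 1) / sa d m) := by
  refine le_of_forall_pos_le_add fun η hη => ?_
  obtain ⟨ε, hε0, hε1, hε2⟩ : ∃ ε : ℝ, 0 < ε ∧ ε ≤ 1 ∧ 2 * ε * S.card ≤ η := by
    have hc : (0 : ℝ) ≤ S.card := Nat.cast_nonneg _
    refine ⟨min 1 (η / (2 * (S.card + 1))), lt_min one_pos (by positivity), min_le_left _ _, ?_⟩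
    have h1 : min 1 (η / (2 * (S.card + 1))) ≤ η / (2 * (S.card + 1)) := min_le_right _ _
    have h2 : η / (2 * (S.card + 1)) * (2 * (S.card + 1)) = η := by field_simp
    have h3 : 0 < η / (2 * (S.card + 1)) := by positivity
    nlinarith
  obtain ⟨γ, n, hγ, h0, hn, hinj, hc⟩ := exists_near_inj (wt_clip_ConcT m ω) y z hε0
  have hb := sb_nonneg_ConcT m
  have ha := sa_pos d m
  have hlen : (n : ℝ) ≤ (sb m * n1 y z + 1) / sa d m := by
    rw [le_div_iff₀ ha]
    have h1 := mul_le_cost (w := clip (sa d m) (sb m) (wt ω)) (γ := γ) (a := sa d m)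
      (Nat.zero_le n) fun k _ _ => le_clip (sa_le_sb_ConcT d m) _ _ _
    have h2 := T_clip_le (a := sa d m) (wt_Wt ω) hb y z
    simp only [Nat.cast_zero, sub_zero] at h1
    linarith
  have key : ∀ e ∈ S, (T (clip (sa d m) (sb m)
        (wt (Function.update ω e ⟨sb m, sb_nonneg_ConcT m⟩))) y z -
      T (clip (sa d m) (sb m) (wt ω)) y z) ^ 2 ≤ 2 * ε + 2 * sb m ^ 2 * mult_ConcT γ n e := by
    intro e _
    have h1 : T (clip (sa d m) (sb m) (wt ω)) y z ≤ T (clip (sa d m) (sb m)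
        (wt (Function.update ω e ⟨sb m, sb_nonneg_ConcT m⟩))) y z :=
      T_mono (wt_clip_ConcT m ω) (fun p q h => (clip_upd_ConcT m ω e h).1) y z
    have h2 := T_le_cost (wt_clip_ConcT m (Function.update ω e ⟨sb m, sb_nonneg_ConcT m⟩)) hγ
      (Nat.zero_le n)
    rw [h0, hn] at h2
    have h3 : cost (clip (sa d m) (sb m)
        (wt (Function.update ω e ⟨sb m, sb_nonneg_ConcT m⟩))) γ 0 n ≤
        cost (clip (sa d m) (sb m) (wt ω)) γ 0 n + sb m * mult_ConcT γ n e := by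
      unfold cost mult_ConcT
      rw [Finset.mul_sum, ← Finset.sum_add_distrib]
      refine Finset.sum_le_sum fun k hk => ?_
      rw [Finset.mem_Ico] at hk
      exact (clip_upd_ConcT m ω e (hγ k hk.1 hk.2)).2
    have h4 := mult_nonneg_ConcT γ n e
    have h5 := mult_le_one_ConcT hinj e
    set Δ := T (clip (sa d m) (sb m)
        (wt (Function.update ω e ⟨sb m, sb_nonneg_ConcT m⟩))) y z -
      T (clip (sa d m) (sb m) (wt ω)) y z with hΔ
    set μ := mult_ConcT γ n e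
    have h6 : 0 ≤ Δ := by linarith
    have h7 : Δ ≤ ε + sb m * μ := by linarith
    have h8 : Δ ^ 2 ≤ (ε + sb m * μ) ^ 2 := pow_le_pow_left₀ h6 h7 2
    have h9 : μ ^ 2 ≤ μ := by nlinarith
    have h10 : sb m ^ 2 * μ ^ 2 ≤ sb m ^ 2 * μ := mul_le_mul_of_nonneg_left h9 (sq_nonneg _)
    have h11 : ε ^ 2 ≤ ε := by nlinarith
    nlinarith [sq_nonneg (ε - sb m * μ)]
  refine (Finset.sum_le_sum key).trans ?_
  rw [Finset.sum_add_distrib, ← Finset.mul_sum, ← Finset.mul_sum]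
  have h1 := sum_mult_ConcT γ n S
  have h2 : 2 * sb m ^ 2 * ∑ e ∈ S, mult_ConcT γ n e ≤
      2 * sb m ^ 2 * ((sb m * n1 y z + 1) / sa d m) :=
    mul_le_mul_of_nonneg_left (h1.trans hlen) (by positivity)
  simp only [Finset.sum_const, nsmul_eq_mul]
  nlinarith

theorem T_dep_ConcT (m : ℕ) {x y z : V d} {l r : ℕ} (hl : sb m * n1 y z + 1 ≤ sa d m * l)
    (hr : nd x y + l ≤ r) {η ζ : E d → ℝ≥0} (h : ∀ e ∈ edgesIn x r, η e = ζ e) :
    T (clip (sa d m) (sb m) (wt η)) y z = T (clip (sa d m) (sb m) (wt ζ)) y z := by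
  refine T_clip_congr (wt_Wt η) (wt_Wt ζ) (sa_pos d m) (sa_le_sb_ConcT d m) hl
    fun p q hp hq => wt_congr h ?_ ?_
  · have := nd_triangle x y p
    omega
  · have := nd_triangle x y q
    omega

/-- The tail bound for one clipped passage time. -/
theorem T_clip_tail (ν : Measure ℝ≥0) [IsProbabilityMeasure ν] (m : ℕ) (y z : V d) {v : ℝ}
    (hv : 0 < v) (hvar : 2 * sb m ^ 2 * ((sb m * n1 y z + 1) / sa d m) ≤ v ^ 2) (h : ℝ) :
    (PP d ν).real {ω | h ≤ |T (clip (sa d m) (sb m) (wt ω)) y z - rho ν m (z - y)|} ≤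
      10 * Real.exp (-h / (2 * v)) := by
  classical
  obtain ⟨l, hl⟩ := exists_nat_ge ((sb m * n1 y z + 1) / sa d m)
  rw [div_le_iff₀ (sa_pos d m), mul_comm (l : ℝ)] at hl
  rw [← integral_T_clip ν m y z]
  refine conc_tail ν (edgesIn_finite y l).toFinset ⟨sb m, sb_nonneg_ConcT m⟩
    (meas_T_ConcT m y z) (abs_T_ConcT m y z) (fun η ζ hh => ?_) hv
    (fun ω => (var_ConcT m y z _ ω).trans hvar) h
  refine T_dep_ConcT m (x := y) (r := l) hl (by simp) fun e he => hh e ?_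
  simpa using he

theorem eK_ge_ConcT (d : ℕ) : 3 * eA d + 16 ≤ eK d := by
  unfold eK
  have : eT d ≤ eT d * (d + 1) := Nat.le_mul_of_pos_right _ (by omega)
  unfold eT at this ⊢
  omega

theorem var_bound_ConcT {m j : ℕ} {y z : V d} {C : ℝ} (hC0 : 0 ≤ C)
    (hC : 2 * (C + 1) ≤ (sN m : ℝ)) (h : (n1 y z : ℝ) ≤ C * (sN m : ℝ) ^ j) :
    2 * sb m ^ 2 * ((sb m * n1 y z + 1) / sa d m) ≤ (sN m : ℝ) ^ (j + eA d + 7) := by
  have hn := one_le_sN m
  unfold sa sb
  set n : ℝ := (sN m : ℝ)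
  have h1 : (1 : ℝ) ≤ n ^ (j + 2) := one_le_pow₀ hn
  have h2 : n ^ 2 * (n1 y z : ℝ) + 1 ≤ (C + 1) * n ^ (j + 2) := by
    have : n ^ 2 * (n1 y z : ℝ) ≤ n ^ 2 * (C * n ^ j) :=
      mul_le_mul_of_nonneg_left h (by positivity)
    have e : n ^ 2 * (C * n ^ j) = C * n ^ (j + 2) := by ring
    nlinarith
  rw [div_div_eq_mul_div, div_one]
  calc 2 * (n ^ 2) ^ 2 * ((n ^ 2 * (n1 y z : ℝ) + 1) * n ^ eA d)
      ≤ 2 * (n ^ 2) ^ 2 * (((C + 1) * n ^ (j + 2)) * n ^ eA d) := by gcongr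
    _ = (2 * (C + 1)) * n ^ (j + eA d + 6) := by ring
    _ ≤ n ^ (j + eA d + 7) := mul_pow_le_pow hn hC (by omega)

/-- The failure of concentration for one pair of points. -/
def badP_ConcT (ν : Measure ℝ≥0) (m : ℕ) (y z : V d) : Set (E d → ℝ≥0) :=
  {ω | ¬ ((nd y z ≤ sr d m → rho ν m (z - y) - hLo d m ≤ T (clip (sa d m) (sb m) (wt ω)) y z) ∧
      T (clip (sa d m) (sb m) (wt ω)) y z ≤ rho ν m (z - y) + hUp d m)}

theorem meas_badP_ConcT (ν : Measure ℝ≥0) (m : ℕ) (y z : V d) :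
    MeasurableSet (badP_ConcT ν m y z) := by
  have hm := meas_T_ConcT m y z
  have h1 := measurableSet_le (measurable_const (a := rho ν m (z - y) - hLo d m)) hm
  have h2 := measurableSet_le hm (measurable_const (a := rho ν m (z - y) + hUp d m))
  unfold badP_ConcT
  by_cases h : nd y z ≤ sr d m
  · simp only [h, true_imp_iff]
    exact (h1.inter h2).compl
  · simp only [h, false_imp_iff, true_and]
    exact h2.compl

theorem prob_badP_ConcT (ν : Measure ℝ≥0) [IsProbabilityMeasure ν] {m : ℕ}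
    (hm : 2 * (2 * d + 1 : ℝ) ≤ sN m) {y z : V d} (hyz : nd y z ≤ 2 * sR d m) :
    (PP d ν).real (badP_ConcT ν m y z) ≤ 20 * Real.exp (-(sN m : ℝ) / 2) := by
  have hn := one_le_sN m
  have hd0 : (0 : ℝ) ≤ d := Nat.cast_nonneg d
  have hK := eK_ge_ConcT d
  have hA : 5 ≤ eA d := by unfold eA; omega
  obtain ⟨k, hk⟩ : ∃ k, eK d = k + 5 := ⟨eK d - 5, by omega⟩
  have hn1 : (n1 y z : ℝ) ≤ d * (nd y z : ℝ) := by exact_mod_cast n1_le y z
  have hup : (PP d ν).real
      {ω | hUp d m ≤ |T (clip (sa d m) (sb m) (wt ω)) y z - rho ν m (z - y)|} ≤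
      10 * Real.exp (-(sN m : ℝ) / 2) := by
    have h1 : (n1 y z : ℝ) ≤ (2 * d) * (sN m : ℝ) ^ (eK d + eA d + 1) := by
      have : (nd y z : ℝ) ≤ 2 * (sN m : ℝ) ^ (eK d + eA d + 1) := by
        unfold sR at hyz
        exact_mod_cast hyz
      nlinarith
    have h2 := var_bound_ConcT (by positivity) hm h1
    have h3 : (sN m : ℝ) ^ (eK d + eA d + 1 + eA d + 7) ≤ ((sN m : ℝ) ^ k) ^ 2 := by
      rw [← pow_mul]
      exact pow_le_pow_right₀ hn (by omega)
    have h4 := T_clip_tail ν m y z (v := (sN m : ℝ) ^ k) (by positivity) (h2.trans h3) (hUp d m)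
    have h5 : -hUp d m / (2 * (sN m : ℝ) ^ k) = -(sN m : ℝ) / 2 := by
      unfold hUp
      rw [show eK d - 4 = k + 1 by omega]
      field_simp
      ring
    rwa [h5] at h4
  by_cases h : nd y z ≤ sr d m
  · have hlo : (PP d ν).real
        {ω | hLo d m ≤ |T (clip (sa d m) (sb m) (wt ω)) y z - rho ν m (z - y)|} ≤
        10 * Real.exp (-(sN m : ℝ) / 2) := by
      have h1 : (n1 y z : ℝ) ≤ (d : ℝ) * (sN m : ℝ) ^ (eT d) := by
        have : (nd y z : ℝ) ≤ (sN m : ℝ) ^ (eT d) := by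
          unfold sr at h
          exact_mod_cast h
        nlinarith
      have h2 := var_bound_ConcT hd0 (by linarith) h1
      have h3 : (sN m : ℝ) ^ (eT d + eA d + 7) ≤ ((sN m : ℝ) ^ (2 * eA d + 8)) ^ 2 := by
        rw [← pow_mul]
        exact pow_le_pow_right₀ hn (by unfold eT; omega)
      have h4 := T_clip_tail ν m y z (v := (sN m : ℝ) ^ (2 * eA d + 8)) (by positivity)
        (h2.trans h3) (hLo d m)
      have h5 : -hLo d m / (2 * (sN m : ℝ) ^ (2 * eA d + 8)) = -(sN m : ℝ) / 2 := by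
        unfold hLo
        field_simp
        ring
      rwa [h5] at h4
    have hsub : badP_ConcT ν m y z ⊆
        {ω | hLo d m ≤ |T (clip (sa d m) (sb m) (wt ω)) y z - rho ν m (z - y)|} ∪
        {ω | hUp d m ≤ |T (clip (sa d m) (sb m) (wt ω)) y z - rho ν m (z - y)|} := by
      intro ω hω
      by_contra hc
      simp only [Set.mem_union, Set.mem_ofPred_eq, not_or, not_le, abs_lt] at hc
      exact hω ⟨fun _ => by linarith [hc.1.1], by linarith [hc.2.2]⟩
    have := (measureReal_mono hsub).trans (measureReal_union_le (μ := PP d ν) _ _)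
    linarith
  · have hsub : badP_ConcT ν m y z ⊆
        {ω | hUp d m ≤ |T (clip (sa d m) (sb m) (wt ω)) y z - rho ν m (z - y)|} := by
      intro ω hω
      by_contra hc
      simp only [Set.mem_ofPred_eq, not_le, abs_lt] at hc
      exact hω ⟨fun h' => absurd h' h, by linarith [hc.2]⟩
    have h1 := measureReal_mono (μ := PP d ν) hsub
    have h2 := Real.exp_pos (-(sN m : ℝ) / 2)
    linarith

theorem exp_small_ConcT (C : ℝ) (k : ℕ) {n : ℝ} (hn : 1 ≤ n)
    (h : C * (2 ^ (k + 1) * (k + 1).factorial) ≤ n) : C * n ^ k * Real.exp (-n / 2) ≤ 1 := by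
  have h1 := Real.pow_div_factorial_le_exp (n / 2) (by positivity) (k + 1)
  have h2 : C * n ^ k ≤ (n / 2) ^ (k + 1) / (k + 1).factorial := by
    rw [div_pow, div_div, le_div_iff₀ (by positivity)]
    calc C * n ^ k * (2 ^ (k + 1) * (k + 1).factorial)
        = (C * (2 ^ (k + 1) * (k + 1).factorial)) * n ^ k := by ring
      _ ≤ n ^ (k + 1) := mul_pow_le_pow hn h (by omega)
  have h3 : Real.exp (n / 2) * Real.exp (-n / 2) = 1 := by
    rw [← Real.exp_add]
    simp [neg_div]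
  calc C * n ^ k * Real.exp (-n / 2) ≤ Real.exp (n / 2) * Real.exp (-n / 2) :=
        mul_le_mul_of_nonneg_right (h2.trans h1) (Real.exp_pos _).le
    _ = 1 := h3

theorem conc_loc (hd : 2 ≤ d) (β : ℕ) : ∃ m0 : ℕ, ∀ m, m0 ≤ m →
    ∀ (ν : Measure ℝ≥0) [IsProbabilityMeasure ν],
      LocEv ν (fun ω (x : V d) => ¬ Conc m (rho ν m) (wt ω) x) (sW d m)
        (1 / (sN m : ℝ) ^ β) := by
  set k := (eK d + eA d + 1) * (2 * d) + β with hk
  obtain ⟨m0, hm0⟩ := exists_le_sN (2 * (2 * d + 1 : ℝ) +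
    (20 * 3 ^ (2 * d)) * (2 ^ (k + 1) * (k + 1).factorial))
  refine ⟨m0, fun m hm ν _ => ?_⟩
  have hn := one_le_sN m
  have hd0 : (0 : ℝ) ≤ d := Nat.cast_nonneg d
  have hC0 : (0 : ℝ) ≤ (20 * 3 ^ (2 * d)) * (2 ^ (k + 1) * (k + 1).factorial) := by positivity
  have hC := hm0 m hm
  have hm1 : 2 * (2 * d + 1 : ℝ) ≤ sN m := by linarith
  have hm2 : (20 * 3 ^ (2 * d) : ℝ) * (2 ^ (k + 1) * (k + 1).factorial) ≤ sN m := by linarith
  have hK := eK_ge_ConcT d
  have hset : ∀ x : V d, {ω | ¬ Conc m (rho ν m) (wt ω) x} =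
      ⋃ y ∈ box x (sR d m), ⋃ z ∈ box x (sR d m), badP_ConcT ν m y z := by
    intro x
    ext ω
    simp only [Conc, badP_ConcT, Set.mem_ofPred_eq, Set.mem_iUnion, mem_box, not_forall]
    constructor
    · rintro ⟨y, z, hy, hz, h⟩
      exact ⟨y, hy, z, hz, h⟩
    · rintro ⟨y, hy, z, hz, h⟩
      exact ⟨y, z, hy, hz, h⟩
  have htri : ∀ x y z : V d, nd x y ≤ sR d m → nd x z ≤ sR d m → nd y z ≤ 2 * sR d m := by
    intro x y z hy hz
    have := nd_triangle y x z
    rw [nd_comm y x] at this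
    omega
  refine ⟨fun x => ?_, fun x η ζ hh hη hζ => hη fun y z hy hz => ?_, fun x => ?_⟩
  · rw [hset]
    exact Finset.measurableSet_biUnion _ fun y _ =>
      Finset.measurableSet_biUnion _ fun z _ => meas_badP_ConcT ν m y z
  · have hl : sb m * n1 y z + 1 ≤ sa d m * ((sN m ^ (eK d + 2 * eA d + 4) : ℕ) : ℝ) := by
      have h0 : (n1 y z : ℝ) ≤ d * (nd y z : ℝ) := by exact_mod_cast n1_le y z
      have h1 : (nd y z : ℝ) ≤ 2 * (sN m : ℝ) ^ (eK d + eA d + 1) := by
        have := htri x y z hy hz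
        unfold sR at this
        exact_mod_cast this
      have h2 : (n1 y z : ℝ) ≤ (2 * d) * (sN m : ℝ) ^ (eK d + eA d + 1) := by nlinarith
      unfold sa sb
      push_cast
      set n : ℝ := (sN m : ℝ)
      have h3 : 1 / n ^ eA d * n ^ (eK d + 2 * eA d + 4) = n ^ (eK d + eA d + 4) := by
        field_simp
        ring
      have h4 : (1 : ℝ) ≤ n ^ (eK d + eA d + 3) := one_le_pow₀ hn
      have h5 : n ^ 2 * (n1 y z : ℝ) ≤ n ^ 2 * ((2 * d) * n ^ (eK d + eA d + 1)) :=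
        mul_le_mul_of_nonneg_left h2 (by positivity)
      have h6 : n ^ 2 * ((2 * d) * n ^ (eK d + eA d + 1)) = (2 * d) * n ^ (eK d + eA d + 3) := by
        ring
      have h7 : (2 * d + 1 : ℝ) * n ^ (eK d + eA d + 3) ≤ n ^ (eK d + eA d + 4) :=
        mul_pow_le_pow hn (by linarith) (by omega)
      rw [h3]
      linarith
    have hr : nd x y + sN m ^ (eK d + 2 * eA d + 4) ≤ sW d m := by
      have h1 : (sN m : ℝ) ^ (eK d + eA d + 1) ≤ (sN m : ℝ) ^ (eK d + 2 * eA d + 4) :=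
        pow_le_pow_right₀ hn (by omega)
      have h2 : 2 * (sN m : ℝ) ^ (eK d + 2 * eA d + 4) ≤ (sN m : ℝ) ^ (3 * eK d) :=
        mul_pow_le_pow hn (by linarith) (by omega)
      have h3 : (nd x y : ℝ) ≤ (sN m : ℝ) ^ (eK d + eA d + 1) := by
        unfold sR at hy
        exact_mod_cast hy
      have h4 : (nd x y : ℝ) + (sN m : ℝ) ^ (eK d + 2 * eA d + 4) ≤ (sN m : ℝ) ^ (3 * eK d) := by
        linarith
      unfold sW
      exact_mod_cast h4
    rw [T_dep_ConcT m hl hr hh]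
    exact hζ y z hy hz
  · rw [hset]
    have hR : ((box x (sR d m)).card : ℝ) ≤ (3 * (sN m : ℝ) ^ (eK d + eA d + 1)) ^ d := by
      rw [card_box]
      unfold sR
      push_cast
      have : (1 : ℝ) ≤ (sN m : ℝ) ^ (eK d + eA d + 1) := one_le_pow₀ hn
      exact pow_le_pow_left₀ (by positivity) (by linarith) d
    have hexp := exp_small_ConcT (20 * 3 ^ (2 * d)) k hn hm2
    have he := Real.exp_pos (-(sN m : ℝ) / 2)
    calc (PP d ν).real (⋃ y ∈ box x (sR d m), ⋃ z ∈ box x (sR d m), badP_ConcT ν m y z)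
        ≤ ∑ y ∈ box x (sR d m), (PP d ν).real (⋃ z ∈ box x (sR d m), badP_ConcT ν m y z) :=
          measureReal_biUnion_finset_le _ _
      _ ≤ ∑ y ∈ box x (sR d m), ∑ z ∈ box x (sR d m), (PP d ν).real (badP_ConcT ν m y z) :=
          Finset.sum_le_sum fun y _ => measureReal_biUnion_finset_le _ _
      _ ≤ ∑ y ∈ box x (sR d m), ∑ z ∈ box x (sR d m), 20 * Real.exp (-(sN m : ℝ) / 2) :=
          Finset.sum_le_sum fun y hy => Finset.sum_le_sum fun z hz =>
            prob_badP_ConcT ν hm1 (htri x y z (mem_box.1 hy) (mem_box.1 hz))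
      _ = ((box x (sR d m)).card : ℝ) * ((box x (sR d m)).card *
            (20 * Real.exp (-(sN m : ℝ) / 2))) := by
          simp only [Finset.sum_const, nsmul_eq_mul]
      _ ≤ (3 * (sN m : ℝ) ^ (eK d + eA d + 1)) ^ d * ((3 * (sN m : ℝ) ^ (eK d + eA d + 1)) ^ d *
            (20 * Real.exp (-(sN m : ℝ) / 2))) := by gcongr
      _ ≤ 1 / (sN m : ℝ) ^ β := by
          rw [le_div_iff₀ (by positivity)]
          refine le_trans (le_of_eq ?_) hexp
          rw [hk]
          ring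

end Pool.Agent.MP_489c42_pr.H12
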