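import Pool.Agent.MP_489c42_pr.H12.Geo

namespace Pool.Agent.MP_489c42_pr.H12

open MeasureTheory ProbabilityTheory Filter
open scoped NNReal

variable {d : ℕ}

theorem IsGauge.mono {N : (Fin d → ℝ) → ℝ} {a Λ Λ' : ℝ} (h : IsGauge N a Λ) (hΛ : Λ ≤ Λ') :
    IsGauge N a Λ' :=
  ⟨h.hom, h.add, h.lower, fun p =>
    (h.upper p).trans (mul_le_mul_of_nonneg_right hΛ (norm_nonneg _))⟩

/-- `p` is a nonnegative combination of points of the box of radius `r`, of total price `c`. -/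
def Rep_Gauge (ρ : V d → ℝ) (r : ℕ) (p : Fin d → ℝ) (c : ℝ) : Prop :=
  ∃ lam : V d → ℝ, (∀ z, 0 ≤ lam z) ∧ ∑ z ∈ box 0 r, lam z • toR z = p ∧
    ∑ z ∈ box 0 r, lam z * ρ z = c

theorem rep_zero_Gauge (ρ : V d → ℝ) (r : ℕ) : Rep_Gauge ρ r 0 0 :=
  ⟨fun _ => 0, fun _ => le_rfl, by simp, by simp⟩

theorem rep_add_Gauge {ρ : V d → ℝ} {r : ℕ} {p q : Fin d → ℝ} {c e : ℝ}
    (h : Rep_Gauge ρ r p c) (h' : Rep_Gauge ρ r q e) : Rep_Gauge ρ r (p + q) (c + e) := by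
  obtain ⟨l, hl, rfl, rfl⟩ := h
  obtain ⟨l', hl', rfl, rfl⟩ := h'
  refine ⟨fun z => l z + l' z, fun z => add_nonneg (hl z) (hl' z), ?_, ?_⟩
  · simp only [add_smul, Finset.sum_add_distrib]
  · simp only [add_mul, Finset.sum_add_distrib]

theorem rep_smul_Gauge {ρ : V d → ℝ} {r : ℕ} {p : Fin d → ℝ} {c θ : ℝ} (hθ : 0 ≤ θ)
    (h : Rep_Gauge ρ r p c) : Rep_Gauge ρ r (θ • p) (θ * c) := by
  obtain ⟨l, hl, rfl, rfl⟩ := h
  refine ⟨fun z => θ * l z, fun z => mul_nonneg hθ (hl z), ?_, ?_⟩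
  · simp only [Finset.smul_sum, mul_smul]
  · simp only [Finset.mul_sum, mul_assoc]

theorem rep_single_Gauge (ρ : V d → ℝ) {r : ℕ} {z : V d} (hz : nd 0 z ≤ r) :
    Rep_Gauge ρ r (toR z) (ρ z) := by
  classical
  have hz' : z ∈ box 0 r := mem_box.2 hz
  refine ⟨fun y => if y = z then 1 else 0, fun y => by dsimp only; split_ifs <;> norm_num, ?_, ?_⟩
  · simp [ite_smul, Finset.sum_ite_eq', hz']
  · simp [ite_mul, Finset.sum_ite_eq', hz']

theorem rep_sum_Gauge {ρ : V d → ℝ} {r : ℕ} {ι : Type*} (s : Finset ι) (f : ι → Fin d → ℝ)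
    (c : ι → ℝ) (h : ∀ i ∈ s, Rep_Gauge ρ r (f i) (c i)) :
    Rep_Gauge ρ r (∑ i ∈ s, f i) (∑ i ∈ s, c i) := by
  classical
  induction s using Finset.induction_on with
  | empty => simpa using rep_zero_Gauge ρ r
  | insert i s hi ih =>
    rw [Finset.sum_insert hi, Finset.sum_insert hi]
    exact rep_add_Gauge (h i (Finset.mem_insert_self _ _))
      (ih fun j hj => h j (Finset.mem_insert_of_mem hj))

theorem n1_single_Gauge (i : Fin d) {s : ℤ} (hs : s.natAbs = 1) :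
    n1 0 (Pi.single i s : V d) = 1 := by
  classical
  unfold n1
  rw [Finset.sum_eq_single i]
  · simpa using hs
  · intro j _ hj
    simp [Pi.single_eq_of_ne hj]
  · simp

theorem exists_rep_Gauge {ρ : V d → ℝ} {b : ℝ} (hb : 0 ≤ b) (hup : ∀ x, ρ x ≤ b * n1 0 x)
    {r : ℕ} (hr : 1 ≤ r) (p : Fin d → ℝ) : ∃ c, Rep_Gauge ρ r p c ∧ c ≤ b * d * ‖p‖ := by
  classical
  set s : Fin d → ℤ := fun i => if 0 ≤ p i then 1 else -1 with hs
  have hs1 : ∀ i, (s i).natAbs = 1 := fun i => by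
    simp only [hs]; split_ifs <;> rfl
  have hs2 : ∀ i, |p i| * (s i : ℝ) = p i := fun i => by
    simp only [hs]
    split_ifs with h
    · simp [abs_of_nonneg h]
    · simp [abs_of_neg (not_le.1 h)]
  have h1 := rep_sum_Gauge (ρ := ρ) (r := r) Finset.univ
    (fun i => |p i| • toR (Pi.single i (s i) : V d))
    (fun i => |p i| * ρ (Pi.single i (s i) : V d)) fun i _ =>
      rep_smul_Gauge (abs_nonneg _) (rep_single_Gauge ρ
        ((nd_le_n1 _ _).trans ((n1_single_Gauge i (hs1 i)).le.trans hr)))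
  have h2 : ∑ i, |p i| • toR (Pi.single i (s i) : V d) = p := by
    funext j
    rw [Finset.sum_apply, Finset.sum_eq_single j]
    · simp [toR, hs2]
    · intro i _ hi
      simp [toR, Pi.single_eq_of_ne hi.symm]
    · simp
  rw [h2] at h1
  refine ⟨_, h1, ?_⟩
  calc ∑ i, |p i| * ρ (Pi.single i (s i) : V d) ≤ ∑ _i : Fin d, ‖p‖ * b := by
        refine Finset.sum_le_sum fun i _ => ?_
        have h3 := hup (Pi.single i (s i))
        rw [n1_single_Gauge i (hs1 i), Nat.cast_one, mul_one] at h3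
        calc |p i| * ρ (Pi.single i (s i) : V d) ≤ |p i| * b :=
              mul_le_mul_of_nonneg_left h3 (abs_nonneg _)
          _ ≤ ‖p‖ * b := mul_le_mul_of_nonneg_right (norm_le_pi_norm p i) hb
    _ = b * d * ‖p‖ := by simp; ring

theorem rep_lower_Gauge {ρ : V d → ℝ} {a : ℝ} (ha : 0 ≤ a) (hlo : ∀ x, a * nd 0 x ≤ ρ x)
    {r : ℕ} {p : Fin d → ℝ} {c : ℝ} (h : Rep_Gauge ρ r p c) : a * ‖p‖ ≤ c := by
  obtain ⟨l, hl, rfl, rfl⟩ := h
  calc a * ‖∑ z ∈ box 0 r, l z • toR z‖ ≤ a * ∑ z ∈ box 0 r, ‖l z • toR z‖ :=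
        mul_le_mul_of_nonneg_left (norm_sum_le _ _) ha
    _ = ∑ z ∈ box 0 r, l z * (a * nd 0 z) := by
        rw [Finset.mul_sum]
        refine Finset.sum_congr rfl fun z _ => ?_
        rw [norm_smul, Real.norm_of_nonneg (hl z), norm_toR]; ring
    _ ≤ _ := Finset.sum_le_sum fun z _ => mul_le_mul_of_nonneg_left (hlo z) (hl z)

theorem rho_nsmul_Gauge {ρ : V d → ℝ} (hadd : ∀ x y, ρ (x + y) ≤ ρ x + ρ y) (h0 : ρ 0 ≤ 0)
    (k : ℕ) (z : V d) : ρ (k • z) ≤ k * ρ z := by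
  induction k with
  | zero => simpa using h0
  | succ k ih =>
    rw [succ_nsmul]
    have := hadd (k • z) z
    push_cast
    linarith

theorem rho_sum_Gauge {ρ : V d → ℝ} (hadd : ∀ x y, ρ (x + y) ≤ ρ x + ρ y) (h0 : ρ 0 ≤ 0)
    {ι : Type*} (s : Finset ι) (f : ι → V d) : ρ (∑ i ∈ s, f i) ≤ ∑ i ∈ s, ρ (f i) := by
  classical
  induction s using Finset.induction_on with
  | empty => simpa using h0
  | insert i s hi ih =>
    rw [Finset.sum_insert hi, Finset.sum_insert hi]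
    have := hadd (f i) (∑ j ∈ s, f j)
    linarith

theorem rho_le_rep_Gauge {ρ : V d → ℝ} {a b : ℝ} (ha : 0 ≤ a) (hb : 0 ≤ b)
    (hadd : ∀ x y, ρ (x + y) ≤ ρ x + ρ y) (hlo : ∀ x, a * nd 0 x ≤ ρ x)
    (hup : ∀ x, ρ x ≤ b * n1 0 x) {r : ℕ} {z : V d} {c : ℝ} (h : Rep_Gauge ρ r (toR z) c) :
    ρ z ≤ c + (2 * r + 1 : ℝ) ^ d * r * (b * d) := by
  obtain ⟨l, hl, hz, rfl⟩ := h
  have h0 : ρ 0 ≤ 0 := by simpa using hup 0
  have hnn : ∀ y, 0 ≤ ρ y := fun y => (mul_nonneg ha (Nat.cast_nonneg _)).trans (hlo y)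
  set w : V d := ∑ y ∈ box 0 r, ⌊l y⌋₊ • y with hw
  have h1 : ρ w ≤ ∑ y ∈ box 0 r, l y * ρ y := by
    refine (rho_sum_Gauge hadd h0 _ _).trans (Finset.sum_le_sum fun y _ => ?_)
    exact (rho_nsmul_Gauge hadd h0 _ _).trans
      (mul_le_mul_of_nonneg_right (Nat.floor_le (hl y)) (hnn y))
  have h2 : toR (z - w) = ∑ y ∈ box 0 r, (l y - ⌊l y⌋₊) • toR y := by
    rw [toR_sub, ← hz]
    simp only [sub_smul, Finset.sum_sub_distrib]
    congr 1
    funext j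
    simp [hw, toR, Finset.sum_apply]
  have h3 : (nd 0 (z - w) : ℝ) ≤ (2 * r + 1 : ℝ) ^ d * r := by
    rw [← norm_toR, h2]
    calc ‖∑ y ∈ box 0 r, (l y - ⌊l y⌋₊) • toR y‖
        ≤ ∑ y ∈ box 0 r, ‖(l y - ⌊l y⌋₊) • toR y‖ := norm_sum_le _ _
      _ ≤ ∑ _y ∈ box (0 : V d) r, (r : ℝ) := by
          refine Finset.sum_le_sum fun y hy => ?_
          have e1 : 0 ≤ l y - ⌊l y⌋₊ := sub_nonneg.2 (Nat.floor_le (hl y))
          have e2 : l y - ⌊l y⌋₊ ≤ 1 := by linarith [Nat.lt_floor_add_one (l y)]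
          have e3 : (nd 0 y : ℝ) ≤ r := by exact_mod_cast mem_box.1 hy
          rw [norm_smul, Real.norm_of_nonneg e1, norm_toR]
          calc (l y - ⌊l y⌋₊) * (nd 0 y : ℝ) ≤ 1 * r :=
                mul_le_mul e2 e3 (Nat.cast_nonneg _) zero_le_one
            _ = r := one_mul _
      _ = (2 * r + 1 : ℝ) ^ d * r := by
          rw [Finset.sum_const, card_box, nsmul_eq_mul]; push_cast; ring
  have h4 : ρ (z - w) ≤ (2 * r + 1 : ℝ) ^ d * r * (b * d) := by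
    have e1 : (n1 0 (z - w) : ℝ) ≤ d * nd 0 (z - w) := by exact_mod_cast n1_le 0 (z - w)
    calc ρ (z - w) ≤ b * n1 0 (z - w) := hup _
      _ ≤ b * (d * ((2 * r + 1 : ℝ) ^ d * r)) :=
          mul_le_mul_of_nonneg_left
            (e1.trans (mul_le_mul_of_nonneg_left h3 (Nat.cast_nonneg _))) hb
      _ = _ := by ring
  have h5 := hadd w (z - w)
  rw [add_sub_cancel] at h5
  linarith

theorem exists_gauge {ρ : V d → ℝ} {a b : ℝ} (ha : 0 ≤ a) (hb : 0 ≤ b)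
    (hadd : ∀ x y, ρ (x + y) ≤ ρ x + ρ y) (hlo : ∀ x, a * nd 0 x ≤ ρ x)
    (hup : ∀ x, ρ x ≤ b * n1 0 x) {r : ℕ} (hr : 1 ≤ r) :
    ∃ N : (Fin d → ℝ) → ℝ, IsGauge N a (b * d) ∧ (∀ z, nd 0 z ≤ r → N (toR z) ≤ ρ z) ∧
      ∀ z, ρ z ≤ N (toR z) + (2 * r + 1 : ℝ) ^ d * r * (b * d) := by
  set N : (Fin d → ℝ) → ℝ := fun p => sInf {c | Rep_Gauge ρ r p c} with hN
  have hne : ∀ p, {c | Rep_Gauge ρ r p c}.Nonempty := fun p =>
    (exists_rep_Gauge hb hup hr p).imp fun _ h => h.1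
  have hle : ∀ {p c}, Rep_Gauge ρ r p c → N p ≤ c := fun {p c} h =>
    csInf_le ⟨a * ‖p‖, fun _ h' => rep_lower_Gauge ha hlo h'⟩ h
  have hge : ∀ {p x}, (∀ c, Rep_Gauge ρ r p c → x ≤ c) → x ≤ N p := fun {p x} h =>
    le_csInf (hne p) h
  have hlow : ∀ p, a * ‖p‖ ≤ N p := fun p => hge fun _ h => rep_lower_Gauge ha hlo h
  have hsm : ∀ (θ : ℝ) (p : Fin d → ℝ), 0 < θ → N (θ • p) ≤ θ * N p := fun θ p hθ => by
    rw [← div_le_iff₀' hθ]
    refine hge fun c h => ?_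
    rw [div_le_iff₀' hθ]
    exact hle (rep_smul_Gauge hθ.le h)
  refine ⟨N, ⟨fun θ p hθ => ?_, fun p q => ?_, hlow, fun p => ?_⟩,
    fun z hz => hle (rep_single_Gauge ρ hz), fun z => ?_⟩
  · rcases hθ.eq_or_lt with rfl | hθ
    · have h1 := hle (rep_zero_Gauge ρ r)
      have h2 := hlow 0
      simp only [norm_zero, mul_zero] at h2
      simp only [zero_smul, zero_mul]
      linarith
    · refine le_antisymm (hsm θ p hθ) ?_
      have h1 := hsm θ⁻¹ (θ • p) (inv_pos.2 hθ)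
      rw [inv_smul_smul₀ hθ.ne'] at h1
      calc θ * N p ≤ θ * (θ⁻¹ * N (θ • p)) := mul_le_mul_of_nonneg_left h1 hθ.le
        _ = N (θ • p) := by field_simp
  · have h1 : N (p + q) - N q ≤ N p := hge fun c h => by
      have h2 : N (p + q) - c ≤ N q := hge fun e h' => by
        linarith [hle (rep_add_Gauge h h')]
      linarith
    linarith
  · obtain ⟨c, h1, h2⟩ := exists_rep_Gauge hb hup hr p
    exact (hle h1).trans h2
  · have h1 : ρ z - (2 * r + 1 : ℝ) ^ d * r * (b * d) ≤ N (toR z) := hge fun c h => by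
      linarith [rho_le_rep_Gauge ha hb hadd hlo hup h]
    linarith

theorem RhoOK.exists_gaugeOK {m : ℕ} {ρ : V d → ℝ} (h : RhoOK m ρ) :
    ∃ N, GaugeOK m ρ N := by
  have ha : 0 ≤ sa d m := by unfold sa; positivity
  have hb : 0 ≤ sb m := by unfold sb; positivity
  have hr : 1 ≤ sr d m := Nat.one_le_pow _ _ (Nat.pos_of_ne_zero (by unfold sN; positivity))
  obtain ⟨N, h1, h2, h3⟩ := exists_gauge ha hb h.add h.lower h.upper hr
  exact ⟨N, h1, h2, h3⟩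

end Pool.Agent.MP_489c42_pr.H12
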