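import Pool.Agent.MP_489c42_pr.H12.Step
import Pool.Agent.MP_489c42_pr.H12.Gauge
import Pool.Agent.MP_489c42_pr.H12.Hier
import Pool.Agent.MP_489c42_pr.H12.H1L
import Pool.Agent.MP_489c42_pr.H12.ArrowTo
import Pool.Agent.MP_489c42_pr.H12.ArrowFrom

namespace Pool.Agent.MP_489c42_pr.H12

open MeasureTheory ProbabilityTheory Filter
open scoped NNReal

variable {d : ℕ}

theorem sN_succ_Core (m : ℕ) : (sN (m + 1) : ℝ) = 2 * sN m := by
  simp [sN, pow_succ, mul_comm]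

theorem sN_mono_Core {m m' : ℕ} (h : m ≤ m') : (sN m : ℝ) ≤ sN m' := by
  have : sN m ≤ sN m' := Nat.pow_le_pow_right (by norm_num) h
  exact_mod_cast this

theorem eK_ge_Core (d : ℕ) : 3 * eA d + 16 ≤ eK d := by
  unfold eK eT; nlinarith

theorem eA_ge_Core (d : ℕ) : 5 ≤ eA d := by unfold eA; omega

theorem triv_Core {U : Finset (V d)} {f : V d → ℝ} {s X Y : ℝ} (hY : 0 ≤ Y)
    (h : ∀ x, f x ≤ X → (nd 0 x : ℝ) ≤ Y) : ((shell U f s X).card : ℝ) ≤ (2 * Y + 1) ^ d := by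
  have h1 : shell U f s X ⊆ box 0 ⌊Y⌋₊ := by
    intro x hx
    rw [mem_box]
    exact Nat.le_floor (h x (mem_shell.1 hx).2.2)
  have h2 := Finset.card_le_card h1
  rw [card_box] at h2
  have h3 : ((shell U f s X).card : ℝ) ≤ (2 * (⌊Y⌋₊ : ℝ) + 1) ^ d := by exact_mod_cast h2
  refine h3.trans (pow_le_pow_left₀ (by positivity) ?_ d)
  have := Nat.floor_le hY
  linarith

/-- Numerical facts at the top scale. -/
theorem top_num_Core {m1 : ℕ} {t C A : ℝ} (hC : 1 ≤ C) (hA : 0 ≤ A) (ht : TScale d m1 t)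
    (hn : 100 * 2 ^ eK d * C + 24 * A + 2 ≤ sN m1) :
    C * t ≤ (sN m1 : ℝ) ^ (eK d + eA d) ∧ 24 * A * sN m1 ≤ sU d m1 ∧
      2 * m1 * (A + 1) * sN m1 ≤ sU d m1 ∧ (sN m1 : ℝ) ≤ t ∧
      t ≤ 100 * 2 ^ eK d * (sU d m1 : ℝ) := by
  obtain ⟨h1, h2⟩ := ht
  have hK := eK_ge_Core d
  have hα := eA_ge_Core d
  have hn1 := one_le_sN m1
  have hU : (sU d m1 : ℝ) = (sN m1 : ℝ) ^ eK d := by simp [sU]
  have hU' : (sU d (m1 + 1) : ℝ) = 2 ^ eK d * (sN m1 : ℝ) ^ eK d := by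
    simp only [sU, Nat.cast_pow, sN_succ_Core, mul_pow]
  have h2K : (1 : ℝ) ≤ 2 ^ eK d := one_le_pow₀ (by norm_num)
  have hm : (m1 : ℝ) ≤ sN m1 := by
    have : m1 ≤ sN m1 := (Nat.lt_two_pow_self).le
    exact_mod_cast this
  set n : ℝ := (sN m1 : ℝ)
  have e1 : 100 * 2 ^ eK d * C ≤ n := by linarith
  have e2 : 24 * A ≤ n := by nlinarith
  have e3 : 2 * (A + 1) ≤ n := by nlinarith
  refine ⟨?_, ?_, ?_, ?_, ?_⟩
  · calc C * t ≤ C * (100 * (2 ^ eK d * n ^ eK d)) := by rw [← hU']; gcongr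
      _ = (100 * 2 ^ eK d * C) * n ^ eK d := by ring
      _ ≤ _ := mul_pow_le_pow hn1 e1 (by omega)
  · rw [hU]
    have := mul_pow_le_pow (i := 1) (j := eK d) hn1 e2 (by omega)
    simpa using this
  · rw [hU]
    have := mul_pow_le_pow (i := 2) (j := eK d) hn1 e3 (by omega)
    calc 2 * m1 * (A + 1) * n ≤ 2 * n * (A + 1) * n := by gcongr
      _ = 2 * (A + 1) * n ^ 2 := by ring
      _ ≤ _ := this
  · have : n ^ 1 ≤ n ^ eK d := pow_le_pow_right₀ hn1 (by omega)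
    rw [hU] at h1
    nlinarith
  · rw [hU]; rw [hU'] at h2; linarith

open Classical in
/-- One application of the Kneser step at scale `m`. -/
theorem stepm_Core (P : Par d) (hd : 2 ≤ d) : ∃ m00 : ℕ, ∀ m m1, m00 ≤ m → m ≤ m1 →
    ∀ (w : V d → V d → ℝ) (ρ : ℕ → V d → ℝ) (Bad : ℕ → V d → Prop) (t : ℝ), Wt w →
      (∀ m, RhoOK m (ρ m)) → (∀ m x, ¬ Bad m x → CleanS P w m x ∧ Conc m (ρ m) w x) →
      (∀ x, That w P.A x ≤ sMax P m1 → x ∈ box 0 (sR d m1)) → Orig P w m1 → TScale d m1 t →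
      ∀ (s B : ℝ) (J : ℕ), t / 2 ≤ s → s ≤ 2 * t → 1 ≤ J →
        4 * J * ((sD d m : ℝ) + 4 * sE d m) ≤ sU d m →
        (((shell (box 0 (sR d m1)) (That w P.A) (s - sU d m)
          (s + P.A * (sN m : ℝ) ^ (eK d + eA d))).filter
            fun x => ∃ m', m ≤ m' ∧ m' ≤ m1 ∧ Bad m' x).card : ℝ) ≤ B →
        ((shell (box 0 (sR d m1)) (That w P.A) s (s + sD d m)).card : ℝ) ≤
          B + Real.exp (4 * d * J * ((sD d m : ℝ) + 4 * sE d m) / sU d m) / J *
            ((shell (box 0 (sR d m1)) (That w P.A)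
              (s - J * ((sD d m : ℝ) + 4 * sE d m) - 4 * sE d m) s).card + B) := by
  obtain ⟨ma, hma⟩ := arrow_to P hd
  obtain ⟨mb, hmb⟩ := arrow_from P hd
  obtain ⟨mc, hmc⟩ := exists_le_sN (100 * 2 ^ eK d * 2 + 24 * P.A + 2 + d)
  refine ⟨max (max ma mb) mc, ?_⟩
  intro m m1 hm hm1 w ρ Bad t hw hρ hBad hU hO ht s B J hs1 hs2 hJ hJu hB
  have hA4 := P.four_le_A (by omega)
  have hA : 0 ≤ P.A := by linarith
  have hK := eK_ge_Core d
  have hα := eA_ge_Core d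
  have hn1 := one_le_sN m
  have hd0 : (0 : ℝ) ≤ d := Nat.cast_nonneg d
  have h2K : (0 : ℝ) ≤ 2 ^ eK d := by positivity
  obtain ⟨t1, t2, -, t4, -⟩ := top_num_Core (C := 2) (by norm_num) hA ht
    (by have := hmc m1 (by omega); linarith)
  obtain ⟨N, hN⟩ := (hρ m).exists_gaugeOK
  have hUm : (sU d m : ℝ) = (sN m : ℝ) ^ eK d := by simp [sU]
  have hEm : (sE d m : ℝ) = (sN m : ℝ) ^ (eK d - 3) := by simp [sE]
  have hDm : (sD d m : ℝ) = (sN m : ℝ) ^ (eK d - 2) := by simp [sD]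
  have hdiv : P.A * sU d m / sa d m = P.A * (sN m : ℝ) ^ (eK d + eA d) := by
    rw [hUm, sa, pow_add]; field_simp
  have hUU : (sU d m : ℝ) ≤ sU d m1 := by
    have : (sU d m1 : ℝ) = (sN m1 : ℝ) ^ eK d := by simp [sU]
    rw [hUm, this]
    exact pow_le_pow_left₀ (by linarith) (sN_mono_Core hm1) _
  have hpw : (sN m : ℝ) ^ (eK d + eA d) ≤ (sN m1 : ℝ) ^ (eK d + eA d) :=
    pow_le_pow_left₀ (by linarith) (sN_mono_Core hm1) _
  have hS : s + P.A * (sN m : ℝ) ^ (eK d + eA d) ≤ sMax P m1 := by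
    unfold sMax
    have := mul_le_mul_of_nonneg_left hpw hA
    linarith
  have hu0 : (0 : ℝ) ≤ sU d m := Nat.cast_nonneg _
  have huA : (sU d m : ℝ) ≤ P.A * (sN m : ℝ) ^ (eK d + eA d) := by
    rw [hUm]
    have h1 : (sN m : ℝ) ^ eK d ≤ (sN m : ℝ) ^ (eK d + eA d) := pow_le_pow_right₀ hn1 (by omega)
    have h2 : (0 : ℝ) ≤ (sN m : ℝ) ^ (eK d + eA d) := by positivity
    nlinarith
  have hs' : 24 * P.A * sN m1 ≤ s - sU d m := by
    have := ht.1
    linarith
  have hg : IsGauge N (sa d m) (sE d m) := by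
    refine hN.gauge.mono ?_
    rw [hEm, sb, mul_comm]
    refine mul_pow_le_pow hn1 ?_ (by omega)
    have := hmc m (by omega)
    linarith
  have key := step (U := box 0 (sR d m1)) (f := That w P.A) (Smax := sMax P m1) (A := P.A)
    (N := N) (a := sa d m) (w := sE d m)
    (Good := fun x => ¬ ∃ m', m ≤ m' ∧ m' ≤ m1 ∧ Bad m' x) (u := sU d m) (δ := sD d m) (B := B)
    (s := s) (J := J) hU (That_lip hw hA) hg (sa_pos d m) ((sa_le_one d m).trans (by linarith))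
    (by rw [hEm]; positivity) (by rw [hDm]; positivity) hJ hJu
    (by rw [That_zero hw hA]; have : (0 : ℝ) ≤ 24 * P.A * sN m1 := by positivity
        linarith)
    (by rw [hdiv]; exact hS)
    (by
      intro x hx z σ h1 h2 h3
      push Not at hx
      exact hma m m1 (by omega) hm1 w (ρ m) N hw hN hO x
        (fun m' a b => (hBad m' x (hx m' a b)).1) (hBad m x (hx m le_rfl hm1)).2 _ σ z hs'
        (by linarith) h1 h2 h3)
    (by
      intro x hx σ h1 h2 h3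
      push Not at hx
      exact hmb m m1 (by omega) hm1 w (ρ m) N hw hN hO x
        (fun m' a b => (hBad m' x (hx m' a b)).1) (hBad m x (hx m le_rfl hm1)).2 _ σ hs' h1 h2
        (by linarith) h3)
    (by rw [hdiv]; simpa only [not_not] using hB)
  exact key

/-- The arithmetic of the generic step. -/
theorem gen_num_Core {x δ K' κ c1 c2 : ℝ} {d : ℕ} (hx : 4 ≤ x) (hδ : x ≤ δ) (hK : 0 ≤ K')
    (hκ : 0 ≤ κ) (h2 : c2 ≤ K' * (x * (δ + 4 * (δ / x)) + 4 * (δ / x) + κ * δ))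
    (h1 : c1 ≤ K' + Real.exp (4 * d * x * (δ + 4 * (δ / x)) / (δ * x ^ 2)) / x * (c2 + K')) :
    c1 ≤ K' * Real.exp ((8 * d + 10 + κ) / x) * δ := by
  have hx0 : 0 < x := by linarith
  have hδ0 : 0 < δ := by linarith
  have hd0 : (0 : ℝ) ≤ d := Nat.cast_nonneg d
  have hq : δ / x ≤ δ / 4 := div_le_div_of_nonneg_left hδ0.le (by norm_num) hx
  have hq1 : 1 ≤ δ / x := by rw [le_div_iff₀ hx0]; linarith
  have e1 : Real.exp (4 * d * x * (δ + 4 * (δ / x)) / (δ * x ^ 2)) ≤ Real.exp (8 * d / x) := by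
    apply Real.exp_le_exp.2
    calc 4 * d * x * (δ + 4 * (δ / x)) / (δ * x ^ 2) ≤ 4 * d * x * (2 * δ) / (δ * x ^ 2) := by
          gcongr; linarith
      _ = 8 * d / x := by field_simp; ring
  have e2 : 1 ≤ Real.exp (8 * d / x) := Real.one_le_exp (by positivity)
  have e3 : 1 + (10 + κ) / x ≤ Real.exp ((10 + κ) / x) := by
    have := Real.add_one_le_exp ((10 + κ) / x); linarith
  have e4 : (c2 + K') / x ≤ K' * (δ + (9 + κ) * (δ / x)) := by
    rw [div_le_iff₀ hx0]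
    have a1 : K' * (δ + (9 + κ) * (δ / x)) * x
        = K' * (x * (δ + 4 * (δ / x)) + 5 * δ + κ * δ) := by field_simp; ring
    rw [a1]
    have a2 : 4 * (δ / x) + 1 ≤ 5 * δ := by linarith
    nlinarith
  have e5 : 0 ≤ K' * (δ + (9 + κ) * (δ / x)) := by positivity
  calc c1 ≤ K' + Real.exp (4 * d * x * (δ + 4 * (δ / x)) / (δ * x ^ 2)) * ((c2 + K') / x) := by
        refine h1.trans (le_of_eq ?_)
        rw [div_mul_eq_mul_div, mul_div_assoc]
    _ ≤ K' + Real.exp (4 * d * x * (δ + 4 * (δ / x)) / (δ * x ^ 2)) *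
          (K' * (δ + (9 + κ) * (δ / x))) := by gcongr
    _ ≤ Real.exp (8 * d / x) * (K' * (δ / x)) + Real.exp (8 * d / x) *
          (K' * (δ + (9 + κ) * (δ / x))) := by
        gcongr
        calc K' = 1 * (K' * 1) := by ring
          _ ≤ _ := by gcongr
    _ = K' * (Real.exp (8 * d / x) * (1 + (10 + κ) / x)) * δ := by field_simp; ring
    _ ≤ K' * (Real.exp (8 * d / x) * Real.exp ((10 + κ) / x)) * δ := by gcongr
    _ = _ := by rw [← Real.exp_add, ← add_div, add_assoc]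

open Classical in
/-- The shell estimate at every scale between `m0` and `m1`. -/
theorem ind_Core (P : Par d) (hd : 2 ≤ d) : ∃ (m00 : ℕ) (C8 : ℝ), 0 < C8 ∧
    ∀ m0 m1, m00 ≤ m0 → m0 ≤ m1 →
    ∀ (w : V d → V d → ℝ) (ρ : ℕ → V d → ℝ) (Bad : ℕ → V d → Prop) (t : ℝ), Wt w →
      (∀ m, RhoOK m (ρ m)) → (∀ m x, ¬ Bad m x → CleanS P w m x ∧ Conc m (ρ m) w x) →
      TopOK Bad m0 m1 → Orig P w m1 → TScale d m1 t → ∀ k m, m + k = m1 → m0 ≤ m →
      ∀ s₁ s₂ : ℝ, 0.7 * t - (sU d m + 2 * m * (P.A + 1) * sN m1) ≤ s₁ → s₁ ≤ s₂ →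
        s₂ ≤ 1.3 * t + (sU d m + 2 * m * (P.A + 1) * sN m1) →
        ((shell (box 0 (sR d m1)) (That w P.A) s₁ s₂).card : ℝ) ≤
          C8 * t ^ (d - 1) * Real.exp (2 * (8 * d + 10 + 2 ^ eK d) / sN m) *
            (s₂ - s₁ + sD d m) := by
  obtain ⟨ma, hma⟩ := stepm_Core P hd
  obtain ⟨mb, hmb⟩ := lin P hd
  obtain ⟨mc, hmc⟩ := exists_le_sN (100 * 2 ^ eK d * 2 + 24 * P.A + 16 +
    12 * 17 ^ d * (3 * P.A + 2))
  have hc := P.c_pos
  refine ⟨max (max ma mb) (max mc 2), Real.exp d * (4 / P.c + 3) ^ d * (800 * 2 ^ eK d),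
    by positivity, ?_⟩
  intro m0 m1 hm0 hm01 w ρ Bad t hw hρ hBad hT hO ht
  have hA4 := P.four_le_A (by omega)
  have hA : 0 ≤ P.A := by linarith
  have hK := eK_ge_Core d
  have hα := eA_ge_Core d
  have hd0 : (0 : ℝ) ≤ d := Nat.cast_nonneg d
  have h2K : (0 : ℝ) ≤ 2 ^ eK d := by positivity
  have h17 : (0 : ℝ) ≤ 12 * 17 ^ d * (3 * P.A + 2) := by positivity
  obtain ⟨t1, t2, t3, t4, t5⟩ := top_num_Core (C := 2) (by norm_num) hA ht
    (by have := hmc m1 (by omega); linarith)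
  have hn1 := one_le_sN m1
  have ht1 : 1 ≤ t := hn1.trans t4
  have hlin := hmb m1 (by omega) w hw
    (hBad m1 0 (hT.not_bad (by omega) hm01 (by simp))).1
  have hU : ∀ x, That w P.A x ≤ sMax P m1 → x ∈ box 0 (sR d m1) :=
    fun x hx => mem_box.2 (hlin x _ hx le_rfl).2
  have hmax : 2 * t + P.A * (sN m1 : ℝ) ^ (eK d + eA d) ≤ sMax P m1 := by
    unfold sMax; linarith
  have hu1 : 100 * (sU d m1 : ℝ) ≤ t := ht.1
  -- the margins are small
  have hμ : ∀ m, m ≤ m1 → (sU d m : ℝ) + 2 * m * (P.A + 1) * sN m1 ≤ 0.02 * t := by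
    intro m hm
    have a1 : (sU d m : ℝ) ≤ sU d m1 := by
      simp only [sU, Nat.cast_pow]
      exact pow_le_pow_left₀ (Nat.cast_nonneg _) (sN_mono_Core hm) _
    have a2 : (m : ℝ) ≤ m1 := by exact_mod_cast hm
    have a3 : 2 * m * (P.A + 1) * sN m1 ≤ 2 * m1 * (P.A + 1) * sN m1 := by gcongr
    linarith
  set Kt : ℝ := Real.exp d * (4 / P.c + 3) ^ d * (800 * 2 ^ eK d) * t ^ (d - 1) with hKt
  have hKt0 : 0 ≤ Kt := by positivity
  set C7 : ℝ := 8 * d + 10 + 2 ^ eK d with hC7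
  have hC70 : 0 ≤ C7 := by positivity
  intro k
  induction k with
  | zero =>
    intro m hm hm0' s₁ s₂ h1 h12 h2
    obtain rfl : m = m1 := by omega
    have hn16 : (16 : ℝ) ≤ sN m := by have := hmc m (by omega); linarith
    have hμ' := hμ m le_rfl
    obtain ⟨κ, hκ⟩ : ∃ κ, eK d = κ + 3 := ⟨eK d - 3, by omega⟩
    have hUm : (sU d m : ℝ) = (sN m : ℝ) ^ κ * (sN m : ℝ) ^ 3 := by simp [sU, hκ, pow_add]
    have hEm : (sE d m : ℝ) = (sN m : ℝ) ^ κ := by simp [sE, hκ]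
    have hDm : (sD d m : ℝ) = (sN m : ℝ) ^ κ * sN m := by simp [sD, hκ, pow_succ]
    obtain ⟨j, hj⟩ : ∃ j, m = j + 2 := ⟨m - 2, by omega⟩
    have hJ : ((2 ^ (2 * j + 1) : ℕ) : ℝ) = (sN m : ℝ) ^ 2 / 8 := by
      simp only [sN, hj, Nat.cast_pow, Nat.cast_ofNat]
      ring
    have hpκ : (0 : ℝ) < (sN m : ℝ) ^ κ := by positivity
    have hJu : 4 * ((2 ^ (2 * j + 1) : ℕ) : ℝ) * ((sD d m : ℝ) + 4 * sE d m) ≤ sU d m := by
      rw [hJ, hUm, hEm, hDm]
      calc 4 * ((sN m : ℝ) ^ 2 / 8) * ((sN m : ℝ) ^ κ * sN m + 4 * (sN m : ℝ) ^ κ)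
          = (sN m : ℝ) ^ κ * ((sN m : ℝ) ^ 2 * ((sN m + 4) / 2)) := by ring
        _ ≤ (sN m : ℝ) ^ κ * ((sN m : ℝ) ^ 2 * sN m) := by gcongr; linarith
        _ = _ := by ring
    refine shell_cover (by positivity) (by rw [hDm]; positivity) h12 ?_
    intro s hs1 hs2
    have key := hma m m (by omega) le_rfl w ρ Bad t hw hρ hBad hU hO ht s 0 (2 ^ (2 * j + 1))
      (by linarith) (by linarith) Nat.one_le_two_pow hJu (by
        rw [Finset.filter_false_of_mem]
        · simp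
        · rintro x hx ⟨m', a, b, hb⟩
          obtain rfl : m' = m := by omega
          exact hT.not_bad (by omega) hm01 (mem_box.1 (mem_shell.1 hx).1) hb)
    have hE : Real.exp (4 * d * ((2 ^ (2 * j + 1) : ℕ) : ℝ) * ((sD d m : ℝ) + 4 * sE d m) /
        sU d m) ≤ Real.exp d := by
      apply Real.exp_le_exp.2
      rw [div_le_iff₀ (by rw [hUm]; positivity)]
      have := mul_le_mul_of_nonneg_left hJu hd0
      linarith
    have hcard : ((shell (box 0 (sR d m)) (That w P.A)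
        (s - ((2 ^ (2 * j + 1) : ℕ) : ℝ) * ((sD d m : ℝ) + 4 * sE d m) - 4 * sE d m) s).card : ℝ)
        ≤ ((4 / P.c + 3) * t) ^ d := by
      have b1 : 0 ≤ P.A * (sN m : ℝ) ^ (eK d + eA d) := by positivity
      refine (triv_Core (Y := 2 * t / P.c + sN m) (by positivity) ?_).trans
        (pow_le_pow_left₀ (by positivity) ?_ d)
      · intro x hx
        exact (hlin x (2 * t) (by linarith) (by linarith)).1
      · have : 2 * (2 * t / P.c) = 4 / P.c * t := by ring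
        linarith
    rw [zero_add, add_zero] at key
    have hpow : ((4 / P.c + 3) * t) ^ d = (4 / P.c + 3) ^ d * t ^ (d - 1) * t := by
      obtain ⟨d', rfl⟩ : ∃ d', d = d' + 1 := ⟨d - 1, by omega⟩
      rw [mul_pow, Nat.add_sub_cancel, pow_succ t]; ring
    have hE1 : 1 ≤ Real.exp (2 * C7 / sN m) := Real.one_le_exp (by positivity)
    have hJ0 : (0 : ℝ) < ((2 ^ (2 * j + 1) : ℕ) : ℝ) := by positivity
    have htJ : t / ((2 ^ (2 * j + 1) : ℕ) : ℝ) ≤ 800 * 2 ^ eK d * sD d m := by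
      rw [div_le_iff₀ hJ0, hJ, hDm]
      rw [hUm] at t5
      calc t ≤ _ := t5
        _ = _ := by ring
    calc _ ≤ _ := key
      _ ≤ Real.exp d / ((2 ^ (2 * j + 1) : ℕ) : ℝ) * ((4 / P.c + 3) * t) ^ d := by gcongr
      _ = Real.exp d * (4 / P.c + 3) ^ d * t ^ (d - 1) * (t / ((2 ^ (2 * j + 1) : ℕ) : ℝ)) := by
          rw [hpow]; ring
      _ ≤ Real.exp d * (4 / P.c + 3) ^ d * t ^ (d - 1) * (800 * 2 ^ eK d * sD d m) := by gcongr
      _ = Kt * 1 * sD d m := by rw [hKt]; ring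
      _ ≤ _ := by gcongr
  | succ k ih =>
    intro m hm hm0' s₁ s₂ h1 h12 h2
    have ih' := ih (m + 1) (by omega) (by omega)
    have hn16 : (16 : ℝ) ≤ sN m := by have := hmc m (by omega); linarith
    have hn0 : (0 : ℝ) < sN m := by linarith
    have hμ' := hμ m (by omega)
    obtain ⟨κ, hκ⟩ : ∃ κ, eK d = κ + 3 := ⟨eK d - 3, by omega⟩
    have hDm : (sD d m : ℝ) = (sN m : ℝ) ^ κ * sN m := by simp [sD, hκ, pow_succ]
    have hUm : (sU d m : ℝ) = sD d m * (sN m : ℝ) ^ 2 := by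
      rw [hDm]; simp only [sU, hκ, Nat.cast_pow]; ring
    have hEm : (sE d m : ℝ) = sD d m / sN m := by
      rw [hDm]; simp only [sE, hκ, Nat.add_sub_cancel, Nat.cast_pow]; field_simp
    have hpκ : (1 : ℝ) ≤ (sN m : ℝ) ^ κ := one_le_pow₀ (by linarith)
    have hD1 : (sN m : ℝ) ≤ sD d m := by rw [hDm]; exact le_mul_of_one_le_left hn0.le hpκ
    have hD0 : (0 : ℝ) < sD d m := by linarith
    have hD' : (sD d (m + 1) : ℝ) ≤ 2 ^ eK d * sD d m := by
      simp only [sD, Nat.cast_pow, sN_succ_Core, mul_pow]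
      gcongr
      · norm_num
      · omega
    have hU' : 2 * (sU d m : ℝ) ≤ sU d (m + 1) := by
      simp only [sU, Nat.cast_pow, sN_succ_Core, mul_pow]
      gcongr
      calc (2 : ℝ) = 2 ^ 1 := by norm_num
        _ ≤ _ := pow_le_pow_right₀ (by norm_num) (by omega)
    have hWm : (sW d m : ℝ) = (sN m : ℝ) ^ (3 * eK d) := by simp [sW]
    have hW1 : (sN m : ℝ) ^ (eK d + eA d) ≤ sW d m := by
      rw [hWm]; exact pow_le_pow_right₀ (by linarith) (by omega)
    have hW2 : (sU d m : ℝ) ≤ sW d m := by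
      rw [hWm]; simp only [sU, Nat.cast_pow]; exact pow_le_pow_right₀ (by linarith) (by omega)
    have hW3 : (sD d (m + 1) : ℝ) ≤ sW d m := by
      rw [hWm]; simp only [sD, Nat.cast_pow, sN_succ_Core]
      calc (2 * (sN m : ℝ)) ^ (eK d - 2) ≤ ((sN m : ℝ) ^ 2) ^ (eK d - 2) :=
            pow_le_pow_left₀ (by positivity)
              (by rw [sq]; exact mul_le_mul_of_nonneg_right (by linarith) hn0.le) _
        _ ≤ _ := by rw [← pow_mul]; exact pow_le_pow_right₀ (by linarith) (by omega)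
    have hW4 : (sN m : ℝ) ≤ sW d m := by
      rw [hWm]
      calc (sN m : ℝ) = (sN m : ℝ) ^ 1 := by norm_num
        _ ≤ _ := pow_le_pow_right₀ (by linarith) (by omega)
    have hq : (sD d m : ℝ) / sN m ≤ sD d m / 16 :=
      div_le_div_of_nonneg_left hD0.le (by norm_num) hn16
    have hJu : 4 * ((sN m : ℕ) : ℝ) * ((sD d m : ℝ) + 4 * sE d m) ≤ sU d m := by
      rw [hUm, hEm]
      calc 4 * ((sN m : ℕ) : ℝ) * ((sD d m : ℝ) + 4 * (sD d m / sN m))
          ≤ 4 * ((sN m : ℕ) : ℝ) * (2 * sD d m) := by gcongr; linarith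
        _ = 8 * (sD d m * sN m) := by ring
        _ ≤ sN m * (sD d m * sN m) := by gcongr; linarith
        _ = _ := by ring
    set K' : ℝ := Kt * Real.exp (2 * C7 / sN (m + 1)) with hK'
    have hK'0 : 0 ≤ K' := by positivity
    have hcast : ((m + 1 : ℕ) : ℝ) = m + 1 := by push_cast; ring
    have hAn : 0 ≤ P.A * sN m1 := by positivity
    have hE0 : (0 : ℝ) ≤ sE d m := Nat.cast_nonneg _
    refine shell_cover (by positivity) hD0 h12 ?_
    intro s hs1 hs2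
    have hB : (((shell (box 0 (sR d m1)) (That w P.A) (s - sU d m)
          (s + P.A * (sN m : ℝ) ^ (eK d + eA d))).filter
            fun x => ∃ m', m ≤ m' ∧ m' ≤ m1 ∧ Bad m' x).card : ℝ) ≤ K' := by
      refine (badcount hd (by omega) hm0' hT (shell (box 0 (sR d m1)) (That w P.A) (s - sU d m)
          (s + P.A * (sN m : ℝ) ^ (eK d + eA d))) _
          (fun x hx => mem_box.1 (mem_shell.1 hx).1) (Qc := K' * (3 * P.A + 2)) (by positivity)
          ?_ (fun y hy => Finset.mem_filter.1 hy)).trans ?_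
      · intro r hr1 hr2
        have hr1' : (sW d m : ℝ) ≤ r := by exact_mod_cast hr1
        have hr2' : (r : ℝ) ≤ sN m1 := by exact_mod_cast hr2
        have b1 : P.A * (sN m : ℝ) ^ (eK d + eA d) ≤ P.A * r :=
          mul_le_mul_of_nonneg_left (hW1.trans hr1') hA
        have b2 : P.A * r ≤ P.A * sN m1 := mul_le_mul_of_nonneg_left hr2' hA
        have b3 : P.A * (2 * sN m1) ≤ P.A * (sN m1 : ℝ) ^ (eK d + eA d) := by
          refine mul_le_mul_of_nonneg_left ?_ hA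
          have := mul_pow_le_pow (C := 2) (i := 1) (j := eK d + eA d) hn1
            (by have := hmc m1 (by omega); linarith) (by omega)
          simpa using this
        have b4 : 0 ≤ P.A * (sN m : ℝ) ^ (eK d + eA d) := by positivity
        have b5 : 0 ≤ P.A * r := by positivity
        have hsub := nbhd_shell (s₁ := s - sU d m) (s₂ := s + P.A * (sN m : ℝ) ^ (eK d + eA d))
          hA hU (That_lip hw hA) (r := r) (by linarith)
        have hc1 : ((nbhd (shell (box 0 (sR d m1)) (That w P.A) (s - sU d m)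
            (s + P.A * (sN m : ℝ) ^ (eK d + eA d))) r).card : ℝ) ≤ _ :=
          Nat.cast_le.2 (Finset.card_le_card hsub)
        have hu0 : (0 : ℝ) ≤ sU d m := Nat.cast_nonneg _
        refine hc1.trans ((ih' _ _ (by rw [hcast]; linarith) (by linarith)
          (by rw [hcast]; linarith)).trans ?_)
        rw [mul_assoc K']
        refine mul_le_mul_of_nonneg_left ?_ hK'0
        linarith
      · rw [div_le_iff₀ (by linarith)]
        have : 12 * 17 ^ d * (3 * P.A + 2) ≤ (sW d m : ℝ) := by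
          have := hmc m (by omega); linarith
        calc 12 * 17 ^ d * (K' * (3 * P.A + 2)) = K' * (12 * 17 ^ d * (3 * P.A + 2)) := by ring
          _ ≤ _ := by gcongr
    have key := hma m m1 (by omega) (by omega) w ρ Bad t hw hρ hBad hU hO ht s K' (sN m)
      (by linarith) (by linarith) Nat.one_le_two_pow hJu hB
    have hE4 : (sD d m : ℝ) + 4 * sE d m ≤ ((sN m : ℕ) : ℝ) * ((sD d m : ℝ) + 4 * sE d m) :=
      le_mul_of_one_le_left (by linarith) (by linarith)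
    have hu0 : (0 : ℝ) ≤ sU d m := Nat.cast_nonneg _
    have hprev := ih' (s - ((sN m : ℕ) : ℝ) * ((sD d m : ℝ) + 4 * sE d m) - 4 * sE d m) s
      (by rw [hcast]; linarith) (by linarith) (by rw [hcast]; linarith)
    rw [hUm, hEm] at key
    rw [hEm] at hprev
    have fin := gen_num_Core (d := d) (κ := 2 ^ eK d) (by linarith) hD1 hK'0 h2K
      (hprev.trans (mul_le_mul_of_nonneg_left (by linarith) hK'0)) key
    refine fin.trans (le_of_eq ?_)
    rw [hK', mul_assoc Kt, ← Real.exp_add, sN_succ_Core]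
    congr 3
    rw [hC7]; field_simp; ring

theorem core (P : Par d) (hd : 2 ≤ d) (C0 : ℝ) : ∃ (m00 : ℕ) (Cg : ℝ), 0 < Cg ∧
    ∀ m0 m1, m00 ≤ m0 → m0 ≤ m1 →
    ∀ (w : V d → V d → ℝ) (ρ : ℕ → V d → ℝ) (Bad : ℕ → V d → Prop) (t : ℝ), Wt w →
      (∀ m, RhoOK m (ρ m)) → (∀ m x, ¬ Bad m x → CleanS P w m x ∧ Conc m (ρ m) w x) →
      TopOK Bad m0 m1 → Orig P w m1 → TScale d m1 t → ∀ r : ℝ, 0 ≤ r → r ≤ C0 * t →
        ((shell (box 0 (sR d m1)) (That w P.A) (t - r) (t + r)).card : ℝ) ≤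
          Cg * t ^ (d - 1) * (r + sD d m0) := by
  obtain ⟨ma, C8, hC8, hma⟩ := ind_Core P hd
  obtain ⟨mb, hmb⟩ := lin P hd
  obtain ⟨mc, hmc⟩ := exists_le_sN (100 * 2 ^ eK d * (1 + |C0|) + 24 * P.A + 2)
  have hc := P.c_pos
  have hC0 := abs_nonneg C0
  refine ⟨max (max ma mb) (max mc 1), 2 * C8 * Real.exp (2 * (8 * d + 10 + 2 ^ eK d)) +
    4 * (2 * (1 + |C0|) / P.c + 3) ^ d, by positivity, ?_⟩
  intro m0 m1 hm0 hm01 w ρ Bad t hw hρ hBad hT hO ht r hr0 hr
  have hA4 := P.four_le_A (by omega)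
  have hA : 0 ≤ P.A := by linarith
  obtain ⟨t1, -, -, t4, -⟩ := top_num_Core (C := 1 + |C0|) (by linarith) hA ht
    (hmc m1 (by omega))
  have hn1 := one_le_sN m1
  have ht1 : 1 ≤ t := hn1.trans t4
  have hD0 : (0 : ℝ) ≤ sD d m0 := Nat.cast_nonneg _
  have hp : 0 ≤ t ^ (d - 1) := by positivity
  by_cases hr3 : r ≤ 0.3 * t
  · have hμ : 0 ≤ (sU d m0 : ℝ) + 2 * m0 * (P.A + 1) * sN m1 := by positivity
    have key := hma m0 m1 (by omega) hm01 w ρ Bad t hw hρ hBad hT hO ht (m1 - m0) m0 (by omega)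
      le_rfl (t - r) (t + r) (by linarith) (by linarith) (by linarith)
    have hE : Real.exp (2 * (8 * d + 10 + 2 ^ eK d) / sN m0) ≤
        Real.exp (2 * (8 * d + 10 + 2 ^ eK d)) :=
      Real.exp_le_exp.2 (div_le_self (by positivity) (one_le_sN m0))
    calc _ ≤ _ := key
      _ ≤ C8 * t ^ (d - 1) * Real.exp (2 * (8 * d + 10 + 2 ^ eK d)) * (2 * (r + sD d m0)) :=
          mul_le_mul (mul_le_mul_of_nonneg_left hE (by positivity)) (by linarith) (by linarith)
            (by positivity)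
      _ = 2 * C8 * Real.exp (2 * (8 * d + 10 + 2 ^ eK d)) * t ^ (d - 1) * (r + sD d m0) := by ring
      _ ≤ _ := by
          gcongr
          exact le_add_of_nonneg_right (by positivity)
  · have hlin := hmb m1 (by omega) w hw
      (hBad m1 0 (hT.not_bad (by omega) hm01 (by simp))).1
    have h1 : t + r ≤ (1 + |C0|) * t := by
      have : C0 * t ≤ |C0| * t := mul_le_mul_of_nonneg_right (le_abs_self _) (by linarith)
      linarith
    have hmax : (1 + |C0|) * t ≤ sMax P m1 := by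
      unfold sMax
      have : 0 ≤ P.A * (sN m1 : ℝ) ^ (eK d + eA d) := by positivity
      linarith
    have hcard : ((shell (box 0 (sR d m1)) (That w P.A) (t - r) (t + r)).card : ℝ)
        ≤ ((2 * (1 + |C0|) / P.c + 3) * t) ^ d := by
      refine (triv_Core (Y := (1 + |C0|) * t / P.c + sN m1) (by positivity) ?_).trans
        (pow_le_pow_left₀ (by positivity) ?_ d)
      · intro x hx
        exact (hlin x _ (hx.trans h1) hmax).1
      · have : 2 * ((1 + |C0|) * t / P.c) = 2 * (1 + |C0|) / P.c * t := by ring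
        linarith
    have hpow : ((2 * (1 + |C0|) / P.c + 3) * t) ^ d =
        (2 * (1 + |C0|) / P.c + 3) ^ d * t ^ (d - 1) * t := by
      obtain ⟨d', rfl⟩ : ∃ d', d = d' + 1 := ⟨d - 1, by omega⟩
      rw [mul_pow, Nat.add_sub_cancel, pow_succ t]; ring
    calc _ ≤ _ := hcard
      _ = _ := hpow
      _ ≤ (2 * (1 + |C0|) / P.c + 3) ^ d * t ^ (d - 1) * (4 * (r + sD d m0)) := by
          gcongr; linarith
      _ = 4 * (2 * (1 + |C0|) / P.c + 3) ^ d * t ^ (d - 1) * (r + sD d m0) := by ring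
      _ ≤ _ := by
          gcongr
          exact le_add_of_nonneg_left (by positivity)

end Pool.Agent.MP_489c42_pr.H12
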