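import Pool.Agent.MP_489c42_pr.H12.LemM

namespace Pool.Agent.MP_489c42_pr.H12

open MeasureTheory ProbabilityTheory Filter
open scoped NNReal

variable {d : ℕ}

theorem sN_succ_Deep (m : ℕ) : (sN (m + 1) : ℝ) = 2 * sN m := by
  unfold sN
  push_cast
  ring

theorem sN_mono_Deep {m m' : ℕ} (h : m ≤ m') : (sN m : ℝ) ≤ sN m' := by
  unfold sN
  exact_mod_cast Nat.pow_le_pow_right (by norm_num) h

theorem two_le_eK_Deep (d : ℕ) : 2 ≤ eK d := by
  unfold eK
  omega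

theorem sW_mono_Deep (d : ℕ) {m m' : ℕ} (h : m ≤ m') : (sW d m : ℝ) ≤ sW d m' := by
  unfold sW
  push_cast
  exact pow_le_pow_left₀ (by positivity) (sN_mono_Deep h) _

theorem sW_succ_Deep (d m : ℕ) : (sW d (m + 1) : ℝ) = 2 ^ (3 * eK d) * sW d m := by
  unfold sW
  push_cast
  rw [sN_succ_Deep, mul_pow]

theorem t_lt_Deep {m1 : ℕ} {t : ℝ} (hbig : (100 * 2 ^ eK d : ℝ) ≤ sN m1) (ht : TScale d m1 t) :
    t < (sN m1 : ℝ) ^ (eK d + 1) := by
  have h := ht.2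
  unfold sU at h
  push_cast at h
  rw [sN_succ_Deep, mul_pow, ← mul_assoc] at h
  exact h.trans_le (mul_pow_le_pow (one_le_sN m1) hbig (Nat.lt_succ_self _))

theorem deep_big (P : Par d) (hd : 2 ≤ d) : ∃ m00 : ℕ, ∀ m' m m1, m00 ≤ m' → m' ≤ m → m ≤ m1 →
    ∀ (w : V d → V d → ℝ) (t : ℝ) (y : V d), Wt w → Orig P w m1 → TScale d m1 t →
      (∀ m'', m' ≤ m'' → m'' ≤ m1 → CleanS P w m'' y) → (sW d (m - 1) : ℝ) ≤ t →
      That w P.A y ≤ t - sW d (m - 1) → t < T w 0 y →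
      BigEdges (sTh d m m') (sN m') w y ∧ y ∉ Ext w t := by
  classical
  obtain ⟨mM, hM⟩ := lemM P hd
  obtain ⟨mC, hC⟩ := exists_le_sN (48 * P.A + 100 * 2 ^ eK d + P.L0)
  refine ⟨mM + mC + 1, fun m' m m1 h0 h1 h2 w t y hw hO ht hcl hWt hy hT => ?_⟩
  have hA : 4 ≤ P.A := P.four_le_A (by omega)
  have hpow : (0 : ℝ) ≤ 100 * 2 ^ eK d := by positivity
  have hL0 : (0 : ℝ) ≤ P.L0 := by positivity
  obtain ⟨k, rfl⟩ : ∃ k, m = k + 1 := ⟨m - 1, by omega⟩
  simp only [Nat.add_sub_cancel] at hWt hy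
  have hk := hC k (by omega)
  have hm' := hC m' (by omega)
  have hm1 := hC m1 (by omega)
  have hK := two_le_eK_Deep d
  have hW : 24 * P.A * sN m' ≤ sW d k := by
    have e1 : (sN m' : ℝ) ≤ 2 * sN k := by
      rw [← sN_succ_Deep]
      exact sN_mono_Deep h1
    have e2 : (48 * P.A) * (sN k : ℝ) ^ 1 ≤ (sN k : ℝ) ^ (3 * eK d) :=
      mul_pow_le_pow (one_le_sN k) (by linarith) (by omega)
    unfold sW
    push_cast
    nlinarith
  have hW0 : (0 : ℝ) ≤ sW d k := by positivity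
  have hX : 24 * P.A * sN m1 ≤ t - sW d k / 2 := by
    have e2 : (48 * P.A) * (sN m1 : ℝ) ^ 1 ≤ (sN m1 : ℝ) ^ eK d :=
      mul_pow_le_pow (one_le_sN m1) (by linarith) (by omega)
    have e3 := ht.1
    unfold sU at e3
    push_cast at e3
    have : (0 : ℝ) ≤ (sN m1 : ℝ) ^ eK d := by positivity
    nlinarith
  have hMax : That w P.A y ≤ sMax P m1 := by
    have e1 := t_lt_Deep (by linarith) ht
    have e2 : (sN m1 : ℝ) ^ (eK d + 1) ≤ (sN m1 : ℝ) ^ (eK d + eA d) :=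
      pow_le_pow_right₀ (one_le_sN m1) (by unfold eA; omega)
    have e3 : (0 : ℝ) ≤ (sN m1 : ℝ) ^ (eK d + eA d) := by positivity
    unfold sMax
    nlinarith
  have key : ∀ g, Gd P w (lev P.L0 m') g → nd y g ≤ sN m' → T w 0 g ≤ t - sW d k / 4 := by
    intro g hg hyg
    have := hM m' m1 (by omega) (by omega) w hw hO y y g (t - sW d k / 2) hcl (by simp)
      (by linarith) hMax hX hg hyg
    linarith
  have hD : ¬ D1 P w (lev P.L0 m') y := hcl m' le_rfl (by omega) y (by simp)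
  have hrr : rr P.L0 (lev P.L0 m') ≤ sN m' := by
    refine (rr_le P _).trans (LL_lev_le ?_)
    have : (P.L0 : ℝ) ≤ sN m' := by linarith
    exact_mod_cast this
  have hn' : (0 : ℝ) < sN m' := zero_lt_one.trans_le (one_le_sN m')
  constructor
  · have hedge : ∀ p : Fin d × Bool, ∃ l, l + 1 ≤ sN m' ∧
        sTh d (k + 1) m' < w (ray y p.1 p.2 l) (ray y p.1 p.2 (l + 1)) := by
      rintro ⟨i, s⟩
      obtain ⟨j, hj, hg⟩ := E_ray P hd w _ hD i s
      have hjn : j ≤ sN m' := hj.trans hrr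
      have e1 := key _ hg (by rw [nd_ray]; exact hjn)
      have e2 := T_triangle hw 0 (ray y i s j) y
      have e3 := T_le_cost hw (isWalk_ray y i s 0 j) (Nat.zero_le j)
      rw [ray_zero, T_symm hw] at e3
      by_contra hcon
      push Not at hcon
      have e4 := cost_le_mul (w := w) (γ := ray y i s) (b := sTh d (k + 1) m') (Nat.zero_le j)
        fun l _ hl => hcon l (by omega)
      have e5 : sTh d (k + 1) m' * sN m' = sW d k / 4 := by
        unfold sTh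
        simp only [Nat.add_sub_cancel]
        field_simp
      have e6 : 0 ≤ sTh d (k + 1) m' := by
        unfold sTh
        positivity
      have e7 : (j : ℝ) ≤ sN m' := by exact_mod_cast hjn
      have e8 : sTh d (k + 1) m' * j ≤ sTh d (k + 1) m' * sN m' := by gcongr
      simp only [Nat.cast_zero, sub_zero] at e4
      linarith
    choose l hl hlw using hedge
    refine ⟨Finset.univ.image fun p : Fin d × Bool =>
      s(ray y p.1 p.2 (l p), ray y p.1 p.2 (l p + 1)), ?_, ?_⟩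
    · rw [Finset.card_image_of_injective]
      · simp [mul_comm]
      · intro p q h
        obtain ⟨e1, e2⟩ := ray_edge_inj h
        exact Prod.ext e1 e2
    · intro e he
      obtain ⟨p, -, rfl⟩ := Finset.mem_image.1 he
      refine ⟨_, _, rfl, ray_adj _ _ _ _, ?_, ?_, hlw p⟩
      · rw [nd_ray]
        exact (Nat.le_succ _).trans (hl p)
      · rw [nd_ray]
        exact hl p
  · rintro ⟨-, γ, hγ0, hinj, hadj, hγT⟩
    obtain ⟨j, hj⟩ := exit_of_injective hinj (rr P.L0 (lev P.L0 m'))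
    obtain ⟨l, -, -, hg, hl⟩ := E_fwd P hd w (lev P.L0 m') (γ := γ) (i := 0) (k := j)
      (by rw [hγ0]; exact hD) (fun q _ _ => hadj q) (Nat.zero_le j) hj
    rw [hγ0] at hl
    have e1 := key _ hg (hl.trans hrr)
    have e2 := hγT l
    linarith

theorem Out.That_le {w : V d → V d → ℝ} (hw : Wt w) {A t : ℝ} (hA : 0 ≤ A) {y : V d}
    (hy : y ∈ Out w t) : That w A y ≤ t + A := by
  obtain ⟨-, x, hx, hT⟩ := hy
  have h := Pool.Agent.MP_489c42_pr.H12.That_le hw hA y x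
  rw [nd_of_adj hx.symm] at h
  simp only [Nat.cast_one, mul_one] at h
  linarith

/-- The depth class of a point. -/
theorem exists_class {m0 m1 : ℕ} {t f : ℝ} (h1 : 1 ≤ m0) (hbig : 100 * 2 ^ eK d ≤ sN m1)
    (ht : TScale d m1 t) (hf0 : 0 ≤ f) (hf : f ≤ t - sW d m0) :
    ∃ m, m0 + 1 ≤ m ∧ m ≤ m1 ∧ (sW d (m - 1) : ℝ) ≤ t ∧ t - sW d m < f ∧
      f ≤ t - sW d (m - 1) := by
  classical
  have hK := two_le_eK_Deep d
  have hm1 : t - sW d m1 < f := by
    have e1 := t_lt_Deep (d := d) (by exact_mod_cast hbig) ht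
    have e2 : (sN m1 : ℝ) ^ (eK d + 1) ≤ (sN m1 : ℝ) ^ (3 * eK d) :=
      pow_le_pow_right₀ (one_le_sN m1) (by omega)
    unfold sW
    push_cast
    linarith
  have hex : ∃ m, t - sW d m < f := ⟨m1, hm1⟩
  have hlo : m0 + 1 ≤ Nat.find hex := by
    by_contra hcon
    have e1 := Nat.find_spec hex
    have e2 := sW_mono_Deep d (show Nat.find hex ≤ m0 by omega)
    linarith
  have hmin : f ≤ t - sW d (Nat.find hex - 1) :=
    not_lt.1 (Nat.find_min hex (by omega))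
  exact ⟨Nat.find hex, hlo, Nat.find_min' hex hm1, by linarith, Nat.find_spec hex, hmin⟩

theorem expo_Deep (hd : 2 ≤ d) : 3 * eK d + 1 + (eK d + eA d + 2) * d + 2 ≤ 3 * eK d * d := by
  obtain ⟨e, rfl⟩ : ∃ e, d = e + 2 := ⟨d - 2, by omega⟩
  have h : (eA (e + 2) + 2) * (e + 2) + 3 ≤ eK (e + 2) := by
    unfold eK eT eA
    nlinarith
  nlinarith [Nat.zero_le (eK (e + 2) * e)]

/-- The arithmetic of the number `kX`. -/
theorem kX_bound (hd : 2 ≤ d) : ∃ (m00 : ℕ) (C : ℝ), 0 < C ∧ ∀ m' m, m00 ≤ m' → m' ≤ m →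
    ∀ (Cp : ℝ) (τ : ℝ → ℝ), 0 ≤ Cp → (∀ θ, 0 ≤ τ θ) →
      (sW d m : ℝ) * (((kX d Cp τ m m' - 1) * (2 * (2 * sR d m') + 1) ^ d : ℕ) : ℝ) ≤
        (C * Cp * (sTh d m m' * τ (sTh d m m')) / sN m' + 1 / (sN m : ℝ) ^ 2) *
          (2 * sW d m + 1 : ℝ) ^ d := by
  obtain ⟨mC, hC⟩ := exists_le_sN 5
  refine ⟨mC + 1, 4 * Real.exp 2 * 2 ^ d * 2 ^ (3 * eK d), by positivity,
    fun m' m h0 h1 Cp τ hCp hτ => ?_⟩
  obtain ⟨k, rfl⟩ : ∃ k, m = k + 1 := ⟨m - 1, by omega⟩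
  have hn' := hC m' (by omega)
  have hn'0 : (0 : ℝ) < sN m' := by linarith
  have hnn := sN_mono_Deep h1
  have hn1 := one_le_sN (k + 1)
  have hτ0 := hτ (sTh d (k + 1) m')
  set θ := sTh d (k + 1) m' with hθ
  set W : ℝ := ((sW d (k + 1) : ℕ) : ℝ) with hW
  set n' : ℝ := ((sN m' : ℕ) : ℝ) with hn'def
  set n : ℝ := ((sN (k + 1) : ℕ) : ℝ) with hn
  have hW0 : 0 ≤ W := by rw [hW]; positivity
  have hp0 : 0 ≤ pE d Cp τ (k + 1) m' := by
    unfold pE
    positivity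
  have hk : ((kX d Cp τ (k + 1) m' - 1 : ℕ) : ℝ) ≤
      Real.exp 2 * (4 * W + 1) ^ d * pE d Cp τ (k + 1) m' + n := by
    have e0 : 1 ≤ kX d Cp τ (k + 1) m' := by
      unfold kX
      have : 1 ≤ 2 ^ (k + 1) := Nat.one_le_two_pow
      omega
    rw [Nat.cast_sub e0]
    unfold kX
    have e1 := Nat.ceil_lt_add_one (show 0 ≤ Real.exp 2 * (4 * W + 1) ^ d *
      pE d Cp τ (k + 1) m' by positivity)
    have e2 : n = 2 ^ (k + 1) := by
      rw [hn]
      unfold sN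
      push_cast
      rfl
    push_cast
    linarith
  have hR : (((2 * (2 * sR d m') + 1) ^ d : ℕ) : ℝ) ≤ n' ^ ((eK d + eA d + 2) * d) := by
    rw [pow_mul]
    push_cast
    refine pow_le_pow_left₀ (by positivity) ?_ _
    have e1 : (1 : ℝ) ≤ n' ^ (eK d + eA d + 1) := one_le_pow₀ (by linarith)
    have e2 : (sR d m' : ℝ) = n' ^ (eK d + eA d + 1) := by
      unfold sR
      push_cast
      rfl
    rw [e2, show eK d + eA d + 2 = (eK d + eA d + 1) + 1 from rfl, pow_succ n' (eK d + eA d + 1)]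
    nlinarith
  have hWθ : W = 2 ^ (3 * eK d) * (4 * n' * θ) := by
    rw [hW, sW_succ_Deep, hθ]
    unfold sTh
    simp only [Nat.add_sub_cancel]
    rw [← hn'def]
    field_simp
  have hθ0 : 0 ≤ θ := by
    rw [hθ]
    unfold sTh
    positivity
  have h4 : (4 * W + 1) ^ d ≤ 2 ^ d * (2 * W + 1) ^ d := by
    rw [← mul_pow]
    exact pow_le_pow_left₀ (by positivity) (by linarith) _
  have hp : pE d Cp τ (k + 1) m' * n' ^ ((eK d + eA d + 2) * d) = Cp * τ θ / n' ^ 2 := by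
    unfold pE eG
    rw [← hθ, ← hn'def, pow_add]
    field_simp
  have t1 : W * (Real.exp 2 * (4 * W + 1) ^ d * pE d Cp τ (k + 1) m' *
      n' ^ ((eK d + eA d + 2) * d)) ≤
      4 * Real.exp 2 * 2 ^ d * 2 ^ (3 * eK d) * Cp * (θ * τ θ) / n' * (2 * W + 1) ^ d := by
    rw [mul_assoc (Real.exp 2 * (4 * W + 1) ^ d), hp]
    calc W * (Real.exp 2 * (4 * W + 1) ^ d * (Cp * τ θ / n' ^ 2))
        ≤ W * (Real.exp 2 * (2 ^ d * (2 * W + 1) ^ d) * (Cp * τ θ / n' ^ 2)) := by gcongr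
      _ = _ := by
        generalize (2 * W + 1) ^ d = Y
        rw [hWθ]
        field_simp
  have t2 : W * (n * n' ^ ((eK d + eA d + 2) * d)) ≤ 1 / n ^ 2 * (2 * W + 1) ^ d := by
    have e1 : W = n ^ (3 * eK d) := by
      rw [hW, hn]
      unfold sW
      push_cast
      rfl
    have e2 : n' ^ ((eK d + eA d + 2) * d) ≤ n ^ ((eK d + eA d + 2) * d) := by gcongr
    have e3 : W ^ d ≤ (2 * W + 1) ^ d := pow_le_pow_left₀ hW0 (by linarith) _
    have e4 : n ^ (3 * eK d + 1 + (eK d + eA d + 2) * d + 2) ≤ n ^ (3 * eK d * d) :=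
      pow_le_pow_right₀ hn1 (expo_Deep hd)
    rw [one_div, inv_mul_eq_div, le_div_iff₀ (by positivity)]
    calc W * (n * n' ^ ((eK d + eA d + 2) * d)) * n ^ 2
        ≤ W * (n * n ^ ((eK d + eA d + 2) * d)) * n ^ 2 := by gcongr
      _ = n ^ (3 * eK d + 1 + (eK d + eA d + 2) * d + 2) := by
        rw [e1]
        ring
      _ ≤ n ^ (3 * eK d * d) := e4
      _ = W ^ d := by rw [e1, ← pow_mul]
      _ ≤ _ := e3
  rw [Nat.cast_mul]
  calc W * (((kX d Cp τ (k + 1) m' - 1 : ℕ) : ℝ) * (((2 * (2 * sR d m') + 1) ^ d : ℕ) : ℝ))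
      ≤ W * ((Real.exp 2 * (4 * W + 1) ^ d * pE d Cp τ (k + 1) m' + n) *
        n' ^ ((eK d + eA d + 2) * d)) := by gcongr
    _ ≤ _ := by
      linarith

end Pool.Agent.MP_489c42_pr.H12
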