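import Pool.Agent.MP_489c42_pr.H12.Stmt

/-! Definitions used only inside the proof. -/

namespace Pool.Agent.MP_489c42_pr.H12

open MeasureTheory ProbabilityTheory
open scoped NNReal

variable {d : ℕ}

/-! ### Lattice geometry, walks, passage times -/

/-- Sup-norm distance. -/
def nd (x y : V d) : ℕ := Finset.univ.sup fun i => (x i - y i).natAbs

/-- `ℓ¹` distance. -/
def n1 (x y : V d) : ℕ := ∑ i, (x i - y i).natAbs

/-- Sup-norm ball. -/
noncomputable def box (x : V d) (r : ℕ) : Finset (V d) :=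
  Fintype.piFinset fun i => Finset.Icc (x i - r) (x i + r)

/-- The `r`-neighbourhood of a finite set. -/
noncomputable def nbhd (S : Finset (V d)) (r : ℕ) : Finset (V d) := S.biUnion fun y => box y r

/-- `y` lies in the bounding box of `p` and `q`. -/
def InBB (p q y : V d) : Prop := ∀ i, min (p i) (q i) ≤ y i ∧ y i ≤ max (p i) (q i)

/-- The point `x + σ k e_i` (`σ = 1` for `s = true`, `σ = -1` for `s = false`). -/
def ray (x : V d) (i : Fin d) (s : Bool) (k : ℕ) : V d :=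
  Function.update x i (x i + if s then (k : ℤ) else -(k : ℤ))

/-- Symmetric nonnegative weights. -/
structure Wt (w : V d → V d → ℝ) : Prop where
  symm : ∀ x y, w x y = w y x
  nonneg : ∀ x y, 0 ≤ w x y

/-- `γ` is a nearest-neighbour walk on the time interval `[i, j]`. -/
def IsWalk (γ : ℕ → V d) (i j : ℕ) : Prop :=
  ∀ k, i ≤ k → k < j → (lattice d).Adj (γ k) (γ (k + 1))

/-- The cost of `γ` on the time interval `[i, j]`. -/
def cost (w : V d → V d → ℝ) (γ : ℕ → V d) (i j : ℕ) : ℝ :=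
  ∑ k ∈ Finset.Ico i j, w (γ k) (γ (k + 1))

/-- Passage time for the weights `w`. -/
noncomputable def T (w : V d → V d → ℝ) (x y : V d) : ℝ :=
  sInf {c | ∃ (γ : ℕ → V d) (n : ℕ), IsWalk γ 0 n ∧ γ 0 = x ∧ γ n = y ∧ c = cost w γ 0 n}

/-- The regularised passage time from the origin. -/
noncomputable def That (w : V d → V d → ℝ) (A : ℝ) (x : V d) : ℝ :=
  ⨅ y : V d, (T w 0 y + A * nd x y)

/-- Weights clipped to `[a, b]`. -/
def clip (a b : ℝ) (w : V d → V d → ℝ) : V d → V d → ℝ := fun y z => min (max (w y z) a) b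

open Classical in
/-- The points of `U` with `s₁ < f ≤ s₂`. -/
noncomputable def shell (U : Finset (V d)) (f : V d → ℝ) (s₁ s₂ : ℝ) : Finset (V d) :=
  U.filter fun x => s₁ < f x ∧ f x ≤ s₂

/-! ### Gauges -/

/-- A lattice point as a real vector. -/
def toR (x : V d) : Fin d → ℝ := fun i => (x i : ℝ)

/-- A positively homogeneous subadditive function comparable with the sup norm. -/
structure IsGauge (N : (Fin d → ℝ) → ℝ) (a Λ : ℝ) : Prop where
  hom : ∀ (θ : ℝ) (p : Fin d → ℝ), 0 ≤ θ → N (θ • p) = θ * N p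
  add : ∀ p q, N (p + q) ≤ N p + N q
  lower : ∀ p, a * ‖p‖ ≤ N p
  upper : ∀ p, N p ≤ Λ * ‖p‖

/-- Gauge distance from a finite set. -/
noncomputable def dA (N : (Fin d → ℝ) → ℝ) (A : Finset (V d)) (hA : A.Nonempty) (x : V d) : ℝ :=
  A.inf' hA fun z => N (toR (x - z))

/-! ### The hierarchy of bad points -/

/-- Scales `L₀, L₀³, L₀⁹, …`. -/
def LL (L0 : ℕ) : ℕ → ℕ
  | 0 => L0
  | i + 1 => LL L0 i ^ 3

/-- There are `k` points with property `Q` within distance `r` of `x`, pairwise more than `s`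
apart. -/
def Many (k r s : ℕ) (Q : V d → Prop) (x : V d) : Prop :=
  ∃ F : Finset (V d), F.card = k ∧ (∀ y ∈ F, nd x y ≤ r ∧ Q y) ∧
    ∀ y ∈ F, ∀ z ∈ F, y ≠ z → s < nd y z

/-- Bad points of level `i` over the base property `Q`. -/
def D (L0 : ℕ) (Q : V d → Prop) : ℕ → V d → Prop
  | 0 => Q
  | i + 1 => Many 4 (7 * LL L0 (i + 1)) (16 * LL L0 i) (D L0 Q i)

/-- The largest level `j ≤ m` with `L_j ≤ 2^m` (and `0` if there is none). -/
def lev (L0 m : ℕ) : ℕ := Nat.findGreatest (fun j => LL L0 j ≤ 2 ^ m) m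

/-! ### Parameters -/

/-- The constants fixed by the law of the weights. -/
structure Par (d : ℕ) where
  δ : ℝ
  M : ℝ
  L0 : ℕ
  hδ : 0 < δ
  hδ1 : δ ≤ 1
  hM : 1 ≤ M
  hL : 1000 * (d + 1) ≤ L0

/-- Lipschitz constant of the regularised time. -/
def Par.A (P : Par d) : ℝ := 4 * d * P.M

/-- Linear lower bound for passage times. -/
noncomputable def Par.c (P : Par d) : ℝ := P.δ / (2 * P.L0)

/-- A walk from `x` to distance `L` inside the ball of radius `L`, all of whose edges have weight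
at most `δ`. -/
def light (δ : ℝ) (L : ℕ) (w : V d → V d → ℝ) (x : V d) : Prop :=
  ∃ (γ : ℕ → V d) (n : ℕ), IsWalk γ 0 n ∧ γ 0 = x ∧ L ≤ nd x (γ n) ∧
    (∀ k ≤ n, nd x (γ k) ≤ L) ∧ ∀ k < n, w (γ k) (γ (k + 1)) ≤ δ

/-- An edge of weight more than `M` within distance `L` of `x`. -/
def heavy (M : ℝ) (L : ℕ) (w : V d → V d → ℝ) (x : V d) : Prop :=
  ∃ y z, (lattice d).Adj y z ∧ nd x y ≤ L ∧ nd x z ≤ L ∧ M < w y z

/-- The base property of the first hierarchy. -/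
def base1 (P : Par d) (w : V d → V d → ℝ) (x : V d) : Prop :=
  light P.δ P.L0 w x ∨ heavy P.M (3 * P.L0) w x

/-- Bad points of the first hierarchy. -/
def D1 (P : Par d) (w : V d → V d → ℝ) (j : ℕ) : V d → Prop := D P.L0 (base1 P w) j

/-- No bad point of level `j` within distance `ρ` of `x`. -/
def Clean (P : Par d) (w : V d → V d → ℝ) (j : ℕ) (x : V d) (ρ : ℕ) : Prop :=
  ∀ y, nd x y ≤ ρ → ¬ D1 P w j y

/-- Good points of level `j`. -/
def Gd (P : Par d) (w : V d → V d → ℝ) : ℕ → V d → Prop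
  | 0 => fun _ => True
  | j + 1 => fun g => Gd P w j g ∧
      ∃ i, ∀ y, nd g y ≤ 5 * LL P.L0 (j + 1) → y i = g i → ¬ D1 P w j y

/-- The distance a walk has to cover in order to meet a good point. -/
def rr (L0 : ℕ) : ℕ → ℕ
  | 0 => 0
  | j + 1 => 106 * LL L0 j

/-! ### Exponents and scales (`n = 2^m`) -/

def eA (d : ℕ) : ℕ := d + 5
def eT (d : ℕ) : ℕ := 3 * eA d + 9
def eK (d : ℕ) : ℕ := eT d * (d + 1) + 7
def eG (d : ℕ) : ℕ := (eK d + eA d + 2) * d + 2
def eB2 (d : ℕ) : ℕ := 3 * eG d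
def eB1 (d : ℕ) : ℕ := 3 * (3 * eK d * eB2 d + 4 * d * d + 2 * eG d)

/-- `n = 2^m`. -/
def sN (m : ℕ) : ℕ := 2 ^ m
/-- `u = n^K`. -/
def sU (d m : ℕ) : ℕ := sN m ^ eK d
/-- shell width `n^(K-2)`. -/
def sD (d m : ℕ) : ℕ := sN m ^ (eK d - 2)
/-- error `n^(K-3)`. -/
def sE (d m : ℕ) : ℕ := sN m ^ (eK d - 3)
/-- lower clipping level `n^(-α)`. -/
noncomputable def sa (d m : ℕ) : ℝ := 1 / (sN m : ℝ) ^ eA d
/-- upper clipping level `n^2`. -/
def sb (m : ℕ) : ℝ := (sN m : ℝ) ^ 2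
/-- small radius `n^θ`. -/
def sr (d m : ℕ) : ℕ := sN m ^ eT d
/-- big radius `n^(K+α+1)`. -/
def sR (d m : ℕ) : ℕ := sN m ^ (eK d + eA d + 1)
/-- base scale `n^(3K)` of the second hierarchy. -/
def sW (d m : ℕ) : ℕ := sN m ^ (3 * eK d)
/-- fluctuation bound at distance at most `r`. -/
def hLo (d m : ℕ) : ℝ := (sN m : ℝ) ^ (2 * eA d + 9)
/-- fluctuation bound at distance at most `2R`. -/
def hUp (d m : ℕ) : ℝ := (sN m : ℝ) ^ (eK d - 4)
/-- all levels of the regularised time that occur are at most this. -/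
def sMax (P : Par d) (m : ℕ) : ℝ := (P.A + 1) * (sN m : ℝ) ^ (eK d + eA d)
/-- threshold for big edges. -/
noncomputable def sTh (d m m' : ℕ) : ℝ := (sW d (m - 1) : ℝ) / (4 * sN m')

/-- No level-`lev m` bad point within distance `R_m` of `x`. -/
def CleanS (P : Par d) (w : V d → V d → ℝ) (m : ℕ) (x : V d) : Prop :=
  Clean P w (lev P.L0 m) x (sR d m)

/-- Good points near the origin are reached quickly. -/
def Orig (P : Par d) (w : V d → V d → ℝ) (m : ℕ) : Prop :=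
  ∀ g, Gd P w (lev P.L0 m) g → nd 0 g ≤ sN m → T w 0 g ≤ 5 * P.A * sN m

/-- The properties of the mean clipped passage time at scale `m`. -/
structure RhoOK (m : ℕ) (ρ : V d → ℝ) : Prop where
  add : ∀ x y, ρ (x + y) ≤ ρ x + ρ y
  lower : ∀ x, sa d m * nd 0 x ≤ ρ x
  upper : ∀ x, ρ x ≤ sb m * n1 0 x

/-- The gauge attached to `ρ` at scale `m`. -/
structure GaugeOK (m : ℕ) (ρ : V d → ℝ) (N : (Fin d → ℝ) → ℝ) : Prop where
  gauge : IsGauge N (sa d m) (sb m * d)
  le_rho : ∀ z, nd 0 z ≤ sr d m → N (toR z) ≤ ρ z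
  rho_le : ∀ z, ρ z ≤ N (toR z) + (2 * sr d m + 1 : ℝ) ^ d * sr d m * (sb m * d)

/-- Concentration of clipped passage times near `x` at scale `m`. -/
def Conc (m : ℕ) (ρ : V d → ℝ) (w : V d → V d → ℝ) (x : V d) : Prop :=
  ∀ y z, nd x y ≤ sR d m → nd x z ≤ sR d m →
    (nd y z ≤ sr d m → ρ (z - y) - hLo d m ≤ T (clip (sa d m) (sb m) w) y z) ∧
      T (clip (sa d m) (sb m) w) y z ≤ ρ (z - y) + hUp d m

/-- `2d` distinct edges of weight more than `θ` within distance `r` of `x`. -/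
def BigEdges (θ : ℝ) (r : ℕ) (w : V d → V d → ℝ) (x : V d) : Prop :=
  ∃ F : Finset (Sym2 (V d)), F.card = 2 * d ∧ ∀ e ∈ F, ∃ y z, e = s(y, z) ∧
    (lattice d).Adj y z ∧ nd x y ≤ r ∧ nd x z ≤ r ∧ θ < w y z

/-- The event `E_{m,m'}`. -/
def Ev (P : Par d) (m0 m m' : ℕ) (w : V d → V d → ℝ) (x : V d) : Prop :=
  (m' ≤ m0 ∨ ¬ CleanS P w (m' - 1) x) ∧ BigEdges (sTh d m m') (sN m') w x

/-- The bound for the probability of `E_{m,m'}`. -/
noncomputable def pE (d : ℕ) (Cp : ℝ) (τ : ℝ → ℝ) (m m' : ℕ) : ℝ :=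
  Cp * τ (sTh d m m') / (sN m' : ℝ) ^ eG d

/-- The number of separated points in the event `X_{m,m'}`. -/
noncomputable def kX (d : ℕ) (Cp : ℝ) (τ : ℝ → ℝ) (m m' : ℕ) : ℕ :=
  ⌈Real.exp 2 * (4 * sW d m + 1 : ℝ) ^ d * pE d Cp τ m m'⌉₊ + 2 ^ m

/-- The event `X_{m,m'}`: many separated points of `E_{m,m'}`. -/
def Xv (P : Par d) (m0 : ℕ) (Cp : ℝ) (τ : ℝ → ℝ) (m m' : ℕ) (w : V d → V d → ℝ) :
    V d → Prop :=
  Many (kX d Cp τ m m') (2 * sW d m) (2 * sR d m') (Ev P m0 m m' w)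

/-- The base property of the second hierarchy at scale `m`. -/
def bad2 (P : Par d) (m0 : ℕ) (Cp : ℝ) (τ : ℝ → ℝ) (ρ : ℕ → V d → ℝ) (m : ℕ)
    (w : V d → V d → ℝ) (x : V d) : Prop :=
  ¬ CleanS P w m x ∨ ¬ Conc m (ρ m) w x ∨ ∃ m', m0 ≤ m' ∧ m' ≤ m ∧ Xv P m0 Cp τ m m' w x

/-- No top-level bad point of the hierarchies over `Bad m`, `m0 ≤ m ≤ m1`, in the big box. -/
def TopOK (Bad : ℕ → V d → Prop) (m0 m1 : ℕ) : Prop :=
  ∀ m, m0 ≤ m → m ≤ m1 → ∀ x, nd 0 x ≤ sR d m1 →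
    ¬ D (sW d m) (Bad m) (lev (sW d m) m1) x

/-- `t` belongs to the scale `m1`. -/
def TScale (d m1 : ℕ) (t : ℝ) : Prop :=
  100 * (sU d m1 : ℝ) ≤ t ∧ t < 100 * (sU d (m1 + 1) : ℝ)

/-- Outer endpoints of boundary edges of the ball of radius `t`. -/
def Out (w : V d → V d → ℝ) (t : ℝ) : Set (V d) :=
  {y | t < T w 0 y ∧ ∃ x, (lattice d).Adj x y ∧ T w 0 x ≤ t}

/-- Those that are joined to infinity outside the ball. -/
def Ext (w : V d → V d → ℝ) (t : ℝ) : Set (V d) :=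
  {y | y ∈ Out w t ∧ ∃ γ : ℕ → V d, γ 0 = y ∧ Function.Injective γ ∧
    (∀ k, (lattice d).Adj (γ k) (γ (k + 1))) ∧ ∀ k, t < T w 0 (γ k)}

/-! ### The canonical probability space -/

open Classical in
/-- The weight function of a configuration. -/
noncomputable def wt (ω : E d → ℝ≥0) (x y : V d) : ℝ :=
  if h : (lattice d).Adj x y then (ω ⟨s(x, y), h⟩ : ℝ) else 0

/-- The product measure. -/
noncomputable def PP (d : ℕ) (ν : Measure ℝ≥0) : Measure (E d → ℝ≥0) :=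
  Measure.infinitePi fun _ : E d => ν

instance (ν : Measure ℝ≥0) [IsProbabilityMeasure ν] : IsProbabilityMeasure (PP d ν) := by
  unfold PP; infer_instance

/-- `A` depends only on the coordinates in `S`. -/
def Dep {ι X : Type*} (A : Set (ι → X)) (S : Set ι) : Prop :=
  ∀ η ζ : ι → X, (∀ i ∈ S, η i = ζ i) → η ∈ A → ζ ∈ A

/-- The edges with both endpoints within distance `r` of `x`. -/
def edgesIn (x : V d) (r : ℕ) : Set (E d) := {e | ∀ y ∈ (e : Sym2 (V d)), nd x y ≤ r}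

/-- Translation of edges by `v`. -/
def shiftE (v : V d) (e : E d) : E d :=
  ⟨Sym2.map (· + v) e.1, by
    obtain ⟨e, he⟩ := e
    induction e using Sym2.ind with
    | _ x y =>
      simp only [Sym2.map_mk, SimpleGraph.mem_edgeSet] at he ⊢
      simpa [lattice] using he⟩

/-- A measurable family of events, the one at `x` depending on the edges within distance `r` of
`x` and having probability at most `p`. -/
structure LocEv (ν : Measure ℝ≥0) (Q : (E d → ℝ≥0) → V d → Prop) (r : ℕ) (p : ℝ) : Prop where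
  meas : ∀ x, MeasurableSet {ω | Q ω x}
  dep : ∀ x, Dep {ω | Q ω x} (edgesIn x r)
  prob : ∀ x, (PP d ν).real {ω | Q ω x} ≤ p

/-- The mean clipped passage time at scale `m`. -/
noncomputable def rho (ν : Measure ℝ≥0) (m : ℕ) (z : V d) : ℝ :=
  ∫ ω, T (clip (sa d m) (sb m) (wt ω)) 0 z ∂(PP d ν)

/-- `P(Y > θ)`. -/
noncomputable def tau (d : ℕ) (ν : Measure ℝ≥0) (θ : ℝ) : ℝ :=
  ν.real {s | θ < (s : ℝ)} ^ (2 * d)

/-! ### Percolation -/

/-- Open connection using only vertices of `S`. -/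
def Conn (η : E d → Bool) (S : Set (V d)) : V d → V d → Prop :=
  Relation.ReflTransGen fun a b =>
    a ∈ S ∧ b ∈ S ∧ ∃ h : (lattice d).Adj a b, η ⟨s(a, b), h⟩ = true

/-- The open cluster of `x` reaches distance `n`. -/
def arm (x : V d) (n : ℕ) : Set (E d → Bool) := {η | ∃ y, n ≤ nd x y ∧ Conn η Set.univ x y}

/-- The neighbours of `x`. -/
noncomputable def nbrs (x : V d) : Finset (V d) :=
  (box x 1).filter fun y => ∑ i, |x i - y i| = 1

/-- The quantity `φ_p(S)` of Duminil-Copin and Tassion. -/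
noncomputable def phi (p : unitInterval) (S : Finset (V d)) : ℝ :=
  (p : ℝ) * ∑ x ∈ S, ∑ _y ∈ nbrs x \ S, (perc d p).real {η | Conn η S 0 x}

end Pool.Agent.MP_489c42_pr.H12
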