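import Pool.Agent.MP_489c42_pr.H12.ProbBase

namespace Pool.Agent.MP_489c42_pr.H12

open MeasureTheory ProbabilityTheory Filter
open scoped NNReal

variable {d : ℕ}

/-- bounded measurable real functions -/
def BM_ES {Ω : Type*} [MeasurableSpace Ω] (g : Ω → ℝ) : Prop :=
  Measurable g ∧ ∃ C, ∀ ω, |g ω| ≤ C

section BM

variable {Ω Ω' : Type*} [MeasurableSpace Ω] [MeasurableSpace Ω'] {g g' : Ω → ℝ}

lemma BM_ES.int (h : BM_ES g) (ν : Measure Ω) [IsFiniteMeasure ν] : Integrable g ν := by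
  obtain ⟨hm, C, hC⟩ := h
  exact Integrable.of_bound hm.aestronglyMeasurable C (Eventually.of_forall hC)

lemma BM_ES.comp (h : BM_ES g) {φ : Ω' → Ω} (hφ : Measurable φ) : BM_ES fun x => g (φ x) :=
  ⟨h.1.comp hφ, h.2.imp fun _ hC _ => hC _⟩

lemma BM_ES.const (c : ℝ) : BM_ES fun _ : Ω => c := ⟨measurable_const, |c|, fun _ => le_rfl⟩

lemma BM_ES.sub (h : BM_ES g) (h' : BM_ES g') : BM_ES fun x => g x - g' x := by
  obtain ⟨hm, C, hC⟩ := h
  obtain ⟨hm', C', hC'⟩ := h'
  exact ⟨hm.sub hm', C + C', fun x => (abs_sub _ _).trans (add_le_add (hC x) (hC' x))⟩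

lemma BM_ES.mul (h : BM_ES g) (h' : BM_ES g') : BM_ES fun x => g x * g' x := by
  obtain ⟨hm, C, hC⟩ := h
  obtain ⟨hm', C', hC'⟩ := h'
  refine ⟨hm.mul hm', C * C', fun x => ?_⟩
  rw [abs_mul]
  exact mul_le_mul (hC x) (hC' x) (abs_nonneg _) ((abs_nonneg _).trans (hC x))

lemma BM_ES.sq (h : BM_ES g) : BM_ES fun x => g x ^ 2 := by
  simpa only [pow_two] using h.mul h

lemma BM_ES.exp (h : BM_ES g) : BM_ES fun x => Real.exp (g x) := by
  obtain ⟨hm, C, hC⟩ := h
  refine ⟨hm.exp, Real.exp C, fun x => ?_⟩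
  rw [abs_of_pos (Real.exp_pos _)]
  exact Real.exp_le_exp.2 ((le_abs_self _).trans (hC x))

lemma BM_ES.avg {F : Ω × Ω' → ℝ} (h : BM_ES F) (ν : Measure Ω') [IsProbabilityMeasure ν] :
    BM_ES fun ω => ∫ x, F (ω, x) ∂ν := by
  obtain ⟨hm, C, hC⟩ := h
  refine ⟨(hm.stronglyMeasurable.integral_prod_right' (ν := ν)).measurable, C, fun ω => ?_⟩
  have := norm_integral_le_of_norm_le_const (μ := ν) (f := fun x => F (ω, x)) (C := C)
    (Eventually.of_forall fun x => hC _)
  simpa using this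

lemma var_le_ES (h : BM_ES g) (ν : Measure Ω) [IsProbabilityMeasure ν] (c : ℝ) :
    ∫ x, (g x - c) ^ 2 ∂ν = ∫ x, g x ^ 2 ∂ν - 2 * c * ∫ x, g x ∂ν + c ^ 2 := by
  have e : (fun x => (g x - c) ^ 2) = fun x => (g x ^ 2 - 2 * c * g x) + c ^ 2 := by
    funext x; ring
  rw [e, integral_add ((h.sq.sub ((BM_ES.const (2 * c)).mul h)).int ν) (integrable_const _),
    integral_sub (h.sq.int ν) ((h.int ν).const_mul _), integral_const_mul]
  simp

lemma var_le'_ES (h : BM_ES g) (ν : Measure Ω) [IsProbabilityMeasure ν] (c : ℝ) :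
    ∫ x, g x ^ 2 ∂ν - (∫ x, g x ∂ν) ^ 2 ≤ ∫ x, (g x - c) ^ 2 ∂ν := by
  rw [var_le_ES h]
  nlinarith [sq_nonneg (c - ∫ x, g x ∂ν)]

lemma jensen_ES (h : BM_ES g) (ν : Measure Ω) [IsProbabilityMeasure ν] :
    (∫ x, g x ∂ν) ^ 2 ≤ ∫ x, g x ^ 2 ∂ν := by
  have h1 := var_le_ES h ν (∫ x, g x ∂ν)
  have h2 : 0 ≤ ∫ x, (g x - ∫ x, g x ∂ν) ^ 2 ∂ν := integral_nonneg fun x => sq_nonneg _
  nlinarith

end BM

section ES

variable {ι X : Type*} [DecidableEq ι] [MeasurableSpace X] (μ : Measure X)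
  [IsProbabilityMeasure μ]

omit [IsProbabilityMeasure μ] in
lemma meas_upd_ES (i : ι) : Measurable fun p : (ι → X) × X => Function.update p.1 i p.2 :=
  measurable_update'

lemma upd_mp_ES (i : ι) :
    MeasurePreserving (fun p : (ι → X) × X => Function.update p.1 i p.2)
      ((Measure.infinitePi fun _ : ι => μ).prod μ) (Measure.infinitePi fun _ : ι => μ) := by
  refine ⟨meas_upd_ES i, ?_⟩
  apply Measure.eq_infinitePi
  intro s t ht
  rw [Measure.map_apply (meas_upd_ES i) (MeasurableSet.pi s.countable_toSet fun j _ => ht j)]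
  by_cases hi : i ∈ s
  · have : (fun p : (ι → X) × X => Function.update p.1 i p.2) ⁻¹' (Set.pi (↑s) t)
        = (Set.pi (↑(s.erase i)) t) ×ˢ t i := by
      ext p
      simp only [Set.mem_preimage, Set.mem_pi, Finset.mem_coe, Set.mem_prod, Finset.mem_erase]
      constructor
      · intro h
        refine ⟨fun j hj => ?_, ?_⟩
        · simpa [Function.update_of_ne hj.1] using h j hj.2
        · simpa using h i hi
      · rintro ⟨h1, h2⟩ j hj
        by_cases e : j = i
        · subst e; simpa using h2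
        · simpa [Function.update_of_ne e] using h1 j ⟨e, hj⟩
    rw [this, Measure.prod_prod, Measure.infinitePi_pi _ (fun j _ => ht j),
      Finset.prod_erase_mul _ _ hi]
  · have : (fun p : (ι → X) × X => Function.update p.1 i p.2) ⁻¹' (Set.pi (↑s) t)
        = (Set.pi (↑s) t) ×ˢ Set.univ := by
      ext p
      simp only [Set.mem_preimage, Set.mem_pi, Finset.mem_coe, Set.mem_prod, Set.mem_univ,
        and_true]
      refine forall_congr' fun j => forall_congr' fun hj => ?_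
      rw [Function.update_of_ne (by rintro rfl; exact hi hj)]
    rw [this, Measure.prod_prod, Measure.infinitePi_pi _ (fun j _ => ht j), measure_univ, mul_one]

lemma int_upd_ES (i : ι) {g : (ι → X) → ℝ} (hg : BM_ES g) :
    ∫ ω, g ω ∂(Measure.infinitePi fun _ : ι => μ) =
      ∫ ω, ∫ x, g (Function.update ω i x) ∂μ ∂(Measure.infinitePi fun _ : ι => μ) := by
  rw [← integral_prod (fun p : (ι → X) × X => g (Function.update p.1 i p.2))
    ((hg.comp (meas_upd_ES i)).int _)]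
  conv_lhs => rw [← (upd_mp_ES μ i).map_eq]
  exact integral_map (meas_upd_ES i).aemeasurable hg.1.aestronglyMeasurable

theorem efron_stein_ES (x0 : X) (S : Finset ι) : ∀ g : (ι → X) → ℝ, BM_ES g →
    (∀ η ζ : ι → X, (∀ i ∈ S, η i = ζ i) → g η = g ζ) →
    ∫ ω, g ω ^ 2 ∂(Measure.infinitePi fun _ : ι => μ) -
        (∫ ω, g ω ∂(Measure.infinitePi fun _ : ι => μ)) ^ 2 ≤
      ∑ i ∈ S, ∫ ω, (g (Function.update ω i x0) - g ω) ^ 2
        ∂(Measure.infinitePi fun _ : ι => μ) := by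
  induction S using Finset.induction_on with
  | empty =>
    intro g _ hdep
    have e : g = fun _ => g fun _ => x0 := funext fun η => hdep _ _ (by simp)
    rw [e]
    simp
  | insert i S hi ih =>
    intro g hg hdep
    set P : Measure (ι → X) := Measure.infinitePi fun _ : ι => μ with hP
    have hup : ∀ j : ι, Measurable fun ω : ι → X => Function.update ω j x0 :=
      fun j => measurable_update_left
    have hG := hg.comp (meas_upd_ES (X := X) i)
    have hx : ∀ ω : ι → X, BM_ES fun x => g (Function.update ω i x) :=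
      fun ω => hg.comp (measurable_update ω)
    set h : (ι → X) → ℝ := fun ω => ∫ x, g (Function.update ω i x) ∂μ with hh
    have hb : BM_ES h := hG.avg μ
    have hdep' : ∀ η ζ : ι → X, (∀ j ∈ S, η j = ζ j) → h η = h ζ := by
      intro η ζ e
      refine integral_congr_ae (Eventually.of_forall fun x => hdep _ _ fun j hj => ?_)
      by_cases hji : j = i
      · subst hji; simp
      · rw [Function.update_of_ne hji, Function.update_of_ne hji]
        exact e j ((Finset.mem_insert.1 hj).resolve_left hji)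
    have h1 := ih h hb hdep'
    have h2 : ∫ ω, g ω ∂P = ∫ ω, h ω ∂P := int_upd_ES μ i hg
    have h3 : ∫ ω, g ω ^ 2 ∂P - ∫ ω, h ω ^ 2 ∂P ≤
        ∫ ω, (g (Function.update ω i x0) - g ω) ^ 2 ∂P := by
      have hD := ((hg.comp (hup i)).sub hg).sq
      rw [int_upd_ES μ i hg.sq, int_upd_ES μ i hD,
        ← integral_sub ((hG.sq.avg μ).int _) (hb.sq.int _)]
      refine integral_mono (((hG.sq.avg μ).sub hb.sq).int _)
        (((hD.comp (meas_upd_ES i)).avg μ).int _) fun ω => ?_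
      refine (var_le'_ES (hx ω) μ (g (Function.update ω i x0))).trans_eq ?_
      refine integral_congr_ae (Eventually.of_forall fun x => ?_)
      simp only [Function.update_idem]
      ring
    have h4 : ∀ j ∈ S, ∫ ω, (h (Function.update ω j x0) - h ω) ^ 2 ∂P ≤
        ∫ ω, (g (Function.update ω j x0) - g ω) ^ 2 ∂P := by
      intro j hj
      have hji : j ≠ i := by rintro rfl; exact hi hj
      have hD := ((hg.comp (hup j)).sub hg).sq
      rw [int_upd_ES μ i hD]
      refine integral_mono (((hb.comp (hup j)).sub hb).sq.int _)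
        (((hD.comp (meas_upd_ES i)).avg μ).int _) fun ω => ?_
      have h5 := jensen_ES ((hx (Function.update ω j x0)).sub (hx ω)) μ
      rw [integral_sub ((hx _).int μ) ((hx ω).int μ)] at h5
      refine h5.trans_eq (integral_congr_ae (Eventually.of_forall fun x => ?_))
      simp only [Function.update_comm hji]
    rw [Finset.sum_insert hi, h2]
    have h6 := Finset.sum_le_sum h4
    linarith

lemma mgf_step_ES (S : Finset ι) (x0 : X) {F : (ι → X) → ℝ} (hF : BM_ES F)
    (hdep : ∀ η ζ : ι → X, (∀ i ∈ S, η i = ζ i) → F η = F ζ) {v : ℝ}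
    (hvar : ∀ ω, ∑ i ∈ S, (F (Function.update ω i x0) - F ω) ^ 2 ≤ v ^ 2) {t : ℝ}
    (ht : t ^ 2 * v ^ 2 ≤ 1 / 4) :
    mgf F (Measure.infinitePi fun _ : ι => μ) t ≤
      Real.exp (2 * (t ^ 2 * v ^ 2)) * mgf F (Measure.infinitePi fun _ : ι => μ) (t / 2) ^ 2 := by
  set P : Measure (ι → X) := Measure.infinitePi fun _ : ι => μ with hP
  have hg : BM_ES fun ω => Real.exp (t / 2 * F ω) := ((BM_ES.const _).mul hF).exp
  have h1 := efron_stein_ES μ x0 S _ hg fun η ζ e => by rw [hdep η ζ e]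
  have hsq : ∀ ω, Real.exp (t / 2 * F ω) ^ 2 = Real.exp (t * F ω) := fun ω => by
    rw [← Real.exp_nat_mul]; congr 1; push_cast; ring
  have hD : ∀ i : ι, BM_ES fun ω => (Real.exp (t / 2 * F (Function.update ω i x0)) -
      Real.exp (t / 2 * F ω)) ^ 2 := fun i => ((hg.comp measurable_update_left).sub hg).sq
  have h2 : ∑ i ∈ S, ∫ ω, (Real.exp (t / 2 * F (Function.update ω i x0)) -
      Real.exp (t / 2 * F ω)) ^ 2 ∂P ≤ t ^ 2 * v ^ 2 * mgf F P t := by
    rw [← integral_finsetSum _ fun i _ => (hD i).int P, mgf, ← integral_const_mul]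
    refine integral_mono (integrable_finsetSum _ fun i _ => (hD i).int P)
      ((((BM_ES.const t).mul hF).exp.int P).const_mul _) fun ω => ?_
    have h3 : ∀ i ∈ S, (Real.exp (t / 2 * F (Function.update ω i x0)) -
        Real.exp (t / 2 * F ω)) ^ 2 ≤
        t ^ 2 * Real.exp (t * F ω) * (F (Function.update ω i x0) - F ω) ^ 2 := by
      intro i hi
      set Δ := F (Function.update ω i x0) - F ω with hΔ
      have h4 : Δ ^ 2 ≤ v ^ 2 := (Finset.single_le_sum
        (f := fun i => (F (Function.update ω i x0) - F ω) ^ 2) (fun _ _ => sq_nonneg _) hi).trans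
        (hvar ω)
      have h5 : |t / 2 * Δ| ≤ 1 := by
        rw [← sq_le_one_iff_abs_le_one]
        nlinarith [mul_le_mul_of_nonneg_left h4 (sq_nonneg t)]
      have h6 := Real.abs_exp_sub_one_le h5
      have h7 : (Real.exp (t / 2 * Δ) - 1) ^ 2 ≤ t ^ 2 * Δ ^ 2 := by
        have := pow_le_pow_left₀ (abs_nonneg _) h6 2
        rw [sq_abs, mul_pow, sq_abs] at this
        nlinarith
      have h8 : Real.exp (t / 2 * F (Function.update ω i x0)) - Real.exp (t / 2 * F ω) =
          Real.exp (t / 2 * F ω) * (Real.exp (t / 2 * Δ) - 1) := by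
        rw [mul_sub, ← Real.exp_add, mul_one, hΔ]; congr 2; ring
      rw [h8, mul_pow, hsq]
      nlinarith [mul_le_mul_of_nonneg_left h7 (Real.exp_pos (t * F ω)).le]
    refine (Finset.sum_le_sum h3).trans ?_
    rw [← Finset.mul_sum]
    have h9 := mul_le_mul_of_nonneg_left (hvar ω)
      (mul_nonneg (sq_nonneg t) (Real.exp_pos (t * F ω)).le)
    exact h9.trans_eq (by ring)
  simp only [hsq] at h1
  have h10 : mgf F P t - mgf F P (t / 2) ^ 2 ≤ t ^ 2 * v ^ 2 * mgf F P t := h1.trans h2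
  have h11 : 0 ≤ mgf F P t := mgf_nonneg
  have h12 := Real.add_one_le_exp (2 * (t ^ 2 * v ^ 2))
  have h13 : 0 ≤ t ^ 2 * v ^ 2 := by positivity
  generalize t ^ 2 * v ^ 2 = s at *
  generalize mgf F P t = a at *
  have h14 := sq_nonneg (mgf F P (t / 2))
  generalize mgf F P (t / 2) ^ 2 = b at *
  have h15 : (1 - s) * a ≤ b := by linarith
  have h16 := mul_nonneg h11 (mul_nonneg h13 (by linarith : (0 : ℝ) ≤ 1 - 2 * s))
  calc a ≤ (2 * s + 1) * ((1 - s) * a) := by nlinarith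
    _ ≤ (2 * s + 1) * b := mul_le_mul_of_nonneg_left h15 (by linarith)
    _ ≤ Real.exp (2 * s) * b := mul_le_mul_of_nonneg_right h12 h14

lemma mgf_iter_ES {M : ℝ → ℝ} {v C : ℝ} (h0 : ∀ t, 0 ≤ M t)
    (hC : ∀ t, M t ≤ Real.exp (C * t ^ 2))
    (hs : ∀ t, t ^ 2 * v ^ 2 ≤ 1 / 4 → M t ≤ Real.exp (2 * (t ^ 2 * v ^ 2)) * M (t / 2) ^ 2)
    (k : ℕ) : ∀ t, t ^ 2 * v ^ 2 ≤ 1 / 4 →
      M t ≤ Real.exp (4 * (t ^ 2 * v ^ 2) + C * t ^ 2 / 2 ^ k) := by
  induction k with
  | zero =>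
    intro t _
    refine (hC t).trans (Real.exp_le_exp.2 ?_)
    have : 0 ≤ t ^ 2 * v ^ 2 := by positivity
    simp only [pow_zero, div_one]
    linarith
  | succ k ih =>
    intro t ht
    have h1 : 0 ≤ t ^ 2 * v ^ 2 := by positivity
    have h2 := ih (t / 2) (by nlinarith)
    refine (hs t ht).trans ?_
    refine (mul_le_mul_of_nonneg_left (pow_le_pow_left₀ (h0 _) h2 2)
      (Real.exp_pos _).le).trans_eq ?_
    rw [← Real.exp_nat_mul, ← Real.exp_add]
    congr 1
    push_cast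
    field_simp
    ring

end ES

theorem conc_tail {ι X : Type*} [DecidableEq ι] [MeasurableSpace X] (μ : Measure X)
    [IsProbabilityMeasure μ] (S : Finset ι) (x0 : X) {f : (ι → X) → ℝ} (hf : Measurable f)
    {B : ℝ} (hB : ∀ ω, |f ω| ≤ B) (hdep : ∀ η ζ : ι → X, (∀ i ∈ S, η i = ζ i) → f η = f ζ)
    {v : ℝ} (hv : 0 < v)
    (hvar : ∀ ω, ∑ i ∈ S, (f (Function.update ω i x0) - f ω) ^ 2 ≤ v ^ 2) (h : ℝ) :
    (Measure.infinitePi fun _ : ι => μ).real
        {ω | h ≤ |f ω - ∫ η, f η ∂(Measure.infinitePi fun _ : ι => μ)|} ≤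
      10 * Real.exp (-h / (2 * v)) := by
  set P : Measure (ι → X) := Measure.infinitePi fun _ : ι => μ with hP
  set F : (ι → X) → ℝ := fun ω => f ω - ∫ η, f η ∂P with hF
  have hFb : BM_ES F := BM_ES.sub ⟨hf, B, hB⟩ (BM_ES.const _)
  have hsub := hasSubgaussianMGF_of_mem_Icc (μ := P) (X := f) (a := -B) (b := B) hf.aemeasurable
    (Eventually.of_forall fun ω => abs_le.1 (hB ω))
  obtain ⟨C, hC⟩ : ∃ C : ℝ, ∀ t, mgf F P t ≤ Real.exp (C * t ^ 2) :=
    ⟨_ / 2, fun t => (hsub.mgf_le t).trans_eq (by rw [div_mul_eq_mul_div])⟩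
  have hM : ∀ t, t ^ 2 = (1 / (2 * v)) ^ 2 → mgf F P t ≤ 5 := by
    intro t ht
    have h1 : t ^ 2 * v ^ 2 = 1 / 4 := by rw [ht]; field_simp; norm_num
    obtain ⟨k, hk⟩ := pow_unbounded_of_one_lt (4 * (C * t ^ 2)) (one_lt_two (α := ℝ))
    have h2 := mgf_iter_ES (M := mgf F P) (v := v) (fun _ => mgf_nonneg) hC
      (fun s hs => mgf_step_ES μ S x0 hFb (fun η ζ e => by simp only [hF, hdep η ζ e])
        (fun ω => by simpa only [hF, sub_sub_sub_cancel_right] using hvar ω) hs) k t h1.le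
    have h3 : C * t ^ 2 / 2 ^ k ≤ 1 / 4 := by
      rw [div_le_iff₀ (by positivity)]; linarith
    have h4 : Real.exp (1 / 4) ≤ 4 / 3 := by
      have h5 := Real.add_one_le_exp (-(1 / 4))
      rw [Real.exp_neg, le_inv_comm₀ (by norm_num) (Real.exp_pos _)] at h5
      linarith
    refine h2.trans ((Real.exp_le_exp.2 (show _ ≤ 1 + 1 / 4 by linarith)).trans ?_)
    rw [Real.exp_add]
    nlinarith [Real.exp_one_lt_d9, Real.exp_pos 1, Real.exp_pos (1 / 4)]
  have hint : ∀ t, Integrable (fun ω => Real.exp (t * F ω)) P := fun t =>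
    ((BM_ES.const t).mul hFb).exp.int P
  have hp : (0 : ℝ) ≤ 1 / (2 * v) := by positivity
  have h1 := measure_ge_le_exp_mul_mgf (μ := P) (X := F) h hp (hint _)
  have h2 := measure_le_le_exp_mul_mgf (μ := P) (X := F) (-h) (neg_nonpos.2 hp) (hint _)
  have e1 : -(1 / (2 * v)) * h = -h / (2 * v) := by ring
  have e2 : -(-(1 / (2 * v))) * -h = -h / (2 * v) := by ring
  rw [e1] at h1
  rw [e2] at h2
  have h3 := mul_le_mul_of_nonneg_left (hM _ rfl) (Real.exp_pos (-h / (2 * v))).le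
  have h4 := mul_le_mul_of_nonneg_left (hM _ (neg_sq _)) (Real.exp_pos (-h / (2 * v))).le
  have h5 : {ω | h ≤ |F ω|} ⊆ {ω | h ≤ F ω} ∪ {ω | F ω ≤ -h} := fun ω hω =>
    (le_abs'.1 (show h ≤ |F ω| from hω)).symm
  have h6 := (measureReal_mono h5 (measure_ne_top P _)).trans (measureReal_union_le _ _)
  change P.real {ω | h ≤ |F ω|} ≤ _
  linarith

end Pool.Agent.MP_489c42_pr.H12
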