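import Pool.Agent.MP_489c42_pr.H12.Geo

namespace Pool.Agent.MP_489c42_pr.H12

open MeasureTheory ProbabilityTheory Filter
open scoped NNReal

variable {d : ℕ}

theorem tau_nonneg (d : ℕ) (ν : Measure ℝ≥0) (θ : ℝ) : 0 ≤ tau d ν θ :=
  pow_nonneg measureReal_nonneg _

/-- All coordinates exceed `θ`. -/
def allGt_EYL (d : ℕ) (θ : ℝ) : Set (Fin (2 * d) → ℝ≥0) :=
  Set.pi Set.univ fun _ => {s : ℝ≥0 | θ < (s : ℝ)}

theorem measurableSet_gt_EYL (θ : ℝ) : MeasurableSet {s : ℝ≥0 | θ < (s : ℝ)} :=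
  measurableSet_lt measurable_const measurable_coe_nnreal_real

theorem measurableSet_allGt_EYL (d : ℕ) (θ : ℝ) : MeasurableSet (allGt_EYL d θ) :=
  MeasurableSet.univ_pi fun _ => measurableSet_gt_EYL θ

theorem real_allGt_EYL (ν : Measure ℝ≥0) [IsProbabilityMeasure ν] (θ : ℝ) :
    (Measure.pi fun _ : Fin (2 * d) => ν).real (allGt_EYL d θ) = tau d ν θ := by
  unfold allGt_EYL tau
  rw [Measure.real, Measure.pi_pi]
  simp [Measure.real]

theorem le_iInf_EYL (hd : 1 ≤ d) {θ : ℝ} {y : Fin (2 * d) → ℝ≥0} (hy : y ∈ allGt_EYL d θ) :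
    θ ≤ ((⨅ i, y i : ℝ≥0) : ℝ) := by
  have : Nonempty (Fin (2 * d)) := ⟨⟨0, by omega⟩⟩
  obtain ⟨i, hi⟩ := exists_eq_ciInf_of_finite (f := y)
  rw [← hi]
  exact (hy i (Set.mem_univ i)).le

theorem measurable_min_EYL (d : ℕ) (t : ℝ) :
    Measurable fun y : Fin (2 * d) → ℝ≥0 => min ((⨅ i, y i : ℝ≥0) : ℝ) t := by
  refine Measurable.min ?_ measurable_const
  refine measurable_coe_nnreal_real.comp ?_
  exact Measurable.iInf fun i => measurable_pi_apply i

theorem integrable_min_EYL (d : ℕ) (ν : Measure ℝ≥0) [IsProbabilityMeasure ν] {t : ℝ}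
    (ht : 0 ≤ t) :
    Integrable (fun y : Fin (2 * d) → ℝ≥0 => min ((⨅ i, y i : ℝ≥0) : ℝ) t)
      (Measure.pi fun _ => ν) := by
  refine Integrable.of_bound (measurable_min_EYL d t).aestronglyMeasurable t
    (Eventually.of_forall fun y => ?_)
  rw [Real.norm_eq_abs, abs_of_nonneg (le_min (NNReal.coe_nonneg _) ht)]
  exact min_le_right _ _

theorem integral_ind_EYL (ν : Measure ℝ≥0) [IsProbabilityMeasure ν] (θ c : ℝ) :
    ∫ y, (allGt_EYL d θ).indicator (fun _ => c) y ∂(Measure.pi fun _ : Fin (2 * d) => ν) =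
      c * tau d ν θ := by
  rw [integral_indicator_const _ (measurableSet_allGt_EYL d θ), real_allGt_EYL, smul_eq_mul,
    mul_comm]

theorem integrable_ind_EYL (ν : Measure ℝ≥0) [IsProbabilityMeasure ν] (θ c : ℝ) :
    Integrable (fun y => (allGt_EYL d θ).indicator (fun _ => c) y)
      (Measure.pi fun _ : Fin (2 * d) => ν) :=
  (integrable_const c).indicator (measurableSet_allGt_EYL d θ)

theorem EY_lower (hd : 1 ≤ d) (ν : Measure ℝ≥0) [IsProbabilityMeasure ν] {δ t : ℝ} (hδ : 0 < δ)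
    (ht : δ ≤ t) : δ * tau d ν δ ≤ EY d ν t := by
  rw [← integral_ind_EYL]
  refine integral_mono (integrable_ind_EYL ν δ δ) (integrable_min_EYL d ν (hδ.le.trans ht))
    fun y => ?_
  by_cases hy : y ∈ allGt_EYL d δ
  · simp only [Set.indicator_of_mem hy]
    exact le_min (le_iInf_EYL hd hy) ht
  · simp only [Set.indicator_of_notMem hy]
    exact le_min (NNReal.coe_nonneg _) (hδ.le.trans ht)

theorem geo_Icc_EYL (f : ℕ → ℝ) (h0 : ∀ k, 0 ≤ f k) (h2 : ∀ k, 1 ≤ k → 2 * f k ≤ f (k + 1))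
    (n : ℕ) : ∑ k ∈ Finset.Icc 1 n, f k ≤ 2 * f n := by
  induction n with
  | zero => simpa using h0 0
  | succ n ih =>
    rw [Finset.sum_Icc_succ_top (by omega)]
    rcases Nat.eq_zero_or_pos n with rfl | hn
    · simpa using by linarith [h0 1]
    · linarith [h2 n hn]

theorem geo_sum_EYL (f : ℕ → ℝ) (h0 : ∀ k, 0 ≤ f k) (h2 : ∀ k, 1 ≤ k → 2 * f k ≤ f (k + 1))
    (S : Finset ℕ) (hS : ∀ k ∈ S, 1 ≤ k) {B : ℝ} (hB : 0 ≤ B) (hf : ∀ k ∈ S, f k ≤ B) :
    ∑ k ∈ S, f k ≤ 2 * B := by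
  rcases S.eq_empty_or_nonempty with rfl | hne
  · simpa using hB
  · have hsub : S ⊆ Finset.Icc 1 (S.max' hne) := fun k hk =>
      Finset.mem_Icc.2 ⟨hS k hk, S.le_max' k hk⟩
    calc ∑ k ∈ S, f k ≤ ∑ k ∈ Finset.Icc 1 (S.max' hne), f k :=
          Finset.sum_le_sum_of_subset_of_nonneg hsub fun k _ _ => h0 k
      _ ≤ 2 * f (S.max' hne) := geo_Icc_EYL f h0 h2 _
      _ ≤ 2 * B := by linarith [hf _ (S.max'_mem hne)]

theorem sN_pos_EYL (m : ℕ) : (1 : ℝ) ≤ sN m := by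
  unfold sN
  exact_mod_cast Nat.one_le_two_pow

theorem sTh_nonneg_EYL (d m m' : ℕ) : 0 ≤ sTh d m m' := by
  unfold sTh
  positivity

theorem sW_double_EYL (d k : ℕ) : 2 * sW d k ≤ sW d (k + 1) := by
  unfold sW sN
  have hK : 3 * eK d ≠ 0 := by unfold eK; omega
  rw [pow_succ, mul_pow, mul_comm]
  refine Nat.mul_le_mul_left _ ?_
  exact Nat.le_self_pow hK 2

theorem sTh_double_EYL (d m' k : ℕ) (hk : 1 ≤ k) : 2 * sTh d k m' ≤ sTh d (k + 1) m' := by
  unfold sTh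
  obtain ⟨j, rfl⟩ : ∃ j, k = j + 1 := ⟨k - 1, by omega⟩
  simp only [Nat.add_sub_cancel]
  have h := sW_double_EYL d j
  have h' : 2 * (sW d j : ℝ) ≤ sW d (j + 1) := by exact_mod_cast h
  have hp := sN_pos_EYL m'
  rw [← mul_div_assoc]
  exact div_le_div_of_nonneg_right h' (by positivity)

theorem sTh_le_EYL (d m m' : ℕ) : sTh d m m' ≤ sW d (m - 1) := by
  unfold sTh
  have hp := sN_pos_EYL m'
  exact div_le_self (Nat.cast_nonneg _) (by linarith)

open Classical in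
theorem tau_sum (hd : 1 ≤ d) (ν : Measure ℝ≥0) [IsProbabilityMeasure ν] {t : ℝ} (ht : 0 ≤ t)
    (m0 m1 m' : ℕ) :
    ∑ m ∈ (Finset.Icc (m0 + 1) m1).filter (fun m => (sW d (m - 1) : ℝ) ≤ t),
      sTh d m m' * tau d ν (sTh d m m') ≤ 2 * EY d ν t := by
  set S := (Finset.Icc (m0 + 1) m1).filter (fun m => (sW d (m - 1) : ℝ) ≤ t) with hS
  simp only [← integral_ind_EYL]
  rw [← integral_finsetSum _ fun m _ => integrable_ind_EYL ν _ _]
  unfold EY
  rw [← integral_const_mul]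
  refine integral_mono (integrable_finsetSum _ fun m _ => integrable_ind_EYL ν _ _)
    ((integrable_min_EYL d ν ht).const_mul 2) fun y => ?_
  simp only [Set.indicator_apply]
  rw [← Finset.sum_filter]
  refine geo_sum_EYL (fun m => sTh d m m') (fun k => sTh_nonneg_EYL d k m')
    (fun k hk => sTh_double_EYL d m' k hk) _ (fun k hk => ?_)
    (le_min (NNReal.coe_nonneg _) ht) fun k hk => ?_
  · have := (Finset.mem_Icc.1 (Finset.mem_filter.1 (Finset.mem_filter.1 hk).1).1).1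
    omega
  · have h1 := (Finset.mem_filter.1 (Finset.mem_filter.1 hk).1).2
    have h2 := (Finset.mem_filter.1 hk).2
    exact le_min (le_iInf_EYL hd h2) ((sTh_le_EYL d k m').trans h1)

end Pool.Agent.MP_489c42_pr.H12
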