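import Pool.Agent.MP_489c42_pr.H12.Core
import Pool.Agent.MP_489c42_pr.H12.Deep

namespace Pool.Agent.MP_489c42_pr.H12

open MeasureTheory ProbabilityTheory Filter
open scoped NNReal

variable {d : ℕ}

lemma geom_Final (s : Finset ℕ) : ∑ m ∈ s, 1 / (sN m : ℝ) ≤ 2 := by
  have h := summable_geometric_two.sum_le_tsum s fun i _ => by positivity
  rw [tsum_geometric_two] at h
  refine le_trans (le_of_eq (Finset.sum_congr rfl fun m _ => ?_)) h
  simp [sN]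

lemma one_le_sN_Final (m : ℕ) : 1 ≤ sN m := Nat.one_le_two_pow

lemma sN_le_sW_Final (m : ℕ) : sN m ≤ sW d m :=
  Nat.le_self_pow (by unfold eK; omega) _

lemma sD_le_sW_Final {m0 m : ℕ} (h : m0 ≤ m) : sD d m0 ≤ sW d m :=
  (Nat.pow_le_pow_right (one_le_sN_Final m0) (by omega)).trans
    (Nat.pow_le_pow_left (Nat.pow_le_pow_right two_pos h) _)

lemma sW_succ_Final {m : ℕ} (h : 1 ≤ m) : sW d m = 2 ^ (3 * eK d) * sW d (m - 1) := by
  obtain ⟨k, rfl⟩ : ∃ k, m = k + 1 := ⟨m - 1, by omega⟩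
  simp only [sW, sN, Nat.add_sub_cancel, pow_succ, mul_pow]
  ring

lemma scale_Final (P : Par d) (hd : 2 ≤ d) {C0 : ℝ} (hC : 0 ≤ C0) {m1 : ℕ} {t : ℝ}
    (ht : TScale d m1 t) (hn : (1 + C0) * (100 * 2 ^ eK d) ≤ sN m1) :
    (sN m1 : ℝ) ≤ t ∧ (1 + C0) * t ≤ sMax P m1 := by
  have h1 : (1 : ℝ) ≤ sN m1 := one_le_sN m1
  have hA := P.four_le_A (by omega)
  obtain ⟨h2, h3⟩ := ht
  have e1 : (sU d m1 : ℝ) = (sN m1 : ℝ) ^ eK d := by simp [sU]
  have e2 : (sU d (m1 + 1) : ℝ) = 2 ^ eK d * (sN m1 : ℝ) ^ eK d := by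
    simp only [sU, sN, pow_succ, mul_pow]
    push_cast
    ring
  have h4 : (sN m1 : ℝ) ≤ (sN m1 : ℝ) ^ eK d := le_self_pow₀ h1 (by unfold eK; omega)
  rw [e1] at h2
  rw [e2] at h3
  refine ⟨by linarith, ?_⟩
  have h5 : (1 + C0) * (100 * 2 ^ eK d) * (sN m1 : ℝ) ^ eK d ≤ (sN m1 : ℝ) ^ (eK d + eA d) :=
    mul_pow_le_pow h1 hn (by unfold eA; omega)
  have h6 : (0 : ℝ) ≤ (sN m1 : ℝ) ^ (eK d + eA d) := by positivity
  calc (1 + C0) * t ≤ (1 + C0) * (100 * (2 ^ eK d * (sN m1 : ℝ) ^ eK d)) := by gcongr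
    _ = (1 + C0) * (100 * 2 ^ eK d) * (sN m1 : ℝ) ^ eK d := by ring
    _ ≤ sMax P m1 := by
      unfold sMax
      nlinarith

lemma sum_Final {I : Finset ℕ} {m0 m1 : ℕ} (hI : ∀ m ∈ I, m ≤ m1) {g : ℕ → ℕ → ℝ}
    (hg : ∀ m m', 0 ≤ g m m') {c Y : ℝ} (hc : 0 ≤ c) (hY : 0 ≤ Y)
    (h : ∀ m', ∑ m ∈ I, g m m' ≤ 2 * Y) :
    ∑ m ∈ I, ∑ m' ∈ Finset.Icc m0 m, (c * g m m' / sN m' + 1 / (sN m : ℝ) ^ 2) ≤
      4 * c * Y + 2 := by
  simp only [Finset.sum_add_distrib]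
  refine add_le_add ?_ ?_
  · calc ∑ m ∈ I, ∑ m' ∈ Finset.Icc m0 m, c * g m m' / sN m'
        ≤ ∑ m ∈ I, ∑ m' ∈ Finset.Icc m0 m1, c * g m m' / sN m' := by
          refine Finset.sum_le_sum fun m hm => Finset.sum_le_sum_of_subset_of_nonneg
            (Finset.Icc_subset_Icc_right (hI m hm)) fun m' _ _ => ?_
          have := hg m m'
          positivity
      _ = ∑ m' ∈ Finset.Icc m0 m1, c * (∑ m ∈ I, g m m') * (1 / sN m') := by
          rw [Finset.sum_comm]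
          refine Finset.sum_congr rfl fun m' _ => ?_
          rw [Finset.mul_sum, Finset.sum_mul]
          exact Finset.sum_congr rfl fun m _ => by ring
      _ ≤ ∑ m' ∈ Finset.Icc m0 m1, c * (2 * Y) * (1 / sN m') := by
          refine Finset.sum_le_sum fun m' _ => ?_
          have := h m'
          gcongr
      _ ≤ c * (2 * Y) * 2 := by
          rw [← Finset.mul_sum]
          exact mul_le_mul_of_nonneg_left (geom_Final _) (by positivity)
      _ = 4 * c * Y := by ring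
  · refine le_trans (Finset.sum_le_sum fun m _ => ?_) (geom_Final I)
    have h1 : (1 : ℝ) ≤ sN m := one_le_sN m
    have h2 : ((Finset.Icc m0 m).card : ℝ) ≤ sN m := by
      have : m < 2 ^ m := Nat.lt_two_pow_self
      rw [Nat.card_Icc]
      exact_mod_cast (show m + 1 - m0 ≤ 2 ^ m by omega)
    rw [Finset.sum_const, nsmul_eq_mul]
    calc ((Finset.Icc m0 m).card : ℝ) * (1 / (sN m : ℝ) ^ 2)
        ≤ (sN m : ℝ) * (1 / (sN m : ℝ) ^ 2) := by gcongr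
      _ = 1 / (sN m : ℝ) := by field_simp

open Classical in
theorem final (P : Par d) (hd : 2 ≤ d) : ∃ m00 : ℕ, ∀ m0, m00 ≤ m0 → ∀ Cp : ℝ, 0 ≤ Cp →
    ∃ (C : ℝ) (m01 : ℕ), 0 < C ∧ ∀ m1, m01 ≤ m1 →
    ∀ (w : V d → V d → ℝ) (ρ : ℕ → V d → ℝ) (τ : ℝ → ℝ) (t Y : ℝ), Wt w →
      (∀ m, RhoOK m (ρ m)) → (∀ θ, 0 ≤ τ θ) →
      TopOK (fun m => bad2 P m0 Cp τ ρ m w) m0 m1 → Orig P w m1 → TScale d m1 t → 0 ≤ Y →
      (∀ m', ∑ m ∈ (Finset.Icc (m0 + 1) m1).filter (fun m => (sW d (m - 1) : ℝ) ≤ t),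
        sTh d m m' * τ (sTh d m m') ≤ 2 * Y) →
      (Out w t).Finite ∧ ((Ext w t).ncard : ℝ) ≤ C * t ^ (d - 1) ∧
        ((Out w t).ncard : ℝ) ≤ C * t ^ (d - 1) * (1 + Y) := by
  have hA := P.four_le_A (by omega)
  have hA0 : 0 ≤ P.A := by linarith
  have h2K : (1 : ℝ) ≤ 2 ^ (3 * eK d) := one_le_pow₀ one_le_two
  obtain ⟨C0, hC0⟩ : ∃ C0 : ℝ, C0 = (P.A + 1) * 2 ^ (3 * eK d) := ⟨_, rfl⟩
  have hC0A : P.A + 1 ≤ C0 := by rw [hC0]; nlinarith
  obtain ⟨ma, Cg, hCg, hcore⟩ := core P hd C0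
  obtain ⟨mb, hdeep⟩ := deep_big P hd
  obtain ⟨mc, Ck, hCk, hkX⟩ := kX_bound hd
  obtain ⟨md, hlin⟩ := lin P hd
  refine ⟨max (max ma mb) (max mc 1), fun m0 hm0 Cp hCp => ?_⟩
  obtain ⟨me, hme⟩ := exists_le_sN ((1 + C0) * (100 * 2 ^ eK d) + sW d m0)
  obtain ⟨c1, hc1⟩ : ∃ c1 : ℝ, c1 = sW d m0 + P.A + sD d m0 := ⟨_, rfl⟩
  have hc10 : 0 < c1 := by rw [hc1]; positivity
  refine ⟨Cg * (c1 + (P.A + 2) * (24 * 17 ^ d + 2 + 4 * (Ck * Cp))), max m0 (max md me),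
    by positivity, ?_⟩
  intro m1 hm1 w ρ τ t Y hw hρ hτ htop horig hts hY hsum
  have hme' := hme m1 (by omega)
  have hW0 : (0 : ℝ) ≤ sW d m0 := by positivity
  have hK0 : (0 : ℝ) ≤ 100 * 2 ^ eK d := by positivity
  have hC00 : 0 ≤ C0 := by linarith
  obtain ⟨hnt, hmax⟩ := scale_Final P hd hC00 hts (by linarith)
  have ht1 : 1 ≤ t := (one_le_sN m1).trans hnt
  have hbig : 100 * 2 ^ eK d ≤ sN m1 := by
    have : (100 * 2 ^ eK d : ℝ) ≤ sN m1 := by nlinarith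
    exact_mod_cast this
  have hWt : (sW d m0 : ℝ) ≤ t := by nlinarith
  have hcl : ∀ m x, ¬ bad2 P m0 Cp τ ρ m w x → CleanS P w m x ∧ Conc m (ρ m) w x := fun m x h =>
    ⟨by_contra fun h' => h (Or.inl h'), by_contra fun h' => h (Or.inr (Or.inl h'))⟩
  have hco := hcore m0 m1 (by omega) (by omega) w ρ _ t hw hρ hcl htop horig hts
  have hcl0 : CleanS P w m1 0 :=
    (hcl m1 0 (htop.not_bad (by omega) (by omega) (x := 0) (by simp))).1
  have hU : ∀ x, That w P.A x ≤ sMax P m1 → x ∈ box 0 (sR d m1) := fun x hx =>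
    mem_box.2 (hlin m1 (by omega) w hw hcl0 x _ le_rfl hx).2
  obtain ⟨Q, hQ⟩ : ∃ Q : ℝ, Q = Cg * t ^ (d - 1) * (P.A + 2) := ⟨_, rfl⟩
  have hp0 : 0 ≤ Cg * t ^ (d - 1) := by positivity
  have hQ0 : 0 ≤ Q := by rw [hQ]; positivity
  set U := box (0 : V d) (sR d m1) with hUd
  set f := That w P.A with hf
  set I := (Finset.Icc (m0 + 1) m1).filter (fun m => (sW d (m - 1) : ℝ) ≤ t) with hI
  let S : ℕ → Finset (V d) := fun m => shell U f (t - sW d m) (t - sW d (m - 1))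
  let S0 := shell U f (t - (sW d m0 + P.A)) (t + (sW d m0 + P.A))
  let B : ℕ → Finset (V d) := fun m =>
    (S m).filter fun y => ∃ m', m ≤ m' ∧ m' ≤ m1 ∧ bad2 P m0 Cp τ ρ m' w y
  let Z : ℕ → ℕ → Finset (V d) := fun m m' =>
    (S m).filter fun y => Ev P m0 m m' w y ∧ ¬ Xv P m0 Cp τ m m' w y
  have hmI : ∀ m ∈ I, m0 + 1 ≤ m ∧ m ≤ m1 ∧ (sW d (m - 1) : ℝ) ≤ t := fun m hm => by
    simpa only [hI, Finset.mem_filter, Finset.mem_Icc, and_assoc] using hm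
  have hnb : ∀ m, m0 ≤ m → ∀ r : ℕ, sW d m ≤ r → (r : ℝ) ≤ 2 ^ (3 * eK d) * t →
      ((nbhd (S m) r).card : ℝ) ≤ Q * r := by
    intro m hm r h1 h2
    have h3 : (sW d m : ℝ) ≤ r := by exact_mod_cast h1
    have h4 : (sD d m0 : ℝ) ≤ r := by exact_mod_cast (sD_le_sW_Final hm).trans h1
    have h5 : (0 : ℝ) ≤ sW d (m - 1) := by positivity
    have h6 : (0 : ℝ) ≤ r := by positivity
    have h7 : (P.A + 1) * r ≤ C0 * t := by
      rw [hC0, mul_assoc]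
      gcongr
    have h8 : nbhd (S m) r ⊆ shell U f (t - (P.A + 1) * r) (t + (P.A + 1) * r) :=
      (nbhd_shell hA0 hU (That_lip hw hA0) (by linarith)).trans
        (shell_mono (by linarith) (by linarith))
    calc ((nbhd (S m) r).card : ℝ)
        ≤ (shell U f (t - (P.A + 1) * r) (t + (P.A + 1) * r)).card := by
          exact_mod_cast Finset.card_le_card h8
      _ ≤ Cg * t ^ (d - 1) * ((P.A + 1) * r + sD d m0) := hco _ (by positivity) h7
      _ ≤ Cg * t ^ (d - 1) * ((P.A + 1) * r + r) := by gcongr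
      _ = Q * r := by rw [hQ]; ring
  have hS0 : (S0.card : ℝ) ≤ Cg * t ^ (d - 1) * c1 := by
    rw [hc1]
    exact hco _ (by positivity) (by nlinarith)
  have hB : ∑ m ∈ I, ((B m).card : ℝ) ≤ 24 * 17 ^ d * Q := by
    calc ∑ m ∈ I, ((B m).card : ℝ) ≤ ∑ m ∈ I, 12 * 17 ^ d * Q * (1 / sN m) := by
          refine Finset.sum_le_sum fun m hm => ?_
          obtain ⟨h1, h2, h3⟩ := hmI m hm
          have h4 := badcount hd (by omega) (show m0 ≤ m by omega) htop (S m) (B m)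
            (fun x hx => mem_box.1 (mem_shell.1 hx).1) hQ0
            (fun r hr hr' => hnb m (by omega) r hr (by
              have : (r : ℝ) ≤ sN m1 := by exact_mod_cast hr'
              nlinarith))
            fun y hy => Finset.mem_filter.1 hy
          have h5 : (sN m : ℝ) ≤ sW d m := by exact_mod_cast sN_le_sW_Final m
          have h6 := one_le_sN m
          rw [mul_one_div]
          exact h4.trans (div_le_div_of_nonneg_left (by positivity) (by linarith) h5)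
      _ ≤ 12 * 17 ^ d * Q * 2 := by
          rw [← Finset.mul_sum]
          exact mul_le_mul_of_nonneg_left (geom_Final _) (by positivity)
      _ = 24 * 17 ^ d * Q := by ring
  have hZ : ∑ m ∈ I, ∑ m' ∈ Finset.Icc m0 m, ((Z m m').card : ℝ) ≤
      Q * (4 * (Ck * Cp) * Y + 2) := by
    have hg : ∀ m m', 0 ≤ sTh d m m' * τ (sTh d m m') := fun m m' =>
      mul_nonneg (by unfold sTh; positivity) (hτ _)
    refine le_trans ?_ (mul_le_mul_of_nonneg_left (sum_Final (m0 := m0)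
      (fun m hm => (hmI m hm).2.1) hg (by positivity) hY hsum) hQ0)
    rw [Finset.mul_sum]
    refine Finset.sum_le_sum fun m hm => ?_
    rw [Finset.mul_sum]
    refine Finset.sum_le_sum fun m' hm' => ?_
    obtain ⟨h1, h2, h3⟩ := hmI m hm
    obtain ⟨h4, h5⟩ := Finset.mem_Icc.1 hm'
    have h6 := count_not_many (k := kX d Cp τ m m') (r := sW d m) (s := 2 * sR d m')
      (Q := Ev P m0 m m' w) (S m) (Z m m') le_rfl fun y hy => Finset.mem_filter.1 hy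
    have h7 := hnb m (by omega) _ le_rfl (by
      rw [sW_succ_Final (show 1 ≤ m by omega)]
      push_cast
      gcongr)
    have h8 := hkX m' m (by omega) h5 Cp τ hCp hτ
    have h9 : ((Z m m').card : ℝ) * (2 * sW d m + 1 : ℝ) ^ d ≤ (nbhd (S m) (sW d m)).card *
        (((kX d Cp τ m m' - 1) * (2 * (2 * sR d m') + 1) ^ d : ℕ) : ℝ) := by
      exact_mod_cast h6
    refine le_of_mul_le_mul_right (h9.trans ?_) (show (0 : ℝ) < (2 * sW d m + 1 : ℝ) ^ d by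
      positivity)
    rw [mul_assoc Q]
    refine le_trans ?_ (mul_le_mul_of_nonneg_left h8 hQ0)
    rw [← mul_assoc Q]
    exact mul_le_mul_of_nonneg_right h7 (Nat.cast_nonneg _)
  have hcase : ∀ y ∈ Out w t, y ∈ S0 ∪ I.biUnion B ∨
      (y ∉ Ext w t ∧ y ∈ I.biUnion fun m => (Finset.Icc m0 m).biUnion (Z m)) := by
    intro y hy
    have h1 : f y ≤ t + P.A := Out.That_le hw hA0 hy
    have h2 : y ∈ U := hU y (by nlinarith)
    by_cases h3 : t - sW d m0 < f y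
    · exact Or.inl (Finset.mem_union_left _ (mem_shell.2 ⟨h2, by linarith, by linarith⟩))
    obtain ⟨m, h4, h5, h6, h7, h8⟩ :=
      exists_class (by omega) hbig hts (That_nonneg hw hA0 y) (not_lt.1 h3)
    have h9 : m ∈ I := Finset.mem_filter.2 ⟨Finset.mem_Icc.2 ⟨h4, h5⟩, h6⟩
    have h10 : y ∈ S m := mem_shell.2 ⟨h2, h7, h8⟩
    by_cases h11 : ∃ m', m ≤ m' ∧ m' ≤ m1 ∧ bad2 P m0 Cp τ ρ m' w y
    · exact Or.inl (Finset.mem_union_right _
        (Finset.mem_biUnion.2 ⟨m, h9, Finset.mem_filter.2 ⟨h10, h11⟩⟩))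
    have h12 : m0 ≤ m ∧ ∀ k, m ≤ k → k ≤ m1 → CleanS P w k y :=
      ⟨by omega, fun k hk hk' => (hcl k y fun h => h11 ⟨k, hk, hk', h⟩).1⟩
    have hex : ∃ m', m0 ≤ m' ∧ ∀ k, m' ≤ k → k ≤ m1 → CleanS P w k y := ⟨m, h12⟩
    have h13 := Nat.find_spec hex
    have h14 : Nat.find hex ≤ m := Nat.find_min' hex h12
    have h15 := hdeep (Nat.find hex) m m1 (by omega) h14 h5 w t y hw horig hts h13.2 h6 h8 hy.1
    refine Or.inr ⟨h15.2, Finset.mem_biUnion.2 ⟨m, h9, Finset.mem_biUnion.2 ⟨Nat.find hex,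
      Finset.mem_Icc.2 ⟨h13.1, h14⟩, Finset.mem_filter.2 ⟨h10, ⟨?_, h15.1⟩, fun h => ?_⟩⟩⟩⟩
    · by_contra h
      rw [not_or, not_not, not_le] at h
      refine Nat.find_min hex (show Nat.find hex - 1 < Nat.find hex by omega)
        ⟨by omega, fun k hk hk' => ?_⟩
      rcases hk.eq_or_lt with h' | h'
      · exact h' ▸ h.2
      · exact h13.2 k (by omega) hk'
    · exact h11 ⟨m, le_rfl, h5, Or.inr (Or.inr ⟨_, h13.1, h14, h⟩)⟩
  have hc1' : ((S0 ∪ I.biUnion B).card : ℝ) ≤ Cg * t ^ (d - 1) * c1 + 24 * 17 ^ d * Q := by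
    have h1 : (S0 ∪ I.biUnion B).card ≤ S0.card + ∑ m ∈ I, (B m).card :=
      (Finset.card_union_le _ _).trans (Nat.add_le_add_left Finset.card_biUnion_le _)
    have h2 : ((S0 ∪ I.biUnion B).card : ℝ) ≤ S0.card + ∑ m ∈ I, ((B m).card : ℝ) := by
      exact_mod_cast h1
    linarith
  have hc2' : ((I.biUnion fun m => (Finset.Icc m0 m).biUnion (Z m)).card : ℝ) ≤
      Q * (4 * (Ck * Cp) * Y + 2) := by
    have h1 : (I.biUnion fun m => (Finset.Icc m0 m).biUnion (Z m)).card ≤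
        ∑ m ∈ I, ∑ m' ∈ Finset.Icc m0 m, (Z m m').card :=
      Finset.card_biUnion_le.trans (Finset.sum_le_sum fun m _ => Finset.card_biUnion_le)
    refine le_trans ?_ hZ
    exact_mod_cast h1
  have hsub : Out w t ⊆ ↑(S0 ∪ I.biUnion B ∪
      I.biUnion fun m => (Finset.Icc m0 m).biUnion (Z m)) := fun y hy =>
    Finset.mem_coe.2 (Finset.mem_union.2 ((hcase y hy).imp id And.right))
  have hsub' : Ext w t ⊆ ↑(S0 ∪ I.biUnion B) := fun y hy =>
    Finset.mem_coe.2 ((hcase y hy.1).resolve_right fun h => h.1 hy)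
  have h1 := Set.ncard_le_ncard hsub (Finset.finite_toSet _)
  have h2 := Set.ncard_le_ncard hsub' (Finset.finite_toSet _)
  rw [Set.ncard_coe_finset] at h1 h2
  have h3 : ((Out w t).ncard : ℝ) ≤ (S0 ∪ I.biUnion B).card +
      (I.biUnion fun m => (Finset.Icc m0 m).biUnion (Z m)).card := by
    exact_mod_cast h1.trans (Finset.card_union_le _ _)
  have h4 : ((Ext w t).ncard : ℝ) ≤ (S0 ∪ I.biUnion B).card := by exact_mod_cast h2
  have h5 : 0 ≤ Ck * Cp := by positivity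
  have h6 : (0 : ℝ) ≤ 17 ^ d := by positivity
  have e : Cg * (c1 + (P.A + 2) * (24 * 17 ^ d + 2 + 4 * (Ck * Cp))) * t ^ (d - 1) =
      Cg * t ^ (d - 1) * c1 + 24 * 17 ^ d * Q + 2 * Q + 4 * (Ck * Cp) * Q := by
    rw [hQ]; ring
  have h7 : 0 ≤ Cg * t ^ (d - 1) * c1 := by positivity
  have h8 : 0 ≤ 4 * (Ck * Cp) * Q := by positivity
  have h9 : 0 ≤ (Cg * t ^ (d - 1) * c1 + 24 * 17 ^ d * Q + 2 * Q) * Y := by positivity
  rw [e]
  refine ⟨(Finset.finite_toSet _).subset hsub, by linarith, ?_⟩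
  nlinarith

end Pool.Agent.MP_489c42_pr.H12
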