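import Pool.Agent.MP_489c42_pr.H12.Defs

namespace Pool.Agent.MP_489c42_pr.H12

open MeasureTheory ProbabilityTheory Filter
open scoped NNReal

variable {d : ℕ}

theorem nd_le_iff {x y : V d} {r : ℕ} : nd x y ≤ r ↔ ∀ i, |x i - y i| ≤ r := by
  unfold nd
  rw [Finset.sup_le_iff]
  constructor
  · intro h i
    have := h i (Finset.mem_univ _)
    rw [Int.abs_eq_natAbs]
    exact_mod_cast this
  · intro h i _
    have := h i
    rw [Int.abs_eq_natAbs] at this
    exact_mod_cast this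

theorem abs_le_nd (x y : V d) (i : Fin d) : |x i - y i| ≤ nd x y :=
  nd_le_iff.1 le_rfl i

theorem exists_coord (hd : 1 ≤ d) (x y : V d) : ∃ i, |x i - y i| = nd x y := by
  have : Nonempty (Fin d) := ⟨⟨0, hd⟩⟩
  obtain ⟨i, -, hi⟩ := Finset.exists_mem_eq_sup (Finset.univ : Finset (Fin d))
    Finset.univ_nonempty fun i => (x i - y i).natAbs
  exact ⟨i, by rw [Int.abs_eq_natAbs, nd, hi]⟩

@[simp] theorem nd_self (x : V d) : nd x x = 0 :=
  Nat.le_zero.1 (nd_le_iff.2 fun i => by simp)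

theorem nd_eq_zero {x y : V d} : nd x y = 0 ↔ x = y := by
  constructor
  · intro h
    funext i
    have := abs_le_nd x y i
    rw [h] at this
    have h2 : |x i - y i| = 0 := le_antisymm (by simpa using this) (abs_nonneg _)
    exact sub_eq_zero.1 (abs_eq_zero.1 h2)
  · rintro rfl
    exact nd_self x

theorem nd_comm (x y : V d) : nd x y = nd y x := by
  apply le_antisymm <;> refine nd_le_iff.2 fun i => ?_ <;> rw [abs_sub_comm] <;>
    exact abs_le_nd _ _ i

theorem nd_triangle (x y z : V d) : nd x z ≤ nd x y + nd y z := by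
  refine nd_le_iff.2 fun i => ?_
  have h1 := abs_le_nd x y i
  have h2 := abs_le_nd y z i
  have h3 := abs_sub_le (x i) (y i) (z i)
  push_cast
  linarith

theorem nd_add_right (x y v : V d) : nd (x + v) (y + v) = nd x y := by
  simp [nd]

theorem nd_sub (x y : V d) : nd 0 (y - x) = nd x y := by
  simp [nd]

@[simp] theorem n1_self (x : V d) : n1 x x = 0 := by
  simp [n1]

theorem n1_comm (x y : V d) : n1 x y = n1 y x := by
  unfold n1
  refine Finset.sum_congr rfl fun i _ => ?_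
  rw [← Int.natAbs_neg, neg_sub]

theorem n1_triangle (x y z : V d) : n1 x z ≤ n1 x y + n1 y z := by
  unfold n1
  rw [← Finset.sum_add_distrib]
  refine Finset.sum_le_sum fun i _ => ?_
  have : x i - z i = (x i - y i) + (y i - z i) := by ring
  rw [this]
  exact Int.natAbs_add_le _ _

theorem n1_sub (x y : V d) : n1 0 (y - x) = n1 x y := by
  simp [n1]

theorem nd_le_n1 (x y : V d) : nd x y ≤ n1 x y := by
  unfold nd n1
  refine Finset.sup_le fun i _ => ?_
  exact Finset.single_le_sum (f := fun i => (x i - y i).natAbs) (fun _ _ => Nat.zero_le _)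
    (Finset.mem_univ i)

theorem n1_le (x y : V d) : n1 x y ≤ d * nd x y := by
  unfold n1
  calc ∑ i, (x i - y i).natAbs ≤ ∑ _i : Fin d, nd x y :=
        Finset.sum_le_sum fun i _ =>
          Finset.le_sup (f := fun i => (x i - y i).natAbs) (Finset.mem_univ i)
    _ = d * nd x y := by simp

theorem adj_iff_n1 {x y : V d} : (lattice d).Adj x y ↔ n1 x y = 1 := by
  have h : ((n1 x y : ℕ) : ℤ) = ∑ i, |x i - y i| := by
    simp [n1]
  change ∑ i, |x i - y i| = 1 ↔ _
  rw [← h]
  exact_mod_cast Iff.rfl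

theorem nd_of_adj {x y : V d} (h : (lattice d).Adj x y) : nd x y = 1 := by
  have h1 := nd_le_n1 x y
  rw [adj_iff_n1.1 h] at h1
  have h2 : nd x y ≠ 0 := fun h0 => h.ne (nd_eq_zero.1 h0)
  omega

theorem adj_add_right {x y : V d} (v : V d) :
    (lattice d).Adj (x + v) (y + v) ↔ (lattice d).Adj x y := by
  simp [lattice]

theorem toR_add (x y : V d) : toR (x + y) = toR x + toR y := by
  funext i
  simp [toR]

theorem toR_sub (x y : V d) : toR (x - y) = toR x - toR y := by
  funext i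
  simp [toR]

theorem norm_toR (z : V d) : ‖toR z‖ = nd 0 z := by
  apply le_antisymm
  · refine (pi_norm_le_iff_of_nonneg (Nat.cast_nonneg _)).2 fun i => ?_
    have := abs_le_nd 0 z i
    simp only [Pi.zero_apply, zero_sub, abs_neg] at this
    rw [Real.norm_eq_abs, toR]
    exact_mod_cast this
  · have h : ∀ i, (((0 : V d) i - z i).natAbs : ℝ) ≤ ‖toR z‖ := fun i => by
      have := norm_le_pi_norm (toR z) i
      rw [Real.norm_eq_abs, toR] at this
      simpa using this
    have h2 : nd 0 z ≤ ⌊‖toR z‖⌋₊ := Finset.sup_le fun i _ => Nat.le_floor (h i)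
    exact (Nat.le_floor_iff (norm_nonneg _)).1 h2

theorem norm_toR_sub (x y : V d) : ‖toR (x - y)‖ = nd x y := by
  rw [norm_toR, nd_sub, nd_comm]

theorem mem_box {x y : V d} {r : ℕ} : y ∈ box x r ↔ nd x y ≤ r := by
  rw [nd_le_iff, box, Fintype.mem_piFinset]
  refine forall_congr' fun i => ?_
  rw [Finset.mem_Icc, abs_le]
  constructor <;> rintro ⟨h1, h2⟩ <;> constructor <;> linarith

theorem card_box (x : V d) (r : ℕ) : (box x r).card = (2 * r + 1) ^ d := by
  rw [box, Fintype.card_piFinset]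
  have : ∀ i, (Finset.Icc (x i - r) (x i + r)).card = 2 * r + 1 := fun i => by
    rw [Int.card_Icc]
    have : x i + r + 1 - (x i - r) = ((2 * r + 1 : ℕ) : ℤ) := by push_cast; ring
    rw [this, Int.toNat_natCast]
  simp [this]

theorem mem_nbhd {S : Finset (V d)} {y : V d} {r : ℕ} :
    y ∈ nbhd S r ↔ ∃ x ∈ S, nd x y ≤ r := by
  simp [nbhd, mem_box]

theorem mem_nbrs {x y : V d} : y ∈ nbrs x ↔ (lattice d).Adj x y := by
  rw [nbrs, Finset.mem_filter]
  exact ⟨fun h => h.2, fun h => ⟨mem_box.2 (nd_of_adj h).le, h⟩⟩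

theorem card_nbrs_le (x : V d) : (nbrs x).card ≤ 2 * d := by
  classical
  have hsub : nbrs x ⊆ (Finset.univ : Finset (Fin d × Bool)).image fun p => ray x p.1 p.2 1 := by
    intro y hy
    have h1 : ∑ i, (x i - y i).natAbs = 1 := adj_iff_n1.1 (mem_nbrs.1 hy)
    obtain ⟨i, -, hi⟩ : ∃ i ∈ (Finset.univ : Finset (Fin d)), (x i - y i).natAbs ≠ 0 :=
      Finset.exists_ne_zero_of_sum_ne_zero (by rw [h1]; exact one_ne_zero)
    rw [← Finset.add_sum_erase _ _ (Finset.mem_univ i)] at h1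
    have h2 : (x i - y i).natAbs = 1 := by omega
    have h3 : ∑ j ∈ Finset.univ.erase i, (x j - y j).natAbs = 0 := by omega
    have h4 : ∀ j, j ≠ i → y j = x j := fun j hj => by
      have := Finset.sum_eq_zero_iff.1 h3 j (by simp [hj])
      omega
    refine Finset.mem_image.2 ⟨(i, decide (x i < y i)), Finset.mem_univ _, ?_⟩
    funext j
    by_cases hj : j = i
    · subst hj
      simp only [ray, Function.update_self, decide_eq_true_eq]
      split_ifs <;> omega
    · simp [ray, Function.update_of_ne hj, h4 j hj]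
  refine (Finset.card_le_card hsub).trans (Finset.card_image_le.trans ?_)
  simp [mul_comm]

theorem mem_shell {U : Finset (V d)} {f : V d → ℝ} {s₁ s₂ : ℝ} {x : V d} :
    x ∈ shell U f s₁ s₂ ↔ x ∈ U ∧ s₁ < f x ∧ f x ≤ s₂ := by
  simp [shell]

theorem InBB.nd_le {p q y x : V d} {r : ℕ} (h : InBB p q y) (hp : nd x p ≤ r)
    (hq : nd x q ≤ r) : nd x y ≤ r := by
  refine nd_le_iff.2 fun i => ?_
  have h1 := abs_le.1 (nd_le_iff.1 hp i)
  have h2 := abs_le.1 (nd_le_iff.1 hq i)
  obtain ⟨h3, h4⟩ := h i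
  rw [abs_le]
  rw [min_le_iff] at h3
  rw [le_max_iff] at h4
  omega

theorem InBB.eq_of_eq {p q y : V d} (h : InBB p q y) {i : Fin d} (hi : p i = q i) :
    y i = p i := by
  obtain ⟨h3, h4⟩ := h i
  rw [← hi] at h3 h4
  simp only [min_self, max_self] at h3 h4
  exact le_antisymm h4 h3

@[simp] theorem ray_zero (x : V d) (i : Fin d) (s : Bool) : ray x i s 0 = x := by
  cases s <;> simp [ray]

theorem ray_adj (x : V d) (i : Fin d) (s : Bool) (k : ℕ) :
    (lattice d).Adj (ray x i s k) (ray x i s (k + 1)) := by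
  change ∑ j, |ray x i s k j - ray x i s (k + 1) j| = 1
  rw [Finset.sum_eq_single i]
  · cases s <;> simp [ray]
  · intro j _ hj
    simp [ray, Function.update_of_ne hj]
  · simp

theorem nd_ray (x : V d) (i : Fin d) (s : Bool) (k : ℕ) : nd x (ray x i s k) = k := by
  apply le_antisymm
  · refine nd_le_iff.2 fun j => ?_
    by_cases hj : j = i
    · subst hj
      cases s <;> simp [ray]
    · simp [ray, Function.update_of_ne hj]
  · have := abs_le_nd x (ray x i s k) i
    cases s <;> simp [ray] at this <;> exact_mod_cast this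

theorem ray_edge_inj {x : V d} {i i' : Fin d} {s s' : Bool} {k k' : ℕ}
    (h : s(ray x i s k, ray x i s (k + 1)) = s(ray x i' s' k', ray x i' s' (k' + 1))) :
    i = i' ∧ s = s' := by
  have key : ∀ j : ℕ, ray x i s (k + 1) = ray x i' s' j → i = i' ∧ s = s' := by
    intro j hj
    have h1 := congrFun hj i
    by_cases hi : i = i'
    · subst hi
      refine ⟨rfl, ?_⟩
      cases s <;> cases s' <;> simp [ray] at h1 ⊢ <;> omega
    · exfalso
      cases s <;> simp [ray, Function.update_of_ne hi] at h1 <;> omega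
  rcases Sym2.eq_iff.1 h with ⟨-, h2⟩ | ⟨-, h2⟩
  exacts [key _ h2, key _ h2]

/-! ### Scales -/

theorem le_LL {L0 : ℕ} (i : ℕ) : L0 ≤ LL L0 i := by
  induction i with
  | zero => exact le_rfl
  | succ i ih => exact ih.trans (Nat.le_self_pow (by norm_num) _)

theorem LL_mono {L0 i j : ℕ} (h : i ≤ j) : LL L0 i ≤ LL L0 j := by
  induction h with
  | refl => exact le_rfl
  | step _ ih => exact ih.trans (Nat.le_self_pow (by norm_num) _)

theorem two_pow_le_LL {L0 : ℕ} (hL : 2 ≤ L0) (i : ℕ) : 2 ^ (i + 1) ≤ LL L0 i := by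
  induction i with
  | zero => simpa [LL] using hL
  | succ i ih =>
    calc 2 ^ (i + 1 + 1) ≤ 2 ^ ((i + 1) * 3) := Nat.pow_le_pow_right (by norm_num) (by omega)
      _ = (2 ^ (i + 1)) ^ 3 := pow_mul _ _ _
      _ ≤ LL L0 i ^ 3 := Nat.pow_le_pow_left ih 3

theorem LL_lev_le {L0 m : ℕ} (h : L0 ≤ 2 ^ m) : LL L0 (lev L0 m) ≤ 2 ^ m :=
  Nat.findGreatest_spec (P := fun j => LL L0 j ≤ 2 ^ m) (Nat.zero_le m) h

theorem LL_succ_le_of_lt_lev {L0 m i : ℕ} (h : i < lev L0 m) : LL L0 (i + 1) ≤ 2 ^ m := by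
  have h1 : LL L0 (lev L0 m) ≤ 2 ^ m :=
    Nat.findGreatest_of_ne_zero (P := fun j => LL L0 j ≤ 2 ^ m) rfl (by omega)
  exact (LL_mono h).trans h1

theorem lt_LL_lev_pow {L0 : ℕ} (hL : 2 ≤ L0) (m : ℕ) : 2 ^ m < LL L0 (lev L0 m) ^ 3 := by
  change 2 ^ m < LL L0 (lev L0 m + 1)
  rcases Nat.lt_or_ge (lev L0 m) m with h | h
  · exact not_le.1 (Nat.findGreatest_is_greatest (P := fun j => LL L0 j ≤ 2 ^ m)
      (Nat.lt_succ_self (lev L0 m)) h)
  · exact lt_of_lt_of_le (Nat.pow_lt_pow_right (by norm_num) (by omega)) (two_pow_le_LL hL _)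

theorem lev_eq_zero {L0 m : ℕ} (h : 2 ^ m < L0) : lev L0 m = 0 := by
  rw [lev, Nat.findGreatest_eq_zero_iff]
  intro n _ _ hn
  have := le_LL (L0 := L0) n
  omega

theorem lev_mono {L0 m m' : ℕ} (h : m ≤ m') : lev L0 m ≤ lev L0 m' :=
  Nat.findGreatest_mono (fun _ hj => hj.trans (Nat.pow_le_pow_right (by norm_num) h)) h

theorem Par.c_pos (P : Par d) : 0 < P.c := by
  have h1 := P.hL
  have h2 : (0 : ℝ) < P.L0 := by exact_mod_cast (by omega : 0 < P.L0)
  exact div_pos P.hδ (by positivity)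

theorem Par.c_le_one (P : Par d) : P.c ≤ 1 := by
  have h1 := P.hL
  have h2 : (1 : ℝ) ≤ P.L0 := by exact_mod_cast (by omega : 1 ≤ P.L0)
  rw [Par.c, div_le_one (by positivity)]
  linarith [P.hδ1]

theorem Par.four_le_A (P : Par d) (hd : 1 ≤ d) : 4 ≤ P.A := by
  have h1 : (1 : ℝ) ≤ d := by exact_mod_cast hd
  have h2 := P.hM
  rw [Par.A]
  nlinarith

/-- Every constant is eventually below `2^m`. -/
theorem exists_le_sN (C : ℝ) : ∃ m0 : ℕ, ∀ m, m0 ≤ m → C ≤ (sN m : ℝ) := by
  refine ⟨⌈C⌉₊, fun m hm => (Nat.le_ceil C).trans ?_⟩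
  exact_mod_cast hm.trans (Nat.lt_two_pow_self).le

/-- The basic comparison of monomials. -/
theorem mul_pow_le_pow {C n : ℝ} {i j : ℕ} (hn : 1 ≤ n) (hC : C ≤ n) (hij : i < j) :
    C * n ^ i ≤ n ^ j := by
  calc C * n ^ i ≤ n * n ^ i := mul_le_mul_of_nonneg_right hC (by positivity)
    _ = n ^ (i + 1) := by ring
    _ ≤ n ^ j := pow_le_pow_right₀ hn hij

end Pool.Agent.MP_489c42_pr.H12
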