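import Pool.Agent.MP_489c42_pr.H12.Walk
import Pool.Agent.MP_489c42_pr.H12.Hier

namespace Pool.Agent.MP_489c42_pr.H12

open MeasureTheory ProbabilityTheory Filter
open scoped NNReal

variable {d : ℕ}

theorem rr_le (P : Par d) (j : ℕ) : rr P.L0 j ≤ LL P.L0 j := by
  cases j with
  | zero => simp [rr]
  | succ j =>
    have h1 : 1000 * (d + 1) ≤ LL P.L0 j := P.hL.trans (le_LL j)
    have h2 : 106 ≤ LL P.L0 j * LL P.L0 j := by nlinarith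
    simp only [rr, LL]
    calc 106 * LL P.L0 j ≤ LL P.L0 j * LL P.L0 j * LL P.L0 j := Nat.mul_le_mul_right _ h2
      _ = LL P.L0 j ^ 3 := by ring

theorem Gd_mono (P : Par d) {w : V d → V d → ℝ} {j j' : ℕ} (h : j ≤ j') {g : V d}
    (hg : Gd P w j' g) : Gd P w j g := by
  induction j', h using Nat.le_induction with
  | base => exact hg
  | succ k _ ih => exact ih hg.1

/-- The statement of `E_lev` at level `j`. -/
def Lev_H1E (P : Par d) (w : V d → V d → ℝ) (j : ℕ) : Prop :=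
  ∀ (x : V d) (γ : ℕ → V d) (i k : ℕ), ¬ D1 P w j x → IsWalk γ i k → i ≤ k →
    (∀ l, i ≤ l → l ≤ k → nd x (γ l) ≤ 2 * LL P.L0 j) → rr P.L0 j ≤ nd (γ i) (γ k) →
    ∃ l, i ≤ l ∧ l ≤ k ∧ Gd P w j (γ l)

theorem fwd_H1E (P : Par d) {w : V d → V d → ℝ} {j : ℕ} (h : Lev_H1E P w j) {γ : ℕ → V d}
    {i k : ℕ} (hD : ¬ D1 P w j (γ i)) (hγ : IsWalk γ i k) (hik : i ≤ k)
    (hr : rr P.L0 j ≤ nd (γ i) (γ k)) :
    ∃ l, i ≤ l ∧ l ≤ k ∧ Gd P w j (γ l) ∧ nd (γ i) (γ l) ≤ rr P.L0 j := by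
  obtain ⟨k', h1, h2, h3, h4⟩ := first_exit (γ i) hγ hik (by simp) hr
  have := rr_le P j
  obtain ⟨l, l1, l2, l3⟩ := h (γ i) γ i k' hD (hγ.mono le_rfl h2) h1
    (fun l a b => (h4 l a b).trans (by omega)) h3.ge
  exact ⟨l, l1, l2.trans h2, l3, h4 l l1 l2⟩

theorem exists_free_H1E (F : Finset (V d)) (hF : F.card < 4) (φ : V d → ℤ) {L : ℕ}
    (hL : 1 ≤ L) : ∃ v : ℤ, 0 ≤ v ∧ v ≤ 105 * L ∧ ∀ z ∈ F, 17 * (L : ℤ) < |φ z - v| := by
  by_contra h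
  push Not at h
  have h1 : Finset.Icc (0 : ℤ) (105 * L) ⊆
      F.biUnion fun z => Finset.Icc (φ z - 17 * L) (φ z + 17 * L) := fun v hv => by
    obtain ⟨z, hz, h2⟩ := h v (Finset.mem_Icc.1 hv).1 (Finset.mem_Icc.1 hv).2
    rw [abs_le] at h2
    exact Finset.mem_biUnion.2 ⟨z, hz, Finset.mem_Icc.2 ⟨by omega, by omega⟩⟩
  have h2 := (Finset.card_le_card h1).trans (Finset.card_biUnion_le_card_mul F _ (34 * L + 1)
    fun z _ => by rw [Int.card_Icc]; omega)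
  rw [Int.card_Icc] at h2
  have h3 : F.card * (34 * L + 1) ≤ 3 * (34 * L + 1) := Nat.mul_le_mul_right _ (by omega)
  omega

theorem lev_succ_H1E (P : Par d) (hd : 2 ≤ d) {w : V d → V d → ℝ} {j : ℕ}
    (h : Lev_H1E P w j) : Lev_H1E P w (j + 1) := by
  intro x γ i k hD hγ hik hx hr
  have hL : 1000 * (d + 1) ≤ LL P.L0 j := P.hL.trans (le_LL j)
  have hrr := rr_le P j
  obtain ⟨F, hF, hcov⟩ := cover_of_not_many hD
  obtain ⟨i₀, hi₀⟩ := exists_coord (by omega) (γ i) (γ k)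
  obtain ⟨φ, φ0, φ1, φ2, φ3⟩ : ∃ φ : V d → ℤ, φ (γ i) = 0 ∧ 106 * (LL P.L0 j : ℤ) ≤ φ (γ k) ∧
      (∀ y z, |φ y - φ z| ≤ nd y z) ∧ ∀ y z, y i₀ = z i₀ → φ y = φ z := by
    have hr' : (106 * LL P.L0 j : ℤ) ≤ |γ i i₀ - γ k i₀| := by
      rw [hi₀]; exact_mod_cast hr
    rcases le_total (γ i i₀) (γ k i₀) with h1 | h1
    · refine ⟨fun y => y i₀ - γ i i₀, sub_self _, ?_, fun y z => ?_, fun y z e => by simp only [e]⟩
      · rw [abs_sub_comm, abs_of_nonneg (by omega)] at hr'; exact hr'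
      · rw [sub_sub_sub_cancel_right]; exact abs_le_nd y z i₀
    · refine ⟨fun y => γ i i₀ - y i₀, sub_self _, ?_, fun y z => ?_, fun y z e => by simp only [e]⟩
      · rw [abs_of_nonneg (by omega)] at hr'; exact hr'
      · rw [sub_sub_sub_cancel_left, abs_sub_comm]; exact abs_le_nd y z i₀
  obtain ⟨v, v1, v2, v3⟩ := exists_free_H1E F hF φ (L := LL P.L0 j) (by omega)
  obtain ⟨l₁, a1, a2, a3, -⟩ := first_hit φ (fun y z hyz => by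
    have := φ2 y z
    rw [nd_of_adj hyz, abs_le] at this
    omega) hγ hik (v := v) (by omega) (by omega)
  have key : ∀ y, nd x y ≤ 7 * LL P.L0 (j + 1) → |φ y - v| ≤ LL P.L0 j → ¬ D1 P w j y := by
    intro y hy hv hDy
    obtain ⟨z, hz, hzy⟩ := hcov y hy hDy
    have b1 := φ2 z y
    have b2 := v3 z hz
    have b3 := abs_sub_le (φ z) (φ y) v
    omega
  have c1 : ¬ D1 P w j (γ l₁) :=
    key _ ((hx l₁ a1 a2).trans (by omega)) (by rw [a3]; simp)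
  have c2 : rr P.L0 j ≤ nd (γ l₁) (γ k) := by
    have := φ2 (γ l₁) (γ k)
    rw [abs_le] at this
    omega
  obtain ⟨l, l1, l2, l3, l4⟩ := fwd_H1E P h c1 (hγ.mono a1 le_rfl) a2 c2
  refine ⟨l, a1.trans l1, l2, l3, i₀, fun y hy e => key y ?_ ?_⟩
  · have := nd_triangle x (γ l) y
    have := hx l (a1.trans l1) l2
    omega
  · have := φ2 (γ l₁) (γ l)
    rw [φ3 y _ e, ← a3, abs_sub_comm]
    omega

theorem lev_H1E (P : Par d) (hd : 2 ≤ d) (w : V d → V d → ℝ) (j : ℕ) : Lev_H1E P w j := by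
  induction j with
  | zero => exact fun _ _ i _ _ _ hik _ _ => ⟨i, le_rfl, hik, trivial⟩
  | succ j ih => exact lev_succ_H1E P hd ih

theorem E_lev (P : Par d) (hd : 2 ≤ d) (w : V d → V d → ℝ) (j : ℕ) {x : V d} {γ : ℕ → V d}
    {i k : ℕ} (hD : ¬ D1 P w j x) (hγ : IsWalk γ i k) (hik : i ≤ k)
    (hx : ∀ l, i ≤ l → l ≤ k → nd x (γ l) ≤ 2 * LL P.L0 j)
    (hr : rr P.L0 j ≤ nd (γ i) (γ k)) : ∃ l, i ≤ l ∧ l ≤ k ∧ Gd P w j (γ l) :=
  lev_H1E P hd w j x γ i k hD hγ hik hx hr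

theorem E_fwd (P : Par d) (hd : 2 ≤ d) (w : V d → V d → ℝ) (j : ℕ) {γ : ℕ → V d} {i k : ℕ}
    (hD : ¬ D1 P w j (γ i)) (hγ : IsWalk γ i k) (hik : i ≤ k)
    (hr : rr P.L0 j ≤ nd (γ i) (γ k)) :
    ∃ l, i ≤ l ∧ l ≤ k ∧ Gd P w j (γ l) ∧ nd (γ i) (γ l) ≤ rr P.L0 j :=
  fwd_H1E P (lev_H1E P hd w j) hD hγ hik hr

theorem E_bwd (P : Par d) (hd : 2 ≤ d) (w : V d → V d → ℝ) (j : ℕ) {γ : ℕ → V d} {i k : ℕ}
    (hD : ¬ D1 P w j (γ k)) (hγ : IsWalk γ i k) (hik : i ≤ k)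
    (hr : rr P.L0 j ≤ nd (γ i) (γ k)) :
    ∃ l, i ≤ l ∧ l ≤ k ∧ Gd P w j (γ l) ∧ nd (γ k) (γ l) ≤ rr P.L0 j := by
  have e1 : i + k - i = k := by omega
  have e2 : i + k - k = i := by omega
  obtain ⟨l, l1, l2, l3, l4⟩ := E_fwd P hd w j (γ := fun l => γ (i + k - l)) (i := i) (k := k)
    (by simpa only [e1] using hD) hγ.rev hik (by simpa only [e1, e2, nd_comm (γ k)] using hr)
  exact ⟨i + k - l, by omega, by omega, l3, by simpa only [e1] using l4⟩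

theorem E_ray (P : Par d) (hd : 2 ≤ d) (w : V d → V d → ℝ) (j : ℕ) {x : V d}
    (hD : ¬ D1 P w j x) (i : Fin d) (s : Bool) :
    ∃ k ≤ rr P.L0 j, Gd P w j (ray x i s k) := by
  obtain ⟨l, -, l2, l3, -⟩ := E_fwd P hd w j (γ := ray x i s) (i := 0) (k := rr P.L0 j)
    (by rwa [ray_zero]) (isWalk_ray x i s _ _) (Nat.zero_le _) (by rw [ray_zero, nd_ray])
  exact ⟨l, l2, l3⟩

theorem E_near (P : Par d) (hd : 2 ≤ d) (w : V d → V d → ℝ) (j : ℕ) {x : V d}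
    (hD : ¬ D1 P w j x) : ∃ g, Gd P w j g ∧ nd x g ≤ rr P.L0 j := by
  obtain ⟨k, h1, h2⟩ := E_ray P hd w j hD ⟨0, by omega⟩ true
  exact ⟨_, h2, by rwa [nd_ray]⟩

end Pool.Agent.MP_489c42_pr.H12
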