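import Pool.Agent.MP_489c42_pr.H12.Time
import Pool.Agent.MP_489c42_pr.H12.H1E

namespace Pool.Agent.MP_489c42_pr.H12

open MeasureTheory ProbabilityTheory Filter
open scoped NNReal

variable {d : ℕ}

/-- The slope at level `j`. -/
noncomputable def slope_H1U (P : Par d) (j : ℕ) : ℝ := P.M * (2 - 1 / 2 ^ j)

theorem slope_le_H1U (P : Par d) (j : ℕ) : slope_H1U P j ≤ 2 * P.M := by
  have := P.hM
  have h : (0 : ℝ) < 1 / 2 ^ j := by positivity
  unfold slope_H1U
  nlinarith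

theorem slope_nonneg_H1U (P : Par d) (j : ℕ) : 0 ≤ slope_H1U P j := by
  have := P.hM
  have h : (1 : ℝ) / 2 ^ j ≤ 1 := by
    rw [div_le_one (by positivity)]
    exact one_le_pow₀ (by norm_num)
  unfold slope_H1U
  nlinarith

theorem L_ge_H1U (P : Par d) (j : ℕ) : 1000 * (d + 1) ≤ LL P.L0 j := P.hL.trans (le_LL j)

theorem rr_small_H1U (P : Par d) (j : ℕ) : (8 * d + 8) * 2 ^ j * rr P.L0 j ≤ LL P.L0 j := by
  cases j with
  | zero => simp [rr]
  | succ j =>
    have h1 := L_ge_H1U P j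
    have h2 : 2 ^ (j + 1) ≤ LL P.L0 j := two_pow_le_LL (by have := P.hL; omega) j
    have h3 : 1000 * (d + 1) * 2 ^ (j + 1) ≤ LL P.L0 j * LL P.L0 j := Nat.mul_le_mul h1 h2
    simp only [rr, LL]
    calc (8 * d + 8) * 2 ^ (j + 1) * (106 * LL P.L0 j)
        = (848 * (d + 1) * 2 ^ (j + 1)) * LL P.L0 j := by ring
      _ ≤ (1000 * (d + 1) * 2 ^ (j + 1)) * LL P.L0 j := by gcongr; norm_num
      _ ≤ (LL P.L0 j * LL P.L0 j) * LL P.L0 j := Nat.mul_le_mul_right _ h3
      _ = LL P.L0 j ^ 3 := by ring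

/-- The upper bound at level `j`. -/
def U_H1U (P : Par d) (w : V d → V d → ℝ) (j : ℕ) : Prop :=
  ∀ x g g' : V d, ¬ D1 P w j x → Gd P w j g → Gd P w j g' → nd x g ≤ 2 * LL P.L0 j →
    nd x g' ≤ 2 * LL P.L0 j → T w g g' ≤ slope_H1U P j * n1 g g' + 4 * P.M * rr P.L0 j

theorem step_H1U (P : Par d) {w : V d → V d → ℝ} {j : ℕ} (hU : U_H1U P w j) {x y g g' : V d}
    (hD : ¬ D1 P w j x) (hxy : n1 x y ≤ LL P.L0 j) (hg : Gd P w j g) (hg' : Gd P w j g')
    (hx : nd x g ≤ rr P.L0 j) (hy : nd y g' ≤ rr P.L0 j) :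
    T w g g' ≤ slope_H1U P (j + 1) * LL P.L0 j := by
  have hr := rr_le P j
  have h1 : nd x g' ≤ 2 * LL P.L0 j := by
    have := nd_triangle x y g'
    have := nd_le_n1 x y
    omega
  have h2 : n1 g g' ≤ LL P.L0 j + 2 * d * rr P.L0 j := by
    have a1 := n1_triangle g x g'
    have a2 := n1_triangle x y g'
    have a3 : n1 g x ≤ d * rr P.L0 j :=
      (n1_le g x).trans (Nat.mul_le_mul_left _ (by rwa [nd_comm]))
    have a4 : n1 y g' ≤ d * rr P.L0 j := (n1_le y g').trans (Nat.mul_le_mul_left _ hy)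
    have : 2 * d * rr P.L0 j = d * rr P.L0 j + d * rr P.L0 j := by ring
    omega
  have h3 := hU x g g' hD hg hg' (by omega) h1
  have h2' : (n1 g g' : ℝ) ≤ LL P.L0 j + 2 * d * rr P.L0 j := by exact_mod_cast h2
  have h4 : ((8 * d + 8) * 2 ^ j * rr P.L0 j : ℝ) ≤ LL P.L0 j := by
    exact_mod_cast rr_small_H1U P j
  have h5 : ((4 * d + 4) * rr P.L0 j : ℝ) ≤ 1 / 2 ^ (j + 1) * LL P.L0 j := by
    rw [one_div, inv_mul_eq_div, le_div_iff₀ (by positivity), pow_succ]
    linarith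
  have h6 : slope_H1U P (j + 1) = slope_H1U P j + P.M * (1 / 2 ^ (j + 1)) := by
    unfold slope_H1U
    field_simp
    ring
  have h7 := slope_le_H1U P j
  have h8 := slope_nonneg_H1U P j
  have hM := P.hM
  have h9 : slope_H1U P j * (2 * d * rr P.L0 j) ≤ 2 * P.M * (2 * d * rr P.L0 j) := by gcongr
  have h10 : P.M * ((4 * d + 4) * rr P.L0 j) ≤ P.M * (1 / 2 ^ (j + 1) * LL P.L0 j) := by gcongr
  have h11 := mul_le_mul_of_nonneg_left h2' h8
  rw [h6]
  nlinarith

theorem chain_H1U (P : Par d) (hd : 2 ≤ d) {w : V d → V d → ℝ} (hw : Wt w) {j : ℕ}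
    (hU : U_H1U P w j) {γ : ℕ → V d} {k : ℕ} {g' : V d} (hg' : Gd P w j g')
    (hy : nd (γ k) g' ≤ rr P.L0 j) (n : ℕ) : ∀ (i : ℕ) (g : V d), i + n = k → IsWalk γ i k →
      (∀ l, i ≤ l → l ≤ k → ¬ D1 P w j (γ l)) → Gd P w j g → nd (γ i) g ≤ rr P.L0 j →
      T w g g' ≤ slope_H1U P (j + 1) * (n + LL P.L0 j) := by
  induction n using Nat.strong_induction_on with
  | _ n ih =>
    intro i g hik hγ hD hg hx
    have h0 := slope_nonneg_H1U P (j + 1)
    have hL := L_ge_H1U P j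
    rcases le_or_gt n (LL P.L0 j) with h | h
    · have := hγ.n1_le (by omega)
      refine (step_H1U P hU (hD i le_rfl (by omega)) (by omega) hg hg' hx hy).trans ?_
      gcongr
      exact le_add_of_nonneg_left (Nat.cast_nonneg _)
    · obtain ⟨m, rfl⟩ : ∃ m, n = LL P.L0 j + m := ⟨n - LL P.L0 j, by omega⟩
      obtain ⟨g₁, hg₁, h₁⟩ := E_near P hd w j (hD (i + LL P.L0 j) (by omega) (by omega))
      have a1 := (hγ.mono le_rfl (show i + LL P.L0 j ≤ k by omega)).n1_le (by omega)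
      have a2 := step_H1U P hU (hD i le_rfl (by omega)) (by omega) hg hg₁ hx h₁
      have a3 := ih m (by omega) (i + LL P.L0 j) g₁ (by omega) (hγ.mono (by omega) le_rfl)
        (fun l hl => hD l (by omega)) hg₁ h₁
      refine (T_triangle hw g g₁ g').trans ((add_le_add a2 a3).trans (le_of_eq ?_))
      push_cast
      ring

theorem seg_H1U (P : Par d) (hd : 2 ≤ d) {w : V d → V d → ℝ} (hw : Wt w) {j : ℕ}
    (hU : U_H1U P w j) {p q g g' : V d} (hD : ∀ y, InBB p q y → ¬ D1 P w j y)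
    (hg : Gd P w j g) (hg' : Gd P w j g') (hp : nd p g ≤ rr P.L0 j) (hq : nd q g' ≤ rr P.L0 j) :
    T w g g' ≤ slope_H1U P (j + 1) * (n1 p q + LL P.L0 j) := by
  obtain ⟨γ, h1, h2, h3, h4⟩ := exists_mono_walk p q
  exact chain_H1U P hd hw hU hg' (by rwa [h3]) (n1 p q) 0 g (zero_add _) h1
    (fun l _ hl => hD _ (h4 l hl)) hg (by rwa [h2])

theorem inBB_update_H1U (p q : V d) (i : Fin d) : InBB p q (Function.update p i (q i)) := by
  intro k
  rcases eq_or_ne k i with rfl | h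
  · simp
  · simp [Function.update_of_ne h]

theorem inBB_left_H1U (p q : V d) : InBB p q p := fun _ => ⟨min_le_left _ _, le_max_left _ _⟩

theorem inBB_right_H1U (p q : V d) : InBB p q q := fun _ => ⟨min_le_right _ _, le_max_right _ _⟩

theorem n1_inBB_H1U {p q y : V d} (h : InBB p q y) : n1 p y + n1 y q = n1 p q := by
  unfold n1
  rw [← Finset.sum_add_distrib]
  refine Finset.sum_congr rfl fun i _ => ?_
  have := h i
  omega

theorem n1_update_H1U (p : V d) (k : Fin d) (v : ℤ) :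
    n1 p (Function.update p k v) = (p k - v).natAbs := by
  unfold n1
  rw [Finset.sum_eq_single k (fun i _ hi => by simp [Function.update_of_ne hi]) (by simp)]
  simp

theorem exists_free_H1U (F : Finset (V d)) (hF : F.card < 4) (k : Fin d) (a : ℤ) {L : ℕ}
    (hL : 3 ≤ L) : ∃ v : ℤ, a ≤ v ∧ v ≤ a + 97 * L ∧ ∀ z ∈ F, 16 * (L : ℤ) < |z k - v| := by
  by_contra h
  push Not at h
  have h1 : Finset.Icc a (a + 97 * L) ⊆
      F.biUnion fun z => Finset.Icc (z k - 16 * L) (z k + 16 * L) := fun v hv => by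
    obtain ⟨z, hz, h2⟩ := h v (Finset.mem_Icc.1 hv).1 (Finset.mem_Icc.1 hv).2
    rw [abs_le] at h2
    exact Finset.mem_biUnion.2 ⟨z, hz, Finset.mem_Icc.2 ⟨by omega, by omega⟩⟩
  have h2 := (Finset.card_le_card h1).trans (Finset.card_biUnion_le_card_mul F _ (32 * L + 1)
    fun z _ => by rw [Int.card_Icc]; omega)
  rw [Int.card_Icc] at h2
  have h3 : F.card * (32 * L + 1) ≤ 3 * (32 * L + 1) := Nat.mul_le_mul_right _ (by omega)
  omega

theorem U_succ_H1U (P : Par d) (hd : 2 ≤ d) {w : V d → V d → ℝ} (hw : Wt w) {j : ℕ}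
    (hU : U_H1U P w j) : U_H1U P w (j + 1) := by
  intro x g g' hD ⟨hg, i, hi⟩ ⟨hg', i', hi'⟩ hx hx'
  have h0 := slope_nonneg_H1U P (j + 1)
  have h1 := slope_le_H1U P (j + 1)
  have hL := L_ge_H1U P j
  have hM := P.hM
  have hLL : 97 * LL P.L0 j ≤ LL P.L0 (j + 1) := by
    have : 97 ≤ LL P.L0 j * LL P.L0 j := by nlinarith
    calc 97 * LL P.L0 j ≤ LL P.L0 j * LL P.L0 j * LL P.L0 j := Nat.mul_le_mul_right _ this
      _ = LL P.L0 (j + 1) := by simp only [LL]; ring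
  suffices h : T w g g' ≤ slope_H1U P (j + 1) * (n1 g g' + 197 * LL P.L0 j) by
    have : slope_H1U P (j + 1) * (197 * LL P.L0 j) ≤ 2 * P.M * (197 * LL P.L0 j) := by gcongr
    have : (0 : ℝ) ≤ P.M * LL P.L0 j := by positivity
    simp only [rr]
    push_cast
    nlinarith
  have sg : ∀ y, nd x y ≤ 3 * LL P.L0 (j + 1) → y i = g i → ¬ D1 P w j y := fun y hy =>
    hi y (by have := nd_triangle g x y; rw [nd_comm g x] at this; omega)
  have sg' : ∀ y, nd x y ≤ 3 * LL P.L0 (j + 1) → y i' = g' i' → ¬ D1 P w j y := fun y hy =>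
    hi' y (by have := nd_triangle g' x y; rw [nd_comm g' x] at this; omega)
  have hx3 : nd x g ≤ 3 * LL P.L0 (j + 1) := by omega
  have hx3' : nd x g' ≤ 3 * LL P.L0 (j + 1) := by omega
  rcases eq_or_ne i i' with rfl | hne
  · obtain ⟨k, hk⟩ : ∃ k : Fin d, k ≠ i := by
      have : Nontrivial (Fin d) := Fin.nontrivial_iff_two_le.2 hd
      exact exists_ne i
    obtain ⟨F, hF, hcov⟩ := cover_of_not_many hD
    obtain ⟨v, v1, v2, v3⟩ := exists_free_H1U F hF k (g k) (L := LL P.L0 j) (by omega)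
    set p₁ := Function.update g k v with hp₁
    set p₂ := Function.update p₁ i (g' i) with hp₂
    have b1 : n1 g p₁ ≤ 97 * LL P.L0 j := by rw [hp₁, n1_update_H1U]; omega
    have b2 : nd x p₁ ≤ 3 * LL P.L0 (j + 1) := by
      have := nd_triangle x g p₁
      have := nd_le_n1 g p₁
      omega
    have b3 : InBB p₁ g' p₂ := inBB_update_H1U p₁ g' i
    have b4 : nd x p₂ ≤ 3 * LL P.L0 (j + 1) := b3.nd_le b2 hx3'
    have c1 : ∀ y, InBB g p₁ y → ¬ D1 P w j y := fun y hy =>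
      sg y (hy.nd_le hx3 b2) (hy.eq_of_eq (by rw [hp₁, Function.update_of_ne hk.symm]))
    have c2 : ∀ y, InBB p₁ p₂ y → ¬ D1 P w j y := fun y hy hDy => by
      obtain ⟨z, hz, hzy⟩ := hcov y ((hy.nd_le b2 b4).trans (by omega)) hDy
      have e : y k = v := by
        rw [hy.eq_of_eq (i := k) (by rw [hp₂, Function.update_of_ne hk]), hp₁,
          Function.update_self]
      have := abs_le_nd z y k
      have := v3 z hz
      rw [← e] at this
      omega
    have c3 : ∀ y, InBB p₂ g' y → ¬ D1 P w j y := fun y hy =>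
      sg' y (hy.nd_le b4 hx3') ((hy.eq_of_eq (by rw [hp₂, Function.update_self])).trans
        (by rw [hp₂, Function.update_self]))
    obtain ⟨g₁, hg₁, e₁⟩ := E_near P hd w j (c1 p₁ (inBB_right_H1U _ _))
    obtain ⟨g₂, hg₂, e₂⟩ := E_near P hd w j (c3 p₂ (inBB_left_H1U _ _))
    have t1 := seg_H1U P hd hw hU c1 hg hg₁ (by simp) e₁
    have t2 := seg_H1U P hd hw hU c2 hg₁ hg₂ e₁ e₂
    have t3 := seg_H1U P hd hw hU c3 hg₂ hg' e₂ (by simp)
    have n : n1 g p₁ + n1 p₁ p₂ + n1 p₂ g' ≤ n1 g g' + 194 * LL P.L0 j := by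
      have := n1_inBB_H1U b3
      have := n1_triangle p₁ g g'
      rw [n1_comm p₁ g] at this
      omega
    have n' : (n1 g p₁ + n1 p₁ p₂ + n1 p₂ g' : ℝ) ≤ n1 g g' + 194 * LL P.L0 j := by
      exact_mod_cast n
    have := mul_le_mul_of_nonneg_left n' h0
    have := T_triangle hw g g₁ g'
    have := T_triangle hw g₁ g₂ g'
    nlinarith
  · set p := Function.update g i' (g' i') with hp
    have b3 : InBB g g' p := inBB_update_H1U g g' i'
    have b4 : nd x p ≤ 3 * LL P.L0 (j + 1) := b3.nd_le hx3 hx3'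
    have c1 : ∀ y, InBB g p y → ¬ D1 P w j y := fun y hy =>
      sg y (hy.nd_le hx3 b4) (hy.eq_of_eq (by rw [hp, Function.update_of_ne hne]))
    have c3 : ∀ y, InBB p g' y → ¬ D1 P w j y := fun y hy =>
      sg' y (hy.nd_le b4 hx3') ((hy.eq_of_eq (by rw [hp, Function.update_self])).trans
        (by rw [hp, Function.update_self]))
    obtain ⟨g₁, hg₁, e₁⟩ := E_near P hd w j (c1 p (inBB_right_H1U _ _))
    have t1 := seg_H1U P hd hw hU c1 hg hg₁ (by simp) e₁
    have t3 := seg_H1U P hd hw hU c3 hg₁ hg' e₁ (by simp)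
    have n' : (n1 g p + n1 p g' : ℝ) = n1 g g' := by exact_mod_cast n1_inBB_H1U b3
    have := T_triangle hw g g₁ g'
    have : 0 ≤ slope_H1U P (j + 1) * LL P.L0 j := by positivity
    rw [← n']
    nlinarith

theorem U_all_H1U (P : Par d) (hd : 2 ≤ d) {w : V d → V d → ℝ} (hw : Wt w) (j : ℕ) :
    U_H1U P w j := by
  induction j with
  | zero =>
    intro x g g' hD _ _ hx hx'
    have : T w g g' ≤ P.M * n1 g g' := T_le_mul_n1 hw fun p q hpq hp hq => by
      by_contra h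
      have a1 : nd x p ≤ 2 * P.L0 := hp.nd_le hx hx'
      have a2 : nd x q ≤ 2 * P.L0 := hq.nd_le hx hx'
      exact hD (Or.inr ⟨p, q, hpq, by omega, by omega, not_le.1 h⟩)
    simp only [slope_H1U, rr]
    norm_num
    linarith
  | succ j ih => exact U_succ_H1U P hd hw ih

theorem U_star (P : Par d) (hd : 2 ≤ d) {w : V d → V d → ℝ} (hw : Wt w) {j ρ : ℕ} {x : V d}
    (hC : Clean P w j x ρ) {g g' : V d} (hg : Gd P w j g) (hg' : Gd P w j g')
    (hx : nd x g ≤ ρ) (hx' : nd x g' ≤ ρ) :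
    T w g g' ≤ 2 * P.M * d * nd g g' + 2 * P.M * LL P.L0 j := by
  have h := seg_H1U P hd hw (U_all_H1U P hd hw j) (p := g) (q := g')
    (fun y hy => hC y (hy.nd_le hx hx')) hg hg' (by simp) (by simp)
  have h1 : (n1 g g' : ℝ) ≤ d * nd g g' := by exact_mod_cast n1_le g g'
  have hM := P.hM
  calc T w g g' ≤ _ := h
    _ ≤ 2 * P.M * (d * nd g g' + LL P.L0 j) := by
      gcongr
      exact slope_le_H1U P _
    _ = _ := by ring

end Pool.Agent.MP_489c42_pr.H12
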