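import Pool.Agent.MP_489c42_pr.H12.Geo

namespace Pool.Agent.MP_489c42_pr.H12

open MeasureTheory ProbabilityTheory Filter
open scoped NNReal

variable {d : ℕ}

section KneserAux

variable {N : (Fin d → ℝ) → ℝ} {a Λ : ℝ}

/-- The gauge distance of a real point from a finite set of lattice points. -/
noncomputable def dR_Kn (N : (Fin d → ℝ) → ℝ) (A : Finset (V d)) (hA : A.Nonempty)
    (p : Fin d → ℝ) : ℝ :=
  A.inf' hA fun z => N (p - toR z)

theorem toR_sub_Kn (x z : V d) : toR (x - z) = toR x - toR z := by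
  funext i; simp [toR]

theorem dA_eq_Kn (A : Finset (V d)) (hA : A.Nonempty) (x : V d) :
    dA N A hA x = dR_Kn N A hA (toR x) := by
  simp only [dA, dR_Kn, toR_sub_Kn]

theorem gauge_lip_Kn (hN : IsGauge N a Λ) (p q : Fin d → ℝ) : N p ≤ N q + Λ * ‖p - q‖ := by
  have h1 := hN.add q (p - q)
  have h2 := hN.upper (p - q)
  rw [add_sub_cancel] at h1
  linarith

theorem gauge_cont_Kn (hN : IsGauge N a Λ) (hΛ : 0 ≤ Λ) : Continuous N := by
  have : LipschitzWith ⟨Λ, hΛ⟩ N := by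
    refine LipschitzWith.of_le_add_mul _ fun p q => ?_
    rw [dist_eq_norm]
    exact gauge_lip_Kn hN p q
  exact this.continuous

theorem dR_lip_Kn (hN : IsGauge N a Λ) (A : Finset (V d)) (hA : A.Nonempty)
    (p q : Fin d → ℝ) : dR_Kn N A hA p ≤ dR_Kn N A hA q + Λ * ‖p - q‖ := by
  obtain ⟨z, hz, hq⟩ := Finset.exists_mem_eq_inf' hA fun z => N (q - toR z)
  have h1 : dR_Kn N A hA p ≤ N (p - toR z) :=
    Finset.inf'_le (fun z => N (p - toR z)) hz
  have h2 := gauge_lip_Kn hN (p - toR z) (q - toR z)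
  rw [sub_sub_sub_cancel_right] at h2
  have h3 : dR_Kn N A hA q = N (q - toR z) := hq
  linarith

theorem dR_cont_Kn (hN : IsGauge N a Λ) (hΛ : 0 ≤ Λ) (A : Finset (V d)) (hA : A.Nonempty) :
    Continuous (dR_Kn N A hA) := by
  have : LipschitzWith ⟨Λ, hΛ⟩ (dR_Kn N A hA) := by
    refine LipschitzWith.of_le_add_mul _ fun p q => ?_
    rw [dist_eq_norm]
    exact dR_lip_Kn hN A hA p q
  exact this.continuous

/-- The cell of `z`: the points whose first nearest point of `A` is `z`. -/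
def cell_Kn (N : (Fin d → ℝ) → ℝ) (A : Finset (V d)) (z : V d) : Set (Fin d → ℝ) :=
  {p | ∀ y ∈ A, N (p - toR z) ≤ N (p - toR y) ∧
    (Encodable.encode y < Encodable.encode z → N (p - toR z) < N (p - toR y))}

theorem cell_meas_Kn (hN : IsGauge N a Λ) (hΛ : 0 ≤ Λ) (A : Finset (V d)) (z : V d) :
    MeasurableSet (cell_Kn N A z) := by
  have hc := gauge_cont_Kn hN hΛ
  have hm : ∀ y : V d, Measurable fun p : Fin d → ℝ => N (p - toR y) := fun y =>
    (hc.comp (continuous_id.sub continuous_const)).measurable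
  have : cell_Kn N A z = ⋂ y ∈ A, ({p | N (p - toR z) ≤ N (p - toR y)} ∩
      {p | Encodable.encode y < Encodable.encode z → N (p - toR z) < N (p - toR y)}) := by
    ext p; simp [cell_Kn]
  rw [this]
  refine MeasurableSet.biInter A.countable_toSet fun y _ => ?_
  refine (measurableSet_le (hm z) (hm y)).inter ?_
  by_cases h : Encodable.encode y < Encodable.encode z
  · simpa [h] using measurableSet_lt (hm z) (hm y)
  · simp [h]

theorem cell_disj_Kn (A : Finset (V d)) {z y : V d} (hz : z ∈ A) (hy : y ∈ A) (hne : z ≠ y) :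
    Disjoint (cell_Kn N A z) (cell_Kn N A y) := by
  rw [Set.disjoint_left]
  intro p h1 h2
  have hne' : Encodable.encode z ≠ Encodable.encode y := fun h =>
    hne (Encodable.encode_injective h)
  rcases lt_or_gt_of_ne hne' with h | h
  · exact absurd ((h2 z hz).2 h) (not_lt.2 (h1 y hy).1)
  · exact absurd ((h1 y hy).2 h) (not_lt.2 (h2 z hz).1)

theorem cell_cover_Kn (A : Finset (V d)) (hA : A.Nonempty) (p : Fin d → ℝ) :
    ∃ z ∈ A, p ∈ cell_Kn N A z := by
  classical
  obtain ⟨z0, hz0, h0⟩ := A.exists_min_image (fun z => N (p - toR z)) hA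
  let B := A.filter fun z => N (p - toR z) ≤ N (p - toR z0)
  have hB : B.Nonempty := ⟨z0, by simp [B, hz0]⟩
  obtain ⟨z, hz, h1⟩ := B.exists_min_image (fun z => Encodable.encode z) hB
  rw [Finset.mem_filter] at hz
  refine ⟨z, hz.1, fun y hy => ⟨hz.2.trans (h0 y hy), fun hlt => ?_⟩⟩
  by_contra hcon
  have hyB : y ∈ B := Finset.mem_filter.2 ⟨hy, (not_lt.1 hcon).trans hz.2⟩
  exact absurd (h1 y hyB) (not_le.2 hlt)

theorem dR_of_cell_Kn (A : Finset (V d)) (hA : A.Nonempty) {z : V d} (hz : z ∈ A)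
    {p : Fin d → ℝ} (hp : p ∈ cell_Kn N A z) : dR_Kn N A hA p = N (p - toR z) := by
  refine le_antisymm (Finset.inf'_le (fun z => N (p - toR z)) hz) ?_
  exact Finset.le_inf' hA _ fun y hy => (hp y hy).1

theorem cell_star_Kn (hN : IsGauge N a Λ) (A : Finset (V d)) {z : V d} {θ : ℝ} (h0 : 0 ≤ θ)
    (h1 : θ ≤ 1) {p : Fin d → ℝ} (hp : p ∈ cell_Kn N A z) :
    AffineMap.homothety (toR z) θ p ∈ cell_Kn N A z ∧
      N (AffineMap.homothety (toR z) θ p - toR z) = θ * N (p - toR z) := by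
  have hq : AffineMap.homothety (toR z) θ p = θ • (p - toR z) + toR z := by
    rw [AffineMap.homothety_apply]; rfl
  set q := AffineMap.homothety (toR z) θ p with hqdef
  have e1 : N (q - toR z) = θ * N (p - toR z) := by
    rw [hq, add_sub_cancel_right]; exact hN.hom θ _ h0
  have e2 : ∀ y : V d, N (p - toR y) ≤ (1 - θ) * N (p - toR z) + N (q - toR y) := by
    intro y
    have h := hN.add ((1 - θ) • (p - toR z)) (q - toR y)
    rw [hN.hom (1 - θ) _ (by linarith)] at h
    have e : (1 - θ) • (p - toR z) + (q - toR y) = p - toR y := by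
      rw [hq]; funext i; simp; ring
    rwa [e] at h
  refine ⟨fun y hy => ⟨?_, fun hlt => ?_⟩, e1⟩
  · have := e2 y
    have := (hp y hy).1
    rw [e1]; linarith
  · have := e2 y
    have := (hp y hy).2 hlt
    rw [e1]; linarith

/-- The real shell between the levels `s` and `t`. -/
def shR_Kn (N : (Fin d → ℝ) → ℝ) (A : Finset (V d)) (hA : A.Nonempty) (s t : ℝ) :
    Set (Fin d → ℝ) :=
  {p | s < dR_Kn N A hA p ∧ dR_Kn N A hA p ≤ t}

theorem shR_meas_Kn (hN : IsGauge N a Λ) (hΛ : 0 ≤ Λ) (A : Finset (V d)) (hA : A.Nonempty)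
    (s t : ℝ) : MeasurableSet (shR_Kn N A hA s t) := by
  have hm := (dR_cont_Kn hN hΛ A hA).measurable
  exact (measurableSet_lt measurable_const hm).inter (measurableSet_le hm measurable_const)

theorem shR_scale_Kn (hN : IsGauge N a Λ) (hΛ : 0 ≤ Λ) (A : Finset (V d)) (hA : A.Nonempty)
    {θ s t s' t' : ℝ} (h0 : 0 < θ) (h1 : θ ≤ 1) (hs : s' ≤ θ * s) (ht : θ * t ≤ t') :
    ENNReal.ofReal (θ ^ d) * volume (shR_Kn N A hA s t) ≤ volume (shR_Kn N A hA s' t') := by
  have hcov : shR_Kn N A hA s t ⊆ ⋃ z ∈ A, (shR_Kn N A hA s t ∩ cell_Kn N A z) := by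
    intro p hp
    obtain ⟨z, hz, hpz⟩ := cell_cover_Kn (N := N) A hA p
    exact Set.mem_biUnion hz ⟨hp, hpz⟩
  have step : ∀ z ∈ A, ENNReal.ofReal (θ ^ d) * volume (shR_Kn N A hA s t ∩ cell_Kn N A z) ≤
      volume (shR_Kn N A hA s' t' ∩ cell_Kn N A z) := by
    intro z hz
    have hv := Measure.addHaar_image_homothety (volume : Measure (Fin d → ℝ)) (toR z) θ
      (shR_Kn N A hA s t ∩ cell_Kn N A z)
    rw [Module.finrank_fin_fun, abs_of_nonneg (pow_nonneg h0.le d)] at hv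
    rw [← hv]
    refine measure_mono ?_
    rintro _ ⟨p, ⟨hp, hpz⟩, rfl⟩
    obtain ⟨hq, e⟩ := cell_star_Kn hN A h0.le h1 hpz
    refine ⟨?_, hq⟩
    have e1 := dR_of_cell_Kn A hA hz hq
    have e2 := dR_of_cell_Kn A hA hz hpz
    obtain ⟨hp1, hp2⟩ := hp
    rw [e2] at hp1 hp2
    refine ⟨?_, ?_⟩
    · rw [e1, e]
      exact lt_of_le_of_lt hs (mul_lt_mul_of_pos_left hp1 h0)
    · rw [e1, e]
      exact (mul_le_mul_of_nonneg_left hp2 h0.le).trans ht
  calc ENNReal.ofReal (θ ^ d) * volume (shR_Kn N A hA s t)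
      ≤ ENNReal.ofReal (θ ^ d) * ∑ z ∈ A, volume (shR_Kn N A hA s t ∩ cell_Kn N A z) := by
        gcongr
        exact (measure_mono hcov).trans (measure_biUnion_finset_le _ _)
    _ = ∑ z ∈ A, ENNReal.ofReal (θ ^ d) * volume (shR_Kn N A hA s t ∩ cell_Kn N A z) :=
        Finset.mul_sum _ _ _
    _ ≤ ∑ z ∈ A, volume (shR_Kn N A hA s' t' ∩ cell_Kn N A z) := Finset.sum_le_sum step
    _ = volume (⋃ z ∈ A, (shR_Kn N A hA s' t' ∩ cell_Kn N A z)) := by
        rw [measure_biUnion_finset]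
        · intro z hz y hy hne
          exact (cell_disj_Kn A hz hy hne).mono Set.inter_subset_right Set.inter_subset_right
        · intro z _
          exact (shR_meas_Kn hN hΛ A hA s' t').inter (cell_meas_Kn hN hΛ A z)
    _ ≤ volume (shR_Kn N A hA s' t') := by
        refine measure_mono ?_
        exact Set.iUnion₂_subset fun z _ => Set.inter_subset_left

/-- The half-open unit cube at a lattice point. -/
def cube_Kn (x : V d) : Set (Fin d → ℝ) :=
  Set.univ.pi fun i => Set.Ico (x i : ℝ) (x i + 1)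

theorem cube_meas_Kn (x : V d) : MeasurableSet (cube_Kn x) :=
  MeasurableSet.univ_pi fun _ => measurableSet_Ico

theorem cube_vol_Kn (x : V d) : volume (cube_Kn x) = 1 := by
  unfold cube_Kn
  rw [Real.volume_pi_Ico]
  simp

theorem mem_cube_Kn {x : V d} {p : Fin d → ℝ} : p ∈ cube_Kn x ↔ x = fun i => ⌊p i⌋ := by
  unfold cube_Kn
  rw [Set.mem_univ_pi, funext_iff]
  refine forall_congr' fun i => ?_
  rw [eq_comm, Int.floor_eq_iff]
  rfl

theorem cube_norm_Kn {x : V d} {p : Fin d → ℝ} (hp : p ∈ cube_Kn x) : ‖p - toR x‖ ≤ 1 := by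
  rw [pi_norm_le_iff_of_nonneg zero_le_one]
  intro i
  have h := (Set.mem_univ_pi.1 hp) i
  rw [Real.norm_eq_abs, abs_le]
  simp only [Pi.sub_apply, toR]
  constructor <;> linarith [h.1, h.2]

theorem cube_dR_Kn (hN : IsGauge N a Λ) (hΛ : 0 ≤ Λ) (A : Finset (V d)) (hA : A.Nonempty)
    {x : V d} {p : Fin d → ℝ} (hp : p ∈ cube_Kn x) :
    dR_Kn N A hA p ≤ dA N A hA x + Λ ∧ dA N A hA x ≤ dR_Kn N A hA p + Λ := by
  have hn := cube_norm_Kn hp
  have h1 := dR_lip_Kn hN A hA p (toR x)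
  have h2 := dR_lip_Kn hN A hA (toR x) p
  rw [norm_sub_rev] at h2
  have h3 : Λ * ‖p - toR x‖ ≤ Λ := by nlinarith
  rw [dA_eq_Kn]
  constructor <;> linarith

theorem card_le_vol_Kn (S : Finset (V d)) {E : Set (Fin d → ℝ)}
    (h : ∀ x ∈ S, cube_Kn x ⊆ E) : (S.card : ENNReal) ≤ volume E := by
  calc (S.card : ENNReal) = ∑ x ∈ S, volume (cube_Kn x) := by simp [cube_vol_Kn]
    _ = volume (⋃ x ∈ S, cube_Kn x) := by
        rw [measure_biUnion_finset]
        · intro x _ y _ hne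
          rw [Function.onFun, Set.disjoint_left]
          intro p h1 h2
          exact hne ((mem_cube_Kn.1 h1).trans (mem_cube_Kn.1 h2).symm)
        · intro x _
          exact cube_meas_Kn x
    _ ≤ volume E := measure_mono (Set.iUnion₂_subset h)

theorem vol_le_card_Kn (S : Finset (V d)) {E : Set (Fin d → ℝ)}
    (h : ∀ p ∈ E, ∀ x, p ∈ cube_Kn x → x ∈ S) : volume E ≤ (S.card : ENNReal) := by
  calc volume E ≤ volume (⋃ x ∈ S, cube_Kn x) := by
        refine measure_mono fun p hp => ?_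
        have hx : p ∈ cube_Kn (fun i => ⌊p i⌋ : V d) := mem_cube_Kn.2 rfl
        exact Set.mem_biUnion (h p hp _ hx) hx
    _ ≤ ∑ x ∈ S, volume (cube_Kn x) := measure_biUnion_finset_le _ _
    _ = S.card := by simp [cube_vol_Kn]

theorem one_le_exp_mul_Kn {t T : ℝ} (h0 : 0 ≤ t) (h1 : t ≤ T) (h2 : T ≤ 1 / 2) (n : ℕ) :
    1 ≤ Real.exp (2 * n * T) * (1 - t) ^ n := by
  have e1 : 1 ≤ Real.exp (2 * T) * (1 - t) := by
    have h3 := Real.add_one_le_exp (2 * T)
    have h4 : 0 ≤ 1 - t := by linarith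
    have h5 : (2 * T + 1) * (1 - t) ≤ Real.exp (2 * T) * (1 - t) :=
      mul_le_mul_of_nonneg_right h3 h4
    nlinarith
  have e2 : Real.exp (2 * n * T) = Real.exp (2 * T) ^ n := by
    rw [← Real.exp_nat_mul]; congr 1; ring
  rw [e2, ← mul_pow]
  exact one_le_pow₀ e1

end KneserAux

theorem kneser {N : (Fin d → ℝ) → ℝ} {a Λ : ℝ} (hN : IsGauge N a Λ) (hΛ : 0 ≤ Λ)
    (A : Finset (V d)) (hA : A.Nonempty) {β h : ℝ} {J : ℕ} (hh : 0 < h) (hβ : 0 < β)
    (hJ : 2 * J * h ≤ β) (S₁ S₂ : Finset (V d))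
    (h1 : ∀ x ∈ S₁, β + Λ < dA N A hA x ∧ dA N A hA x ≤ β + h - Λ)
    (h2 : ∀ x, β - J * h - Λ < dA N A hA x → dA N A hA x ≤ β + Λ → x ∈ S₂) :
    (J : ℝ) * S₁.card ≤ Real.exp (2 * d * J * h / β) * S₂.card := by
  set c : ℝ := Real.exp (2 * d * J * h / β) with hc
  have hc0 : 0 ≤ c := (Real.exp_pos _).le
  have A1 : (S₁.card : ENNReal) ≤ volume (shR_Kn N A hA β (β + h)) := by
    refine card_le_vol_Kn S₁ fun x hx p hp => ?_
    obtain ⟨e1, e2⟩ := cube_dR_Kn hN hΛ A hA hp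
    obtain ⟨e3, e4⟩ := h1 x hx
    exact ⟨by linarith, by linarith⟩
  have A2 : volume (shR_Kn N A hA (β - J * h) β) ≤ (S₂.card : ENNReal) := by
    refine vol_le_card_Kn S₂ fun p hp x hx => ?_
    obtain ⟨e1, e2⟩ := cube_dR_Kn hN hΛ A hA hx
    obtain ⟨e3, e4⟩ := hp
    exact h2 x (by linarith) (by linarith)
  have A3 : ∀ k ∈ Finset.range J, (S₁.card : ENNReal) ≤
      ENNReal.ofReal c * volume (shR_Kn N A hA (β - (k + 1) * h) (β - k * h)) := by
    intro k hk
    have hk' : (k : ℝ) + 1 ≤ J := by exact_mod_cast Finset.mem_range.1 hk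
    have hk0 : (0 : ℝ) ≤ k := Nat.cast_nonneg k
    set t : ℝ := (k + 1) * h / β with ht
    have ht0 : 0 ≤ t := by positivity
    have htT : t ≤ J * h / β := by
      rw [ht]; gcongr
    have hT : J * h / β ≤ 1 / 2 := by
      rw [div_le_iff₀ hβ]; linarith
    have htβ : t * β = (k + 1) * h := by
      rw [ht]; field_simp
    have hθ0 : 0 < 1 - t := by linarith
    have hsc := shR_scale_Kn hN hΛ A hA (θ := 1 - t) (s := β) (t := β + h)
      (s' := β - (k + 1) * h) (t' := β - k * h) hθ0 (by linarith) (by nlinarith)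
      (by nlinarith [mul_nonneg ht0 hh.le])
    have hone := one_le_exp_mul_Kn ht0 htT hT d
    have hce : 2 * (d : ℝ) * (J * h / β) = 2 * d * J * h / β := by ring
    rw [hce, ← hc] at hone
    calc (S₁.card : ENNReal) ≤ 1 * volume (shR_Kn N A hA β (β + h)) := by rwa [one_mul]
      _ ≤ (ENNReal.ofReal c * ENNReal.ofReal ((1 - t) ^ d)) *
            volume (shR_Kn N A hA β (β + h)) := by
          gcongr
          rw [← ENNReal.ofReal_mul hc0]
          exact ENNReal.one_le_ofReal.2 hone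
      _ = ENNReal.ofReal c * (ENNReal.ofReal ((1 - t) ^ d) *
            volume (shR_Kn N A hA β (β + h))) := mul_assoc _ _ _
      _ ≤ _ := by gcongr
  have A4 : ∑ k ∈ Finset.range J, volume (shR_Kn N A hA (β - (k + 1) * h) (β - k * h)) ≤
      volume (shR_Kn N A hA (β - J * h) β) := by
    rw [← measure_biUnion_finset]
    · refine measure_mono (Set.iUnion₂_subset fun k hk p hp => ?_)
      have hk' : (k : ℝ) + 1 ≤ J := by exact_mod_cast Finset.mem_range.1 hk
      have hk0 : (0 : ℝ) ≤ k := Nat.cast_nonneg k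
      obtain ⟨e1, e2⟩ := hp
      exact ⟨by nlinarith, by nlinarith⟩
    · intro k _ l _ hne
      rw [Function.onFun, Set.disjoint_left]
      rintro p ⟨e1, e2⟩ ⟨e3, e4⟩
      rcases lt_or_gt_of_ne hne with hlt | hlt
      · have : (k : ℝ) + 1 ≤ l := by exact_mod_cast hlt
        nlinarith
      · have : (l : ℝ) + 1 ≤ k := by exact_mod_cast hlt
        nlinarith
    · intro k _
      exact shR_meas_Kn hN hΛ A hA _ _
  have A5 : (J : ENNReal) * S₁.card ≤ ENNReal.ofReal c * S₂.card := by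
    calc (J : ENNReal) * S₁.card = ∑ _k ∈ Finset.range J, (S₁.card : ENNReal) := by simp
      _ ≤ ∑ k ∈ Finset.range J,
            ENNReal.ofReal c * volume (shR_Kn N A hA (β - (k + 1) * h) (β - k * h)) :=
          Finset.sum_le_sum A3
      _ = ENNReal.ofReal c *
            ∑ k ∈ Finset.range J, volume (shR_Kn N A hA (β - (k + 1) * h) (β - k * h)) :=
          (Finset.mul_sum _ _ _).symm
      _ ≤ ENNReal.ofReal c * S₂.card := by gcongr; exact A4.trans A2
  have A6 : ENNReal.ofReal ((J : ℝ) * S₁.card) ≤ ENNReal.ofReal (c * S₂.card) := by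
    rw [ENNReal.ofReal_mul (Nat.cast_nonneg J), ENNReal.ofReal_mul hc0]
    simpa using A5
  exact (ENNReal.ofReal_le_ofReal_iff (by positivity)).1 A6

end Pool.Agent.MP_489c42_pr.H12
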