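import Pool.Agent.MP_489c42_pr.H12.H1U

namespace Pool.Agent.MP_489c42_pr.H12

open MeasureTheory ProbabilityTheory Filter
open scoped NNReal

variable {d : ℕ}

theorem bypass (P : Par d) (hd : 2 ≤ d) {w : V d → V d → ℝ} (hw : Wt w) {j ρ : ℕ} {x : V d}
    (hC : Clean P w j x ρ) {b : ℝ}
    (hb : 2 * P.M * d * (2 * LL P.L0 j + 1) + 2 * P.M * LL P.L0 j ≤ b) {γ : ℕ → V d} {i k : ℕ}
    (hγ : IsWalk γ i k) (hik : i ≤ k) (hx : ∀ l, i ≤ l → l ≤ k → nd x (γ l) ≤ ρ)
    (hi : Gd P w j (γ i)) (hk : Gd P w j (γ k)) :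
    T w (γ i) (γ k) ≤ cost (fun y z => min (w y z) b) γ i k := by
  have hM : 0 ≤ P.M := le_trans zero_le_one P.hM
  have hb0 : 0 ≤ b := le_trans (by positivity) hb
  have hwb := hw.of_min hb0
  induction h : k - i using Nat.strong_induction_on generalizing i k with
  | _ n ih =>
    by_cases hall : ∀ l, i ≤ l → l < k → w (γ l) (γ (l + 1)) ≤ b
    · exact (T_le_cost hw hγ hik).trans
        (cost_le_cost fun l h1 h2 => le_min le_rfl (hall l h1 h2))
    push Not at hall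
    obtain ⟨l, h1, h2, h3⟩ := hall
    obtain ⟨l1, a1, a2, a3, a4⟩ : ∃ l1, i ≤ l1 ∧ l1 ≤ l ∧ Gd P w j (γ l1) ∧
        nd (γ l) (γ l1) ≤ rr P.L0 j := by
      by_cases hr : rr P.L0 j ≤ nd (γ i) (γ l)
      · exact E_bwd P hd w j (hC _ (hx l h1 h2.le)) (hγ.mono le_rfl h2.le) h1 hr
      · exact ⟨i, le_rfl, h1, hi, by rw [nd_comm]; omega⟩
    obtain ⟨l2, b1, b2, b3, b4⟩ : ∃ l2, l + 1 ≤ l2 ∧ l2 ≤ k ∧ Gd P w j (γ l2) ∧
        nd (γ (l + 1)) (γ l2) ≤ rr P.L0 j := by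
      by_cases hr : rr P.L0 j ≤ nd (γ (l + 1)) (γ k)
      · exact E_fwd P hd w j (hC _ (hx (l + 1) (by omega) h2)) (hγ.mono (by omega) le_rfl) h2 hr
      · exact ⟨k, h2, le_rfl, hk, by omega⟩
    have c1 := ih (l1 - i) (by omega) (hγ.mono le_rfl (by omega : l1 ≤ k)) a1
      (fun q q1 q2 => hx q q1 (by omega)) hi a3 rfl
    have c2 := ih (k - l2) (by omega) (hγ.mono (by omega : i ≤ l2) le_rfl) b2
      (fun q q1 q2 => hx q (by omega) q2) b3 hk rfl
    have c3 := U_star P hd hw hC a3 b3 (hx l1 a1 (by omega)) (hx l2 (by omega) b2)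
    have c4 : nd (γ l1) (γ l2) ≤ 2 * LL P.L0 j + 1 := by
      have e1 := nd_triangle (γ l1) (γ l) (γ l2)
      have e2 := nd_triangle (γ l) (γ (l + 1)) (γ l2)
      have e3 := nd_of_adj (hγ l h1 h2)
      have e4 := rr_le P j
      rw [nd_comm (γ l1) (γ l)] at e1
      omega
    have c5 : (nd (γ l1) (γ l2) : ℝ) ≤ 2 * LL P.L0 j + 1 := by exact_mod_cast c4
    have c6 : T w (γ l1) (γ l2) ≤ b :=
      c3.trans (le_trans (by gcongr) hb)
    have c7 := cost_mono hwb γ (le_refl i) a2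
    have c8 := cost_mono hwb γ b1 (le_refl k)
    rw [cost_add _ γ h1 h2.le, cost_add _ γ (Nat.le_succ l) h2, cost_succ, min_eq_right h3.le]
    have c9 := T_triangle hw (γ i) (γ l1) (γ k)
    have c10 := T_triangle hw (γ l1) (γ l2) (γ k)
    linarith

theorem near_LemM (P : Par d) (hd : 2 ≤ d) (w : V d → V d → ℝ) {m : ℕ} (hL : P.L0 ≤ sN m)
    {x : V d} (hD : ¬ D1 P w (lev P.L0 m) x) :
    ∃ g, Gd P w (lev P.L0 m) g ∧ nd x g ≤ sN m := by
  obtain ⟨g, h1, h2⟩ := E_near P hd w _ hD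
  exact ⟨g, h1, h2.trans ((rr_le P _).trans (LL_lev_le hL))⟩

theorem star_LemM (P : Par d) (hd : 2 ≤ d) {w : V d → V d → ℝ} (hw : Wt w) {m ρ : ℕ}
    (hL : P.L0 ≤ sN m) {x : V d} (hC : Clean P w (lev P.L0 m) x ρ) {g g' : V d}
    (hg : Gd P w (lev P.L0 m) g) (hg' : Gd P w (lev P.L0 m) g') (hx : nd x g ≤ ρ)
    (hx' : nd x g' ≤ ρ) {e : ℕ} (he : nd g g' ≤ e) :
    T w g g' ≤ P.A * e / 2 + P.A * sN m / 4 := by
  have hM : 0 ≤ P.M := le_trans zero_le_one P.hM
  have h1 := U_star P hd hw hC hg hg' hx hx'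
  have h2 : (nd g g' : ℝ) ≤ e := by exact_mod_cast he
  have h3 : (LL P.L0 (lev P.L0 m) : ℝ) ≤ sN m := by exact_mod_cast LL_lev_le hL
  have h4 : (2 : ℝ) ≤ d := by exact_mod_cast hd
  have h5 : 2 * P.M * d * nd g g' ≤ 2 * P.M * d * e := by gcongr
  have h6 : 2 * P.M * LL P.L0 (lev P.L0 m) ≤ d * P.M * sN m := by gcongr
  unfold Par.A
  linarith

theorem sN_succ_LemM (m : ℕ) : sN (m + 1) = 2 * sN m := by
  unfold sN; rw [pow_succ, mul_comm]

theorem sN_mono_LemM {m m' : ℕ} (h : m ≤ m') : sN m ≤ sN m' :=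
  Nat.pow_le_pow_right (by norm_num) h

theorem sR_mono_LemM {m m' : ℕ} (h : m ≤ m') : sR d m ≤ sR d m' :=
  Nat.pow_le_pow_left (sN_mono_LemM h) _

theorem sR_ge_LemM {m : ℕ} (h : 1000 ≤ sN m) : 1000 * sN m ≤ sR d m := by
  have h1 : sN m ^ 2 ≤ sR d m := Nat.pow_le_pow_right (by omega) (by unfold eK; omega)
  rw [sq] at h1
  exact (Nat.mul_le_mul_right _ h).trans h1

theorem L0_ge_LemM (P : Par d) : 1000 ≤ P.L0 := le_trans (by omega) P.hL

theorem down (P : Par d) (hd : 2 ≤ d) {w : V d → V d → ℝ} (hw : Wt w) {m m' : ℕ}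
    (hL : P.L0 ≤ sN m) (hm : m ≤ m') {z g g' : V d}
    (hC : ∀ m'', m ≤ m'' → m'' ≤ m' → Clean P w (lev P.L0 m'') z (2 * sN m''))
    (hg' : Gd P w (lev P.L0 m') g') (hz' : nd z g' ≤ sN m')
    (hg : Gd P w (lev P.L0 m) g) (hz : nd z g ≤ sN m) :
    T w g' g ≤ 4 * P.A * sN m' := by
  have hA := P.four_le_A (by omega)
  induction m', hm using Nat.le_induction generalizing g' with
  | base =>
    have h1 := star_LemM P hd hw hL (hC m le_rfl le_rfl) hg' hg (by omega) (by omega)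
      (e := 2 * sN m) (by
        have := nd_triangle g' z g
        rw [nd_comm g' z] at this
        omega)
    have h2 : 0 ≤ P.A * sN m := by positivity
    push_cast at h1
    linarith
  | succ k hk ih =>
    have hL' : P.L0 ≤ sN k := hL.trans (sN_mono_LemM hk)
    have hCk := hC k hk (Nat.le_succ k)
    obtain ⟨g1, a1, a2⟩ := near_LemM P hd w hL' (hCk z (by simp))
    have h1 := ih (fun q q1 q2 => hC q q1 (by omega)) a1 a2
    rw [sN_succ_LemM] at hz' ⊢
    have h2 := star_LemM P hd hw hL' hCk (Gd_mono P (lev_mono (Nat.le_succ k)) hg') a1 hz'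
      (by omega) (e := 3 * sN k) (by
        have := nd_triangle g' z g1
        rw [nd_comm g' z] at this
        omega)
    have h3 := T_triangle hw g' g1 g
    have h4 : 0 ≤ P.A * sN k := by positivity
    push_cast at h2 ⊢
    linarith

theorem orig_ev (P : Par d) (hd : 2 ≤ d) {w : V d → V d → ℝ} (hw : Wt w)
    (h : ∀ᶠ m in atTop, CleanS P w m 0) : ∀ᶠ m in atTop, Orig P w m := by
  have hA := P.four_le_A (by omega)
  obtain ⟨m1, h1⟩ := eventually_atTop.1 h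
  obtain ⟨m2, h2⟩ := exists_le_sN P.L0
  have hL : P.L0 ≤ sN (max m1 m2) := by exact_mod_cast h2 _ (le_max_right _ _)
  obtain ⟨g0, a1, a2⟩ := near_LemM P hd w hL (h1 _ (le_max_left _ _) 0 (by simp))
  obtain ⟨m3, h3⟩ := exists_le_sN (T w 0 g0)
  refine eventually_atTop.2 ⟨max (max m1 m2) m3, fun m hm g b1 b2 => ?_⟩
  have hm1 : max m1 m2 ≤ m := (le_max_left _ _).trans hm
  have c1 := down P hd hw hL hm1 (z := 0) (fun q q1 _ y hy => h1 q ((le_max_left _ _).trans q1) y (by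
    have := sR_ge_LemM (d := d) ((L0_ge_LemM P).trans (hL.trans (sN_mono_LemM q1)))
    omega)) b1 b2 a1 a2
  have c2 := h3 m ((le_max_right _ _).trans hm)
  have c3 := T_triangle hw 0 g0 g
  rw [T_symm hw g0 g] at c3
  have c4 := one_le_sN m
  nlinarith

theorem lemM (P : Par d) (hd : 2 ≤ d) : ∃ m0 : ℕ, ∀ m m1, m0 ≤ m → m ≤ m1 →
    ∀ w : V d → V d → ℝ, Wt w → Orig P w m1 → ∀ (x z g : V d) (X : ℝ),
      (∀ m', m ≤ m' → m' ≤ m1 → CleanS P w m' x) → 2 * nd x z ≤ sR d m →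
      That w P.A z ≤ X → That w P.A z ≤ sMax P m1 → 24 * P.A * sN m1 ≤ X →
      Gd P w (lev P.L0 m) g → nd z g ≤ sN m → T w 0 g ≤ X + 6 * P.A * sN m := by
  have hA := P.four_le_A (by omega)
  obtain ⟨m0, h0⟩ := exists_le_sN P.L0
  refine ⟨m0, fun m m1 hm hm1 w hw hO x z g X hC hxz hX hMax hX2 hg hzg => ?_⟩
  have hL : ∀ q, m ≤ q → P.L0 ≤ sN q := fun q hq => by exact_mod_cast h0 q (hm.trans hq)
  have hR : ∀ q, m ≤ q → 1000 * sN q ≤ sR d q := fun q hq =>
    sR_ge_LemM ((L0_ge_LemM P).trans (hL q hq))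
  have hxz' : ∀ q, m ≤ q → 2 * nd x z ≤ sR d q := fun q hq => hxz.trans (sR_mono_LemM hq)
  have hCz : ∀ q, m ≤ q → q ≤ m1 → Clean P w (lev P.L0 q) z (2 * sN q) := by
    intro q q1 q2 y hy
    refine hC q q1 q2 y ?_
    have e1 := nd_triangle x z y
    have e2 := hR q q1
    have e3 := hxz' q q1
    omega
  obtain ⟨y, hy⟩ := exists_That_near w P.A z
  have hT0 := T_nonneg hw 0 y
  have hD : 4 * nd z y ≤ sR d m1 := by
    have e1 : (1 : ℝ) ≤ (sN m1 : ℝ) ^ (eK d + eA d) := one_le_pow₀ (one_le_sN m1)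
    have e2 : (nd z y : ℝ) ≤ 2 * (sN m1 : ℝ) ^ (eK d + eA d) := by
      unfold sMax at hMax
      refine le_of_mul_le_mul_left ?_ (show 0 < P.A by linarith)
      nlinarith
    have e3 : nd z y ≤ 2 * sN m1 ^ (eK d + eA d) := by exact_mod_cast e2
    have e4 : 1000 * sN m1 ^ (eK d + eA d) ≤ sR d m1 := by
      unfold sR
      rw [pow_succ, mul_comm]
      exact Nat.mul_le_mul_left _ ((L0_ge_LemM P).trans (hL m1 hm1))
    omega
  have hn : ∀ q, P.A ≤ P.A * sN q := fun q => le_mul_of_one_le_right (by linarith) (one_le_sN q)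
  have hxy := nd_triangle x z y
  by_cases hy0 : nd 0 y ≤ sN m1
  · have e1 := hR m1 hm1
    have e2 := hxz' m1 hm1
    have e3 := nd_triangle x y 0
    rw [nd_comm y 0] at e3
    obtain ⟨g0, a1, a2⟩ := near_LemM P hd w (hL m1 hm1) (hC m1 hm1 le_rfl 0 (by omega))
    obtain ⟨g2, b1, b2⟩ := near_LemM P hd w (hL m1 hm1) (hC m1 hm1 le_rfl z (by omega))
    have c1 := hO g0 a1 a2
    have c2 := star_LemM P hd hw (hL m1 hm1) (hC m1 hm1 le_rfl) a1 b1
      (by have := nd_triangle x 0 g0; omega) (by have := nd_triangle x z g2; omega)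
      (e := nd z y + 3 * sN m1) (by
        have f1 := nd_triangle g0 0 g2
        have f2 := nd_triangle 0 y g2
        have f3 := nd_triangle y z g2
        rw [nd_comm g0 0] at f1
        rw [nd_comm y z] at f3
        omega)
    have c3 := down P hd hw (hL m le_rfl) hm1 hCz b1 b2 hg hzg
    have c4 := T_triangle hw 0 g0 g
    have c5 := T_triangle hw g0 g2 g
    have c6 := hn m
    have c7 := hn m1
    push_cast at c2
    nlinarith
  · have hex : ∃ q, m ≤ q ∧ 4 * nd z y ≤ sR d q := ⟨m1, hm1, hD⟩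
    classical
    obtain ⟨q1, q2⟩ := Nat.find_spec hex
    have q3 : Nat.find hex ≤ m1 := Nat.find_min' hex ⟨hm1, hD⟩
    have q4 : ∀ k < Nat.find hex, ¬ (m ≤ k ∧ 4 * nd z y ≤ sR d k) := fun k hk => Nat.find_min hex hk
    generalize Nat.find hex = q at q1 q2 q3 q4
    have e1 := hR q q1
    have e2 := hxz' q q1
    have e3 := (rr_le P (lev P.L0 q)).trans (LL_lev_le (hL q q1))
    have e4 : sN q ≤ sN m1 := sN_mono_LemM q3
    obtain ⟨γ, n, g1, g2, g3, g4⟩ := exists_near w 0 y zero_lt_one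
    obtain ⟨l, -, a2, a3, a4⟩ := E_bwd P hd w (lev P.L0 q) (γ := γ) (i := 0) (k := n)
      (by rw [g3]; exact hC q q1 q3 y (by omega)) g1 (Nat.zero_le n)
      (by rw [g2, g3]; exact e3.trans (e4.trans (by omega)))
    rw [g3] at a4
    have a5 : nd y (γ l) ≤ sN q := a4.trans e3
    have c1 : T w 0 (γ l) ≤ T w 0 y + 1 := by
      have f1 := T_le_cost hw (g1.mono le_rfl a2) (Nat.zero_le l)
      rw [g2] at f1
      exact f1.trans ((cost_mono hw γ le_rfl a2).trans g4)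
    obtain ⟨g', b1, b2⟩ := near_LemM P hd w (hL q q1) (hC q q1 q3 z (by omega))
    have c2 := star_LemM P hd hw (hL q q1) (hC q q1 q3) a3 b1
      (by have := nd_triangle x y (γ l); omega) (by have := nd_triangle x z g'; omega)
      (e := nd z y + 2 * sN q) (by
        have f1 := nd_triangle (γ l) y g'
        have f3 := nd_triangle y z g'
        rw [nd_comm (γ l) y] at f1
        rw [nd_comm y z] at f3
        omega)
    have c3 := down P hd hw (hL m le_rfl) q1 (fun k k1 k2 => hCz k k1 (k2.trans q3)) b1 b2 hg hzg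
    have c4 := T_triangle hw 0 (γ l) g
    have c5 := T_triangle hw (γ l) g' g
    have c6 := hn m
    have c7 := hn q
    have c8 : 0 ≤ P.A * nd z y := by positivity
    push_cast at c2
    rcases q1.eq_or_lt with rfl | hlt
    · nlinarith
    · obtain ⟨k, rfl⟩ : ∃ k, q = k + 1 := ⟨q - 1, by omega⟩
      have f1 := q4 k (Nat.lt_succ_self k)
      have f2 := hR k (by omega)
      have f3 := sN_succ_LemM k
      have f4 : 12 * sN (k + 1) ≤ nd z y := by omega
      have f5 : (12 * sN (k + 1) : ℝ) ≤ nd z y := by exact_mod_cast f4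
      have f6 := mul_le_mul_of_nonneg_left f5 (show 0 ≤ P.A by linarith)
      nlinarith

end Pool.Agent.MP_489c42_pr.H12
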