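import Pool.Agent.MP_489c42_pr.H12.ProbEv
import Pool.Agent.MP_489c42_pr.H12.ConcT

namespace Pool.Agent.MP_489c42_pr.H12

open MeasureTheory ProbabilityTheory Filter
open scoped NNReal

variable {d : ℕ}

theorem eK_ge_ProbTop (d : ℕ) : eA d + 7 ≤ eK d := by
  unfold eK eT
  nlinarith [Nat.zero_le (eA d), Nat.zero_le d, Nat.zero_le (eA d * d)]

theorem two_le_sN_ProbTop {m : ℕ} (h : 1 ≤ m) : 2 ≤ sN m :=
  (pow_one 2).symm.le.trans (Nat.pow_le_pow_right two_pos h)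

theorem succ_le_sN_ProbTop (m : ℕ) : m + 1 ≤ sN m := Nat.lt_two_pow_self

theorem sR_le_sW_ProbTop {m m' : ℕ} (h : m' ≤ m) : sR d m' ≤ sW d m := by
  have := eK_ge_ProbTop d
  exact (Nat.pow_le_pow_left (Nat.pow_le_pow_right two_pos h) _).trans
    (Nat.pow_le_pow_right (Nat.two_pow_pos m) (by omega))

theorem sq_le_sW_ProbTop (m : ℕ) : sN m ^ 4 ≤ sW d m := by
  have := eK_ge_ProbTop d
  exact Nat.pow_le_pow_right (Nat.two_pow_pos m) (by omega)

theorem exp_small_ProbTop {n : ℝ} {B : ℕ} (hn : ((B + 2).factorial : ℝ) ≤ n) :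
    n * Real.exp (-n) ≤ 1 / n ^ B := by
  have h0 : (0 : ℝ) < (B + 2).factorial := by positivity
  have h1 : 0 < n := h0.trans_le hn
  have h2 := Real.pow_div_factorial_le_exp n h1.le (B + 2)
  rw [div_le_iff₀ h0] at h2
  have h3 : n ^ (B + 2) ≤ Real.exp n * n := h2.trans (by gcongr)
  rw [Real.exp_neg, ← div_eq_mul_inv, div_le_div_iff₀ (Real.exp_pos _) (by positivity), one_mul]
  refine le_of_mul_le_mul_right ?_ h1
  calc n * n ^ B * n = n ^ (B + 2) := by ring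
    _ ≤ _ := h3

theorem bad2_loc (hd : 2 ≤ d) {ν : Measure ℝ≥0} [IsProbabilityMeasure ν] (P : Par d)
    (hP : LocEv ν (fun ω x => base1 P (wt ω) x) (8 * P.L0) (1 / (P.L0 : ℝ) ^ eB1 d)) :
    ∃ m00 : ℕ, ∀ m0, m00 ≤ m0 → ∃ Cp : ℝ, 0 ≤ Cp ∧ ∀ m, m0 ≤ m →
      LocEv ν (fun ω x => bad2 P m0 Cp (tau d ν) (rho ν) m (wt ω) x) (8 * sW d m)
        (1 / (sW d m : ℝ) ^ eB2 d) := by
  set B := 3 * eK d * eB2 d with hB
  obtain ⟨ma, hma⟩ := ev_loc P hP
  obtain ⟨mb, hmb⟩ := conc_loc hd (B + 2)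
  obtain ⟨mc, hmc⟩ := exists_le_sN (P.L0 : ℝ)
  obtain ⟨me, hme⟩ := exists_le_sN ((B + 2 + 2).factorial : ℝ)
  refine ⟨ma + mb + mc + me + 1, fun m0 hm0 => ?_⟩
  obtain ⟨Cp, hCp, hev⟩ := hma m0 (by omega)
  refine ⟨Cp, hCp, fun m hm => ?_⟩
  have n2 := two_le_sN_ProbTop (show 1 ≤ m by omega)
  have n2' : (2 : ℝ) ≤ sN m := by exact_mod_cast n2
  have hR := sR_le_sW_ProbTop (d := d) (le_refl m)
  have hW := sq_le_sW_ProbTop (d := d) m
  have h1 := (clean_loc P hP (m := m) (by exact_mod_cast hmc m (by omega))).mono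
    (r' := 8 * sW d m) (p' := 1 / (sN m : ℝ) ^ (B + 2)) (by
      have : 2 * sN m ≤ sN m ^ 4 := by
        calc 2 * sN m ≤ sN m ^ 3 * sN m :=
            Nat.mul_le_mul_right _ (n2.trans (Nat.le_self_pow (by norm_num) _))
          _ = _ := by ring
      omega)
    (one_div_le_one_div_of_le (by positivity)
      (pow_le_pow_right₀ (by linarith) (by unfold eG; omega)))
  have h2 := (hmb m (by omega) ν).mono (r' := 8 * sW d m) (by omega) le_rfl
  have h3 := LocEv.exists_finset (ν := ν) (Finset.Icc m0 m)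
    (R := fun m' ω x => Xv P m0 Cp (tau d ν) m m' (wt ω) x) (r := 8 * sW d m)
    (p := fun _ => Real.exp (-(sN m : ℝ))) fun m' hm' => by
      obtain ⟨a1, a2⟩ := Finset.mem_Icc.1 hm'
      have := sR_le_sW_ProbTop (d := d) a2
      refine ((hev m m' a1 a2).many_exp (k := kX d Cp (tau d ν) m m') (r := 2 * sW d m)
        (s := 2 * sR d m') le_rfl ?_).mono (by omega) (Real.exp_le_exp.2 (neg_le_neg ?_))
      · unfold kX
        push_cast
        rw [show (2 * (2 * sW d m) + 1 : ℝ) = 4 * sW d m + 1 by ring]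
        exact (Nat.le_ceil _).trans (le_add_of_nonneg_right (by positivity))
      · exact_mod_cast Nat.le_add_left _ _
  have h4 := h3.mono le_rfl (p' := 1 / (sN m : ℝ) ^ (B + 2)) (by
    refine le_trans ?_ (exp_small_ProbTop (hme m (by omega)))
    rw [Finset.sum_const, nsmul_eq_mul, Nat.card_Icc]
    gcongr
    have := succ_le_sN_ProbTop m
    omega)
  have h5 := (h1.or (h2.or h4)).mono le_rfl (p' := 1 / (sW d m : ℝ) ^ eB2 d) (by
    have e : (sW d m : ℝ) ^ eB2 d = (sN m : ℝ) ^ B := by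
      unfold sW
      push_cast
      rw [← pow_mul]
    rw [e, ← add_div, ← add_div, div_le_div_iff₀ (by positivity) (by positivity), pow_add]
    have : (0 : ℝ) < (sN m : ℝ) ^ B := by positivity
    have : (4 : ℝ) ≤ (sN m : ℝ) ^ 2 := by nlinarith
    nlinarith)
  simpa only [bad2, Finset.mem_Icc, and_assoc] using h5

theorem top_prob_ProbTop {ν : Measure ℝ≥0} [IsProbabilityMeasure ν] {m0 : ℕ} (h1 : 1 ≤ m0)
    {Bad : (E d → ℝ≥0) → ℕ → V d → Prop}
    (h : ∀ m, m0 ≤ m → LocEv ν (fun ω x => Bad ω m x) (8 * sW d m) (1 / (sW d m : ℝ) ^ eB2 d))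
    (m1 : ℕ) : (PP d ν).real {ω | ¬ TopOK (Bad ω) m0 m1} ≤ 3 ^ d * (1 / 2) ^ m1 := by
  have hs : {ω | ¬ TopOK (Bad ω) m0 m1} ⊆ ⋃ m ∈ Finset.Icc m0 m1,
      {ω | ∃ y, nd 0 y ≤ sR d m1 ∧ D (sW d m) (Bad ω m) (lev (sW d m) m1) y} := fun ω hω => by
    simp only [TopOK, Set.mem_setOf_eq] at hω
    push Not at hω
    obtain ⟨m, a1, a2, y, a3, a4⟩ := hω
    exact Set.mem_biUnion (Finset.mem_coe.2 (Finset.mem_Icc.2 ⟨a1, a2⟩)) ⟨y, a3, a4⟩
  have n1 : (1 : ℝ) ≤ sN m1 := one_le_sN m1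
  refine (measureReal_mono hs (measure_ne_top _ _)).trans ((measureReal_biUnion_finset_le _ _).trans ?_)
  refine (Finset.sum_le_card_nsmul _ _ (3 ^ d / (sN m1 : ℝ) ^ 2) fun m hm => ?_).trans ?_
  · obtain ⟨a1, a2⟩ := Finset.mem_Icc.1 hm
    have hW : 16 ≤ sW d m := le_trans (Nat.pow_le_pow_left
      (two_le_sN_ProbTop (h1.trans a1)) 4) (sq_le_sW_ProbTop m)
    have hK := eK_ge_ProbTop d
    have hβ : 16 * d ≤ eB2 d := by
      unfold eB2 eG
      nlinarith [Nat.zero_le (eA d), Nat.zero_le (eA d * d)]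
    refine ((((h m a1).hier (by omega) hβ (lev (sW d m) m1)).exists_box (sR d m1)).prob 0).trans ?_
    have b1 : (sN m1 : ℝ) ^ eG d ≤ (LL (sW d m) (lev (sW d m) m1) : ℝ) ^ eB2 d := by
      unfold eB2
      rw [pow_mul]
      exact_mod_cast Nat.pow_le_pow_left (lt_LL_lev_pow (L0 := sW d m) (by omega) m1).le _
    have b2 : (2 * sR d m1 + 1 : ℝ) ^ d ≤ 3 ^ d * (sN m1 : ℝ) ^ ((eK d + eA d + 2) * d) := by
      rw [pow_mul, ← mul_pow]
      gcongr
      have c1 : (sR d m1 : ℝ) ≤ (sN m1 : ℝ) ^ (eK d + eA d + 2) := by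
        unfold sR
        push_cast
        exact pow_le_pow_right₀ n1 (by omega)
      have c2 : (1 : ℝ) ≤ (sN m1 : ℝ) ^ (eK d + eA d + 2) := one_le_pow₀ n1
      linarith
    calc _ ≤ 3 ^ d * (sN m1 : ℝ) ^ ((eK d + eA d + 2) * d) * (1 / (sN m1 : ℝ) ^ eG d) := by
          gcongr
      _ = _ := by
          unfold eG
          rw [pow_add]
          field_simp
  · rw [nsmul_eq_mul, Nat.card_Icc]
    have c1 : ((m1 + 1 - m0 : ℕ) : ℝ) ≤ sN m1 := by
      have := succ_le_sN_ProbTop m1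
      exact_mod_cast (by omega : m1 + 1 - m0 ≤ sN m1)
    calc _ ≤ (sN m1 : ℝ) * (3 ^ d / (sN m1 : ℝ) ^ 2) := by gcongr
      _ = _ := by
          unfold sN
          push_cast
          rw [one_div, inv_pow]
          field_simp

theorem top_ae_of_loc {ν : Measure ℝ≥0} [IsProbabilityMeasure ν] {m0 : ℕ} (h1 : 1 ≤ m0)
    {Bad : (E d → ℝ≥0) → ℕ → V d → Prop}
    (h : ∀ m, m0 ≤ m → LocEv ν (fun ω x => Bad ω m x) (8 * sW d m) (1 / (sW d m : ℝ) ^ eB2 d)) :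
    ∀ᵐ ω ∂(PP d ν), ∀ᶠ m1 in atTop, TopOK (Bad ω) m0 m1 := by
  have hs : Summable fun m1 : ℕ => (3 : ℝ) ^ d * (1 / 2) ^ m1 :=
    summable_geometric_two.mul_left _
  have := ae_eventually_notMem (μ := PP d ν) (s := fun m1 => {ω | ¬ TopOK (Bad ω) m0 m1})
    (ne_top_of_le_ne_top hs.tsum_ofReal_ne_top (ENNReal.tsum_le_tsum fun m1 => by
      rw [← ofReal_measureReal]
      exact ENNReal.ofReal_le_ofReal (top_prob_ProbTop h1 h m1)))
  simpa using this

end Pool.Agent.MP_489c42_pr.H12
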