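import Pool.Agent.MP_489c42_pr.H12.ProbBase

namespace Pool.Agent.MP_489c42_pr.H12

open MeasureTheory ProbabilityTheory Filter
open scoped NNReal

variable {d : ℕ}

theorem T_le_walk_Transfer (τ : E d → ℝ≥0) {x y : V d} (p : (lattice d).Walk x y) :
    T (wt τ) x y ≤ (p.darts.map fun a => (τ ⟨a.edge, a.edge_mem⟩ : ℝ)).sum := by
  induction p with
  | nil => simp [T_self (wt_Wt τ)]
  | @cons u v w h p ih =>
    rw [SimpleGraph.Walk.darts_cons, List.map_cons, List.sum_cons]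
    exact (T_triangle (wt_Wt τ) u v w).trans
      (add_le_add ((T_le_adj (wt_Wt τ) h).trans_eq (wt_adj τ h)) ih)

theorem exists_walk_Transfer (τ : E d → ℝ≥0) {γ : ℕ → V d} {n : ℕ} (h : IsWalk γ 0 n) :
    ∃ p : (lattice d).Walk (γ 0) (γ n),
      (p.darts.map fun a => (τ ⟨a.edge, a.edge_mem⟩ : ℝ)).sum = cost (wt τ) γ 0 n := by
  induction n with
  | zero => exact ⟨.nil, by simp⟩
  | succ n ih =>
    obtain ⟨p, hp⟩ := ih (h.mono le_rfl n.le_succ)
    have ha := h n n.zero_le n.lt_succ_self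
    refine ⟨p.concat ha, ?_⟩
    rw [SimpleGraph.Walk.darts_concat, List.map_concat, List.sum_concat, hp,
      cost_add _ γ n.zero_le n.le_succ, cost_succ, wt_adj τ ha]
    rfl

theorem edges_card_Transfer {S : Set (V d)} (hS : S.Finite) {F : Set (Sym2 (V d))}
    (h : ∀ e ∈ F, ∃ x y, (lattice d).Adj y x ∧ y ∈ S ∧ e = s(x, y)) :
    F.Finite ∧ F.ncard ≤ 2 * d * S.ncard := by
  classical
  have h1 : F ⊆ ↑(hS.toFinset.biUnion fun y => (nbrs y).image fun x => s(x, y)) := fun e he => by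
    obtain ⟨x, y, h1, h2, rfl⟩ := h e he
    exact Finset.mem_coe.2 (Finset.mem_biUnion.2 ⟨y, hS.mem_toFinset.2 h2,
      Finset.mem_image.2 ⟨x, mem_nbrs.2 h1, rfl⟩⟩)
  refine ⟨(Finset.finite_toSet _).subset h1, (Set.ncard_le_ncard h1 (Finset.finite_toSet _)).trans ?_⟩
  rw [Set.ncard_coe_finset, Set.ncard_eq_toFinset_card S hS, mul_comm]
  exact Finset.card_biUnion_le_card_mul _ _ _ fun y _ => Finset.card_image_le.trans (card_nbrs_le y)

theorem passage_eq_T (τ : E d → ℝ≥0) (x y : V d) : passage τ x y = T (wt τ) x y := by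
  obtain ⟨γ, h1, rfl, h3, -⟩ := exists_mono_walk x y
  have : Nonempty ((lattice d).Walk (γ 0) y) := ⟨h3 ▸ (exists_walk_Transfer τ h1).choose⟩
  refine le_antisymm (le_T fun γ' n hw h0 hn => ?_) (le_ciInf fun p => T_le_walk_Transfer τ p)
  obtain ⟨p, hp⟩ := exists_walk_Transfer τ hw
  rw [← h0, ← hn, ← hp]
  exact ciInf_le ⟨_, Set.forall_mem_range.2 fun q => T_le_walk_Transfer τ q⟩ p

theorem edgeBdry_card (τ : E d → ℝ≥0) (t : ℝ) (h : (Out (wt τ) t).Finite) :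
    (edgeBdry (fppBall τ t)).Finite ∧
      (edgeBdry (fppBall τ t)).ncard ≤ 2 * d * (Out (wt τ) t).ncard := by
  refine edges_card_Transfer h ?_
  rintro _ ⟨x, y, h1, h2, h3, rfl⟩
  simp only [fppBall, Set.mem_ofPred_eq, passage_eq_T, not_le] at h2 h3
  exact ⟨x, y, h1.symm, ⟨h3, x, h1, h2⟩, rfl⟩

theorem edgeExt_card (τ : E d → ℝ≥0) (t : ℝ) (h : (Out (wt τ) t).Finite) :
    (edgeExt (fppBall τ t)).Finite ∧
      (edgeExt (fppBall τ t)).ncard ≤ 2 * d * (Ext (wt τ) t).ncard := by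
  refine edges_card_Transfer (h.subset fun y hy => hy.1) ?_
  rintro _ ⟨x, y, h1, h2, ⟨h3, -, γ, h4, h5, h6, h7⟩, rfl⟩
  simp only [fppBall, Set.mem_ofPred_eq, passage_eq_T, not_le] at h2 h3 h7
  exact ⟨y, x, h1, ⟨⟨h3, y, h1.symm, h2⟩, γ, h4, h5, h6, h7⟩, Sym2.eq_swap⟩

theorem exists_scale (d m01 : ℕ) : ∀ᶠ t : ℝ in atTop, ∃ m1, m01 ≤ m1 ∧ TScale d m1 t := by
  classical
  filter_upwards [eventually_ge_atTop (100 * (sU d m01 : ℝ))] with t ht
  have h : ∃ k, t < 100 * (sU d (m01 + k) : ℝ) := by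
    obtain ⟨m, hm⟩ := exists_le_sN (|t| + 1)
    have h1 := hm (m01 + m) (by omega)
    have h2 : (sN (m01 + m) : ℝ) ≤ sU d (m01 + m) := by
      rw [sU, Nat.cast_pow]
      exact le_self_pow₀ (one_le_sN _) (by unfold eK; omega)
    exact ⟨m, by linarith [le_abs_self t, abs_nonneg t]⟩
  have h0 : Nat.find h ≠ 0 := fun e => by
    have := Nat.find_spec h
    rw [e, add_zero] at this
    linarith
  obtain ⟨j, hj⟩ := Nat.exists_eq_succ_of_ne_zero h0
  have h1 := Nat.find_spec h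
  have h2 := Nat.find_min h (m := j) (by omega)
  rw [hj] at h1
  exact ⟨m01 + j, by omega, not_lt.1 h2, h1⟩

theorem ae_transfer (ν : Measure ℝ≥0) [IsProbabilityMeasure ν] {Ω : Type*} [MeasurableSpace Ω]
    (μ : Measure Ω) [IsProbabilityMeasure μ] (t : E d → Ω → ℝ≥0) (hm : ∀ e, Measurable (t e))
    (hind : iIndepFun t μ) (hlaw : ∀ e, μ.map (t e) = ν) {Q : (E d → ℝ≥0) → Prop}
    (h : ∀ᵐ ω ∂(PP d ν), Q ω) : ∀ᵐ ω ∂μ, Q fun e => t e ω := by
  have e : μ.map (fun ω e => t e ω) = PP d ν := by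
    rw [hind.map_fun_eq_infinitePi_map₀ (measurable_pi_lambda _ hm).aemeasurable, PP]
    simp only [hlaw]
  exact ae_of_ae_map (measurable_pi_lambda _ hm).aemeasurable (e ▸ h)

end Pool.Agent.MP_489c42_pr.H12
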