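import Pool.Agent.MP_489c42_pr.H12.Final
import Pool.Agent.MP_489c42_pr.H12.ProbTop
import Pool.Agent.MP_489c42_pr.H12.EYL
import Pool.Agent.MP_489c42_pr.H12.Transfer

namespace Pool.Agent.MP_489c42_pr.H12

open MeasureTheory ProbabilityTheory Filter
open scoped NNReal

variable {d : ℕ}

theorem main_canon (hd : 2 ≤ d) (ν : Measure ℝ≥0) [IsProbabilityMeasure ν]
    (hν : ν.real {0} < pc d) : ∃ C : ℝ, 0 < C ∧ ∀ᵐ ω ∂(PP d ν), ∀ᶠ t : ℝ in atTop,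
      ((edgeBdry (fppBall ω t)).Finite ∧
        ((edgeBdry (fppBall ω t)).ncard : ℝ) ≤ C * t ^ (d - 1) * EY d ν t) ∧
      ((edgeExt (fppBall ω t)).Finite ∧
        ((edgeExt (fppBall ω t)).ncard : ℝ) ≤ C * t ^ (d - 1)) := by
  obtain ⟨P, hδ, hP⟩ := exists_par ν hν
  obtain ⟨ma, hma⟩ := final P hd
  obtain ⟨mb, hmb⟩ := bad2_loc hd P hP
  set m0 := max (max ma mb) 1 with hm0
  obtain ⟨Cp, hCp, hbad⟩ := hmb m0 (by omega)
  obtain ⟨C, m01, hC, hfin⟩ := hma m0 (by omega) Cp hCp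
  have htop := top_ae_of_loc (ν := ν) (m0 := m0) (by omega)
    (Bad := fun ω m x => bad2 P m0 Cp (tau d ν) (rho ν) m (wt ω) x) hbad
  set κ : ℝ := P.δ * tau d ν P.δ with hκ
  have hκ0 : 0 < κ := mul_pos P.hδ (pow_pos hδ _)
  have hd0 : (0 : ℝ) < 2 * d := by
    have : (2 : ℝ) ≤ d := by exact_mod_cast hd
    linarith
  refine ⟨2 * d * C * (1 + κ⁻¹), by positivity, ?_⟩
  filter_upwards [htop] with ω hω
  have hcl : ∀ᶠ m in atTop, CleanS P (wt ω) m 0 := by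
    filter_upwards [hω, eventually_ge_atTop m0] with m hm hm'
    have := hm.not_bad (by omega) hm' (x := 0) (by simp)
    by_contra hc
    exact this (Or.inl hc)
  obtain ⟨m2, hm2⟩ := eventually_atTop.1 (hω.and (orig_ev P hd (wt_Wt ω) hcl))
  filter_upwards [exists_scale d (max m01 m2), eventually_ge_atTop P.δ] with t ⟨m1, hm1, hsc⟩ ht
  have ht0 : 0 ≤ t := P.hδ.le.trans ht
  have hEY : κ ≤ EY d ν t := EY_lower (by omega) ν P.hδ ht
  obtain ⟨h1, h2, h3⟩ := hfin m1 (by omega) (wt ω) (rho ν) (tau d ν) t (EY d ν t) (wt_Wt ω)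
    (rho_ok ν) (tau_nonneg d ν) (hm2 m1 (by omega)).1 (hm2 m1 (by omega)).2 hsc
    (hκ0.le.trans hEY) (tau_sum (by omega) ν ht0 m0 m1)
  obtain ⟨a1, a2⟩ := edgeBdry_card ω t h1
  obtain ⟨b1, b2⟩ := edgeExt_card ω t h1
  have a3 : ((edgeBdry (fppBall ω t)).ncard : ℝ) ≤ 2 * d * (Out (wt ω) t).ncard := by
    exact_mod_cast a2
  have b3 : ((edgeExt (fppBall ω t)).ncard : ℝ) ≤ 2 * d * (Ext (wt ω) t).ncard := by
    exact_mod_cast b2
  have hp : 0 ≤ C * t ^ (d - 1) := by positivity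
  have hk : 1 + EY d ν t ≤ (1 + κ⁻¹) * EY d ν t := by
    have : 1 ≤ κ⁻¹ * EY d ν t := by
      rw [← div_eq_inv_mul, le_div_iff₀ hκ0]; linarith
    linarith
  refine ⟨⟨a1, ?_⟩, b1, ?_⟩
  · calc _ ≤ 2 * d * (C * t ^ (d - 1) * (1 + EY d ν t)) :=
          a3.trans (mul_le_mul_of_nonneg_left h3 hd0.le)
      _ ≤ 2 * d * (C * t ^ (d - 1) * ((1 + κ⁻¹) * EY d ν t)) := by gcongr
      _ = _ := by ring
  · calc _ ≤ 2 * d * (C * t ^ (d - 1)) := b3.trans (mul_le_mul_of_nonneg_left h2 hd0.le)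
      _ ≤ 2 * d * (C * t ^ (d - 1)) * (1 + κ⁻¹) :=
          le_mul_of_one_le_right (by positivity) (by have := inv_pos.2 hκ0; linarith)
      _ = _ := by ring

end Pool.Agent.MP_489c42_pr.H12
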