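import Pool.Agent.MP_489c42_pr.H12.ProbBase

namespace Pool.Agent.MP_489c42_pr.H12

open MeasureTheory ProbabilityTheory Filter
open scoped NNReal

variable {d : ℕ}

instance (p : unitInterval) : IsProbabilityMeasure (perc d p) := by
  unfold perc; infer_instance

theorem Dep.measurableSet_bool {A : Set (E d → Bool)} {S : Set (E d)} (h : Dep A S)
    (hS : S.Finite) : MeasurableSet A :=
  measurableSet_of_pattern (φ := id) measurable_id hS h

theorem perc_open (p : unitInterval) (e : E d) : (perc d p).real {η | η e = true} = p := by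
  have h := prob_coord (fun _ : E d => bernoulliMeasure true false p) e
    (measurableSet_singleton true)
  rw [bernoulliMeasure_real_apply_of_mem_of_notMem p (measurableSet_singleton true) rfl
    (by simp)] at h
  exact h

theorem perc_closed_Perc0 (p : unitInterval) (e : E d) :
    (perc d p).real {η | η e = false} = 1 - p := by
  have h := prob_coord (fun _ : E d => bernoulliMeasure true false p) e
    (measurableSet_singleton false)
  rw [bernoulliMeasure_real_apply_of_notMem_of_mem p (measurableSet_singleton false) (by simp)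
    rfl] at h
  exact h

open Classical in
theorem inter_coord_Perc0 (p : unitInterval) {A : Set (E d → Bool)} (hA : MeasurableSet A)
    (e : E d) (b : Bool) : (perc d p).real (A ∩ {η | η e = b}) =
      (perc d p).real {η | η e = b} * (perc d p).real {η | Function.update η e b ∈ A} := by
  have h1 : A ∩ {η | η e = b} = {η | η e = b} ∩ {η | Function.update η e b ∈ A} := by
    ext η
    simp only [Set.mem_inter_iff, Set.mem_ofPred_eq]
    constructor
    · rintro ⟨h1, h2⟩; refine ⟨h2, ?_⟩; rw [← h2, Function.update_eq_self]; exact h1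
    · rintro ⟨h2, h1⟩; refine ⟨?_, h2⟩; rw [← h2, Function.update_eq_self] at h1; exact h1
  rw [h1]
  refine indep_of_dep _ (S := {e}) (S' := {e}ᶜ)
    ((measurableSet_singleton b).preimage (measurable_pi_apply e))
    (hA.preimage measurable_update_left) ?_ ?_ disjoint_compl_right
  · intro η ζ h hη
    simp only [Set.mem_ofPred_eq] at hη ⊢
    rw [← h e rfl]; exact hη
  · intro η ζ h hη
    simp only [Set.mem_ofPred_eq] at hη ⊢
    convert hη using 1
    funext j
    by_cases hj : j = e
    · subst hj; simp
    · simp [Function.update_of_ne hj, h j hj]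

open Classical in
theorem perc_split (p : unitInterval) {A : Set (E d → Bool)} (hA : MeasurableSet A) (e : E d) :
    (perc d p).real A = p * (perc d p).real {η | Function.update η e true ∈ A} +
      (1 - p) * (perc d p).real {η | Function.update η e false ∈ A} := by
  have hm : MeasurableSet {η : E d → Bool | η e = true} :=
    (measurableSet_singleton true).preimage (measurable_pi_apply e)
  rw [← measureReal_inter_add_sdiff (s := A) hm]
  have h : A \ {η | η e = true} = A ∩ {η | η e = false} := by
    ext η; simp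
  rw [h, inter_coord_Perc0 p hA, inter_coord_Perc0 p hA, perc_open, perc_closed_Perc0]

open Classical in
theorem dep_update_Perc0 {A : Set (E d → Bool)} {F : Finset (E d)} {e : E d}
    (hA : Dep A (↑(insert e F))) (b : Bool) : Dep {η | Function.update η e b ∈ A} F := by
  intro η ζ h hη
  refine hA _ _ (fun i hi => ?_) hη
  by_cases hie : i = e
  · subst hie; simp
  · rw [Function.update_of_ne hie, Function.update_of_ne hie]
    exact h i (by simpa [hie] using hi)

open Classical in
theorem upper_update_Perc0 {A : Set (E d → Bool)} (hu : IsUpperSet A) (e : E d) (b : Bool) :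
    IsUpperSet {η | Function.update η e b ∈ A} := fun _ _ hle hη =>
  hu (update_le_update_iff.2 ⟨le_rfl, fun j _ => hle j⟩) hη

open Classical in
theorem update_sub_Perc0 {A : Set (E d → Bool)} (hu : IsUpperSet A) (e : E d) :
    {η | Function.update η e false ∈ A} ⊆ {η | Function.update η e true ∈ A} := fun _ hη =>
  hu (update_le_update_iff.2 ⟨Bool.false_le _, fun _ _ => le_rfl⟩) hη

theorem dep_empty_Perc0 {A : Set (E d → Bool)} (hA : Dep A ((∅ : Finset (E d)) : Set (E d))) :
    A = ∅ ∨ A = Set.univ := by
  rcases A.eq_empty_or_nonempty with h | ⟨η, hη⟩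
  · exact Or.inl h
  · exact Or.inr (Set.eq_univ_of_forall fun ζ => hA η ζ (by simp) hη)

theorem perc_mono_fin_Perc0 (F : Finset (E d)) {p q : unitInterval} (hpq : p ≤ q) :
    ∀ A : Set (E d → Bool), Dep A F → IsUpperSet A → (perc d p).real A ≤ (perc d q).real A := by
  classical
  induction F using Finset.induction_on with
  | empty =>
    intro A hA _
    rcases dep_empty_Perc0 hA with rfl | rfl <;> simp
  | insert e F _ ih =>
    intro A hA hu
    have mA := hA.measurableSet_bool (Finset.finite_toSet _)
    rw [perc_split p mA e, perc_split q mA e]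
    have h1 := ih _ (dep_update_Perc0 (by convert hA) true) (upper_update_Perc0 hu e true)
    have h0 := ih _ (dep_update_Perc0 (by convert hA) false) (upper_update_Perc0 hu e false)
    have h2 := measureReal_mono (μ := perc d q) (update_sub_Perc0 hu e)
    have hp0 : (0 : ℝ) ≤ p := p.2.1
    have hp1 : (p : ℝ) ≤ 1 := p.2.2
    have hle : (p : ℝ) ≤ q := hpq
    nlinarith [mul_le_mul_of_nonneg_left h1 hp0, mul_le_mul_of_nonneg_left h0 (sub_nonneg.2 hp1),
      mul_nonneg (sub_nonneg.2 hle) (sub_nonneg.2 h2)]

theorem perc_mono {A : Set (E d → Bool)} {S : Set (E d)} (hS : S.Finite) (hA : Dep A S)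
    (hu : IsUpperSet A) {p q : unitInterval} (hpq : p ≤ q) :
    (perc d p).real A ≤ (perc d q).real A :=
  perc_mono_fin_Perc0 hS.toFinset hpq A (by simpa using hA) hu

open Classical in
/-- Russo's formula. -/
theorem russo (F : Finset (E d)) {A : Set (E d → Bool)} (hA : Dep A F) (hu : IsUpperSet A)
    {q : ℝ} (h0 : 0 < q) (h1 : q < 1) :
    HasDerivAt (fun s : ℝ => (perc d (Set.projIcc 0 1 zero_le_one s)).real A)
      (∑ e ∈ F, (perc d (Set.projIcc 0 1 zero_le_one q)).real
        {η | Function.update η e true ∈ A ∧ Function.update η e false ∉ A}) q := by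
  induction F using Finset.induction_on generalizing A with
  | empty =>
    rcases dep_empty_Perc0 hA with rfl | rfl
    · simpa using hasDerivAt_const q (0 : ℝ)
    · simpa using hasDerivAt_const q (1 : ℝ)
  | insert e F he ih =>
    have mA := hA.measurableSet_bool (Finset.finite_toSet _)
    have d1 := dep_update_Perc0 hA true
    have d0 := dep_update_Perc0 hA false
    have i1 := ih d1 (upper_update_Perc0 hu e true)
    have i0 := ih d0 (upper_update_Perc0 hu e false)
    have hq : ((Set.projIcc 0 1 zero_le_one q : unitInterval) : ℝ) = q := by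
      rw [Set.projIcc_of_mem _ ⟨h0.le, h1.le⟩]
    have key := ((hasDerivAt_id q).mul i1).add (((hasDerivAt_id q).const_sub 1).mul i0)
    refine (key.congr_of_eventuallyEq ?_).congr_deriv ?_
    · filter_upwards [Ioo_mem_nhds h0 h1] with s hs
      rw [perc_split _ mA e, Set.projIcc_of_mem _ ⟨hs.1.le, hs.2.le⟩]
      simp [Set.projIcc_of_mem _ ⟨hs.1.le, hs.2.le⟩]
    · rw [Finset.sum_insert he]
      have e1 : (perc d (Set.projIcc 0 1 zero_le_one q)).real
          {η | Function.update η e true ∈ A ∧ Function.update η e false ∉ A} =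
          (perc d (Set.projIcc 0 1 zero_le_one q)).real {η | Function.update η e true ∈ A} -
          (perc d (Set.projIcc 0 1 zero_le_one q)).real {η | Function.update η e false ∈ A} := by
        rw [← measureReal_sdiff (update_sub_Perc0 hu e)
          (d0.measurableSet_bool (Finset.finite_toSet _))]
        rfl
      have e2 : ∀ f ∈ F, (perc d (Set.projIcc 0 1 zero_le_one q)).real
          {η | Function.update η f true ∈ A ∧ Function.update η f false ∉ A} =
          q * (perc d (Set.projIcc 0 1 zero_le_one q)).real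
            {η | Function.update η f true ∈ {η | Function.update η e true ∈ A} ∧
              Function.update η f false ∉ {η | Function.update η e true ∈ A}} +
          (1 - q) * (perc d (Set.projIcc 0 1 zero_le_one q)).real
            {η | Function.update η f true ∈ {η | Function.update η e false ∈ A} ∧
              Function.update η f false ∉ {η | Function.update η e false ∈ A}} := by
        intro f hf
        have hne : e ≠ f := fun h => he (h ▸ hf)
        have mf : MeasurableSet
            {η | Function.update η f true ∈ A ∧ Function.update η f false ∉ A} :=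
          (mA.preimage measurable_update_left).inter (mA.preimage measurable_update_left).compl
        rw [perc_split _ mf e, hq]
        simp only [Set.mem_ofPred_eq, Function.update_comm hne]
      rw [e1, Finset.sum_congr rfl e2, Finset.sum_add_distrib, ← Finset.mul_sum, ← Finset.mul_sum]
      simp only [id]
      ring

theorem Conn.mono {η ζ : E d → Bool} {S S' : Set (V d)} {x y : V d} (h : Conn η S x y)
    (hS : S ⊆ S') (hη : η ≤ ζ) : Conn ζ S' x y := by
  refine Relation.ReflTransGen.mono ?_ _ _ h
  rintro a b ⟨ha, hb, hab, he⟩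
  refine ⟨hS ha, hS hb, hab, ?_⟩
  have := hη ⟨s(a, b), hab⟩
  rw [he] at this
  exact top_le_iff.1 this

theorem Conn.symm {η : E d → Bool} {S : Set (V d)} {x y : V d} (h : Conn η S x y) :
    Conn η S y x := by
  induction h with
  | refl => exact Relation.ReflTransGen.refl
  | @tail b c _ hbc ih =>
    obtain ⟨hb, hc, hadj, he⟩ := hbc
    refine Relation.ReflTransGen.head ⟨hc, hb, hadj.symm, ?_⟩ ih
    have : (⟨s(c, b), hadj.symm⟩ : E d) = ⟨s(b, c), hadj⟩ := Subtype.ext Sym2.eq_swap
    rw [this, he]

theorem dep_conn (S : Set (V d)) (x y : V d) :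
    Dep {η | Conn η S x y} {e : E d | ∀ z ∈ (e : Sym2 (V d)), z ∈ S} := by
  intro η ζ h hη
  refine Relation.ReflTransGen.mono ?_ _ _ hη
  rintro a b ⟨ha, hb, hab, he⟩
  refine ⟨ha, hb, hab, ?_⟩
  rw [← h ⟨s(a, b), hab⟩ ?_, he]
  intro z hz
  rcases Sym2.mem_iff.1 hz with rfl | rfl
  exacts [ha, hb]

theorem conn_iff_box_Perc0 {η : E d → Bool} {S : Set (V d)} {x y : V d} :
    Conn η S x y ↔ ∃ n : ℕ, Conn η (S ∩ box x n) x y := by
  refine ⟨fun h => ?_, fun ⟨n, h⟩ => h.mono Set.inter_subset_left le_rfl⟩
  induction h with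
  | refl => exact ⟨0, Relation.ReflTransGen.refl⟩
  | @tail b c _ hbc ih =>
    obtain ⟨n, hn⟩ := ih
    obtain ⟨hb, hc, hadj, he⟩ := hbc
    refine ⟨n + nd x b + nd x c, Relation.ReflTransGen.tail (hn.mono ?_ le_rfl)
      ⟨⟨hb, ?_⟩, ⟨hc, ?_⟩, hadj, he⟩⟩
    · rintro z ⟨h1, h2⟩
      refine ⟨h1, ?_⟩
      rw [Finset.mem_coe, mem_box] at h2 ⊢
      omega
    · rw [Finset.mem_coe, mem_box]; omega
    · rw [Finset.mem_coe, mem_box]; omega

theorem dep_conn_box_Perc0 (S : Set (V d)) (x y z : V d) (n : ℕ) :
    Dep {η | Conn η (S ∩ box z n) x y} (edgesIn z n) :=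
  (dep_conn _ x y).mono fun _ he w hw => mem_box.1 (he w hw).2

theorem measurableSet_conn (S : Set (V d)) (x y : V d) :
    MeasurableSet {η : E d → Bool | Conn η S x y} := by
  have : {η : E d → Bool | Conn η S x y} = ⋃ n : ℕ, {η | Conn η (S ∩ box x n) x y} := by
    ext η
    simp only [Set.mem_ofPred_eq, Set.mem_iUnion]
    exact conn_iff_box_Perc0
  rw [this]
  exact MeasurableSet.iUnion fun n =>
    (dep_conn_box_Perc0 S x y x n).measurableSet_bool (edgesIn_finite x n)

theorem conn_univ_iff {η : E d → Bool} {x y : V d} :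
    Conn η Set.univ x y ↔ (openGraph η).Reachable x y := by
  rw [SimpleGraph.reachable_iff_reflTransGen]
  have : (fun a b : V d => a ∈ Set.univ ∧ b ∈ Set.univ ∧
      ∃ h : (lattice d).Adj a b, η ⟨s(a, b), h⟩ = true) = (openGraph η).Adj := by
    funext a b
    simp only [Set.mem_univ, true_and, openGraph, SimpleGraph.fromEdgeSet_adj, Set.mem_ofPred_eq,
      eq_iff_iff]
    exact ⟨fun ⟨h, he⟩ => ⟨⟨h, he⟩, h.ne⟩, fun ⟨⟨h, he⟩, _⟩ => ⟨h, he⟩⟩
  unfold Conn
  rw [this]

theorem mem_arm_iff {η : E d → Bool} {x : V d} {n : ℕ} :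
    η ∈ arm x n ↔ ∃ y, nd x y = n ∧ Conn η (box x n) x y := by
  refine ⟨?_, fun ⟨y, h1, h2⟩ => ⟨y, h1.ge, h2.mono (Set.subset_univ _) le_rfl⟩⟩
  rintro ⟨y, h1, h2⟩
  have key : (∃ y, nd x y = n ∧ Conn η (box x n) x y) ∨ (nd x y < n ∧ Conn η (box x n) x y) := by
    clear h1
    induction h2 with
    | refl =>
      rcases Nat.eq_zero_or_pos n with h | h
      · exact Or.inl ⟨x, by simp [h], Relation.ReflTransGen.refl⟩
      · exact Or.inr ⟨by simpa using h, Relation.ReflTransGen.refl⟩
    | @tail b c _ hbc ih =>
      rcases ih with h | ⟨hb, hcb⟩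
      · exact Or.inl h
      · obtain ⟨-, -, hadj, he⟩ := hbc
        have h3 := nd_triangle x b c
        rw [nd_of_adj hadj] at h3
        have h4 : Conn η (box x n) x c :=
          Relation.ReflTransGen.tail hcb ⟨mem_box.2 hb.le, mem_box.2 (by omega), hadj, he⟩
        rcases Nat.lt_or_ge (nd x c) n with h5 | h5
        · exact Or.inr ⟨h5, h4⟩
        · exact Or.inl ⟨c, by omega, h4⟩
  rcases key with h | ⟨h, -⟩
  · exact h
  · omega

theorem dep_arm (x : V d) (n : ℕ) : Dep (arm x n) (edgesIn x n) := by
  intro η ζ h hη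
  rw [mem_arm_iff] at hη ⊢
  obtain ⟨y, h1, h2⟩ := hη
  exact ⟨y, h1, dep_conn (↑(box x n) : Set (V d)) x y η ζ
    (fun e he => h e fun w hw => mem_box.1 (Finset.mem_coe.1 (he w hw))) h2⟩

theorem isUpperSet_arm (x : V d) (n : ℕ) : IsUpperSet (arm x n) :=
  fun _ _ hle ⟨y, h1, h2⟩ => ⟨y, h1, h2.mono le_rfl hle⟩

theorem conn_shift_Perc0 {η : E d → Bool} (v : V d) {a b : V d}
    (h : Conn (fun e => η (shiftE v e)) Set.univ a b) : Conn η Set.univ (a + v) (b + v) := by
  induction h with
  | refl => exact Relation.ReflTransGen.refl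
  | @tail b c _ hbc ih =>
    obtain ⟨-, -, hadj, he⟩ := hbc
    refine Relation.ReflTransGen.tail ih ⟨trivial, trivial, (adj_add_right v).2 hadj, ?_⟩
    rw [← shiftE_mk v hadj]
    exact he

theorem conn_unshift_Perc0 {η : E d → Bool} (v : V d) {a b : V d}
    (h : Conn η Set.univ a b) : Conn (fun e => η (shiftE v e)) Set.univ (a - v) (b - v) := by
  induction h with
  | refl => exact Relation.ReflTransGen.refl
  | @tail b c _ hbc ih =>
    obtain ⟨-, -, hadj, he⟩ := hbc
    have h2 : (lattice d).Adj (b - v) (c - v) := by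
      rw [← adj_add_right v]; simpa using hadj
    refine Relation.ReflTransGen.tail ih ⟨trivial, trivial, h2, ?_⟩
    change η (shiftE v ⟨s(b - v, c - v), h2⟩) = true
    rw [shiftE_mk v h2, ← he]
    congr 2
    simp

theorem perc_arm_shift (p : unitInterval) (x : V d) (n : ℕ) :
    (perc d p).real (arm x n) = (perc d p).real (arm 0 n) := by
  have hm := ((dep_arm (0 : V d) n).measurableSet_bool (edgesIn_finite 0 n)).nullMeasurableSet
    (μ := perc d p)
  have h := (shift_mp (bernoulliMeasure true false p) x).measureReal_preimage hm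
  have e : (fun (ω : E d → Bool) e => ω (shiftE x e)) ⁻¹' arm 0 n = arm x n := by
    ext η
    constructor
    · rintro ⟨y, h1, h2⟩
      refine ⟨y + x, ?_, by simpa using conn_shift_Perc0 x h2⟩
      have := nd_add_right 0 y x
      rw [zero_add] at this
      omega
    · rintro ⟨y, h1, h2⟩
      exact ⟨y - x, by rwa [nd_sub], by simpa using conn_unshift_Perc0 x h2⟩
  rw [e] at h
  exact h

theorem phi_nonneg (p : unitInterval) (S : Finset (V d)) : 0 ≤ phi p S :=
  mul_nonneg p.2.1 (Finset.sum_nonneg fun _ _ => Finset.sum_nonneg fun _ _ => measureReal_nonneg)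

theorem phi_mono (S : Finset (V d)) {p q : unitInterval} (hpq : p ≤ q) :
    phi p S ≤ phi q S := by
  refine mul_le_mul hpq (Finset.sum_le_sum fun x _ => Finset.sum_le_sum fun _ _ => ?_)
    (Finset.sum_nonneg fun _ _ => Finset.sum_nonneg fun _ _ => measureReal_nonneg) q.2.1
  refine perc_mono ?_ (dep_conn S 0 x) (fun _ _ hle h => Conn.mono h le_rfl hle) hpq
  refine (edgesIn_finite 0 (S.sup (nd 0))).subset fun e he z hz => ?_
  exact Finset.le_sup (f := nd 0) (he z hz)

end Pool.Agent.MP_489c42_pr.H12
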