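import Pool.Agent.MP_489c42_pr.H12.Perc0

namespace Pool.Agent.MP_489c42_pr.H12

open MeasureTheory ProbabilityTheory Filter
open scoped NNReal

variable {d : ℕ}

/-- The cluster of the origin inside `S` is `C`. -/
def clus_Perc1 (S C : Finset (V d)) : Set (E d → Bool) :=
  {η | ∀ w ∈ S, Conn η S 0 w ↔ w ∈ C}

/-- `y` is joined to distance `n` outside `C`. -/
def far_Perc1 (C : Finset (V d)) (y : V d) (n : ℕ) : Set (E d → Bool) :=
  {η | ∃ z, n ≤ nd y z ∧ Conn η (C : Set (V d))ᶜ y z}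

theorem dep_clus_Perc1 (S C : Finset (V d)) : Dep (clus_Perc1 S C)
    {e : E d | (∀ z ∈ (e : Sym2 (V d)), z ∈ S) ∧ ∃ z ∈ (e : Sym2 (V d)), z ∈ C} := by
  intro η ζ hag h w hw
  rw [← h w hw]
  clear hw
  have key : ∀ {b c : V d} (hadj : (lattice d).Adj b c), b ∈ S → c ∈ S → Conn η S 0 b →
      η ⟨s(b, c), hadj⟩ = ζ ⟨s(b, c), hadj⟩ := fun {b c} hadj hb hc h1 =>
    hag _ ⟨fun z hz => by rcases Sym2.mem_iff.1 hz with rfl | rfl <;> assumption,
      b, Sym2.mem_mk_left b c, (h b hb).1 h1⟩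
  constructor
  · intro hc
    induction hc with
    | refl => exact Relation.ReflTransGen.refl
    | tail _ hbc ih =>
      obtain ⟨hb, hc, hadj, ho⟩ := hbc
      exact Relation.ReflTransGen.tail ih ⟨hb, hc, hadj, (key hadj hb hc ih).trans ho⟩
  · intro hc
    induction hc with
    | refl => exact Relation.ReflTransGen.refl
    | tail h1 hbc ih =>
      obtain ⟨hb, hc, hadj, ho⟩ := hbc
      exact Relation.ReflTransGen.tail ih ⟨hb, hc, hadj, (key hadj hb hc h1).symm.trans ho⟩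

theorem meas_clus_Perc1 (S C : Finset (V d)) : MeasurableSet (clus_Perc1 S C) := by
  have : clus_Perc1 S C = ⋂ w ∈ S, {η | Conn η S 0 w ↔ w ∈ C} := by
    ext η; simp [clus_Perc1]
  rw [this]
  refine S.measurableSet_biInter fun w _ => ?_
  by_cases hw : w ∈ C
  · simpa [hw] using measurableSet_conn (S : Set (V d)) 0 w
  · convert (measurableSet_conn (S : Set (V d)) 0 w).compl using 1
    ext η; simp [hw]

theorem meas_far_Perc1 (C : Finset (V d)) (y : V d) (n : ℕ) : MeasurableSet (far_Perc1 C y n) := by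
  rw [far_Perc1, Set.ofPred_exists]
  exact MeasurableSet.iUnion fun z => (MeasurableSet.const _).inter (measurableSet_conn _ y z)

theorem last_exit_Perc1 {η : E d → Bool} {S C : Finset (V d)} (h : η ∈ clus_Perc1 S C)
    (hCS : C ⊆ S) {a z : V d} (hz : z ∉ S) (hc : Conn η Set.univ a z) :
    (a ∉ C ∧ Conn η (C : Set (V d))ᶜ a z) ∨ ∃ x ∈ C, ∃ y ∉ S, ∃ hadj : (lattice d).Adj x y,
      η ⟨s(x, y), hadj⟩ = true ∧ Conn η (C : Set (V d))ᶜ y z := by
  induction hc using Relation.ReflTransGen.head_induction_on with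
  | refl => exact Or.inl ⟨fun h' => hz (hCS h'), Relation.ReflTransGen.refl⟩
  | @head a c hac _ ih =>
    obtain ⟨-, -, hadj, ho⟩ := hac
    rcases ih with ⟨h1, h2⟩ | ih
    · by_cases ha : a ∈ C
      · refine Or.inr ⟨a, ha, c, fun hc => h1 ((h c hc).1 ?_), hadj, ho, h2⟩
        exact Relation.ReflTransGen.tail ((h a (hCS ha)).2 ha) ⟨hCS ha, hc, hadj, ho⟩
      · exact Or.inl ⟨ha, Relation.ReflTransGen.head ⟨ha, h1, hadj, ho⟩ h2⟩
    · exact Or.inr ih

theorem triple_Perc1 (p : unitInterval) {S C : Finset (V d)} {x y : V d} (hx : x ∈ C) (hy : y ∉ S)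
    (hadj : (lattice d).Adj x y) (n : ℕ) :
    (perc d p).real (clus_Perc1 S C ∩ {η | η ⟨s(x, y), hadj⟩ = true} ∩ far_Perc1 C y n) ≤
      p * (perc d p).real (arm y n) * (perc d p).real (clus_Perc1 S C) := by
  have m2 : MeasurableSet {η : E d → Bool | η ⟨s(x, y), hadj⟩ = true} :=
    measurableSet_eq_fun (measurable_pi_apply _) measurable_const
  have d2 : Dep {η : E d → Bool | η ⟨s(x, y), hadj⟩ = true} {⟨s(x, y), hadj⟩} :=
    fun η ζ hag h => (hag _ rfl).symm.trans h
  have d12 : Dep (clus_Perc1 S C ∩ {η : E d → Bool | η ⟨s(x, y), hadj⟩ = true})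
      {e : E d | ∃ z ∈ (e : Sym2 (V d)), z ∈ C} := fun η ζ hag h =>
    ⟨dep_clus_Perc1 S C η ζ (fun e he => hag e he.2) h.1,
      (hag _ ⟨x, Sym2.mem_mk_left x y, hx⟩).symm.trans h.2⟩
  have d3 : Dep (far_Perc1 C y n) {e : E d | ∀ z ∈ (e : Sym2 (V d)), z ∈ (C : Set (V d))ᶜ} :=
    fun η ζ hag ⟨z, hz, hc⟩ => ⟨z, hz, dep_conn _ y z η ζ hag hc⟩
  have e1 := indep_of_dep (fun _ : E d => bernoulliMeasure true false p)
    ((meas_clus_Perc1 S C).inter m2) (meas_far_Perc1 C y n) d12 d3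
    (Set.disjoint_left.2 fun e ⟨z, hz, hzC⟩ h => h z hz hzC)
  have e2 := indep_of_dep (fun _ : E d => bernoulliMeasure true false p)
    (meas_clus_Perc1 S C) m2 (dep_clus_Perc1 S C) d2
    (Set.disjoint_right.2 fun e he h => hy (h.1 y (by
      rw [Set.mem_singleton_iff.1 he]; exact Sym2.mem_mk_right x y)))
  have e3 : (perc d p).real (far_Perc1 C y n) ≤ (perc d p).real (arm y n) :=
    measureReal_mono fun η ⟨z, hz, hc⟩ => ⟨z, hz, hc.mono (Set.subset_univ _) le_rfl⟩
  rw [e2] at e1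
  change (perc d p).real _ = (perc d p).real _ * (perc d p).real _ * (perc d p).real _ at e1
  rw [e1, perc_open, mul_comm, mul_comm _ (p : ℝ), ← mul_assoc, mul_comm _ (p : ℝ)]
  exact mul_le_mul_of_nonneg_right (mul_le_mul_of_nonneg_left e3 p.2.1) measureReal_nonneg

theorem arm_decay (p : unitInterval) {S : Finset (V d)} (h0 : (0 : V d) ∈ S) {l : ℕ}
    (hl : ∀ x ∈ S, nd 0 x < l) (k : ℕ) (x : V d) :
    (perc d p).real (arm x (k * l)) ≤ phi p S ^ k := by
  classical
  induction k generalizing x with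
  | zero => rw [pow_zero]; exact measureReal_le_one
  | succ k ih =>
    rw [perc_arm_shift]
    set A : V d → V d → Finset (V d) → Set (E d → Bool) := fun x y C => clus_Perc1 S C ∩
      {η | ∃ hadj : (lattice d).Adj x y, η ⟨s(x, y), hadj⟩ = true} ∩ far_Perc1 C y (k * l) with hA
    have h1 : arm (0 : V d) ((k + 1) * l) ⊆
        ⋃ x ∈ S, ⋃ y ∈ nbrs x \ S, ⋃ C ∈ S.powerset.filter (x ∈ ·), A x y C := by
      rintro η ⟨z, hz, hc⟩
      have hη : η ∈ clus_Perc1 S (S.filter (Conn η S 0 ·)) := fun w hw => by simp [hw]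
      have hzS : z ∉ S := fun h => by
        have := hl z h
        rw [add_mul] at hz
        omega
      obtain ⟨x, hx, y, hy, hadj, ho, h2⟩ := (last_exit_Perc1 hη (Finset.filter_subset _ _) hzS
        hc).resolve_left fun h => h.1 (Finset.mem_filter.2 ⟨h0, Relation.ReflTransGen.refl⟩)
      have hxS := (Finset.mem_filter.1 hx).1
      refine Set.mem_iUnion₂.2 ⟨x, hxS, Set.mem_iUnion₂.2 ⟨y,
        Finset.mem_sdiff.2 ⟨mem_nbrs.2 hadj, hy⟩, Set.mem_iUnion₂.2 ⟨_, Finset.mem_filter.2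
          ⟨Finset.mem_powerset.2 (Finset.filter_subset _ _), hx⟩, ⟨hη, hadj, ho⟩, z, ?_, h2⟩⟩⟩
      have h3 := nd_triangle 0 x z
      have h4 := nd_triangle x y z
      have h5 := hl x hxS
      rw [nd_of_adj hadj] at h4
      rw [add_mul] at hz
      omega
    refine (measureReal_mono h1 (measure_ne_top _ _)).trans ?_
    have e0 : phi p S ^ (k + 1) = ∑ x ∈ S, ∑ _y ∈ nbrs x \ S,
        p * phi p S ^ k * (perc d p).real {η | Conn η S 0 x} := by
      simp only [← Finset.mul_sum]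
      rw [pow_succ, mul_comm (p : ℝ), mul_assoc]
      rfl
    rw [e0]
    refine (measureReal_biUnion_finset_le _ _).trans (Finset.sum_le_sum fun x hx => ?_)
    refine (measureReal_biUnion_finset_le _ _).trans (Finset.sum_le_sum fun y hy => ?_)
    obtain ⟨h2, h3⟩ := Finset.mem_sdiff.1 hy
    have hadj := mem_nbrs.1 h2
    have h4 : ∑ C ∈ S.powerset.filter (x ∈ ·), (perc d p).real (clus_Perc1 S C) ≤
        (perc d p).real {η | Conn η S 0 x} := by
      rw [← measureReal_biUnion_finset (fun C hC C' hC' hne => ?_) fun C _ => meas_clus_Perc1 S C]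
      · exact measureReal_mono (Set.iUnion₂_subset fun C hC η hη =>
          (hη x hx).2 (Finset.mem_filter.1 hC).2)
      · refine Set.disjoint_left.2 fun η h5 h6 => hne ?_
        have a1 := Finset.mem_powerset.1 (Finset.mem_filter.1 hC).1
        have a2 := Finset.mem_powerset.1 (Finset.mem_filter.1 hC').1
        ext w
        exact ⟨fun hw => (h6 w (a1 hw)).1 ((h5 w (a1 hw)).2 hw),
          fun hw => (h5 w (a2 hw)).1 ((h6 w (a2 hw)).2 hw)⟩
    have h5 : 0 ≤ (p : ℝ) * phi p S ^ k := mul_nonneg p.2.1 (pow_nonneg (phi_nonneg p S) k)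
    refine (measureReal_biUnion_finset_le _ _).trans ?_
    refine le_trans ?_ (mul_le_mul_of_nonneg_left h4 h5)
    rw [Finset.mul_sum]
    refine Finset.sum_le_sum fun C hC => ?_
    have e : A x y C = clus_Perc1 S C ∩ {η | η ⟨s(x, y), hadj⟩ = true} ∩ far_Perc1 C y (k * l) := by
      simp only [hA, hadj, exists_true_left]
    rw [e]
    exact (triple_Perc1 p (Finset.mem_filter.1 hC).2 h3 hadj _).trans
      (mul_le_mul_of_nonneg_right (mul_le_mul_of_nonneg_left (ih y) p.2.1) measureReal_nonneg)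

end Pool.Agent.MP_489c42_pr.H12
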