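import Pool.Agent.MP_489c42_pr.H12.Perc0

namespace Pool.Agent.MP_489c42_pr.H12

open MeasureTheory ProbabilityTheory Filter
open scoped NNReal

variable {d : ℕ}

/-- `x` is joined to the boundary of the box inside the box. -/
def Good_Perc2 (n : ℕ) (η : E d → Bool) (x : V d) : Prop :=
  ∃ y, nd 0 y = n ∧ Conn η (box (0 : V d) n) x y

/-- The set of points of the box that are not joined to its boundary is `S`. -/
def ev_Perc2 (n : ℕ) (S : Finset (V d)) : Set (E d → Bool) :=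
  {η | ∀ x ∈ box (0 : V d) n, Good_Perc2 n η x ↔ x ∉ S}

/-- The edge `e` is pivotal. -/
def piv_Perc2 (n : ℕ) (e : E d) : Set (E d → Bool) :=
  open Classical in
  {η | Function.update η e true ∈ arm 0 n ∧ Function.update η e false ∉ arm 0 n}

theorem dep_ev_Perc2 (n : ℕ) (S : Finset (V d)) :
    Dep (ev_Perc2 n S) {e : E d | ¬ ∀ z ∈ (e : Sym2 (V d)), z ∈ (S : Set (V d))} := by
  intro η ζ hag h x hx
  rw [← h x hx]
  constructor
  · rintro ⟨y, hy, hc⟩
    clear hx
    induction hc using Relation.ReflTransGen.head_induction_on with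
    | refl => exact ⟨y, hy, Relation.ReflTransGen.refl⟩
    | @head a c hac _ ih =>
      obtain ⟨ha, hc, hadj, ho⟩ := hac
      obtain ⟨y', hy', hc'⟩ := ih
      have hS : c ∉ S := (h c hc).1 ⟨y', hy', hc'⟩
      rw [← hag ⟨s(a, c), hadj⟩ fun h' => hS (h' c (Sym2.mem_mk_right a c))] at ho
      exact ⟨y', hy', Relation.ReflTransGen.head ⟨ha, hc, hadj, ho⟩ hc'⟩
  · rintro ⟨y, hy, hc⟩
    refine ⟨y, hy, ?_⟩
    clear hx
    induction hc using Relation.ReflTransGen.head_induction_on with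
    | refl => exact Relation.ReflTransGen.refl
    | @head a c hac hcy ih =>
      have hS : a ∉ S := (h a hac.1).1 ⟨y, hy, Relation.ReflTransGen.head hac hcy⟩
      obtain ⟨ha, hc, hadj, ho⟩ := hac
      rw [hag ⟨s(a, c), hadj⟩ fun h' => hS (h' a (Sym2.mem_mk_left a c))] at ho
      exact Relation.ReflTransGen.head ⟨ha, hc, hadj, ho⟩ ih

theorem meas_ev_Perc2 (n : ℕ) (S : Finset (V d)) : MeasurableSet (ev_Perc2 n S) := by
  refine Dep.measurableSet_bool (S := edgesIn 0 n) (fun η ζ hag h x hx => ?_) (edgesIn_finite _ _)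
  have key : ∀ η ζ : E d → Bool, (∀ e ∈ edgesIn (0 : V d) n, η e = ζ e) →
      Good_Perc2 n η x → Good_Perc2 n ζ x := fun η ζ hag ⟨y, hy, hc⟩ =>
    ⟨y, hy, dep_conn _ x y η ζ (fun e he => hag e fun z hz => mem_box.1 (he z hz)) hc⟩
  rw [← h x hx]
  exact ⟨key _ _ fun e he => (hag e he).symm, key _ _ hag⟩

theorem meas_piv_Perc2 (n : ℕ) (e : E d) : MeasurableSet (piv_Perc2 n e) := by
  classical
  refine Dep.measurableSet_bool (S := edgesIn 0 n) (fun η ζ hag h => ?_) (edgesIn_finite _ _)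
  have key : ∀ (b : Bool), ∀ i ∈ edgesIn (0 : V d) n,
      Function.update η e b i = Function.update ζ e b i := fun b i hi => by
    by_cases hie : i = e
    · subst hie; simp
    · simp [Function.update_of_ne hie, hag i hi]
  exact ⟨dep_arm 0 n _ _ (by convert key true) h.1,
    (dep_arm 0 n).compl _ _ (by convert key false) h.2⟩

theorem meas_closed_Perc2 (e : E d) : MeasurableSet {η : E d → Bool | η e = false} :=
  measurableSet_eq_fun (measurable_pi_apply e) measurable_const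

theorem closed_piv_Perc2 (q : unitInterval) (n : ℕ) (e : E d) :
    (perc d q).real (piv_Perc2 n e ∩ {η | η e = false}) = (1 - q) * (perc d q).real (piv_Perc2 n e) := by
  rw [perc_split q ((meas_piv_Perc2 n e).inter (meas_closed_Perc2 e)) e]
  simp [piv_Perc2]

theorem sub_Perc2 {n : ℕ} {S : Finset (V d)} (h0 : (0 : V d) ∈ S) (hS : ∀ x ∈ S, nd 0 x < n)
    {x y : V d} (hx : x ∈ S) (hy : y ∉ S) (hadj : (lattice d).Adj x y) :
    (⟨s(x, y), hadj⟩ : E d) ∈ edgesIn (0 : V d) n ∧ ev_Perc2 n S ∩ {η | Conn η S 0 x} ⊆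
      piv_Perc2 n ⟨s(x, y), hadj⟩ ∩ {η | η ⟨s(x, y), hadj⟩ = false} ∩ ev_Perc2 n S := by
  classical
  have hxn := (hS x hx).le
  have hyn : nd 0 y ≤ n := by
    have := nd_triangle 0 x y
    rw [nd_of_adj hadj] at this
    have := hS x hx
    omega
  have hxb : x ∈ box (0 : V d) n := mem_box.2 hxn
  have hyb : y ∈ box (0 : V d) n := mem_box.2 hyn
  refine ⟨(mem_edgesIn hadj).2 ⟨hxn, hyn⟩, ?_⟩
  rintro η ⟨h, hc⟩
  obtain ⟨z, hz, hyz⟩ := (h y hyb).2 hy
  have hcl : η ⟨s(x, y), hadj⟩ = false := by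
    by_contra ho
    exact (h x hxb).1 ⟨z, hz, Relation.ReflTransGen.head ⟨hxb, hyb, hadj, by simpa using ho⟩ hyz⟩ hx
  refine ⟨⟨⟨mem_arm_iff.2 ⟨z, hz, ?_⟩, ?_⟩, hcl⟩, h⟩
  · refine Relation.ReflTransGen.trans (Conn.mono hc (fun w hw => mem_box.2 (hS w hw).le) ?_)
      (Relation.ReflTransGen.head ⟨hxb, hyb, hadj, by simp⟩ (Conn.mono hyz subset_rfl ?_))
    all_goals exact le_update_iff.2 ⟨le_top, fun _ _ => le_rfl⟩
  · rw [← hcl, Function.update_eq_self, mem_arm_iff]
    exact fun h' => (h 0 (mem_box.2 (by simp))).1 h' h0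

open Classical in
theorem one_Perc2 (q : unitInterval) {n : ℕ} {S : Finset (V d)} (h0 : (0 : V d) ∈ S)
    (hS : ∀ x ∈ S, nd 0 x < n) :
    (perc d q).real (ev_Perc2 n S) * phi q S ≤ q * ∑ e ∈ (edgesIn_finite (0 : V d) n).toFinset,
      (perc d q).real (piv_Perc2 n e ∩ {η | η e = false} ∩ ev_Perc2 n S) := by
  rw [phi, mul_left_comm]
  refine mul_le_mul_of_nonneg_left ?_ q.2.1
  set T : Finset (Σ _ : V d, V d) := S.sigma fun x => nbrs x \ S with hT
  have hp : ∀ p ∈ T, p.1 ∈ S ∧ p.2 ∉ S ∧ (lattice d).Adj p.1 p.2 := fun p hp => by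
    obtain ⟨h1, h2⟩ := Finset.mem_sigma.1 hp
    exact ⟨h1, (Finset.mem_sdiff.1 h2).2, mem_nbrs.1 (Finset.mem_sdiff.1 h2).1⟩
  set m : T → E d := fun p => ⟨s(p.1.1, p.1.2), (hp p.1 p.2).2.2⟩ with hm
  have hinj : Function.Injective m := by
    rintro ⟨⟨a, b⟩, h1⟩ ⟨⟨c, e⟩, h2⟩ h
    have h3 : s(a, b) = s(c, e) := congrArg Subtype.val h
    rcases Sym2.eq_iff.1 h3 with ⟨rfl, rfl⟩ | ⟨rfl, rfl⟩
    · rfl
    · exact absurd (hp _ h1).1 (hp _ h2).2.1
  rw [Finset.sum_sigma', ← hT, Finset.mul_sum, ← Finset.sum_attach]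
  calc _ ≤ ∑ p ∈ T.attach,
        (perc d q).real (piv_Perc2 n (m p) ∩ {η | η (m p) = false} ∩ ev_Perc2 n S) := by
        refine Finset.sum_le_sum fun p _ => ?_
        obtain ⟨h1, h2, h3⟩ := hp p.1 p.2
        rw [perc, ← indep_of_dep _ (meas_ev_Perc2 n S) (measurableSet_conn _ _ _)
          (dep_ev_Perc2 n S) (dep_conn _ _ _) (Set.disjoint_left.2 fun e h h' => h h')]
        exact measureReal_mono (sub_Perc2 h0 hS h1 h2 h3).2
    _ = ∑ e ∈ T.attach.image m,
        (perc d q).real (piv_Perc2 n e ∩ {η | η e = false} ∩ ev_Perc2 n S) :=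
        (Finset.sum_image (f := fun e =>
          (perc d q).real (piv_Perc2 n e ∩ {η | η e = false} ∩ ev_Perc2 n S))
          fun a _ b _ h => hinj h).symm
    _ ≤ _ := by
        refine Finset.sum_le_sum_of_subset_of_nonneg (fun e he => ?_) fun _ _ _ => measureReal_nonneg
        obtain ⟨p, -, rfl⟩ := Finset.mem_image.1 he
        obtain ⟨h1, h2, h3⟩ := hp p.1 p.2
        exact (Set.Finite.mem_toFinset _).2 (sub_Perc2 h0 hS h1 h2 h3).1

open Classical in
/-- The pivotal sum dominates the probability of no connection. -/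
theorem pivotal_ge (q : unitInterval) (h : ∀ S : Finset (V d), (0 : V d) ∈ S → 1 ≤ phi q S)
    (n : ℕ) :
    1 - (perc d q).real (arm 0 n) ≤ q * (1 - q) * ∑ e ∈ (edgesIn_finite (0 : V d) n).toFinset,
      (perc d q).real
        {η | Function.update η e true ∈ arm 0 n ∧ Function.update η e false ∉ arm 0 n} := by
  set 𝒮 := (box (0 : V d) n).powerset.filter fun S => (0 : V d) ∈ S ∧ ∀ x ∈ S, nd 0 x < n with h𝒮
  have hm : MeasurableSet (arm (0 : V d) n) := (dep_arm 0 n).measurableSet_bool (edgesIn_finite _ _)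
  have h1 : (arm (0 : V d) n)ᶜ ⊆ ⋃ S ∈ 𝒮, ev_Perc2 n S := by
    intro η hη
    refine Set.mem_iUnion₂.2 ⟨(box 0 n).filter fun x => ¬ Good_Perc2 n η x,
      Finset.mem_filter.2 ⟨Finset.mem_powerset.2 (Finset.filter_subset _ _),
        Finset.mem_filter.2 ⟨mem_box.2 (by simp), fun h' => hη (mem_arm_iff.2 h')⟩,
        fun x hx => ?_⟩, fun x hx => by simp [hx]⟩
    obtain ⟨h2, h3⟩ := Finset.mem_filter.1 hx
    exact lt_of_le_of_ne (mem_box.1 h2) fun h4 => h3 ⟨x, h4, Relation.ReflTransGen.refl⟩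
  have h2 : ∀ e : E d, ∑ S ∈ 𝒮, (perc d q).real (piv_Perc2 n e ∩ {η | η e = false} ∩ ev_Perc2 n S)
      ≤ (1 - q) * (perc d q).real (piv_Perc2 n e) := by
    intro e
    rw [← closed_piv_Perc2, ← measureReal_biUnion_finset (fun S hS S' hS' hne => ?_)
      fun S _ => ((meas_piv_Perc2 n e).inter (meas_closed_Perc2 e)).inter (meas_ev_Perc2 n S)]
    · exact measureReal_mono (Set.iUnion₂_subset fun S _ => Set.inter_subset_left)
    · refine Set.disjoint_left.2 fun η h3 h4 => hne ?_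
      have a1 := Finset.mem_powerset.1 (Finset.mem_filter.1 hS).1
      have a2 := Finset.mem_powerset.1 (Finset.mem_filter.1 hS').1
      ext x
      exact ⟨fun hx => not_not.1 fun h5 => (h3.2 x (a1 hx)).1 ((h4.2 x (a1 hx)).2 h5) hx,
        fun hx => not_not.1 fun h5 => (h4.2 x (a2 hx)).1 ((h3.2 x (a2 hx)).2 h5) hx⟩
  calc 1 - (perc d q).real (arm 0 n) = (perc d q).real (arm 0 n)ᶜ :=
        (probReal_compl_eq_one_sub hm).symm
    _ ≤ ∑ S ∈ 𝒮, (perc d q).real (ev_Perc2 n S) :=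
        (measureReal_mono h1 (measure_ne_top _ _)).trans (measureReal_biUnion_finset_le _ _)
    _ ≤ ∑ S ∈ 𝒮, q * ∑ e ∈ (edgesIn_finite (0 : V d) n).toFinset,
        (perc d q).real (piv_Perc2 n e ∩ {η | η e = false} ∩ ev_Perc2 n S) := by
        refine Finset.sum_le_sum fun S hS => ?_
        obtain ⟨h3, h4⟩ := (Finset.mem_filter.1 hS).2
        exact (le_mul_of_one_le_right measureReal_nonneg (h S h3)).trans (one_Perc2 q h3 h4)
    _ ≤ _ := by
        rw [← Finset.mul_sum, Finset.sum_comm, mul_assoc]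
        refine mul_le_mul_of_nonneg_left ?_ q.2.1
        rw [Finset.mul_sum]
        exact Finset.sum_le_sum fun e _ => h2 e

theorem theta_pos {p₁ p₂ : unitInterval} (h12 : p₁ < p₂)
    (h : ∀ S : Finset (V d), (0 : V d) ∈ S → 1 ≤ phi p₁ S) : 0 < theta d p₂ := by
  have h12' : (p₁ : ℝ) < p₂ := h12
  have a0 := p₁.2.1
  have a1 := p₂.2.2
  set s₁ : ℝ := (2 * p₁ + p₂) / 3 with hs₁
  set s₂ : ℝ := (p₁ + 2 * p₂) / 3 with hs₂
  have hm : ∀ n, MeasurableSet (arm (0 : V d) n) := fun n =>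
    (dep_arm 0 n).measurableSet_bool (edgesIn_finite _ _)
  have key : ∀ n, 1 - Real.exp (4 * s₁ - 4 * s₂) ≤ (perc d p₂).real (arm 0 n) := by
    intro n
    set f : ℝ → ℝ := fun s => (perc d (Set.projIcc 0 1 zero_le_one s)).real (arm 0 n) with hf
    have hd : ∀ s ∈ Set.Icc s₁ s₂, ∃ D, D ≤ 0 ∧
        HasDerivAt (fun s => (1 - f s) * Real.exp (4 * s)) D s := by
      intro s hs
      have b0 : (p₁ : ℝ) < s := by linarith [hs.1]
      have b1 : s < 1 := by linarith [hs.2]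
      have e : Set.projIcc 0 1 zero_le_one s = ⟨s, (by linarith), b1.le⟩ :=
        Set.projIcc_of_mem _ _
      have h1 := russo (edgesIn_finite (0 : V d) n).toFinset (A := arm 0 n)
        (by simpa using dep_arm 0 n) (isUpperSet_arm 0 n) (by linarith) b1
      have h2 := pivotal_ge (Set.projIcc 0 1 zero_le_one s)
        (fun S hS => (h S hS).trans (phi_mono S (by rw [e]; exact b0.le))) n
      have h3 := (h1.const_sub 1).mul ((hasDerivAt_id s).const_mul 4).exp
      refine ⟨_, ?_, h3⟩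
      generalize hD : (∑ e ∈ (edgesIn_finite (0 : V d) n).toFinset, _ : ℝ) = D at h2 ⊢
      have h4 : 0 ≤ D := hD ▸ Finset.sum_nonneg fun _ _ => measureReal_nonneg
      have h5 := Real.exp_pos (4 * s)
      have h6 : ((Set.projIcc 0 1 zero_le_one s : unitInterval) : ℝ) = s := by rw [e]
      rw [h6] at h2
      have h7 : s * (1 - s) * D ≤ 1 / 4 * D :=
        mul_le_mul_of_nonneg_right (by nlinarith [sq_nonneg (s - 1 / 2)]) h4
      simp only [id, mul_one]
      nlinarith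
    have hanti : AntitoneOn (fun s => (1 - f s) * Real.exp (4 * s)) (Set.Icc s₁ s₂) := by
      refine antitoneOn_of_deriv_nonpos (convex_Icc _ _)
        (fun s hs => (hd s hs).elim fun D hD => hD.2.continuousAt.continuousWithinAt)
        (fun s hs => (hd s (interior_subset hs)).elim fun D hD =>
          hD.2.differentiableAt.differentiableWithinAt) fun s hs => ?_
      obtain ⟨D, h1, h2⟩ := hd s (interior_subset hs)
      rwa [h2.deriv]
    have h1 := hanti (Set.left_mem_Icc.2 (by linarith)) (Set.right_mem_Icc.2 (by linarith))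
      (by linarith)
    have h2 : 0 ≤ f s₁ := measureReal_nonneg
    have h3 : f s₂ ≤ (perc d p₂).real (arm 0 n) := by
      refine perc_mono (edgesIn_finite _ _) (dep_arm 0 n) (isUpperSet_arm 0 n) ?_
      rw [Set.projIcc_of_mem _ ⟨by linarith, by linarith⟩]
      change s₂ ≤ p₂
      linarith
    have h4 : 1 - f s₂ ≤ Real.exp (4 * s₁ - 4 * s₂) := by
      rw [Real.exp_sub, le_div_iff₀ (Real.exp_pos _)]
      have := Real.exp_pos (4 * s₁)
      simp only at h1
      nlinarith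
    linarith
  have hanti : Antitone (arm (0 : V d)) := fun m n hmn η ⟨y, hy, hc⟩ => ⟨y, hmn.trans hy, hc⟩
  have hlim := (ENNReal.tendsto_toReal (measure_ne_top _ _)).comp
    (tendsto_measure_iInter_atTop (μ := perc d p₂) (fun n => (hm n).nullMeasurableSet) hanti
      ⟨0, measure_ne_top _ _⟩)
  have h1 : 1 - Real.exp (4 * s₁ - 4 * s₂) ≤ (perc d p₂).real (⋂ n, arm 0 n) :=
    ge_of_tendsto' hlim key
  have h2 : Real.exp (4 * s₁ - 4 * s₂) < 1 := Real.exp_lt_one_iff.2 (by linarith)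
  refine lt_of_lt_of_le (by linarith) (h1.trans (measureReal_mono fun η hη hfin => ?_))
  obtain ⟨B, hB⟩ := (hfin.image (nd 0)).bddAbove
  obtain ⟨y, hy, hc⟩ := Set.mem_iInter.1 hη (B + 1)
  have := hB ⟨y, conn_univ_iff.1 hc, rfl⟩
  omega

end Pool.Agent.MP_489c42_pr.H12
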