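import Pool.Agent.MP_489c42_pr.H12.Time

namespace Pool.Agent.MP_489c42_pr.H12

open MeasureTheory ProbabilityTheory Filter
open scoped NNReal

variable {d : ℕ}

section Prod

variable {ι X : Type*} [MeasurableSpace X]

omit [MeasurableSpace X] in
theorem Dep.mono {A : Set (ι → X)} {S S' : Set ι} (h : Dep A S) (hS : S ⊆ S') : Dep A S' :=
  fun η ζ hh => h η ζ (fun i hi => hh i (hS hi))

omit [MeasurableSpace X] in
theorem Dep.compl {A : Set (ι → X)} {S : Set ι} (h : Dep A S) : Dep Aᶜ S :=
  fun η ζ hh hη hζ => hη (h ζ η (fun i hi => (hh i hi).symm) hζ)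

theorem measurable_piecewise_ProbBase (S : Set ι) [DecidablePred (· ∈ S)] :
    Measurable (fun p : (ι → X) × (ι → X) => S.piecewise p.1 p.2) := by
  refine measurable_pi_lambda _ (fun i => ?_)
  by_cases hi : i ∈ S
  · simp only [Set.piecewise, hi, if_true]; fun_prop
  · simp only [Set.piecewise, hi, if_false]; fun_prop

theorem map_piecewise (μ : ι → Measure X) [∀ i, IsProbabilityMeasure (μ i)] (S : Set ι)
    [DecidablePred (· ∈ S)] :
    ((Measure.infinitePi μ).prod (Measure.infinitePi μ)).map
      (fun p : (ι → X) × (ι → X) => S.piecewise p.1 p.2) = Measure.infinitePi μ := by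
  classical
  have hm := measurable_piecewise_ProbBase (X := X) S
  apply Measure.eq_infinitePi
  intro s t ht
  rw [Measure.map_apply hm (MeasurableSet.pi s.countable_toSet (fun i _ => ht i))]
  have : (fun p : (ι → X) × (ι → X) => S.piecewise p.1 p.2) ⁻¹' (Set.pi (↑s) t)
      = (Set.pi (↑(s.filter (· ∈ S))) t) ×ˢ (Set.pi (↑(s.filter (· ∉ S))) t) := by
    ext p
    simp only [Set.mem_preimage, Set.mem_pi, Finset.mem_coe, Set.mem_prod, Finset.mem_filter]
    constructor
    · intro h
      refine ⟨fun i hi => ?_, fun i hi => ?_⟩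
      · have := h i hi.1; simpa [Set.piecewise, hi.2] using this
      · have := h i hi.1; simpa [Set.piecewise, hi.2] using this
    · rintro ⟨h1, h2⟩ i hi
      by_cases hS : i ∈ S
      · simpa [Set.piecewise, hS] using h1 i ⟨hi, hS⟩
      · simpa [Set.piecewise, hS] using h2 i ⟨hi, hS⟩
  rw [this, Measure.prod_prod, Measure.infinitePi_pi _ (fun i _ => ht i),
    Measure.infinitePi_pi _ (fun i _ => ht i), Finset.prod_filter_mul_prod_filter_not]

theorem indep_of_dep (μ : ι → Measure X) [∀ i, IsProbabilityMeasure (μ i)] {A B : Set (ι → X)}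
    {S S' : Set ι} (hA : MeasurableSet A) (hB : MeasurableSet B) (dA : Dep A S) (dB : Dep B S')
    (hS : Disjoint S S') :
    (Measure.infinitePi μ).real (A ∩ B) =
      (Measure.infinitePi μ).real A * (Measure.infinitePi μ).real B := by
  classical
  have hm := measurable_piecewise_ProbBase (X := X) S
  have key : Measure.infinitePi μ (A ∩ B) = Measure.infinitePi μ A * Measure.infinitePi μ B := by
    conv_lhs => rw [← map_piecewise μ S]
    rw [Measure.map_apply hm (hA.inter hB), ← Measure.prod_prod]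
    congr 1
    ext p
    simp only [Set.mem_preimage, Set.mem_inter_iff, Set.mem_prod]
    have h1 : ∀ i ∈ S, S.piecewise p.1 p.2 i = p.1 i := fun i hi => by simp [Set.piecewise, hi]
    have h2 : ∀ i ∈ S', S.piecewise p.1 p.2 i = p.2 i := fun i hi => by
      have : i ∉ S := fun h => Set.disjoint_left.1 hS h hi
      simp [Set.piecewise, this]
    exact ⟨fun h => ⟨dA _ _ h1 h.1, dB _ _ h2 h.2⟩,
      fun h => ⟨dA _ _ (fun i hi => (h1 i hi).symm) h.1, dB _ _ (fun i hi => (h2 i hi).symm) h.2⟩⟩
  simp only [measureReal_def, key, ENNReal.toReal_mul]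

theorem prob_biInter {κ : Type*} (μ : ι → Measure X) [∀ i, IsProbabilityMeasure (μ i)]
    (F : Finset κ) (A : κ → Set (ι → X)) (S : κ → Set ι) (hA : ∀ k ∈ F, MeasurableSet (A k))
    (dA : ∀ k ∈ F, Dep (A k) (S k))
    (hS : ∀ k ∈ F, ∀ l ∈ F, k ≠ l → Disjoint (S k) (S l)) :
    (Measure.infinitePi μ).real (⋂ k ∈ F, A k) = ∏ k ∈ F, (Measure.infinitePi μ).real (A k) := by
  classical
  induction F using Finset.induction_on with
  | empty => simp
  | insert a F ha ih =>
    rw [Finset.set_biInter_insert, Finset.prod_insert ha,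
      ← ih (fun k hk => hA k (Finset.mem_insert_of_mem hk))
        (fun k hk => dA k (Finset.mem_insert_of_mem hk))
        (fun k hk l hl => hS k (Finset.mem_insert_of_mem hk) l (Finset.mem_insert_of_mem hl))]
    refine indep_of_dep μ (S := S a) (S' := ⋃ k ∈ F, S k) (hA a (Finset.mem_insert_self _ _))
      (Finset.measurableSet_biInter F (fun k hk => hA k (Finset.mem_insert_of_mem hk)))
      (dA a (Finset.mem_insert_self _ _)) ?_ ?_
    · intro η ζ h hη
      simp only [Set.mem_iInter] at hη ⊢
      intro k hk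
      exact dA k (Finset.mem_insert_of_mem hk) η ζ
        (fun i hi => h i (Set.mem_biUnion (s := (F : Set κ)) hk hi)) (hη k hk)
    · rw [Set.disjoint_left]
      intro i hi hi'
      simp only [Set.mem_iUnion] at hi'
      obtain ⟨k, hk, hik⟩ := hi'
      have hne : a ≠ k := fun h => ha (h ▸ hk)
      exact Set.disjoint_left.1
        (hS a (Finset.mem_insert_self _ _) k (Finset.mem_insert_of_mem hk) hne) hi hik

theorem prob_coord (μ : ι → Measure X) [∀ i, IsProbabilityMeasure (μ i)] (i : ι) {B : Set X}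
    (hB : MeasurableSet B) : (Measure.infinitePi μ).real {η | η i ∈ B} = (μ i).real B := by
  have := (measurePreserving_eval_infinitePi μ i).measure_preimage (s := B) hB.nullMeasurableSet
  simp only [measureReal_def]
  rw [← this]
  rfl

theorem measurableSet_of_pattern {Y : Type*} [Finite Y] [MeasurableSpace Y]
    [MeasurableSingletonClass Y] {φ : X → Y} (hφ : Measurable φ) {S : Set ι} (hS : S.Finite)
    {A : Set (ι → X)} (h : ∀ η ζ : ι → X, (∀ i ∈ S, φ (η i) = φ (ζ i)) → η ∈ A → ζ ∈ A) :
    MeasurableSet A := by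
  classical
  have : Finite S := hS
  have : A = (fun (η : ι → X) (i : S) => φ (η i)) ⁻¹'
      ((fun (η : ι → X) (i : S) => φ (η i)) '' A) := by
    ext η
    constructor
    · intro hη; exact ⟨η, hη, rfl⟩
    · rintro ⟨ζ, hζ, he⟩
      exact h ζ η (fun i hi => congrFun he ⟨i, hi⟩) hζ
  rw [this]
  exact (Set.toFinite _).measurableSet.preimage (by fun_prop)

theorem map_perm_ProbBase (μ : Measure X) [IsProbabilityMeasure μ] (e : ι ≃ ι) :
    (Measure.infinitePi fun _ : ι => μ).map (fun η i => η (e i)) =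
      Measure.infinitePi fun _ : ι => μ := by
  classical
  apply Measure.eq_infinitePi
  intro s t ht
  rw [Measure.map_apply (by fun_prop) (MeasurableSet.pi s.countable_toSet (fun i _ => ht i))]
  have : (fun (η : ι → X) i => η (e i)) ⁻¹' (Set.pi (↑s) t)
      = Set.pi (↑(s.map e.toEmbedding)) (fun j => t (e.symm j)) := by
    ext η
    simp only [Set.mem_preimage, Set.mem_pi, Finset.mem_coe, Finset.mem_map_equiv]
    constructor
    · intro h j hj; simpa using h _ hj
    · intro h i hi
      have := h (e i) (by simpa using hi)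
      rwa [Equiv.symm_apply_apply] at this
  rw [this, Measure.infinitePi_pi _ (fun i _ => ht _), Finset.prod_map]
  refine Finset.prod_congr rfl (fun i _ => ?_)
  simp only [Equiv.coe_toEmbedding]
  rw [Equiv.symm_apply_apply]

theorem shiftE_shiftE_ProbBase (u v : V d) (h : v + u = 0) (e : E d) :
    shiftE u (shiftE v e) = e := by
  obtain ⟨e, he⟩ := e
  apply Subtype.ext
  induction e using Sym2.ind with
  | _ x y => simp [shiftE, add_assoc, h]

theorem shift_mp (μ : Measure X) [IsProbabilityMeasure μ] (v : V d) :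
    MeasurePreserving (fun (ω : E d → X) e => ω (shiftE v e))
      (Measure.infinitePi fun _ : E d => μ) (Measure.infinitePi fun _ : E d => μ) := by
  let e : E d ≃ E d :=
    { toFun := shiftE v
      invFun := shiftE (-v)
      left_inv := shiftE_shiftE_ProbBase _ _ (by simp)
      right_inv := shiftE_shiftE_ProbBase _ _ (by simp) }
  exact ⟨by fun_prop, map_perm_ProbBase μ e⟩

end Prod

theorem mem_edgesIn {x y z : V d} {r : ℕ} (h : (lattice d).Adj y z) :
    (⟨s(y, z), h⟩ : E d) ∈ edgesIn x r ↔ nd x y ≤ r ∧ nd x z ≤ r := by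
  simp [edgesIn]

theorem edgesIn_sub_ProbBase (x : V d) (r : ℕ) :
    Subtype.val '' (edgesIn x r) ⊆
      ↑(((box x r) ×ˢ (box x r)).image (fun p : V d × V d => s(p.1, p.2))) := by
  rintro _ ⟨⟨e, he⟩, h, rfl⟩
  induction e using Sym2.ind with
  | _ y z =>
    have := (mem_edgesIn (x := x) (r := r) he).1 h
    simp only [Finset.coe_image, Set.mem_image, Finset.mem_coe, Finset.mem_product]
    exact ⟨(y, z), ⟨mem_box.2 this.1, mem_box.2 this.2⟩, rfl⟩

theorem edgesIn_finite (x : V d) (r : ℕ) : (edgesIn x r).Finite :=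
  Set.Finite.of_finite_image ((Finset.finite_toSet _).subset (edgesIn_sub_ProbBase x r))
    Subtype.val_injective.injOn

theorem edgesIn_ncard_le (x : V d) (r : ℕ) :
    (edgesIn x r).ncard ≤ (2 * r + 1) ^ (2 * d) := by
  rw [← Set.ncard_image_of_injective _ Subtype.val_injective]
  refine (Set.ncard_le_ncard (edgesIn_sub_ProbBase x r) (Finset.finite_toSet _)).trans ?_
  rw [Set.ncard_coe_finset]
  refine Finset.card_image_le.trans ?_
  rw [Finset.card_product, card_box, ← pow_add, two_mul d]

theorem edgesIn_mono {x x' : V d} {r r' : ℕ} (h : nd x' x + r ≤ r') :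
    edgesIn x r ⊆ edgesIn x' r' := by
  intro e he y hy
  have h1 := he y hy
  have h2 := nd_triangle x' x y
  omega

theorem edgesIn_disjoint {x y : V d} {r r' : ℕ} (h : r + r' < nd x y) :
    Disjoint (edgesIn x r) (edgesIn y r') := by
  rw [Set.disjoint_left]
  rintro ⟨e, he⟩ h1 h2
  induction e using Sym2.ind with
  | _ p q =>
    have a : nd x p ≤ r := ((mem_edgesIn (x := x) (r := r) he).1 h1).1
    have b : nd y p ≤ r' := ((mem_edgesIn (x := y) (r := r') he).1 h2).1
    have c := nd_triangle x p y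
    rw [nd_comm p y] at c
    omega

theorem shiftE_mk (v : V d) {y z : V d} (h : (lattice d).Adj y z) :
    shiftE v ⟨s(y, z), h⟩ = ⟨s(y + v, z + v), (adj_add_right v).2 h⟩ := by
  apply Subtype.ext
  simp [shiftE]

theorem wt_adj (ω : E d → ℝ≥0) {y z : V d} (h : (lattice d).Adj y z) :
    wt ω y z = ω ⟨s(y, z), h⟩ := by
  simp [wt, h]

theorem wt_not_adj_ProbBase (ω : E d → ℝ≥0) {y z : V d} (h : ¬ (lattice d).Adj y z) :
    wt ω y z = 0 := by
  simp [wt, h]

theorem wt_Wt (ω : E d → ℝ≥0) : Wt (wt ω) := by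
  constructor
  · intro x y
    by_cases h : (lattice d).Adj x y
    · rw [wt_adj ω h, wt_adj ω h.symm]
      congr 2
      exact Subtype.ext Sym2.eq_swap
    · rw [wt_not_adj_ProbBase ω h, wt_not_adj_ProbBase ω (fun h' => h h'.symm)]
  · intro x y
    by_cases h : (lattice d).Adj x y
    · rw [wt_adj ω h]; exact NNReal.coe_nonneg _
    · rw [wt_not_adj_ProbBase ω h]

theorem wt_congr {ω ω' : E d → ℝ≥0} {x y z : V d} {r : ℕ} (h : ∀ e ∈ edgesIn x r, ω e = ω' e)
    (hy : nd x y ≤ r) (hz : nd x z ≤ r) : wt ω y z = wt ω' y z := by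
  by_cases ha : (lattice d).Adj y z
  · rw [wt_adj ω ha, wt_adj ω' ha, h _ ((mem_edgesIn ha).2 ⟨hy, hz⟩)]
  · rw [wt_not_adj_ProbBase ω ha, wt_not_adj_ProbBase ω' ha]

theorem wt_shift (ω : E d → ℝ≥0) (v y z : V d) :
    wt (fun e => ω (shiftE v e)) y z = wt ω (y + v) (z + v) := by
  by_cases ha : (lattice d).Adj y z
  · rw [wt_adj _ ha, wt_adj ω ((adj_add_right v).2 ha), shiftE_mk]
  · rw [wt_not_adj_ProbBase _ ha, wt_not_adj_ProbBase ω (fun h => ha ((adj_add_right v).1 h))]

theorem measurable_wt (y z : V d) : Measurable fun ω : E d → ℝ≥0 => wt ω y z := by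
  by_cases ha : (lattice d).Adj y z
  · simp only [wt_adj _ ha]; fun_prop
  · simp only [wt_not_adj_ProbBase _ ha]; fun_prop

theorem measurable_T {Ω : Type*} [MeasurableSpace Ω] {F : Ω → V d → V d → ℝ}
    (hF : ∀ y z, Measurable fun ω => F ω y z) (hW : ∀ ω, Wt (F ω)) (x y : V d) :
    Measurable fun ω => T (F ω) x y := by
  classical
  refine measurable_of_Iio (fun c => ?_)
  let ext : List (V d) → ℕ → V d := fun l k => l.getD k 0
  have : (fun ω => T (F ω) x y) ⁻¹' Set.Iio c =
      ⋃ (n : ℕ) (l : List (V d)) (_ : IsWalk (ext l) 0 n ∧ ext l 0 = x ∧ ext l n = y),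
        {ω | cost (F ω) (ext l) 0 n < c} := by
    ext ω
    simp only [Set.mem_preimage, Set.mem_Iio, Set.mem_iUnion, Set.mem_ofPred_eq]
    constructor
    · intro h
      obtain ⟨γ, n, hγ, h0, hn, hc⟩ := exists_near (F ω) x y (ε := (c - T (F ω) x y) / 2)
        (by linarith)
      have he : ∀ k ≤ n, ext ((List.range (n + 1)).map γ) k = γ k := by
        intro k hk
        simp only [ext]
        rw [List.getD_eq_getElem _ _ (by simp; omega)]
        simp
      refine ⟨n, (List.range (n + 1)).map γ, ⟨?_, ?_, ?_⟩, ?_⟩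
      · intro k h1 h2
        rw [he k (by omega), he (k + 1) (by omega)]
        exact hγ k h1 h2
      · rw [he 0 (by omega), h0]
      · rw [he n le_rfl, hn]
      · have : cost (F ω) (ext ((List.range (n + 1)).map γ)) 0 n = cost (F ω) γ 0 n := by
          unfold cost
          refine Finset.sum_congr rfl (fun k hk => ?_)
          have := (Finset.mem_Ico.1 hk).2
          rw [he k (by omega), he (k + 1) (by omega)]
        rw [this]
        linarith
    · rintro ⟨n, l, ⟨hγ, h0, hn⟩, hc⟩
      have := T_le_cost (hW ω) hγ (Nat.zero_le n)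
      rw [h0, hn] at this
      exact this.trans_lt hc
  rw [this]
  refine MeasurableSet.iUnion fun n => MeasurableSet.iUnion fun l =>
    MeasurableSet.iUnion fun _ => ?_
  refine measurableSet_lt ?_ measurable_const
  unfold cost
  exact Finset.measurable_sum _ (fun k _ => hF _ _)

end Pool.Agent.MP_489c42_pr.H12
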