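import Pool.Agent.MP_489c42_pr.H12.Sharp
import Pool.Agent.MP_489c42_pr.H12.LocL

namespace Pool.Agent.MP_489c42_pr.H12

open MeasureTheory ProbabilityTheory Filter
open scoped NNReal

variable {d : ℕ}

lemma locEv_of_pattern_ProbE {ν : Measure ℝ≥0} {Q : (E d → ℝ≥0) → V d → Prop} {r : ℕ} {p : ℝ}
    {φ : ℝ≥0 → Prop} (hφ : Measurable φ)
    (h : ∀ x (η ζ : E d → ℝ≥0), (∀ e ∈ edgesIn x r, φ (η e) = φ (ζ e)) → Q η x → Q ζ x)
    (hp : ∀ x, (PP d ν).real {ω | Q ω x} ≤ p) : LocEv ν Q r p :=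
  ⟨fun x => measurableSet_of_pattern hφ (edgesIn_finite x r) (h x),
    fun x η ζ e => h x η ζ fun i hi => congrArg φ (e i hi), hp⟩

lemma light_pattern_ProbE (δ : ℝ) (L : ℕ) (x : V d) (η ζ : E d → ℝ≥0)
    (e : ∀ i ∈ edgesIn x L, ((η i : ℝ) ≤ δ) = ((ζ i : ℝ) ≤ δ)) (h : light δ L (wt η) x) :
    light δ L (wt ζ) x := by
  obtain ⟨γ, n, hw, h0, h1, h2, h3⟩ := h
  refine ⟨γ, n, hw, h0, h1, h2, fun k hk => ?_⟩
  have ha := hw k (Nat.zero_le _) hk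
  have h4 := h3 k hk
  rw [wt_adj _ ha] at h4 ⊢
  exact (e _ ((mem_edgesIn ha).2 ⟨h2 k hk.le, h2 (k + 1) hk⟩)).mp h4

lemma heavy_pattern_ProbE (M : ℝ) (L : ℕ) (x : V d) (η ζ : E d → ℝ≥0)
    (e : ∀ i ∈ edgesIn x L, (M < (η i : ℝ)) = (M < (ζ i : ℝ))) (h : heavy M L (wt η) x) :
    heavy M L (wt ζ) x := by
  obtain ⟨y, z, ha, h1, h2, h3⟩ := h
  refine ⟨y, z, ha, h1, h2, ?_⟩
  rw [wt_adj _ ha] at h3 ⊢
  exact (e _ ((mem_edgesIn ha).2 ⟨h1, h2⟩)).mp h3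

lemma meas_gt_ProbE (M : ℝ) : MeasurableSet {s : ℝ≥0 | M < (s : ℝ)} :=
  measurableSet_lt measurable_const measurable_coe_nnreal_real

lemma heavy_prob_ProbE (ν : Measure ℝ≥0) [IsProbabilityMeasure ν] (M : ℝ) (L : ℕ) (x : V d) :
    (PP d ν).real {ω | heavy M L (wt ω) x} ≤
      ((2 * L + 1) ^ (2 * d) : ℕ) * ν.real {s | M < (s : ℝ)} := by
  have hsub : {ω : E d → ℝ≥0 | heavy M L (wt ω) x} ⊆
      ⋃ e ∈ (edgesIn_finite x L).toFinset, {ω | ω e ∈ {s : ℝ≥0 | M < (s : ℝ)}} := by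
    rintro ω ⟨y, z, ha, h1, h2, h3⟩
    rw [wt_adj _ ha] at h3
    exact Set.mem_iUnion₂.2 ⟨⟨s(y, z), ha⟩,
      (edgesIn_finite x L).mem_toFinset.2 ((mem_edgesIn ha).2 ⟨h1, h2⟩), h3⟩
  refine (measureReal_mono hsub (measure_ne_top _ _)).trans
    ((measureReal_biUnion_finset_le _ _).trans ?_)
  have h1 : ∀ e ∈ (edgesIn_finite x L).toFinset,
      (PP d ν).real {ω | ω e ∈ {s : ℝ≥0 | M < (s : ℝ)}} = ν.real {s | M < (s : ℝ)} :=
    fun e _ => prob_coord (fun _ : E d => ν) e (meas_gt_ProbE M)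
  rw [Finset.sum_congr rfl h1, Finset.sum_const, nsmul_eq_mul]
  refine mul_le_mul_of_nonneg_right ?_ measureReal_nonneg
  have h2 := edgesIn_ncard_le x L
  rw [Set.ncard_eq_toFinset_card _ (edgesIn_finite x L)] at h2
  exact_mod_cast h2

lemma tail_small_ProbE (ν : Measure ℝ≥0) [IsProbabilityMeasure ν] {ε : ℝ} (hε : 0 < ε) :
    ∃ M : ℝ, 1 ≤ M ∧ ν.real {s | M < (s : ℝ)} ≤ ε := by
  have hanti : Antitone fun n : ℕ => {s : ℝ≥0 | (n : ℝ) < (s : ℝ)} := by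
    intro a b hab s hs
    exact lt_of_le_of_lt (Nat.cast_le.2 hab) (show (b : ℝ) < s from hs)
  have h1 := tendsto_measure_iInter_atTop (μ := ν)
    (fun n : ℕ => (meas_gt_ProbE n).nullMeasurableSet) hanti ⟨0, measure_ne_top _ _⟩
  have h2 : (⋂ n : ℕ, {s : ℝ≥0 | (n : ℝ) < (s : ℝ)}) = ∅ := by
    refine Set.eq_empty_of_forall_notMem fun s hs => ?_
    obtain ⟨n, hn⟩ := exists_nat_gt (s : ℝ)
    exact lt_asymm hn (Set.mem_iInter.1 hs n)
  rw [h2, measure_empty] at h1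
  have h3 := (ENNReal.tendsto_toReal ENNReal.zero_ne_top).comp h1
  obtain ⟨n, hn1, hn2⟩ := ((h3.eventually (ge_mem_nhds hε)).and (eventually_ge_atTop 1)).exists
  exact ⟨n, by exact_mod_cast hn2, hn1⟩

theorem exists_par (ν : Measure ℝ≥0) [IsProbabilityMeasure ν] (hν : ν.real {0} < pc d) :
    ∃ P : Par d, 0 < ν.real {s | P.δ < (s : ℝ)} ∧
      LocEv ν (fun ω x => base1 P (wt ω) x) (8 * P.L0) (1 / (P.L0 : ℝ) ^ eB1 d) := by
  obtain ⟨δ, hδ, hδ1, hpos, L, hL, hl⟩ := light_small ν hν (eB1 d) (1000 * (d + 1))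
  have hL0 : (0 : ℝ) < L := by exact_mod_cast (show 0 < L by omega)
  have hN : (0 : ℝ) < ((2 * (3 * L) + 1) ^ (2 * d) : ℕ) := by positivity
  obtain ⟨M, hM, hM'⟩ := tail_small_ProbE ν
    (ε := 1 / (2 * (L : ℝ) ^ eB1 d) / ((2 * (3 * L) + 1) ^ (2 * d) : ℕ)) (by positivity)
  refine ⟨⟨δ, M, L, hδ, hδ1, hM, hL⟩, hpos, ?_⟩
  have h1 : LocEv ν (fun ω (x : V d) => light δ L (wt ω) x) L (1 / (2 * (L : ℝ) ^ eB1 d)) :=
    locEv_of_pattern_ProbE (φ := fun s => (s : ℝ) ≤ δ)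
      (measurableSet_setOfPred.1 (measurableSet_le measurable_coe_nnreal_real measurable_const))
      (light_pattern_ProbE δ L) hl
  have h2 : LocEv ν (fun ω (x : V d) => heavy M (3 * L) (wt ω) x) (3 * L)
      (1 / (2 * (L : ℝ) ^ eB1 d)) :=
    locEv_of_pattern_ProbE (φ := fun s => M < (s : ℝ)) (measurableSet_setOfPred.1 (meas_gt_ProbE M))
      (heavy_pattern_ProbE M (3 * L)) fun x => (heavy_prob_ProbE ν M (3 * L) x).trans
        (by rwa [← le_div_iff₀' hN])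
  have h3 := (h1.mono (r' := 8 * L) (by omega) le_rfl).or (h2.mono (r' := 8 * L) (by omega) le_rfl)
  exact h3.mono le_rfl (le_of_eq (by field_simp; norm_num))

theorem clean_loc {ν : Measure ℝ≥0} [IsProbabilityMeasure ν] (P : Par d)
    (hP : LocEv ν (fun ω x => base1 P (wt ω) x) (8 * P.L0) (1 / (P.L0 : ℝ) ^ eB1 d)) {m : ℕ}
    (hm : P.L0 ≤ sN m) :
    LocEv ν (fun ω x => ¬ CleanS P (wt ω) m x) (sR d m + 8 * sN m)
      (1 / (sN m : ℝ) ^ (3 * eK d * eB2 d + 4 * d * d + eG d)) := by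
  have hL := P.hL
  have hβ : 16 * d ≤ eB1 d := by
    have : 16 * d ≤ (eK d + eA d + 2) * d :=
      Nat.mul_le_mul_right d (by unfold eK eT eA; nlinarith)
    unfold eB1 eG
    omega
  have h1 := (LocEv.hier (Q := fun ω x => base1 P (wt ω) x) (by omega) hβ hP
    (lev P.L0 m)).exists_box (sR d m)
  have e : (fun (ω : E d → ℝ≥0) (x : V d) => ¬ CleanS P (wt ω) m x) = fun ω x =>
      ∃ y, nd x y ≤ sR d m ∧ D P.L0 (fun x => base1 P (wt ω) x) (lev P.L0 m) y := by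
    funext ω x
    simp only [CleanS, Clean, D1, not_forall, not_not, exists_prop]
  rw [e]
  have h2 : LL P.L0 (lev P.L0 m) ≤ sN m := LL_lev_le hm
  have h3 : sN m < LL P.L0 (lev P.L0 m) ^ 3 := lt_LL_lev_pow (by omega) m
  refine h1.mono (by omega) ?_
  have hn : 3 ≤ sN m := by omega
  have h4 : (2 * sR d m + 1) ^ d ≤ sN m ^ eG d := by
    have h5 : 1 ≤ sR d m := Nat.one_le_pow _ _ (by omega)
    have h6 : 2 * sR d m + 1 ≤ sN m ^ (eK d + eA d + 2) := by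
      rw [pow_succ]
      change _ ≤ sR d m * sN m
      nlinarith
    calc (2 * sR d m + 1) ^ d ≤ (sN m ^ (eK d + eA d + 2)) ^ d := Nat.pow_le_pow_left h6 d
      _ = sN m ^ ((eK d + eA d + 2) * d) := (pow_mul _ _ _).symm
      _ ≤ sN m ^ eG d := Nat.pow_le_pow_right (by omega) (by unfold eG; omega)
  have h7 : (2 * sR d m + 1) ^ d * sN m ^ (3 * eK d * eB2 d + 4 * d * d + eG d) ≤
      LL P.L0 (lev P.L0 m) ^ eB1 d := by
    calc (2 * sR d m + 1) ^ d * sN m ^ (3 * eK d * eB2 d + 4 * d * d + eG d)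
        ≤ sN m ^ eG d * sN m ^ (3 * eK d * eB2 d + 4 * d * d + eG d) := Nat.mul_le_mul_right _ h4
      _ = sN m ^ (3 * eK d * eB2 d + 4 * d * d + 2 * eG d) := by rw [← pow_add]; congr 1; ring
      _ ≤ (LL P.L0 (lev P.L0 m) ^ 3) ^ (3 * eK d * eB2 d + 4 * d * d + 2 * eG d) :=
        Nat.pow_le_pow_left h3.le _
      _ = LL P.L0 (lev P.L0 m) ^ eB1 d := (pow_mul _ _ _).symm
  have h8 : (0 : ℝ) < sN m := by exact_mod_cast (show 0 < sN m by omega)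
  have h9 : (0 : ℝ) < LL P.L0 (lev P.L0 m) := by
    have := le_LL (L0 := P.L0) (lev P.L0 m)
    exact_mod_cast (show 0 < LL P.L0 (lev P.L0 m) by omega)
  rw [mul_one_div, div_le_div_iff₀ (by positivity) (by positivity), one_mul]
  exact_mod_cast h7

end Pool.Agent.MP_489c42_pr.H12
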