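import Pool.Agent.MP_489c42_pr.H12.ProbE

namespace Pool.Agent.MP_489c42_pr.H12

open MeasureTheory ProbabilityTheory Filter
open scoped NNReal

variable {d : ℕ}

/-- The event that all edges of `G` have weight more than `θ`. -/
def allBig_ProbEv (G : Finset (E d)) (θ : ℝ) : Set (E d → ℝ≥0) := {ω | ∀ e ∈ G, θ < (ω e : ℝ)}

theorem measurableSet_gt_ProbEv (θ : ℝ) : MeasurableSet {s : ℝ≥0 | θ < (s : ℝ)} :=
  measurableSet_lt measurable_const measurable_coe_nnreal_real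

theorem allBig_eq_ProbEv (G : Finset (E d)) (θ : ℝ) :
    allBig_ProbEv G θ = ⋂ e ∈ G, {ω : E d → ℝ≥0 | ω e ∈ {s : ℝ≥0 | θ < (s : ℝ)}} := by
  ext ω
  simp [allBig_ProbEv]

theorem measurableSet_allBig_ProbEv (G : Finset (E d)) (θ : ℝ) :
    MeasurableSet (allBig_ProbEv G θ) := by
  rw [allBig_eq_ProbEv]
  exact Finset.measurableSet_biInter G fun e _ =>
    (measurable_pi_apply e) (measurableSet_gt_ProbEv θ)

theorem dep_allBig_ProbEv (G : Finset (E d)) (θ : ℝ) :
    Dep (allBig_ProbEv G θ) (G : Set (E d)) := by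
  intro η ζ h hη e he
  rw [← h e he]
  exact hη e he

theorem prob_allBig_ProbEv (ν : Measure ℝ≥0) [IsProbabilityMeasure ν] (G : Finset (E d))
    (θ : ℝ) : (PP d ν).real (allBig_ProbEv G θ) = ν.real {s | θ < (s : ℝ)} ^ G.card := by
  rw [allBig_eq_ProbEv, PP, prob_biInter (fun _ : E d => ν) G
    (fun e => {ω : E d → ℝ≥0 | ω e ∈ {s : ℝ≥0 | θ < (s : ℝ)}}) (fun e => {e})]
  · rw [Finset.prod_congr rfl fun e _ =>
      prob_coord (fun _ : E d => ν) e (measurableSet_gt_ProbEv θ), Finset.prod_const]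
  · exact fun e _ => (measurable_pi_apply e) (measurableSet_gt_ProbEv θ)
  · intro e _ η ζ h hη
    have := h e rfl
    simp only [Set.mem_ofPred_eq] at hη ⊢
    rwa [← this]
  · intro e _ e' _ h
    simpa using h

/-- The bound for one set of edges. -/
theorem one_set_ProbEv {ν : Measure ℝ≥0} [IsProbabilityMeasure ν] {A : Set (E d → ℝ≥0)}
    (hA : MeasurableSet A) {M θ : ℝ} (hθ : M ≤ θ)
    (hinv : ∀ ω ω' : E d → ℝ≥0, (∀ e, ω e = ω' e ∨ (M < (ω e : ℝ) ∧ M < (ω' e : ℝ))) →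
      ω ∈ A → ω' ∈ A) (G : Finset (E d)) :
    (PP d ν).real (A ∩ allBig_ProbEv G θ) ≤
      (ν.real {s | M < (s : ℝ)})⁻¹ ^ G.card *
        ((PP d ν).real A * ν.real {s | θ < (s : ℝ)} ^ G.card) := by
  classical
  have hmono : ν.real {s | θ < (s : ℝ)} ≤ ν.real {s | M < (s : ℝ)} :=
    measureReal_mono fun s hs => lt_of_le_of_lt hθ hs
  rcases (measureReal_nonneg : 0 ≤ ν.real {s | M < (s : ℝ)}).eq_or_lt with hq | hq
  · rcases Nat.eq_zero_or_pos G.card with hG | hG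
    · rw [hG]
      simpa using measureReal_mono Set.inter_subset_left
    · have h0 : ν.real {s | θ < (s : ℝ)} = 0 :=
        le_antisymm (hq ▸ hmono) measureReal_nonneg
      have h1 : (PP d ν).real (A ∩ allBig_ProbEv G θ) ≤ (PP d ν).real (allBig_ProbEv G θ) :=
        measureReal_mono Set.inter_subset_right
      rw [prob_allBig_ProbEv, h0, zero_pow hG.ne'] at h1
      rw [h0, zero_pow hG.ne']
      simpa using h1
  · obtain ⟨s0, hs0⟩ : {s : ℝ≥0 | M < (s : ℝ)}.Nonempty := by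
      by_contra hne
      rw [Set.not_nonempty_iff_eq_empty] at hne
      rw [hne] at hq
      simp at hq
    set π : (E d → ℝ≥0) → (E d → ℝ≥0) := fun ω e => if e ∈ G then s0 else ω e with hπ
    have hπm : Measurable π := by
      refine measurable_pi_lambda _ fun e => ?_
      by_cases he : e ∈ G
      · simp only [hπ, he, if_true]; exact measurable_const
      · simp only [hπ, he, if_false]; exact measurable_pi_apply e
    have hB : MeasurableSet (π ⁻¹' A) := hπm hA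
    have dB : Dep (π ⁻¹' A) (G : Set (E d))ᶜ := by
      intro η ζ h hη
      have : π ζ = π η := by
        funext e
        by_cases he : e ∈ G
        · simp [hπ, he]
        · simp only [hπ, he, if_false]
          exact (h e (by simpa using he)).symm
      simp only [Set.mem_preimage] at hη ⊢
      rwa [this]
    have key : ∀ t, M ≤ t → A ∩ allBig_ProbEv G t = π ⁻¹' A ∩ allBig_ProbEv G t := by
      intro t ht
      ext ω
      constructor
      · rintro ⟨h1, h2⟩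
        refine ⟨hinv ω _ (fun e => ?_) h1, h2⟩
        by_cases he : e ∈ G
        · right
          simp only [hπ, he, if_true]
          exact ⟨lt_of_le_of_lt ht (h2 e he), hs0⟩
        · left; simp [hπ, he]
      · rintro ⟨h1, h2⟩
        refine ⟨hinv (π ω) _ (fun e => ?_) h1, h2⟩
        by_cases he : e ∈ G
        · right
          simp only [hπ, he, if_true]
          exact ⟨hs0, lt_of_le_of_lt ht (h2 e he)⟩
        · left; simp [hπ, he]
    have hind : ∀ t, (PP d ν).real (π ⁻¹' A ∩ allBig_ProbEv G t) =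
        (PP d ν).real (π ⁻¹' A) * ν.real {s | t < (s : ℝ)} ^ G.card := by
      intro t
      rw [← prob_allBig_ProbEv]
      exact indep_of_dep (fun _ : E d => ν) hB (measurableSet_allBig_ProbEv G t) dB
        (dep_allBig_ProbEv G t) disjoint_compl_left
    have h1 : (PP d ν).real (π ⁻¹' A) * ν.real {s | M < (s : ℝ)} ^ G.card ≤
        (PP d ν).real A := by
      rw [← hind, ← key M le_rfl]
      exact measureReal_mono Set.inter_subset_left
    have hqp : 0 < ν.real {s | M < (s : ℝ)} ^ G.card := pow_pos hq _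
    have h2 : (PP d ν).real (π ⁻¹' A) ≤
        (ν.real {s | M < (s : ℝ)})⁻¹ ^ G.card * (PP d ν).real A := by
      rw [inv_pow, inv_mul_eq_div, le_div_iff₀ hqp]
      exact h1
    rw [key θ hθ, hind, ← mul_assoc]
    exact mul_le_mul_of_nonneg_right h2 (pow_nonneg measureReal_nonneg _)

theorem bigEdges_iff_ProbEv (θ : ℝ) (r : ℕ) (x : V d) (ω : E d → ℝ≥0) :
    BigEdges θ r (wt ω) x ↔
      ∃ G ∈ (edgesIn_finite x r).toFinset.powersetCard (2 * d), ω ∈ allBig_ProbEv G θ := by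
  classical
  constructor
  · rintro ⟨F, hF, h⟩
    have hsub : ∀ e ∈ F, e ∈ (lattice d).edgeSet := by
      intro e he
      obtain ⟨y, z, rfl, hyz, -⟩ := h e he
      exact hyz
    refine ⟨F.subtype (· ∈ (lattice d).edgeSet), ?_, ?_⟩
    · rw [Finset.mem_powersetCard]
      constructor
      · rintro ⟨e, he⟩ hm
        rw [Finset.mem_subtype] at hm
        obtain ⟨y, z, rfl, hyz, hy, hz, -⟩ := h e hm
        rw [Set.Finite.mem_toFinset]
        exact (mem_edgesIn hyz).2 ⟨hy, hz⟩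
      · rw [Finset.card_subtype, Finset.filter_true_of_mem hsub, hF]
    · rintro ⟨e, he⟩ hm
      rw [Finset.mem_subtype] at hm
      obtain ⟨y, z, rfl, hyz, -, -, hw⟩ := h e hm
      rwa [wt_adj ω hyz] at hw
  · rintro ⟨G, hG, h⟩
    rw [Finset.mem_powersetCard] at hG
    refine ⟨G.map (Function.Embedding.subtype _), by rw [Finset.card_map, hG.2], ?_⟩
    intro e he
    obtain ⟨⟨e', he'⟩, hm, rfl⟩ := Finset.mem_map.1 he
    induction e' using Sym2.ind with
    | _ y z =>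
      have hyz : (lattice d).Adj y z := he'
      have h1 := hG.1 hm
      rw [Set.Finite.mem_toFinset] at h1
      obtain ⟨hy, hz⟩ := (mem_edgesIn hyz).1 h1
      refine ⟨y, z, rfl, hyz, hy, hz, ?_⟩
      rw [wt_adj ω hyz]
      exact h _ hm

theorem bigEdges_eq_ProbEv (θ : ℝ) (r : ℕ) (x : V d) :
    {ω : E d → ℝ≥0 | BigEdges θ r (wt ω) x} =
      ⋃ G ∈ (edgesIn_finite x r).toFinset.powersetCard (2 * d), allBig_ProbEv G θ := by
  ext ω
  simp only [Set.mem_ofPred_eq, bigEdges_iff_ProbEv, Set.mem_iUnion, exists_prop]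

theorem measurableSet_bigEdges_ProbEv (θ : ℝ) (r : ℕ) (x : V d) :
    MeasurableSet {ω : E d → ℝ≥0 | BigEdges θ r (wt ω) x} := by
  rw [bigEdges_eq_ProbEv]
  exact Finset.measurableSet_biUnion _ fun G _ => measurableSet_allBig_ProbEv G θ

theorem dep_bigEdges_ProbEv (θ : ℝ) (r : ℕ) (x : V d) :
    Dep {ω : E d → ℝ≥0 | BigEdges θ r (wt ω) x} (edgesIn x r) := by
  rintro η ζ h ⟨F, hF, hb⟩
  refine ⟨F, hF, fun e he => ?_⟩
  obtain ⟨y, z, rfl, hyz, hy, hz, hw⟩ := hb e he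
  exact ⟨y, z, rfl, hyz, hy, hz, by rwa [← wt_congr h hy hz]⟩

/-- Forcing `2d` big edges costs a factor `tau`, at the price of a constant. -/
theorem big_prob {ν : Measure ℝ≥0} [IsProbabilityMeasure ν] {A : Set (E d → ℝ≥0)}
    (hA : MeasurableSet A) {M θ : ℝ} (hθ : M ≤ θ)
    (hinv : ∀ ω ω' : E d → ℝ≥0, (∀ e, ω e = ω' e ∨ (M < (ω e : ℝ) ∧ M < (ω' e : ℝ))) →
      ω ∈ A → ω' ∈ A) (x : V d) (r : ℕ) :
    (PP d ν).real (A ∩ {ω | BigEdges θ r (wt ω) x}) ≤
      (2 * r + 1 : ℝ) ^ (4 * d * d) * ((ν.real {s | M < (s : ℝ)})⁻¹ ^ (2 * d) *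
        ((PP d ν).real A * tau d ν θ)) := by
  set c : ℝ := (ν.real {s | M < (s : ℝ)})⁻¹ ^ (2 * d) * ((PP d ν).real A * tau d ν θ) with hc
  have hc0 : 0 ≤ c := by
    rw [hc, tau]
    have : 0 ≤ ν.real {s | M < (s : ℝ)} := measureReal_nonneg
    have : 0 ≤ ν.real {s | θ < (s : ℝ)} := measureReal_nonneg
    have : 0 ≤ (PP d ν).real A := measureReal_nonneg
    positivity
  rw [bigEdges_eq_ProbEv, Set.inter_iUnion₂]
  refine (measureReal_biUnion_finset_le _ _).trans ?_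
  refine (Finset.sum_le_card_nsmul _ _ c fun G hG => ?_).trans ?_
  · have h1 := one_set_ProbEv (ν := ν) hA hθ hinv G
    rw [(Finset.mem_powersetCard.1 hG).2] at h1
    exact h1
  · rw [nsmul_eq_mul]
    refine mul_le_mul_of_nonneg_right ?_ hc0
    rw [Finset.card_powersetCard]
    have h1 : (edgesIn_finite x r).toFinset.card ≤ (2 * r + 1) ^ (2 * d) := by
      rw [← Set.ncard_eq_toFinset_card _ (edgesIn_finite x r)]
      exact edgesIn_ncard_le x r
    have h2 : (edgesIn_finite x r).toFinset.card.choose (2 * d) ≤ (2 * r + 1) ^ (4 * d * d) := by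
      refine (Nat.choose_le_pow _ _).trans ?_
      refine (Nat.pow_le_pow_left h1 _).trans (le_of_eq ?_)
      rw [← pow_mul]
      congr 1
      ring
    exact_mod_cast h2

theorem base1_inv_ProbEv (P : Par d) {ω ω' : E d → ℝ≥0}
    (h : ∀ e, ω e = ω' e ∨ (P.M < (ω e : ℝ) ∧ P.M < (ω' e : ℝ))) {y : V d}
    (hy : base1 P (wt ω) y) : base1 P (wt ω') y := by
  rcases hy with ⟨γ, n, hw, h0, hL, hin, hl⟩ | ⟨p, q, hpq, hp, hq, hM⟩
  · refine Or.inl ⟨γ, n, hw, h0, hL, hin, fun k hk => ?_⟩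
    have hadj := hw k (Nat.zero_le _) hk
    have h1 := hl k hk
    rw [wt_adj _ hadj] at h1 ⊢
    rcases h ⟨s(γ k, γ (k + 1)), hadj⟩ with h2 | h2
    · rwa [← h2]
    · have := P.hδ1
      have := P.hM
      linarith [h2.1]
  · refine Or.inr ⟨p, q, hpq, hp, hq, ?_⟩
    rw [wt_adj _ hpq] at hM ⊢
    rcases h ⟨s(p, q), hpq⟩ with h2 | h2
    · rwa [← h2]
    · exact h2.2

theorem notClean_inv_ProbEv (P : Par d) (m : ℕ) (x : V d) {ω ω' : E d → ℝ≥0}
    (h : ∀ e, ω e = ω' e ∨ (P.M < (ω e : ℝ) ∧ P.M < (ω' e : ℝ)))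
    (hy : ¬ CleanS P (wt ω) m x) : ¬ CleanS P (wt ω') m x := by
  intro hc
  refine hy fun y hxy hD => hc y hxy ?_
  have hL : 3 ≤ P.L0 := by have := P.hL; omega
  exact D_imp hL _ (fun z _ hz => base1_inv_ProbEv P h hz) hD

theorem eK_ge_ProbEv (d : ℕ) : 7 ≤ eK d := by unfold eK; omega

theorem sN_succ_ProbEv (k : ℕ) : sN (k + 1) = 2 * sN k := by
  unfold sN; ring

theorem sN_le_sR_ProbEv (d m : ℕ) : sN m ≤ sR d m := by
  unfold sR
  exact Nat.le_self_pow (by omega) _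

theorem sR_step_ProbEv (d k : ℕ) : sR d k + 8 * sN k ≤ sR d (k + 1) := by
  have h1 := sN_le_sR_ProbEv d k
  have h2 : sR d (k + 1) = 2 ^ (eK d + eA d + 1) * sR d k := by
    unfold sR
    rw [sN_succ_ProbEv, mul_pow]
  have h3 : 2 ^ 4 ≤ 2 ^ (eK d + eA d + 1) :=
    Nat.pow_le_pow_right (by norm_num) (by have := eK_ge_ProbEv d; omega)
  rw [h2]
  nlinarith

theorem le_sTh_ProbEv (d : ℕ) {M : ℝ} {k m' : ℕ} (hM : M ≤ sN k) (h8 : (8 : ℝ) ≤ sN k)
    (hm : m' ≤ k + 1) : M ≤ sTh d (k + 1) m' := by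
  have hn' : (sN m' : ℝ) ≤ 2 * sN k := by
    have : sN m' ≤ sN (k + 1) := Nat.pow_le_pow_right (by norm_num) hm
    rw [sN_succ_ProbEv] at this
    exact_mod_cast this
  have hpos : (0 : ℝ) < sN m' := lt_of_lt_of_le one_pos (one_le_sN m')
  have h1 : (1 : ℝ) ≤ sN k := one_le_sN k
  have h3 : (sN k : ℝ) ^ 3 ≤ (sN k : ℝ) ^ (3 * eK d) :=
    pow_le_pow_right₀ h1 (by have := eK_ge_ProbEv d; omega)
  unfold sTh sW
  rw [Nat.add_sub_cancel, le_div_iff₀ (by positivity)]
  push_cast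
  refine le_trans ?_ h3
  calc M * (4 * (sN m' : ℝ)) ≤ sN k * (4 * (sN m' : ℝ)) :=
        mul_le_mul_of_nonneg_right hM (by positivity)
    _ ≤ sN k * (4 * (2 * sN k)) := by gcongr
    _ = 8 * (sN k * sN k) := by ring
    _ ≤ sN k * (sN k * sN k) := by gcongr
    _ = (sN k : ℝ) ^ 3 := by ring

theorem ev_loc {ν : Measure ℝ≥0} [IsProbabilityMeasure ν] (P : Par d)
    (hP : LocEv ν (fun ω x => base1 P (wt ω) x) (8 * P.L0) (1 / (P.L0 : ℝ) ^ eB1 d)) :
    ∃ m00 : ℕ, ∀ m0, m00 ≤ m0 → ∃ Cp : ℝ, 0 ≤ Cp ∧ ∀ m m', m0 ≤ m' → m' ≤ m →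
      LocEv ν (fun ω x => Ev P m0 m m' (wt ω) x) (sR d m') (pE d Cp (tau d ν) m m') := by
  obtain ⟨m1, hm1⟩ := exists_le_sN (P.M + 8 + P.L0)
  refine ⟨m1 + 1, fun m0 hm0 => ?_⟩
  set q : ℝ := (ν.real {s | P.M < (s : ℝ)})⁻¹ ^ (2 * d) with hq
  have hq0 : 0 ≤ q := by
    have : 0 ≤ ν.real {s | P.M < (s : ℝ)} := measureReal_nonneg
    positivity
  set C1 : ℝ := 6 ^ (4 * d * d) * 2 ^ eG d with hC1
  set C2 : ℝ := (2 * sN m0 + 1 : ℝ) ^ (4 * d * d) * (sN m0 : ℝ) ^ eG d with hC2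
  have hC10 : 0 ≤ C1 := by positivity
  have hC20 : 0 ≤ C2 := by positivity
  refine ⟨q * (C1 + C2), by positivity, fun m m' h0 hm => ?_⟩
  have hM1 := P.hM
  have hL0 : (0 : ℝ) ≤ P.L0 := Nat.cast_nonneg _
  obtain ⟨k, rfl⟩ : ∃ k, m = k + 1 := ⟨m - 1, by omega⟩
  have hθ : P.M ≤ sTh d (k + 1) m' := by
    have := hm1 k (by omega)
    exact le_sTh_ProbEv d (by linarith) (by linarith) hm
  have hτ : 0 ≤ tau d ν (sTh d (k + 1) m') := pow_nonneg measureReal_nonneg _
  have hn' : (0 : ℝ) < sN m' := lt_of_lt_of_le one_pos (one_le_sN m')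
  have hdepB : ∀ x : V d, Dep {ω : E d → ℝ≥0 | BigEdges (sTh d (k + 1) m') (sN m') (wt ω) x}
      (edgesIn x (sR d m')) := fun x =>
    (dep_bigEdges_ProbEv _ _ x).mono (edgesIn_mono (by simpa using sN_le_sR_ProbEv d m'))
  rcases h0.eq_or_lt with rfl | hlt
  · have hset : ∀ x : V d, {ω : E d → ℝ≥0 | Ev P m0 (k + 1) m0 (wt ω) x} =
        {ω | BigEdges (sTh d (k + 1) m0) (sN m0) (wt ω) x} := by
      intro x
      ext ω
      simp [Ev]
    refine ⟨fun x => ?_, fun x => ?_, fun x => ?_⟩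
    · rw [hset]; exact measurableSet_bigEdges_ProbEv _ _ x
    · rw [hset]; exact hdepB x
    · rw [hset]
      have h1 := big_prob (ν := ν) (A := Set.univ) MeasurableSet.univ hθ
        (fun _ _ _ _ => Set.mem_univ _) x (sN m0)
      rw [Set.univ_inter, probReal_univ, one_mul, ← hq] at h1
      refine h1.trans ?_
      unfold pE
      rw [le_div_iff₀ (by positivity)]
      calc (2 * (sN m0 : ℝ) + 1) ^ (4 * d * d) * (q * tau d ν (sTh d (k + 1) m0)) *
            (sN m0 : ℝ) ^ eG d = q * C2 * tau d ν (sTh d (k + 1) m0) := by rw [hC2]; ring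
        _ ≤ q * (C1 + C2) * tau d ν (sTh d (k + 1) m0) := by gcongr; linarith
  · obtain ⟨j, rfl⟩ : ∃ j, m' = j + 1 := ⟨m' - 1, by omega⟩
    have hLj : P.L0 ≤ sN j := by
      have := hm1 j (by omega)
      have h2 : (P.L0 : ℝ) ≤ sN j := by linarith
      exact_mod_cast h2
    have hcl := clean_loc P hP hLj
    have hset : ∀ x : V d, {ω : E d → ℝ≥0 | Ev P m0 (k + 1) (j + 1) (wt ω) x} =
        {ω | ¬ CleanS P (wt ω) j x} ∩
          {ω | BigEdges (sTh d (k + 1) (j + 1)) (sN (j + 1)) (wt ω) x} := by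
      intro x
      ext ω
      have : ¬ j + 1 ≤ m0 := by omega
      simp [Ev, this]
    refine ⟨fun x => ?_, fun x => ?_, fun x => ?_⟩
    · rw [hset]; exact (hcl.meas x).inter (measurableSet_bigEdges_ProbEv _ _ x)
    · rw [hset]
      have hd1 : Dep {ω : E d → ℝ≥0 | ¬ CleanS P (wt ω) j x} (edgesIn x (sR d (j + 1))) :=
        (hcl.dep x).mono (edgesIn_mono (by simpa using sR_step_ProbEv d j))
      exact fun η ζ h hη => ⟨hd1 η ζ h hη.1, hdepB x η ζ h hη.2⟩
    · rw [hset]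
      have h1 := big_prob (ν := ν) (hcl.meas x) hθ
        (fun _ _ h hω => notClean_inv_ProbEv P j x h hω) x (sN (j + 1))
      rw [← hq] at h1
      refine h1.trans ?_
      have h2 := hcl.prob x
      have hn : (1 : ℝ) ≤ sN j := one_le_sN j
      have hs : (sN (j + 1) : ℝ) = 2 * sN j := by rw [sN_succ_ProbEv]; push_cast; ring
      have h3 : (PP d ν).real {ω : E d → ℝ≥0 | ¬ CleanS P (wt ω) j x} ≤
          1 / ((sN j : ℝ) ^ (4 * d * d) * (sN j : ℝ) ^ eG d) := by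
        refine h2.trans (one_div_le_one_div_of_le (by positivity) ?_)
        rw [← pow_add]
        exact pow_le_pow_right₀ hn (by omega)
      have h4 : (2 * (sN (j + 1) : ℝ) + 1) ^ (4 * d * d) ≤ (6 * (sN j : ℝ)) ^ (4 * d * d) := by
        refine pow_le_pow_left₀ (by positivity) ?_ _
        rw [hs]; linarith
      unfold pE
      rw [le_div_iff₀ (by positivity)]
      calc (2 * (sN (j + 1) : ℝ) + 1) ^ (4 * d * d) *
            (q * ((PP d ν).real {ω : E d → ℝ≥0 | ¬ CleanS P (wt ω) j x} *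
              tau d ν (sTh d (k + 1) (j + 1)))) * (sN (j + 1) : ℝ) ^ eG d
          ≤ (6 * (sN j : ℝ)) ^ (4 * d * d) *
            (q * (1 / ((sN j : ℝ) ^ (4 * d * d) * (sN j : ℝ) ^ eG d) *
              tau d ν (sTh d (k + 1) (j + 1)))) * (sN (j + 1) : ℝ) ^ eG d := by gcongr
        _ = q * C1 * tau d ν (sTh d (k + 1) (j + 1)) := by
            rw [hs, hC1, mul_pow, mul_pow]
            field_simp
        _ ≤ q * (C1 + C2) * tau d ν (sTh d (k + 1) (j + 1)) := by gcongr; linarith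

end Pool.Agent.MP_489c42_pr.H12
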