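import Pool.Agent.MP_489c42_pr.H12.Perc1
import Pool.Agent.MP_489c42_pr.H12.Perc2

namespace Pool.Agent.MP_489c42_pr.H12

open MeasureTheory ProbabilityTheory Filter
open scoped NNReal

variable {d : ℕ}

theorem pc_le_one (d : ℕ) : pc d ≤ 1 := by
  refine Real.sSup_le ?_ zero_le_one
  rintro q ⟨p, rfl, -⟩
  exact p.2.2

theorem exists_phi_lt {p : unitInterval} (hp : (p : ℝ) < pc d) :
    ∃ S : Finset (V d), (0 : V d) ∈ S ∧ phi p S < 1 := by
  by_contra hc
  push Not at hc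
  have hne : {q : ℝ | ∃ p : unitInterval, q = p ∧ theta d p = 0}.Nonempty := by
    by_contra h0
    rw [Set.not_nonempty_iff_eq_empty] at h0
    rw [pc, h0, Real.sSup_empty] at hp
    exact absurd p.2.1 (not_le.2 hp)
  obtain ⟨q, ⟨p', rfl, h0⟩, hq⟩ := exists_lt_of_lt_csSup hne hp
  exact (theta_pos (p₂ := p') hq hc).ne' h0

theorem arm_small {p : unitInterval} (hp : (p : ℝ) < pc d) (β L1 : ℕ) :
    ∃ L, L1 ≤ L ∧ ∀ x : V d, (perc d p).real (arm x L) ≤ 1 / (2 * (L : ℝ) ^ β) := by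
  obtain ⟨S, h0, h1⟩ := exists_phi_lt hp
  set l : ℕ := S.sup (fun x => nd 0 x) + 1 with hl
  have hlS : ∀ x ∈ S, nd 0 x < l := fun x hx =>
    Nat.lt_succ_of_le (Finset.le_sup (f := fun x => nd 0 x) hx)
  have hl1 : 1 ≤ l := Nat.le_add_left 1 _
  have hlr : (0 : ℝ) < l := by exact_mod_cast hl1
  have ht := tendsto_pow_const_mul_const_pow_of_lt_one β (phi_nonneg p S) h1
  have he : (0 : ℝ) < 1 / (2 * (l : ℝ) ^ β) := by positivity
  obtain ⟨k, hk, hk1⟩ := ((ht.eventually (gt_mem_nhds he)).and (eventually_ge_atTop (L1 + 1))).exists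
  have hkr : (0 : ℝ) < k := by exact_mod_cast (by omega : 0 < k)
  refine ⟨k * l, by nlinarith, fun x => (arm_decay p h0 hlS k x).trans ?_⟩
  rw [lt_div_iff₀ (by positivity)] at hk
  rw [Nat.cast_mul, mul_pow, le_div_iff₀ (by positivity)]
  nlinarith

theorem delta_Sharp (ν : Measure ℝ≥0) [IsProbabilityMeasure ν] {c : ℝ} (hν : ν.real {0} < c) :
    ∃ δ : ℝ, 0 < δ ∧ δ ≤ 1 ∧ ν.real {s | (s : ℝ) ≤ δ} < c := by
  set A : ℕ → Set ℝ≥0 := fun k => {s | (s : ℝ) ≤ 1 / ((k : ℝ) + 1)} with hA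
  have hm : ∀ k, MeasurableSet (A k) := fun k =>
    measurableSet_le (by fun_prop) measurable_const
  have ha : Antitone A := fun i j hij s hs =>
    le_trans (α := ℝ) hs (Nat.one_div_le_one_div hij)
  have hi : ⋂ k, A k = {0} := by
    ext s
    simp only [Set.mem_iInter, Set.mem_singleton_iff, hA, Set.mem_ofPred_eq]
    constructor
    · intro h
      have : (s : ℝ) ≤ 0 :=
        ge_of_tendsto' tendsto_one_div_add_atTop_nhds_zero_nat h
      exact NNReal.coe_eq_zero.1 (le_antisymm this s.2)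
    · rintro rfl k
      simp only [NNReal.coe_zero]
      positivity
  have ht := tendsto_measure_iInter_atTop (μ := ν) (fun k => (hm k).nullMeasurableSet) ha
    ⟨0, measure_ne_top _ _⟩
  rw [hi] at ht
  have ht' := (ENNReal.tendsto_toReal (measure_ne_top ν {0})).comp ht
  obtain ⟨k, hk⟩ := (ht'.eventually (gt_mem_nhds hν)).exists
  refine ⟨1 / ((k : ℝ) + 1), by positivity, ?_, hk⟩
  rw [div_le_one (by positivity)]
  linarith [Nat.cast_nonneg (α := ℝ) k]

theorem light_small (ν : Measure ℝ≥0) [IsProbabilityMeasure ν] (hν : ν.real {0} < pc d)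
    (β L1 : ℕ) : ∃ δ : ℝ, 0 < δ ∧ δ ≤ 1 ∧ 0 < ν.real {s | δ < (s : ℝ)} ∧ ∃ L, L1 ≤ L ∧
      ∀ x : V d, (PP d ν).real {ω | light δ L (wt ω) x} ≤ 1 / (2 * (L : ℝ) ^ β) := by
  classical
  obtain ⟨δ, h0, h1, h2⟩ := delta_Sharp ν hν
  have hm : MeasurableSet {s : ℝ≥0 | (s : ℝ) ≤ δ} := measurableSet_le (by fun_prop) measurable_const
  have hc : {s : ℝ≥0 | δ < (s : ℝ)} = {s : ℝ≥0 | (s : ℝ) ≤ δ}ᶜ := by
    ext s; simp
  have hc' : ν.real {s : ℝ≥0 | δ < (s : ℝ)} = 1 - ν.real {s : ℝ≥0 | (s : ℝ) ≤ δ} := by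
    rw [hc, measureReal_compl hm, probReal_univ]
  set p : unitInterval := ⟨ν.real {s : ℝ≥0 | (s : ℝ) ≤ δ}, measureReal_nonneg, measureReal_le_one⟩
    with hp
  obtain ⟨L, hL, hL'⟩ := arm_small (d := d) (p := p) h2 β L1
  refine ⟨δ, h0, h1, by linarith [pc_le_one d], L, hL, fun x => le_trans ?_ (hL' x)⟩
  set f : ℝ≥0 → Bool := fun s => decide ((s : ℝ) ≤ δ) with hf
  have e1 : f ⁻¹' {true} = {s : ℝ≥0 | (s : ℝ) ≤ δ} := by ext s; simp [hf]
  have e2 : f ⁻¹' {false} = {s : ℝ≥0 | δ < (s : ℝ)} := by ext s; simp [hf]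
  have hfm : Measurable f := measurable_to_bool (e1 ▸ hm)
  have hmap : ν.map f = bernoulliMeasure true false p := by
    have := Measure.isProbabilityMeasure_map (μ := ν) hfm.aemeasurable
    refine ext_iff_measureReal_singleton.2 fun b => ?_
    rw [map_measureReal_apply hfm (measurableSet_singleton b)]
    cases b
    · rw [e2, hc', bernoulliMeasure_real_apply_of_notMem_of_mem p (measurableSet_singleton _)
        (by simp) (by simp)]
    · rw [e1, bernoulliMeasure_real_apply_of_mem_of_notMem p (measurableSet_singleton _)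
        (by simp) (by simp)]
  have hP : (PP d ν).map (fun ω e => f (ω e)) = perc d p := by
    rw [PP, Measure.infinitePi_map_pi _ (fun _ => hfm), perc]
    simp only [hmap]
  rw [← hP, map_measureReal_apply (by fun_prop)
    ((dep_arm x L).measurableSet_bool (edgesIn_finite _ _))]
  refine measureReal_mono ?_
  rintro ω ⟨γ, n, hw, hx, hn, -, hδ⟩
  refine ⟨γ n, hn, ?_⟩
  have : ∀ k ≤ n, Conn (fun e => f (ω e)) Set.univ x (γ k) := by
    intro k hk
    induction k with
    | zero => rw [hx]; exact Relation.ReflTransGen.refl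
    | succ k ih =>
      have ha := hw k (Nat.zero_le _) hk
      refine (ih (by omega)).tail ⟨trivial, trivial, ha, ?_⟩
      have := hδ k hk
      rw [wt_adj ω ha] at this
      simpa [hf] using this
  exact this n le_rfl

end Pool.Agent.MP_489c42_pr.H12
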