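import Pool.Agent.MP_489c42_pr.H12.Kneser

namespace Pool.Agent.MP_489c42_pr.H12

open MeasureTheory ProbabilityTheory Filter
open scoped NNReal

variable {d : ℕ}

open Classical in
theorem step {U : Finset (V d)} {f : V d → ℝ} {Smax A : ℝ} {N : (Fin d → ℝ) → ℝ} {a w : ℝ}
    {Good : V d → Prop} {u δ B s : ℝ} {J : ℕ}
    (hU : ∀ x, f x ≤ Smax → x ∈ U) (hlip : ∀ x y, f x ≤ f y + A * nd x y)
    (hN : IsGauge N a w) (ha : 0 < a) (haA : a ≤ A) (hw : 0 < w) (hδ : 0 < δ) (hJ : 1 ≤ J)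
    (hJu : 4 * J * (δ + 4 * w) ≤ u) (h0 : f 0 ≤ s - u) (hS : s + A * u / a ≤ Smax)
    (hto : ∀ x, Good x → ∀ (z : V d) (σ : ℝ), f z ≤ s - u → N (toR (x - z)) ≤ σ → σ ≤ 2 * u →
      f x ≤ s - u + σ + w)
    (hfrom : ∀ x, Good x → ∀ σ : ℝ, 0 ≤ σ → σ ≤ 2 * u → f x ≤ s - u + σ →
      ∃ z : V d, f z ≤ s - u ∧ N (toR (x - z)) ≤ σ + w)
    (hB : (((shell U f (s - u) (s + A * u / a)).filter fun x => ¬ Good x).card : ℝ) ≤ B) :
    ((shell U f s (s + δ)).card : ℝ) ≤ B + Real.exp (4 * d * J * (δ + 4 * w) / u) / J *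
      ((shell U f (s - J * (δ + 4 * w) - 4 * w) s).card + B) := by
  have hJ1 : (1 : ℝ) ≤ J := by exact_mod_cast hJ
  have hh : 0 < δ + 4 * w := by positivity
  have hJh : δ + 4 * w ≤ J * (δ + 4 * w) := le_mul_of_one_le_left hh.le hJ1
  have hu : 0 < u := by nlinarith
  have hJu' : 4 * (J * (δ + 4 * w)) ≤ u := by linarith
  have hAu : u ≤ A * u / a := by
    rw [le_div_iff₀ ha]; nlinarith
  set As := U.filter fun z => f z ≤ s - u with hAs
  have hmem : ∀ z, f z ≤ s - u → z ∈ As := fun z hz =>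
    Finset.mem_filter.2 ⟨hU z (by linarith), hz⟩
  have hne : As.Nonempty := ⟨0, hmem 0 h0⟩
  have hle : ∀ x z, f z ≤ s - u → dA N As hne x ≤ N (toR (x - z)) := fun x z hz =>
    Finset.inf'_le (fun z => N (toR (x - z))) (hmem z hz)
  have hatt : ∀ x, ∃ z, f z ≤ s - u ∧ dA N As hne x = N (toR (x - z)) := by
    intro x
    obtain ⟨z, h1, h2⟩ := Finset.exists_mem_eq_inf' hne fun z => N (toR (x - z))
    exact ⟨z, (Finset.mem_filter.1 h1).2, h2⟩
  set Bad := (shell U f (s - u) (s + A * u / a)).filter fun x => ¬ Good x with hBad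
  have key := kneser hN hw.le As hne (β := u - 2 * w) (h := δ + 4 * w) (J := J) hh (by linarith)
    (by linarith) ((shell U f s (s + δ)).filter Good)
    (shell U f (s - J * (δ + 4 * w) - 4 * w) s ∪ Bad) ?_ ?_
  · have h1 : ((shell U f s (s + δ)).card : ℝ) ≤ B + ((shell U f s (s + δ)).filter Good).card := by
      have e1 := Finset.card_filter_add_card_filter_not (s := shell U f s (s + δ)) Good
      have e2 : ((shell U f s (s + δ)).filter fun x => ¬ Good x) ⊆ Bad := by
        intro x hx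
        obtain ⟨a1, a2⟩ := Finset.mem_filter.1 hx
        obtain ⟨a3, a4, a5⟩ := mem_shell.1 a1
        exact Finset.mem_filter.2 ⟨mem_shell.2 ⟨a3, by linarith, by linarith⟩, a2⟩
      have e3 : (shell U f s (s + δ)).card ≤
          Bad.card + ((shell U f s (s + δ)).filter Good).card := by
        have := Finset.card_le_card e2
        omega
      have e4 : ((shell U f s (s + δ)).card : ℝ) ≤
          Bad.card + ((shell U f s (s + δ)).filter Good).card := by exact_mod_cast e3
      linarith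
    have h2 : ((shell U f (s - J * (δ + 4 * w) - 4 * w) s ∪ Bad).card : ℝ) ≤
        (shell U f (s - J * (δ + 4 * w) - 4 * w) s).card + B := by
      have e4 : ((shell U f (s - J * (δ + 4 * w) - 4 * w) s ∪ Bad).card : ℝ) ≤
          (shell U f (s - J * (δ + 4 * w) - 4 * w) s).card + Bad.card := by
        exact_mod_cast Finset.card_union_le _ _
      linarith
    have h3 : Real.exp (2 * d * J * (δ + 4 * w) / (u - 2 * w)) ≤
        Real.exp (4 * d * J * (δ + 4 * w) / u) := by
      refine Real.exp_le_exp.2 ?_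
      rw [div_le_div_iff₀ (by linarith) hu]
      have e1 : 0 ≤ (d : ℝ) * J * (δ + 4 * w) := by positivity
      have e2 : 0 ≤ (d : ℝ) * J * (δ + 4 * w) * (2 * u - 8 * w) := mul_nonneg e1 (by linarith)
      nlinarith
    refine h1.trans (add_le_add le_rfl ?_)
    rw [div_mul_eq_mul_div, le_div_iff₀ (by linarith), mul_comm]
    exact key.trans (mul_le_mul h3 h2 (by positivity) (by positivity))
  · intro x hx
    obtain ⟨a1, a2⟩ := Finset.mem_filter.1 hx
    obtain ⟨-, a4, a5⟩ := mem_shell.1 a1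
    constructor
    · by_contra hc
      obtain ⟨z, b1, b2⟩ := hatt x
      have := hto x a2 z (u - w) b1 (by linarith [not_lt.1 hc]) (by linarith)
      linarith
    · obtain ⟨z, b1, b2⟩ := hfrom x a2 (u + δ) (by linarith) (by linarith) (by linarith)
      have := hle x z b1
      linarith
  · intro x h1 h2
    obtain ⟨z, b1, b2⟩ := hatt x
    have c1 : a * nd x z ≤ u := by
      have := hN.lower (toR (x - z))
      rw [norm_toR_sub] at this
      linarith
    have c2 : A * nd x z ≤ A * u / a := by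
      rw [mul_div_assoc]
      refine mul_le_mul_of_nonneg_left ?_ (by linarith)
      rw [le_div_iff₀ ha]; linarith
    have c3 : f x ≤ s + A * u / a := by
      have := hlip x z
      linarith
    have c4 : x ∈ U := hU x (by linarith)
    have c5 : s - u < f x := by
      by_contra hc
      have e1 := hle x x (not_lt.1 hc)
      have e2 := hN.upper (toR (x - x))
      rw [norm_toR_sub, nd_self] at e2
      simp only [Nat.cast_zero, mul_zero] at e2
      linarith
    by_cases hg : Good x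
    · refine Finset.mem_union_left _ (mem_shell.2 ⟨c4, ?_, ?_⟩)
      · by_contra hc
        obtain ⟨z', e1, e2⟩ := hfrom x hg (u - J * (δ + 4 * w) - 4 * w) (by linarith)
          (by linarith) (by linarith [not_lt.1 hc])
        have := hle x z' e1
        linarith
      · have := hto x hg z (u - w) b1 (by linarith) (by linarith)
        linarith
    · exact Finset.mem_union_right _ (Finset.mem_filter.2 ⟨mem_shell.2 ⟨c4, c5, c3⟩, hg⟩)

theorem shell_mono {U : Finset (V d)} {f : V d → ℝ} {s₁ s₂ s₁' s₂' : ℝ} (h1 : s₁' ≤ s₁)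
    (h2 : s₂ ≤ s₂') : shell U f s₁ s₂ ⊆ shell U f s₁' s₂' := by
  intro x hx
  obtain ⟨a1, a2, a3⟩ := mem_shell.1 hx
  exact mem_shell.2 ⟨a1, by linarith, by linarith⟩

theorem shell_cover {U : Finset (V d)} {f : V d → ℝ} {K δ s₁ s₂ : ℝ} (hK : 0 ≤ K) (hδ : 0 < δ)
    (h12 : s₁ ≤ s₂)
    (h : ∀ s, s₁ ≤ s → s ≤ s₂ → ((shell U f s (s + δ)).card : ℝ) ≤ K * δ) :
    ((shell U f s₁ s₂).card : ℝ) ≤ K * (s₂ - s₁ + δ) := by
  classical
  have key : ∀ n : ℕ, s₁ + n * δ ≤ s₂ →
      ((shell U f s₁ (s₁ + n * δ + δ)).card : ℝ) ≤ K * (n * δ + δ) := by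
    intro n
    induction n with
    | zero => intro _; simpa using h s₁ le_rfl h12
    | succ n ih =>
      intro hn
      have h0 : 0 ≤ (n : ℝ) * δ := by positivity
      push_cast at hn ⊢
      have h1 := ih (by linarith)
      have h2 := h (s₁ + (n + 1) * δ) (by linarith) hn
      have h3 : shell U f s₁ (s₁ + (n + 1) * δ + δ) ⊆ shell U f s₁ (s₁ + n * δ + δ) ∪
          shell U f (s₁ + (n + 1) * δ) (s₁ + (n + 1) * δ + δ) := by
        intro x hx
        obtain ⟨a1, a2, a3⟩ := mem_shell.1 hx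
        by_cases hc : f x ≤ s₁ + n * δ + δ
        · exact Finset.mem_union_left _ (mem_shell.2 ⟨a1, a2, hc⟩)
        · exact Finset.mem_union_right _ (mem_shell.2 ⟨a1, by linarith [not_le.1 hc], a3⟩)
      have h4 : ((shell U f s₁ (s₁ + (n + 1) * δ + δ)).card : ℝ) ≤
          (shell U f s₁ (s₁ + n * δ + δ)).card +
            (shell U f (s₁ + (n + 1) * δ) (s₁ + (n + 1) * δ + δ)).card := by
        exact_mod_cast (Finset.card_le_card h3).trans (Finset.card_union_le _ _)
      linarith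
  have h1 : (⌊(s₂ - s₁) / δ⌋₊ : ℝ) * δ ≤ s₂ - s₁ := by
    rw [← le_div_iff₀ hδ]
    exact Nat.floor_le (div_nonneg (by linarith) hδ.le)
  have h2 : s₂ - s₁ < ((⌊(s₂ - s₁) / δ⌋₊ : ℝ) + 1) * δ := by
    rw [← div_lt_iff₀ hδ]
    exact Nat.lt_floor_add_one _
  have h3 : ((shell U f s₁ s₂).card : ℝ) ≤
      (shell U f s₁ (s₁ + (⌊(s₂ - s₁) / δ⌋₊ : ℝ) * δ + δ)).card := by
    exact_mod_cast Finset.card_le_card (shell_mono le_rfl (by linarith))
  exact h3.trans ((key _ (by linarith)).trans (mul_le_mul_of_nonneg_left (by linarith) hK))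

theorem nbhd_shell {U : Finset (V d)} {f : V d → ℝ} {Smax A s₁ s₂ : ℝ} (hA : 0 ≤ A)
    (hU : ∀ x, f x ≤ Smax → x ∈ U) (hlip : ∀ x y, f x ≤ f y + A * nd x y) {r : ℕ}
    (hS : s₂ + A * r ≤ Smax) :
    nbhd (shell U f s₁ s₂) r ⊆ shell U f (s₁ - A * r) (s₂ + A * r) := by
  intro y hy
  obtain ⟨x, hx, hr⟩ := mem_nbhd.1 hy
  obtain ⟨-, a2, a3⟩ := mem_shell.1 hx
  have h1 : A * nd x y ≤ A * r := mul_le_mul_of_nonneg_left (by exact_mod_cast hr) hA
  have h2 := hlip x y
  have h3 := hlip y x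
  rw [nd_comm y x] at h3
  exact mem_shell.2 ⟨hU y (by linarith), by linarith, by linarith⟩

end Pool.Agent.MP_489c42_pr.H12
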