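import Mathlib

/-! First-passage percolation on the integer lattice: the objects of the statement. -/

namespace Pool.Agent.MP_489c42_pr.H12

open MeasureTheory ProbabilityTheory
open scoped NNReal

/-- The vertex set `ℤ^d`. -/
abbrev V (d : ℕ) : Type := Fin d → ℤ

/-- The nearest-neighbour graph on `ℤ^d`. -/
def lattice (d : ℕ) : SimpleGraph (V d) where
  Adj x y := ∑ i, |x i - y i| = 1
  symm := ⟨fun x y h => by simpa [abs_sub_comm] using h⟩
  loopless := ⟨fun x h => by simp at h⟩

/-- The nearest-neighbour edges of `ℤ^d`. -/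
abbrev E (d : ℕ) : Type := (lattice d).edgeSet

variable {d : ℕ}

/-- First-passage time: infimum over lattice paths from `x` to `y` of the sum of edge weights. -/
noncomputable def passage (τ : E d → ℝ≥0) (x y : V d) : ℝ :=
  ⨅ p : (lattice d).Walk x y, (p.darts.map fun a => (τ ⟨a.edge, a.edge_mem⟩ : ℝ)).sum

/-- The ball `B(t)`. -/
def fppBall (τ : E d → ℝ≥0) (t : ℝ) : Set (V d) := {x | passage τ 0 x ≤ t}

/-- The edge boundary. -/
def edgeBdry (U : Set (V d)) : Set (Sym2 (V d)) :=
  {e | ∃ x y, (lattice d).Adj x y ∧ x ∈ U ∧ y ∉ U ∧ e = s(x, y)}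

/-- The vertex exterior boundary. -/
def vertExt (U : Set (V d)) : Set (V d) :=
  {x | x ∉ U ∧ (∃ y ∈ U, (lattice d).Adj x y) ∧
    ∃ γ : ℕ → V d, γ 0 = x ∧ Function.Injective γ ∧
      (∀ k, (lattice d).Adj (γ k) (γ (k + 1))) ∧ ∀ k, γ k ∉ U}

/-- The edge exterior boundary. -/
def edgeExt (U : Set (V d)) : Set (Sym2 (V d)) :=
  {e | ∃ x y, (lattice d).Adj x y ∧ y ∈ U ∧ x ∈ vertExt U ∧ e = s(x, y)}

/-- The graph of open edges of a bond configuration. -/
def openGraph (η : E d → Bool) : SimpleGraph (V d) :=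
  SimpleGraph.fromEdgeSet {e | ∃ h : e ∈ (lattice d).edgeSet, η ⟨e, h⟩ = true}

/-- Bernoulli bond percolation with parameter `p`. -/
noncomputable def perc (d : ℕ) (p : unitInterval) : Measure (E d → Bool) :=
  Measure.infinitePi fun _ : E d => bernoulliMeasure true false p

/-- The probability that the open cluster of the origin is infinite. -/
noncomputable def theta (d : ℕ) (p : unitInterval) : ℝ :=
  (perc d p).real {η | {x | (openGraph η).Reachable 0 x}.Infinite}

/-- The critical probability of bond percolation. -/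
noncomputable def pc (d : ℕ) : ℝ :=
  sSup {q : ℝ | ∃ p : unitInterval, q = p ∧ theta d p = 0}

/-- `E[Y ∧ t]`, with `Y` the minimum of `2d` independent variables of law `ν`. -/
noncomputable def EY (d : ℕ) (ν : Measure ℝ≥0) (t : ℝ) : ℝ :=
  ∫ y : Fin (2 * d) → ℝ≥0, min ((⨅ i, y i : ℝ≥0) : ℝ) t ∂(Measure.pi fun _ => ν)

end Pool.Agent.MP_489c42_pr.H12
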