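import Pool.Agent.MP_489c42_pr.H12.Walk

namespace Pool.Agent.MP_489c42_pr.H12

open MeasureTheory ProbabilityTheory Filter
open scoped NNReal

variable {d : ℕ}

theorem costs_nonempty_Time (w : V d → V d → ℝ) (x y : V d) :
    {c | ∃ (γ : ℕ → V d) (n : ℕ), IsWalk γ 0 n ∧ γ 0 = x ∧ γ n = y ∧
      c = cost w γ 0 n}.Nonempty := by
  obtain ⟨γ, h1, h2, h3, -⟩ := exists_mono_walk x y
  exact ⟨_, γ, _, h1, h2, h3, rfl⟩

theorem T_le_walk_Time {w : V d → V d → ℝ} (hw : Wt w) {x y : V d} {γ : ℕ → V d} {n : ℕ}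
    (h : IsWalk γ 0 n) (h0 : γ 0 = x) (hn : γ n = y) : T w x y ≤ cost w γ 0 n := by
  refine csInf_le ⟨0, ?_⟩ ⟨γ, n, h, h0, hn, rfl⟩
  rintro c ⟨γ', n', -, -, -, rfl⟩
  exact cost_nonneg hw γ' 0 n'

theorem le_T {w : V d → V d → ℝ} {x y : V d} {c : ℝ}
    (h : ∀ (γ : ℕ → V d) (n : ℕ), IsWalk γ 0 n → γ 0 = x → γ n = y → c ≤ cost w γ 0 n) :
    c ≤ T w x y := by
  refine le_csInf (costs_nonempty_Time w x y) ?_
  rintro c' ⟨γ, n, h1, h2, h3, rfl⟩
  exact h γ n h1 h2 h3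

theorem T_nonneg {w : V d → V d → ℝ} (hw : Wt w) (x y : V d) : 0 ≤ T w x y :=
  le_T fun γ n _ _ _ => cost_nonneg hw γ 0 n

theorem T_le_cost {w : V d → V d → ℝ} (hw : Wt w) {γ : ℕ → V d} {i j : ℕ} (h : IsWalk γ i j)
    (hij : i ≤ j) : T w (γ i) (γ j) ≤ cost w γ i j := by
  obtain ⟨n, rfl⟩ := Nat.exists_eq_add_of_le hij
  have hw' : IsWalk (fun k => γ (i + k)) 0 n := fun k _ hk =>
    h (i + k) (Nat.le_add_right i k) (Nat.add_lt_add_left hk i)
  have h1 := T_le_walk_Time hw (x := γ i) (y := γ (i + n)) hw' rfl rfl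
  have h2 : cost w (fun k => γ (i + k)) 0 n = cost w γ i (i + n) := by
    unfold cost
    rw [Finset.sum_Ico_eq_sum_range, Finset.sum_Ico_eq_sum_range]
    simp [add_assoc]
  rwa [h2] at h1

theorem T_self {w : V d → V d → ℝ} (hw : Wt w) (x : V d) : T w x x = 0 := by
  refine le_antisymm ?_ (T_nonneg hw x x)
  have h : IsWalk (fun _ : ℕ => x) 0 0 := fun k _ hk => absurd hk (Nat.not_lt_zero k)
  have h1 := T_le_walk_Time hw (x := x) (y := x) h rfl rfl
  rwa [cost_self] at h1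

theorem T_le_adj {w : V d → V d → ℝ} (hw : Wt w) {x y : V d} (h : (lattice d).Adj x y) :
    T w x y ≤ w x y := by
  have hγ : IsWalk (fun k : ℕ => if k = 0 then x else y) 0 1 := by
    intro k _ hk
    have : k = 0 := by omega
    subst this
    simpa using h
  have h1 := T_le_walk_Time hw (x := x) (y := y) hγ (by simp) (by simp)
  have h2 := cost_succ w (fun k : ℕ => if k = 0 then x else y) 0
  simp only [zero_add] at h2
  rw [h2] at h1
  simpa using h1

theorem exists_near (w : V d → V d → ℝ) (x y : V d) {ε : ℝ} (hε : 0 < ε) :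
    ∃ (γ : ℕ → V d) (n : ℕ), IsWalk γ 0 n ∧ γ 0 = x ∧ γ n = y ∧
      cost w γ 0 n ≤ T w x y + ε := by
  obtain ⟨c, ⟨γ, n, h1, h2, h3, rfl⟩, hc⟩ :=
    Real.lt_sInf_add_pos (costs_nonempty_Time w x y) hε
  exact ⟨γ, n, h1, h2, h3, hc.le⟩

theorem exists_near_inj {w : V d → V d → ℝ} (hw : Wt w) (x y : V d) {ε : ℝ} (hε : 0 < ε) :
    ∃ (γ : ℕ → V d) (n : ℕ), IsWalk γ 0 n ∧ γ 0 = x ∧ γ n = y ∧
      Set.InjOn γ (Set.Icc 0 n) ∧ cost w γ 0 n ≤ T w x y + ε := by
  obtain ⟨γ, n, h1, h2, h3, h4⟩ := exists_near w x y hε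
  obtain ⟨γ', n', g1, g2, g3, g4, g5⟩ := exists_inj_walk hw h1
  exact ⟨γ', n', g1, g2.trans h2, g3.trans h3, g4, g5.trans h4⟩

theorem T_symm_le_Time {w : V d → V d → ℝ} (hw : Wt w) (x y : V d) : T w x y ≤ T w y x := by
  refine le_T fun γ n h h0 hn => ?_
  have h1 := T_le_walk_Time hw (x := x) (y := y) h.rev (by simpa using hn) (by simpa using h0)
  rwa [cost_rev hw γ (Nat.zero_le n)] at h1

theorem T_symm {w : V d → V d → ℝ} (hw : Wt w) (x y : V d) : T w x y = T w y x :=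
  le_antisymm (T_symm_le_Time hw x y) (T_symm_le_Time hw y x)

theorem T_triangle {w : V d → V d → ℝ} (hw : Wt w) (x y z : V d) :
    T w x z ≤ T w x y + T w y z := by
  rw [← sub_le_iff_le_add]
  refine le_T fun γ n h h0 hn => ?_
  rw [sub_le_comm]
  refine le_T fun γ' n' h' h0' hn' => ?_
  obtain ⟨γ'', g1, g2, g3, g4⟩ := exists_concat w h h' (hn.trans h0'.symm)
  have h1 := T_le_walk_Time hw g1 (g2.trans h0) (g3.trans hn')
  linarith

theorem T_mono {w w' : V d → V d → ℝ} (hw : Wt w)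
    (h : ∀ y z, (lattice d).Adj y z → w y z ≤ w' y z) (x y : V d) : T w x y ≤ T w' x y := by
  refine le_T fun γ n hγ h0 hn => (T_le_walk_Time hw hγ h0 hn).trans ?_
  exact cost_le_cost fun k hk1 hk2 => h _ _ (hγ k hk1 hk2)

theorem T_le_mul_n1 {w : V d → V d → ℝ} (hw : Wt w) {x y : V d} {b : ℝ}
    (h : ∀ p q, (lattice d).Adj p q → InBB x y p → InBB x y q → w p q ≤ b) :
    T w x y ≤ b * n1 x y := by
  obtain ⟨γ, h1, h2, h3, h4⟩ := exists_mono_walk x y
  refine (T_le_walk_Time hw h1 h2 h3).trans ?_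
  have := cost_le_mul (w := w) (γ := γ) (b := b) (Nat.zero_le (n1 x y)) fun k hk1 hk2 =>
    h _ _ (h1 k hk1 hk2) (h4 k hk2.le) (h4 (k + 1) hk2)
  simpa using this

theorem T_shift (w : V d → V d → ℝ) (v x y : V d) :
    T (fun p q => w (p + v) (q + v)) x y = T w (x + v) (y + v) := by
  unfold T
  congr 1
  ext c
  constructor
  · rintro ⟨γ, n, h1, h2, h3, rfl⟩
    refine ⟨fun k => γ k + v, n, fun k hk1 hk2 => (adj_add_right v).2 (h1 k hk1 hk2), ?_, ?_, rfl⟩
    · simp [h2]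
    · simp [h3]
  · rintro ⟨γ, n, h1, h2, h3, rfl⟩
    refine ⟨fun k => γ k - v, n, fun k hk1 hk2 => (adj_add_right v).1 ?_, ?_, ?_, ?_⟩
    · simpa using h1 k hk1 hk2
    · simp [h2]
    · simp [h3]
    · simp [cost]

/-! ### Clipped weights -/

theorem Wt.of_clip {w : V d → V d → ℝ} (hw : Wt w) {a b : ℝ} (hb : 0 ≤ b) : Wt (clip a b w) :=
  ⟨fun x y => by simp only [clip, hw.symm x y],
    fun x y => le_min ((hw.nonneg x y).trans (le_max_left _ _)) hb⟩

theorem Wt.of_min {w : V d → V d → ℝ} (hw : Wt w) {b : ℝ} (hb : 0 ≤ b) :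
    Wt (fun y z => min (w y z) b) :=
  ⟨fun x y => by simp only [hw.symm x y], fun x y => le_min (hw.nonneg x y) hb⟩

theorem clip_le (a b : ℝ) (w : V d → V d → ℝ) (y z : V d) : clip a b w y z ≤ b :=
  min_le_right _ _

theorem le_clip {a b : ℝ} (hab : a ≤ b) (w : V d → V d → ℝ) (y z : V d) :
    a ≤ clip a b w y z :=
  le_min (le_max_right _ _) hab

theorem min_le_clip (a b : ℝ) (w : V d → V d → ℝ) (y z : V d) :
    min (w y z) b ≤ clip a b w y z :=
  min_le_min (le_max_left _ _) le_rfl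

theorem clip_le_add {w : V d → V d → ℝ} (hw : Wt w) {a : ℝ} (ha : 0 ≤ a) (b : ℝ) (y z : V d) :
    clip a b w y z ≤ w y z + a := by
  refine (min_le_left _ _).trans (max_le ?_ ?_)
  · linarith
  · linarith [hw.nonneg y z]

theorem T_clip_le {w : V d → V d → ℝ} (hw : Wt w) {a b : ℝ} (hb : 0 ≤ b) (y z : V d) :
    T (clip a b w) y z ≤ b * n1 y z :=
  T_le_mul_n1 (hw.of_clip hb) fun p q _ _ _ => clip_le a b w p q

theorem le_T_clip (w : V d → V d → ℝ) {a b : ℝ} (ha : 0 ≤ a) (hab : a ≤ b) (y z : V d) :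
    a * nd y z ≤ T (clip a b w) y z := by
  refine le_T fun γ n h h0 hn => ?_
  have h1 := h.nd_le (Nat.zero_le n)
  rw [h0, hn, Nat.sub_zero] at h1
  have h2 := mul_le_cost (w := clip a b w) (γ := γ) (a := a) (Nat.zero_le n) fun k _ _ =>
    le_clip hab w _ _
  have h3 : (nd y z : ℝ) ≤ n := by exact_mod_cast h1
  have h4 : a * (nd y z : ℝ) ≤ a * n := mul_le_mul_of_nonneg_left h3 ha
  simp only [Nat.cast_zero, sub_zero] at h2
  linarith

theorem T_clip_le_Time {w w' : V d → V d → ℝ} (hw : Wt w) (hw' : Wt w') {a b : ℝ} (ha : 0 < a)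
    (hab : a ≤ b) {y z : V d} {l : ℕ} (hl : b * n1 y z + 1 ≤ a * l)
    (h : ∀ p q, nd y p ≤ l → nd y q ≤ l → w p q = w' p q) :
    T (clip a b w) y z ≤ T (clip a b w') y z := by
  have hb : 0 ≤ b := ha.le.trans hab
  refine le_of_forall_pos_le_add fun ε hε => ?_
  obtain ⟨γ, n, h1, h2, h3, h4⟩ := exists_near (clip a b w') y z (lt_min hε one_pos)
  have h5 := T_clip_le (a := a) hw' hb y z
  have h6 := mul_le_cost (w := clip a b w') (γ := γ) (a := a) (Nat.zero_le n) fun k _ _ =>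
    le_clip hab w' _ _
  simp only [Nat.cast_zero, sub_zero] at h6
  have h7 : a * (n : ℝ) ≤ a * l := by linarith [min_le_right ε 1]
  have h8 : n ≤ l := by exact_mod_cast le_of_mul_le_mul_left h7 ha
  have h9 : ∀ k ≤ n, nd y (γ k) ≤ l := by
    intro k hk
    have := (h1.mono le_rfl hk).nd_le (Nat.zero_le k)
    rw [h2] at this
    omega
  have h10 : cost (clip a b w) γ 0 n ≤ cost (clip a b w') γ 0 n := by
    refine cost_le_cost fun k _ hk => le_of_eq ?_
    simp only [clip, h _ _ (h9 k hk.le) (h9 (k + 1) hk)]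
  have h11 := T_le_walk_Time (hw.of_clip (a := a) hb) h1 h2 h3
  linarith [min_le_left ε 1]

/-- Clipped passage times are local. -/
theorem T_clip_congr {w w' : V d → V d → ℝ} (hw : Wt w) (hw' : Wt w') {a b : ℝ} (ha : 0 < a)
    (hab : a ≤ b) {y z : V d} {l : ℕ} (hl : b * n1 y z + 1 ≤ a * l)
    (h : ∀ p q, nd y p ≤ l → nd y q ≤ l → w p q = w' p q) :
    T (clip a b w) y z = T (clip a b w') y z :=
  le_antisymm (T_clip_le_Time hw hw' ha hab hl h)
    (T_clip_le_Time hw' hw ha hab hl fun p q hp hq => (h p q hp hq).symm)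

theorem one_le_sN (m : ℕ) : (1 : ℝ) ≤ sN m := by
  have : 1 ≤ sN m := Nat.one_le_two_pow
  exact_mod_cast this

theorem sa_pos (d m : ℕ) : 0 < sa d m := by
  have := one_le_sN m
  unfold sa
  positivity

theorem sa_le_one (d m : ℕ) : sa d m ≤ 1 := by
  have h := one_le_sN m
  unfold sa
  exact div_le_one_of_le₀ (one_le_pow₀ h) (by positivity)

theorem one_le_sb (m : ℕ) : 1 ≤ sb m := one_le_pow₀ (one_le_sN m)

/-! ### The regularised time -/

theorem That_le {w : V d → V d → ℝ} (hw : Wt w) {A : ℝ} (hA : 0 ≤ A) (x y : V d) :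
    That w A x ≤ T w 0 y + A * nd x y := by
  refine ciInf_le (f := fun y : V d => T w 0 y + A * nd x y) ⟨0, ?_⟩ y
  rintro c ⟨z, rfl⟩
  exact add_nonneg (T_nonneg hw 0 z) (mul_nonneg hA (Nat.cast_nonneg _))

theorem That_le_T {w : V d → V d → ℝ} (hw : Wt w) {A : ℝ} (hA : 0 ≤ A) (x : V d) :
    That w A x ≤ T w 0 x := by
  simpa using That_le hw hA x x

theorem le_That {w : V d → V d → ℝ} {A c : ℝ} {x : V d}
    (h : ∀ y, c ≤ T w 0 y + A * nd x y) : c ≤ That w A x :=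
  le_ciInf h

theorem That_nonneg {w : V d → V d → ℝ} (hw : Wt w) {A : ℝ} (hA : 0 ≤ A) (x : V d) :
    0 ≤ That w A x :=
  le_That fun y => add_nonneg (T_nonneg hw 0 y) (mul_nonneg hA (Nat.cast_nonneg _))

theorem That_zero {w : V d → V d → ℝ} (hw : Wt w) {A : ℝ} (hA : 0 ≤ A) : That w A 0 = 0 := by
  refine le_antisymm ?_ (That_nonneg hw hA 0)
  have := That_le_T hw hA 0
  rwa [T_self hw] at this

theorem That_lip {w : V d → V d → ℝ} (hw : Wt w) {A : ℝ} (hA : 0 ≤ A) (x y : V d) :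
    That w A x ≤ That w A y + A * nd x y := by
  rw [← sub_le_iff_le_add]
  refine le_That fun z => ?_
  have h1 := That_le hw hA x z
  have h2 : (nd x z : ℝ) ≤ nd x y + nd y z := by exact_mod_cast nd_triangle x y z
  have h3 := mul_le_mul_of_nonneg_left h2 hA
  linarith

theorem exists_That_near (w : V d → V d → ℝ) (A : ℝ) (x : V d) :
    ∃ y, T w 0 y + A * nd x y ≤ That w A x + 1 := by
  obtain ⟨c, ⟨y, rfl⟩, hc⟩ := Real.lt_sInf_add_pos
    (Set.range_nonempty fun y : V d => T w 0 y + A * nd x y) one_pos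
  exact ⟨y, hc.le⟩

end Pool.Agent.MP_489c42_pr.H12
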