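import Pool.Agent.MP_489c42_pr.H12.Geo

namespace Pool.Agent.MP_489c42_pr.H12

open MeasureTheory ProbabilityTheory Filter
open scoped NNReal

variable {d : ℕ}

theorem IsWalk.mono {γ : ℕ → V d} {i j i' j' : ℕ} (h : IsWalk γ i j) (hi : i ≤ i')
    (hj : j' ≤ j) : IsWalk γ i' j' := fun k h1 h2 => h k (hi.trans h1) (h2.trans_le hj)

theorem IsWalk.n1_le {γ : ℕ → V d} {i j : ℕ} (h : IsWalk γ i j) (hij : i ≤ j) :
    n1 (γ i) (γ j) ≤ j - i := by
  induction j, hij using Nat.le_induction with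
  | base => simp
  | succ j hij ih =>
    have h1 := ih (h.mono le_rfl j.le_succ)
    have h2 := adj_iff_n1.1 (h j hij j.lt_succ_self)
    have h3 := n1_triangle (γ i) (γ j) (γ (j + 1))
    omega

theorem IsWalk.nd_le {γ : ℕ → V d} {i j : ℕ} (h : IsWalk γ i j) (hij : i ≤ j) :
    nd (γ i) (γ j) ≤ j - i := (nd_le_n1 _ _).trans (h.n1_le hij)

theorem IsWalk.rev {γ : ℕ → V d} {i j : ℕ} (h : IsWalk γ i j) :
    IsWalk (fun k => γ (i + j - k)) i j := fun k h1 h2 => by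
  have := (h (i + j - (k + 1)) (by omega) (by omega)).symm
  rwa [show i + j - (k + 1) + 1 = i + j - k by omega] at this

theorem isWalk_ray (x : V d) (i : Fin d) (s : Bool) (a b : ℕ) : IsWalk (ray x i s) a b :=
  fun k _ _ => ray_adj x i s k

@[simp] theorem cost_self (w : V d → V d → ℝ) (γ : ℕ → V d) (i : ℕ) : cost w γ i i = 0 := by
  simp [cost]

theorem cost_succ (w : V d → V d → ℝ) (γ : ℕ → V d) (i : ℕ) :
    cost w γ i (i + 1) = w (γ i) (γ (i + 1)) := by
  simp [cost]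

theorem cost_add (w : V d → V d → ℝ) (γ : ℕ → V d) {i j k : ℕ} (hij : i ≤ j) (hjk : j ≤ k) :
    cost w γ i k = cost w γ i j + cost w γ j k := (Finset.sum_Ico_consecutive _ hij hjk).symm

theorem cost_nonneg {w : V d → V d → ℝ} (hw : Wt w) (γ : ℕ → V d) (i j : ℕ) :
    0 ≤ cost w γ i j := Finset.sum_nonneg fun _ _ => hw.nonneg _ _

theorem cost_mono {w : V d → V d → ℝ} (hw : Wt w) (γ : ℕ → V d) {i j i' j' : ℕ}
    (hi : i ≤ i') (hj : j' ≤ j) : cost w γ i' j' ≤ cost w γ i j :=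
  Finset.sum_le_sum_of_subset_of_nonneg (Finset.Ico_subset_Ico hi hj) fun _ _ _ => hw.nonneg _ _

theorem cost_le_cost {w w' : V d → V d → ℝ} {γ : ℕ → V d} {i j : ℕ}
    (h : ∀ k, i ≤ k → k < j → w (γ k) (γ (k + 1)) ≤ w' (γ k) (γ (k + 1))) :
    cost w γ i j ≤ cost w' γ i j :=
  Finset.sum_le_sum fun k hk => h k (Finset.mem_Ico.1 hk).1 (Finset.mem_Ico.1 hk).2

theorem cost_le_mul {w : V d → V d → ℝ} {γ : ℕ → V d} {i j : ℕ} {b : ℝ} (hij : i ≤ j)
    (h : ∀ k, i ≤ k → k < j → w (γ k) (γ (k + 1)) ≤ b) :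
    cost w γ i j ≤ b * ((j : ℝ) - i) := by
  refine (cost_le_cost (w' := fun _ _ => b) h).trans_eq ?_
  simp [cost, Nat.cast_sub hij, mul_comm]

theorem mul_le_cost {w : V d → V d → ℝ} {γ : ℕ → V d} {i j : ℕ} {a : ℝ} (hij : i ≤ j)
    (h : ∀ k, i ≤ k → k < j → a ≤ w (γ k) (γ (k + 1))) :
    a * ((j : ℝ) - i) ≤ cost w γ i j := by
  refine le_of_eq_of_le ?_ (cost_le_cost (w := fun _ _ => a) h)
  simp [cost, Nat.cast_sub hij, mul_comm]

theorem cost_rev {w : V d → V d → ℝ} (hw : Wt w) (γ : ℕ → V d) {i j : ℕ} (hij : i ≤ j) :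
    cost w (fun k => γ (i + j - k)) i j = cost w γ i j := by
  refine Finset.sum_nbij' (fun k => i + j - (k + 1)) (fun k => i + j - (k + 1)) ?_ ?_ ?_ ?_ ?_
  · simp only [Finset.mem_Ico]; omega
  · simp only [Finset.mem_Ico]; omega
  · simp only [Finset.mem_Ico]; omega
  · simp only [Finset.mem_Ico]; omega
  · intro k hk
    rw [Finset.mem_Ico] at hk
    rw [hw.symm, show i + j - (k + 1) + 1 = i + j - k by omega]

theorem step_Walk {x y : V d} {n : ℕ} (h : n1 x y = n + 1) :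
    ∃ z, (lattice d).Adj x z ∧ n1 z y = n ∧ InBB x y z := by
  obtain ⟨i, hi⟩ : ∃ i, x i ≠ y i := by
    by_contra! g
    rw [funext g, n1_self] at h
    omega
  have key : ∀ (v : ℤ) (u : V d), n1 (Function.update x i v) u + (x i - u i).natAbs =
      n1 x u + (v - u i).natAbs := fun v u => by
    simp only [n1]
    rw [← Finset.add_sum_erase _ _ (Finset.mem_univ i),
      ← Finset.add_sum_erase _ (fun k => (x k - u k).natAbs) (Finset.mem_univ i),
      Finset.sum_congr rfl fun k hk => by rw [Function.update_of_ne (Finset.ne_of_mem_erase hk)],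
      Function.update_self]
    ring
  obtain ⟨v, h1, h2, h3⟩ : ∃ v : ℤ, (v - x i).natAbs = 1 ∧
      (v - y i).natAbs + 1 = (x i - y i).natAbs ∧ min (x i) (y i) ≤ v ∧ v ≤ max (x i) (y i) := by
    rcases lt_or_gt_of_ne hi with g | g
    exacts [⟨x i + 1, by omega⟩, ⟨x i - 1, by omega⟩]
  refine ⟨Function.update x i v, (adj_iff_n1.2 ?_).symm, ?_, fun k => ?_⟩
  · have := key v x
    rw [n1_self] at this
    omega
  · have := key v y
    omega
  · rcases eq_or_ne k i with rfl | g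
    · rwa [Function.update_self]
    · rw [Function.update_of_ne g]
      exact ⟨min_le_left _ _, le_max_left _ _⟩

theorem exists_mono_walk (x y : V d) : ∃ γ : ℕ → V d, IsWalk γ 0 (n1 x y) ∧ γ 0 = x ∧
    γ (n1 x y) = y ∧ ∀ k ≤ n1 x y, InBB x y (γ k) := by
  generalize hn : n1 x y = n
  induction n generalizing x with
  | zero =>
    obtain rfl : x = y := nd_eq_zero.1 (by have := nd_le_n1 x y; omega)
    exact ⟨fun _ => x, fun k _ h => by omega, rfl, rfl, fun _ _ i => by simp⟩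
  | succ n ih =>
    obtain ⟨z, h1, h2, h3⟩ := step_Walk hn
    obtain ⟨γ, g1, g2, g3, g4⟩ := ih z h2
    refine ⟨fun k => Nat.casesOn k x γ, fun k _ hk => ?_, rfl, g3, fun k hk i => ?_⟩
    · cases k with
      | zero => exact (g2 ▸ h1 : (lattice d).Adj x (γ 0))
      | succ k => exact g1 k k.zero_le (by omega)
    · cases k with
      | zero => exact ⟨min_le_left _ _, le_max_left _ _⟩
      | succ k =>
        have a1 := g4 k (by omega) i
        have a2 := h3 i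
        change _ ≤ γ k i ∧ γ k i ≤ _
        omega

theorem first_hit {γ : ℕ → V d} {i j : ℕ} (φ : V d → ℤ)
    (hφ : ∀ x y, (lattice d).Adj x y → φ y ≤ φ x + 1) (h : IsWalk γ i j) (hij : i ≤ j) {v : ℤ}
    (h1 : φ (γ i) ≤ v) (h2 : v ≤ φ (γ j)) :
    ∃ k, i ≤ k ∧ k ≤ j ∧ φ (γ k) = v ∧ ∀ l, i ≤ l → l ≤ k → φ (γ l) ≤ v := by
  have ex : ∃ k, i ≤ k ∧ v ≤ φ (γ k) := ⟨j, hij, h2⟩
  obtain ⟨k1, k2⟩ := Nat.find_spec ex
  have k3 : Nat.find ex ≤ j := Nat.find_min' ex ⟨hij, h2⟩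
  have k4 : ∀ l, i ≤ l → l < Nat.find ex → φ (γ l) < v := fun l a b =>
    not_le.1 fun c => Nat.find_min ex b ⟨a, c⟩
  generalize Nat.find ex = k at *
  have k5 : φ (γ k) ≤ v := by
    rcases k1.eq_or_lt with rfl | g
    · exact h1
    · obtain ⟨l, rfl⟩ : ∃ l, k = l + 1 := ⟨k - 1, by omega⟩
      have := hφ _ _ (h l (by omega) (by omega))
      have := k4 l (by omega) (by omega)
      omega
  refine ⟨k, k1, k3, k5.antisymm k2, fun l a b => ?_⟩
  rcases b.eq_or_lt with rfl | g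
  exacts [k5, (k4 l a g).le]

theorem first_exit {γ : ℕ → V d} {i j r : ℕ} (p : V d) (h : IsWalk γ i j) (hij : i ≤ j)
    (h1 : nd p (γ i) ≤ r) (h2 : r ≤ nd p (γ j)) :
    ∃ k, i ≤ k ∧ k ≤ j ∧ nd p (γ k) = r ∧ ∀ l, i ≤ l → l ≤ k → nd p (γ l) ≤ r := by
  obtain ⟨k, k1, k2, k3, k4⟩ := first_hit (fun x => (nd p x : ℤ)) (fun x y g => by
    have := nd_triangle p x y
    have := nd_of_adj g
    omega) h hij (v := r) (by exact_mod_cast h1) (by exact_mod_cast h2)
  exact ⟨k, k1, k2, by exact_mod_cast k3, fun l a b => by exact_mod_cast k4 l a b⟩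

theorem exit_of_injOn {γ : ℕ → V d} {i j r : ℕ} (h : Set.InjOn γ (Set.Icc i j))
    (hij : i + (2 * r + 1) ^ d ≤ j) : ∃ k, i ≤ k ∧ k ≤ j ∧ r < nd (γ i) (γ k) := by
  by_contra! g
  have := Finset.card_le_card_of_injOn (s := Finset.Icc i j) (t := box (γ i) r) γ
    (fun k hk => by
      have := Finset.mem_Icc.1 hk
      exact mem_box.2 (g k this.1 this.2)) (by simpa using h)
  rw [card_box, Nat.card_Icc] at this
  omega

theorem exit_of_injective {γ : ℕ → V d} (h : Function.Injective γ) (r : ℕ) :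
    ∃ k, r ≤ nd (γ 0) (γ k) :=
  let ⟨k, _, _, g⟩ := exit_of_injOn (i := 0) (j := 0 + (2 * r + 1) ^ d) h.injOn le_rfl
  ⟨k, g.le⟩

theorem cost_shift_Walk (w : V d → V d → ℝ) {γ γ' : ℕ → V d} {i j : ℕ} (c : ℕ)
    (h : ∀ k, i ≤ k → k ≤ j → γ' k = γ (k + c)) : cost w γ' i j = cost w γ (i + c) (j + c) := by
  rw [cost, cost, ← Finset.sum_Ico_add' (fun k => w (γ k) (γ (k + 1)))]
  refine Finset.sum_congr rfl fun k hk => ?_
  rw [Finset.mem_Ico] at hk
  rw [h k hk.1 hk.2.le, h (k + 1) (by omega) hk.2, Nat.add_right_comm]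

/-- Loop erasure. -/
theorem exists_inj_walk {w : V d → V d → ℝ} (hw : Wt w) {γ : ℕ → V d} {n : ℕ}
    (h : IsWalk γ 0 n) : ∃ (γ' : ℕ → V d) (n' : ℕ), IsWalk γ' 0 n' ∧ γ' 0 = γ 0 ∧
      γ' n' = γ n ∧ Set.InjOn γ' (Set.Icc 0 n') ∧ cost w γ' 0 n' ≤ cost w γ 0 n := by
  induction n using Nat.strong_induction_on generalizing γ with
  | _ n ih =>
  by_cases g : Set.InjOn γ (Set.Icc 0 n)
  · exact ⟨γ, n, h, rfl, rfl, g, le_rfl⟩
  obtain ⟨i, c, m, c0, rfl, e⟩ : ∃ i c m, 0 < c ∧ n = i + m + c ∧ γ i = γ (i + c) := by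
    simp only [Set.InjOn, not_forall] at g
    obtain ⟨i, hi, j, hj, e, ne⟩ := g
    rcases lt_or_gt_of_ne ne with k | k
    · exact ⟨i, j - i, n - j, by omega, by have := hj.2; omega, by rwa [Nat.add_sub_cancel' k.le]⟩
    · exact ⟨j, i - j, n - i, by omega, by have := hi.2; omega,
        by rw [Nat.add_sub_cancel' k.le, e]⟩
  have a1 : ∀ k, k ≤ i → (if k ≤ i then γ k else γ (k + c)) = γ (k + 0) := fun k hk => if_pos hk
  have a2 : ∀ k, i ≤ k → (if k ≤ i then γ k else γ (k + c)) = γ (k + c) := fun k hk => by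
    rcases hk.eq_or_lt with rfl | k
    exacts [(if_pos le_rfl).trans e, if_neg k.not_ge]
  obtain ⟨γ', n', b1, b2, b3, b4, b5⟩ := ih (i + m) (by omega)
    (γ := fun k => if k ≤ i then γ k else γ (k + c)) fun k _ hk => by
      beta_reduce
      rcases lt_or_ge k i with g | g
      · rw [a1 k g.le, a1 (k + 1) g]
        exact h k k.zero_le (by omega)
      · rw [a2 k g, a2 (k + 1) (by omega), Nat.add_right_comm k 1]
        exact h (k + c) (Nat.zero_le _) (by omega)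
  refine ⟨γ', n', b1, b2.trans (a1 0 i.zero_le), b3.trans (a2 _ (by omega)), b4, b5.trans ?_⟩
  rw [cost_add w _ i.zero_le (i.le_add_right m), cost_shift_Walk w 0 fun k _ => a1 k,
    cost_shift_Walk w c fun k hk _ => a2 k hk, cost_add w γ (j := i) (k := i + m + c) i.zero_le
      (by omega)]
  exact add_le_add le_rfl (cost_mono hw γ (by omega) le_rfl)

/-- Concatenation. -/
theorem exists_concat (w : V d → V d → ℝ) {γ γ' : ℕ → V d} {n n' : ℕ} (h : IsWalk γ 0 n)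
    (h' : IsWalk γ' 0 n') (he : γ n = γ' 0) : ∃ γ'' : ℕ → V d, IsWalk γ'' 0 (n + n') ∧
      γ'' 0 = γ 0 ∧ γ'' (n + n') = γ' n' ∧
      cost w γ'' 0 (n + n') = cost w γ 0 n + cost w γ' 0 n' := by
  have a1 : ∀ k, k ≤ n → (if k ≤ n then γ k else γ' (k - n)) = γ (k + 0) := fun k hk => if_pos hk
  have a2 : ∀ k, n ≤ k → (if k ≤ n then γ k else γ' (k - n)) = γ' (k - n) := fun k hk => by
    rcases hk.eq_or_lt with rfl | k
    exacts [(if_pos le_rfl).trans (by rw [he, Nat.sub_self]), if_neg k.not_ge]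
  refine ⟨fun k => if k ≤ n then γ k else γ' (k - n), fun k _ hk => ?_, a1 0 n.zero_le,
    (a2 _ (by omega)).trans (by rw [Nat.add_sub_cancel_left]), ?_⟩
  · beta_reduce
    rcases lt_or_ge k n with g | g
    · rw [a1 k g.le, a1 (k + 1) g]
      exact h k k.zero_le g
    · rw [a2 k g, a2 (k + 1) (by omega), show k + 1 - n = k - n + 1 by omega]
      exact h' (k - n) (Nat.zero_le _) (by omega)
  · rw [cost_add w _ n.zero_le (n.le_add_right n'), cost_shift_Walk w 0 fun k _ => a1 k,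
      cost_shift_Walk w (γ' := γ') (γ := fun k => if k ≤ n then γ k else γ' (k - n)) n
        fun k _ _ => by rw [a2 (k + n) (by omega), Nat.add_sub_cancel], Nat.add_comm n' n]
    simp only [zero_add, add_zero]

end Pool.Agent.MP_489c42_pr.H12
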